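import Pool.Agent.Helper96.CT.Stmts3
import Pool.Agent.Helper18.CT.SL

/-! # Row CH of the sheet CT: a chain of cliques (after Helper18/CT/SL.lean) -/

set_option autoImplicit false

namespace Pool.Agent.Helper21.CT

open SimpleGraph Pool.Agent.Helper96.CT Pool.Agent.Helper18.CT

theorem st_CH : ST_CH := by
  intro t d ht hd
  have z0 : 0 < t := by omega
  have y0 : 0 < d := by omega
  refine ⟨Fin t × Fin d, inferInstance, slG t d, fun x => x.1.val, by simp, ?_, ?_, ?_, ?_, ?_, ?_⟩
  · rw [connected_iff_exists_forall_reachable]
    refine ⟨(⟨0, z0⟩, ⟨0, y0⟩), ?_⟩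
    rintro ⟨⟨i, hi⟩, a⟩
    induction i generalizing a with
    | zero => exact sl_same _ _ _
    | succ i ih =>
      have h1 := ih ⟨0, y0⟩ (by omega)
      have h2 : (slG t d).Reachable (⟨i, by omega⟩, ⟨0, y0⟩) (⟨i + 1, hi⟩, ⟨1, by omega⟩) :=
        SimpleGraph.Adj.reachable ((sl_adj _ _).2 (Or.inr (Or.inl ⟨rfl, rfl, rfl⟩)))
      exact (h1.trans h2).trans (sl_same _ _ _)
  · rw [connected_iff_exists_forall_reachable]
    refine ⟨(⟨0, z0⟩, ⟨1, by omega⟩), ?_⟩
    have key : ∀ (j : Fin t) (b : Fin d), 1 ≤ j.val →
        (slG t d)ᶜ.Adj (⟨0, z0⟩, ⟨1, by omega⟩) (j, b) := by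
      intro j b hj
      rw [compl_adj]
      refine ⟨?_, ?_⟩
      · intro h
        have h1 := congrArg (fun x => x.1.val) h
        simp only at h1
        omega
      · rw [sl_adj]
        rintro (h | h | h)
        · have h1 := congrArg Fin.val h.1
          simp only at h1
          omega
        · have h1 := h.2.1
          simp only at h1
          omega
        · have h1 := h.1
          simp only at h1
          omega
    rintro ⟨⟨i, hi⟩, a⟩
    rcases Nat.eq_zero_or_pos i with h0 | h0
    · subst h0
      have h1 := (key ⟨1, by omega⟩ ⟨0, y0⟩ le_rfl).reachable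
      have h2 : (slG t d)ᶜ.Adj (⟨1, by omega⟩, ⟨0, y0⟩) (⟨0, hi⟩, a) := by
        rw [compl_adj]
        refine ⟨?_, ?_⟩
        · intro h
          have h1 := congrArg (fun x => x.1.val) h
          simp only at h1
          omega
        · rw [sl_adj]
          rintro (h | h | h)
          · have h1 := congrArg Fin.val h.1
            simp only at h1
            omega
          · have h1 := h.1
            simp only at h1
            omega
          · have h1 := h.2.2
            simp only at h1
            omega
      exact h1.trans h2.reachable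
    · exact (key ⟨i, hi⟩ a h0).reachable
  · intro I hI
    have h1 : I.card ≤ (Finset.univ : Finset (Fin t)).card := by
      apply Finset.card_le_card_of_injOn (fun x => x.1) (fun _ _ => Finset.mem_coe.2 (Finset.mem_univ _))
      intro x hx y hy hxy
      by_contra hne
      apply hI x hx y hy hne
      rw [sl_adj]
      refine Or.inl ⟨hxy, ?_⟩
      intro h
      exact hne (Prod.ext hxy h)
    simpa using h1
  · intro i I hI
    have h1 : I.card ≤ (Finset.univ : Finset (Fin d)).card := by
      apply Finset.card_le_card_of_injOn (fun x => x.2)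
        (fun _ _ => Finset.mem_coe.2 (Finset.mem_univ _))
      intro x hx y hy hxy
      have ex : x.1.val = i := hI x hx
      have ey : y.1.val = i := hI y hy
      exact Prod.ext (Fin.ext (by omega)) hxy
    simpa using h1
  · intro u v huv
    show u.1.val = v.1.val ∨ v.1.val = u.1.val + 1 ∨ u.1.val = v.1.val + 1
    rcases (sl_adj u v).1 huv with h | h | h
    · left
      rw [h.1]
    · right
      left
      exact h.1
    · right
      right
      exact h.1
  · intro u v u' v' h1 h2 h3 h4 h5
    have g3 : v.1.val = u.1.val + 1 := h3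
    have g4 : v'.1.val = u'.1.val + 1 := h4
    have g5 : u.1.val = u'.1.val := h5
    have k1 : u.2.val = 0 ∧ v.2.val = 1 := by
      rcases (sl_adj u v).1 h1 with h | h | h
      · have := congrArg Fin.val h.1
        omega
      · exact h.2
      · omega
    have k2 : u'.2.val = 0 ∧ v'.2.val = 1 := by
      rcases (sl_adj u' v').1 h2 with h | h | h
      · have := congrArg Fin.val h.1
        omega
      · exact h.2
      · omega
    exact ⟨Prod.ext (Fin.ext (by omega)) (Fin.ext (by omega)),
      Prod.ext (Fin.ext (by omega)) (Fin.ext (by omega))⟩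

end Pool.Agent.Helper21.CT
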