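import Pool.Agent.Helper96.CT.Stmts2

/-! Row DG of the sheet CT (MP_5ec5e0_co): colouring of degenerate graphs. -/

set_option autoImplicit false

namespace Pool.Agent.Helper21.CT

open SimpleGraph Pool.Agent.Helper96.CT

theorem st_DG : ST_DG := by
  classical
  intro V _ F d hd hH
  have key : ∀ n : ℕ, ∀ H : Finset V, H.card = n →
      ∃ c : V → Fin d, ∀ x ∈ H, ∀ y ∈ H, F.Adj x y → c x ≠ c y := by
    intro n
    induction n with
    | zero =>
      intro H hc
      rw [Finset.card_eq_zero] at hc
      subst hc
      exact ⟨fun _ => ⟨0, hd⟩, fun x hx => absurd hx (Finset.notMem_empty x)⟩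
    | succ n ih =>
      intro H hc
      have hne : H.Nonempty := by
        rw [← Finset.card_pos]
        omega
      have h1 := hH H hne
      unfold MD at h1
      push Not at h1
      obtain ⟨v, hv, h2⟩ := h1
      obtain ⟨c, hcol⟩ := ih (H.erase v) (by rw [Finset.card_erase_of_mem hv]; omega)
      have h3 := h2 (H.filter fun x => F.Adj v x) (Finset.filter_subset _ _)
        (fun x hx => (Finset.mem_filter.1 hx).2)
      have h4 : ((H.filter fun x => F.Adj v x).image c).card < (Finset.univ : Finset (Fin d)).card := by
        rw [Finset.card_univ, Fintype.card_fin]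
        exact lt_of_le_of_lt Finset.card_image_le h3
      obtain ⟨a, _, ha⟩ := Finset.exists_mem_notMem_of_card_lt_card h4
      have ha' : ∀ x ∈ H, F.Adj v x → c x ≠ a := by
        intro x hx hvx he
        exact ha (Finset.mem_image.2 ⟨x, Finset.mem_filter.2 ⟨hx, hvx⟩, he⟩)
      refine ⟨fun x => if x = v then a else c x, ?_⟩
      intro x hx y hy hxy
      by_cases hxv : x = v
      · by_cases hyv : y = v
        · rw [hxv, hyv] at hxy
          exact absurd hxy (F.irrefl)
        · show (if x = v then a else c x) ≠ (if y = v then a else c y)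
          rw [if_pos hxv, if_neg hyv]
          rw [hxv] at hxy
          exact (ha' y hy hxy).symm
      · by_cases hyv : y = v
        · show (if x = v then a else c x) ≠ (if y = v then a else c y)
          rw [if_neg hxv, if_pos hyv]
          rw [hyv] at hxy
          exact ha' x hx hxy.symm
        · show (if x = v then a else c x) ≠ (if y = v then a else c y)
          rw [if_neg hxv, if_neg hyv]
          exact hcol x (Finset.mem_erase.2 ⟨hxv, hx⟩) y (Finset.mem_erase.2 ⟨hyv, hy⟩) hxy
  obtain ⟨c, hc⟩ := key _ Finset.univ rfl
  exact ⟨Coloring.mk c fun {x y} hxy => hc x (Finset.mem_univ x) y (Finset.mem_univ y) hxy⟩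

end Pool.Agent.Helper21.CT
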