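import Pool.Agent.Helper86.CT.KerT
import Pool.Agent.Helper86.CX.RC

/-!
Typed programs for the classes with tails (MP_c75db0): runs are named, `expand` gives the program of
the kernel checker. No mathematics: only data.
-/

set_option autoImplicit false
noncomputable section
namespace Pool.Agent.Helper21.KRN

open Pool.Agent.Helper86.CX (VR P9 SE Cx)
open Pool.Agent.Helper86.CT

/-- names of runs: `ex M m`: run `m` of a star of order `M`; `t2 e`, `t3 e`: run 2 and 3 of the tail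
star number `e`; `lr e ra rb`: all runs with `ra ≤ 2 ^ 48 R ≤ rb` -/
inductive RI where
  | ex (M m : Nat) : RI
  | t2 (e : Nat) : RI
  | t3 (e : Nat) : RI
  | lr (e ra rb : Nat) : RI

/-- a run into a target form and its sources -/
structure BI where
  id : RI
  s : List SE

/-- a target form and its runs -/
structure PI where
  k : Nat
  b : List BI

/-- typed program, the lists in the order of `Prog` -/
structure TProg where
  e0 : List PI
  e1 : List PI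
  e2 : List PI
  e3 : List PI
  e4 : List PI
  e5 : List PI
  o0 : List PI
  o1 : List PI
  o2 : List PI
  o3 : List PI
  o4 : List PI
  o5 : List PI
  r0 : List Nat
  r1 : List Nat
  r2 : List Nat
  r3 : List Nat
  r4 : List Nat
  r5 : List Nat
  l0 : List Nat
  l1 : List Nat
  l2 : List Nat
  l3 : List Nat
  l4 : List Nat
  l5 : List Nat

/-- data for the expansion: matrices, constant trees, the row of an exact run, the three kappas -/
structure XM (α v : Type) where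
  Q : Mq α v
  c : VR → v
  r : Rw
  k0 : Mo α
  k1 : Mo α
  k2 : Mo α

/-- the constants of the exact runs (`j = m - 1`) -/
def exV : Nat → Nat → VR
  | 3, 1 => Pool.Agent.Helper86.CX.V3_1
  | 3, 2 => Pool.Agent.Helper86.CX.V3_2
  | 4, 1 => Pool.Agent.Helper86.CX.V4_1
  | 4, 2 => Pool.Agent.Helper86.CX.V4_2
  | 4, 3 => Pool.Agent.Helper86.CX.V4_3
  | 5, 1 => Pool.Agent.Helper86.CX.V5_1
  | 5, 2 => Pool.Agent.Helper86.CX.V5_2
  | 5, 3 => Pool.Agent.Helper86.CX.V5_3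
  | 5, 4 => Pool.Agent.Helper86.CX.V5_4
  | 6, 1 => Pool.Agent.Helper86.CX.V6_1
  | 6, 2 => Pool.Agent.Helper86.CX.V6_2
  | 6, 3 => Pool.Agent.Helper86.CX.V6_3
  | 6, 4 => Pool.Agent.Helper86.CX.V6_4
  | 6, 5 => Pool.Agent.Helper86.CX.V6_5
  | 7, 1 => Pool.Agent.Helper86.CX.V7_1
  | 7, 2 => Pool.Agent.Helper86.CX.V7_2
  | 7, 3 => Pool.Agent.Helper86.CX.V7_3
  | 7, 4 => Pool.Agent.Helper86.CX.V7_4
  | 7, 5 => Pool.Agent.Helper86.CX.V7_5
  | 7, 6 => Pool.Agent.Helper86.CX.V7_6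
  | 8, 1 => Pool.Agent.Helper86.CX.V8_1
  | 8, 2 => Pool.Agent.Helper86.CX.V8_2
  | 8, 3 => Pool.Agent.Helper86.CX.V8_3
  | 8, 4 => Pool.Agent.Helper86.CX.V8_4
  | 8, 5 => Pool.Agent.Helper86.CX.V8_5
  | 8, 6 => Pool.Agent.Helper86.CX.V8_6
  | 8, 7 => Pool.Agent.Helper86.CX.V8_7
  | 9, 1 => Pool.Agent.Helper86.CX.V9_1
  | 9, 2 => Pool.Agent.Helper86.CX.V9_2
  | 9, 3 => Pool.Agent.Helper86.CX.V9_3
  | 9, 4 => Pool.Agent.Helper86.CX.V9_4
  | 9, 5 => Pool.Agent.Helper86.CX.V9_5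
  | 9, 6 => Pool.Agent.Helper86.CX.V9_6
  | 9, 7 => Pool.Agent.Helper86.CX.V9_7
  | 9, 8 => Pool.Agent.Helper86.CX.V9_8
  | _, _ => ⟨(nat_lit 0), (nat_lit 0), (nat_lit 0), (nat_lit 0), (nat_lit 0), (nat_lit 0), (nat_lit 0), (nat_lit 0), (nat_lit 0)⟩

/-- the kappa number `e` -/
def kE {α v : Type} (X : XM α v) (e : Nat) : Mo α :=
  Nat.rec (motive := fun _ => Mo α) X.k0
    (fun n _ => Nat.rec (motive := fun _ => Mo α) X.k1 (fun _ _ => X.k2) n) e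

/-- a run of an exact star -/
def xVO {α v : Type} (X : XM α v) (M m : Nat) : VO v :=
  ⟨X.c (exV M (Nat.sub m (nat_lit 1))), X.r, X.r, X.r, (nat_lit 1), (nat_lit 1), (nat_lit 0), (nat_lit 0)⟩

/-- five blocks of a family -/
def fam5 {α v : Type} (Q : Mq α v) (x y z : Qd α) (s : List SE) (t : List (BT v)) : List (BT v) :=
  ⟨vo0 Q x y z, s⟩ :: ⟨vo1' Q x y z, s⟩ :: ⟨vo2 Q x y z, s⟩ :: ⟨vo3 Q x y z, s⟩ ::
    ⟨vo4 Q x y z, s⟩ :: t

/-- `a b / 2 ^ 48` -/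
def pd (a b : Nat) : Nat := Nat.div (Nat.mul a b) (nat_lit 281474976710656)

/-- the blocks of a run -/
def runs {α v : Type} (X : XM α v) (i : RI) (s : List SE) (t : List (BT v)) : List (BT v) :=
  RI.rec (motive := fun _ => List (BT v)) (fun M m => ⟨xVO X M m, s⟩ :: t)
    (fun e => ⟨vo1 X.Q (qm2 X.Q.A (R1M X.Q.A (kE X e)) (SM X.Q.A (kE X e))), s⟩ :: t)
    (fun e => ⟨vo1 X.Q (qm3 X.Q.A (SM X.Q.A (kE X e))), s⟩ :: t)
    (fun e ra rb => fam5 X.Q (qf X.Q.A ra (pd ra ra) (SM X.Q.A (kE X e)))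
      (qf X.Q.A (Nat.div (Nat.add ra rb) (nat_lit 2)) (pd ra rb) (SM X.Q.A (kE X e)))
      (qf X.Q.A rb (pd rb rb) (SM X.Q.A (kE X e))) s t) i

def xB {α v : Type} (X : XM α v) (l : List BI) : List (BT v) :=
  List.rec (motive := fun _ => List (BT v)) [] (fun x _ ih => runs X x.id x.s ih) l
def xP {α v : Type} (X : XM α v) (l : List PI) : List (PT v) :=
  List.rec (motive := fun _ => List (PT v)) [] (fun x _ ih => ⟨x.k, xB X x.b⟩ :: ih) l

/-- the program of the kernel checker -/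
def expand {α v : Type} (X : XM α v) (G : TProg) : Prog v :=
  ⟨xP X G.e0, xP X G.e1, xP X G.e2, xP X G.e3, xP X G.e4, xP X G.e5,
    xP X G.o0, xP X G.o1, xP X G.o2, xP X G.o3, xP X G.o4, xP X G.o5,
    G.r0, G.r1, G.r2, G.r3, G.r4, G.r5, G.l0, G.l1, G.l2, G.l3, G.l4, G.l5⟩

/-! ### the machines of depth 1 to 4 -/

/-- constant trees -/
def cN1 (V : VR) : N3 VR := N3.k V
def cN2 (V : VR) : N3 (N3 VR) := N3.k (N3.k V)
def cN3 (V : VR) : N3 (N3 (N3 VR)) := N3.k (N3.k (N3.k V))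
def cN4 (V : VR) : N3 (N3 (N3 (N3 VR))) := N3.k (N3.k (N3.k (N3.k V)))

def dz : DF := ⟨(nat_lit 0), (nat_lit 0)⟩
def rC1 : Rw := ⟨(nat_lit 9007199254740992), (nat_lit 2), [dz]⟩
def rC2 : Rw := ⟨(nat_lit 9007199254740992), (nat_lit 2), [dz, dz]⟩
def rC3 : Rw := ⟨(nat_lit 9007199254740992), (nat_lit 2), [dz, dz, dz]⟩
def rC4 : Rw := ⟨(nat_lit 9007199254740992), (nat_lit 2), [dz, dz, dz, dz]⟩

def X1 (k0 k1 k2 : Mo (N3 Cx)) : XM (N3 Cx) (N3 VR) := ⟨Q1m, cN1, rC1, k0, k1, k2⟩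
def X2 (k0 k1 k2 : Mo (N3 (N3 Cx))) : XM (N3 (N3 Cx)) (N3 (N3 VR)) := ⟨Q2m, cN2, rC2, k0, k1, k2⟩
def X3 (k0 k1 k2 : Mo (N3 (N3 (N3 Cx)))) : XM (N3 (N3 (N3 Cx))) (N3 (N3 (N3 VR))) :=
  ⟨Q3m, cN3, rC3, k0, k1, k2⟩
def X4 (k0 k1 k2 : Mo (N3 (N3 (N3 (N3 Cx))))) :
    XM (N3 (N3 (N3 (N3 Cx)))) (N3 (N3 (N3 (N3 VR)))) := ⟨Q4m, cN4, rC4, k0, k1, k2⟩

/-- sizes of `1 + 2/k` and `4/k² - 1` (needed once per kappa) -/
def kC {α : Type} (A : Alg α) (k : Mo α) : Bool :=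
  Pool.Agent.Helper86.CX.andB (SOK A k) (Pool.Agent.Helper86.CX.andB
    (Nat.ble (R1M A k).B (nat_lit 1125899906842624)) (Nat.ble (SM A k).B (nat_lit 1125899906842624)))

/-- the side test of the three kappas -/
def xOK {α v : Type} (X : XM α v) : Bool :=
  Pool.Agent.Helper86.CX.andB (kC X.Q.A X.k0) (Pool.Agent.Helper86.CX.andB (kC X.Q.A X.k1)
    (kC X.Q.A X.k2))

end Pool.Agent.Helper21.KRN
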