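import Pool.Agent.Helper21.CT.KRS
import Pool.Agent.Helper86.CT.PcT
import Pool.Agent.Helper6.CX.KPF

/-!
Classes with tails (MP_c75db0): everything which the tests of a cell give at a point of the cell.
-/

set_option autoImplicit false
set_option exponentiation.threshold 4000
noncomputable section
namespace Pool.Agent.Helper21.KRN

open Pool.Agent.Helper86.CX (Hm ev M2)
open Pool.Agent.Helper86.CT (LT2)
open Pool.Agent.Helper6.MTC (NegD)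
open Pool.Agent.Helper6.MONO (SbP Kp DTH)
open Pool.Agent.Helper6.PRG (tN)
open Pool.Agent.Helper6.KPF (tZ tN_rep tZ_bd tZ_err)
open Complex ComplexConjugate

/-- the two numbers `ta`, `tb` (units `2 ^ (-48)`, modulo `2 ^ 1152`) enclose `(1 - S)/2` -/
def SlK (k : ℝ) (ta tb : ℕ) : Prop :=
  ∃ za zb : ℤ, Pool.Agent.Helper17.PAK.Rep M2 ta za ∧ Pool.Agent.Helper17.PAK.Rep M2 tb zb ∧
    |za| ≤ 2 ^ 100 ∧ |zb| ≤ 2 ^ 100 ∧
    ∃ τ : ℝ, (za : ℝ) ≤ τ ∧ τ ≤ zb ∧ |2 * (τ / 2 ^ 48) - (1 - SbP k)| ≤ 1 / 2 ^ 47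

/-- WHAT THE TESTS OF A CELL GIVE AT A POINT: `K k` = form number `k` -/
structure PtR (K : ℕ → Hm ℝ) (κ : Fin 3 → ℝ) (z : ℂ) (G : TProg) (sl : List ℕ) (le : List LT2) :
    Prop where
  res : KResT K κ z G
  nz : NZ (cκ κ) z
  neg : ∀ k ∈ sl, NegD (1 / 2 ^ 10) (K k)
  bd : ∀ k, |(K k).a| ≤ 2 ^ 12 ∧ ‖(K k).x‖ ≤ 2 ^ 12 ∧ ‖(K k).y‖ ≤ 2 ^ 12
  slit : ∀ x ∈ le, ∀ k : ℝ, SlK k x.ta x.tb → ∃ γ : ℂ, 0 ≤ γ.re ∧ ∀ v : Fin 3 → ℂ,
    ev (K x.k) v ≤ (γ * (conj (v 0) * DTH k v)).re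

/-- the enclosure of an exact star -/
theorem SlK_E {M : ℕ} (h3 : 3 ≤ M) (h9 : M ≤ 9) : SlK (Kp M) (tN M) (tN M) :=
  ⟨tZ M, tZ M, tN_rep h3 h9, tN_rep h3 h9, tZ_bd h3 h9, tZ_bd h3 h9, tZ M, le_rfl, le_rfl,
    tZ_err h3 h9⟩

/-- the test of the enclosure of a tail star with `na ≤ 2 ^ 48 k ≤ nb` -/
def slT (na nb ta tb : ℕ) : Bool :=
  Nat.ble 1 na && Nat.ble ta (2 ^ 48) && Nat.ble tb (2 ^ 50) &&
    Nat.ble (2 ^ 145) ((2 ^ 48 - ta) * (na * na)) && Nat.ble ((2 ^ 48 - tb) * (nb * nb)) (2 ^ 145)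

theorem SbP_eq' {k : ℝ} (hk : k ≠ 0) : 1 - SbP k = 2 * (1 - 2 / k ^ 2) := by
  unfold SbP
  field_simp
  ring

theorem SlK_T {na nb ta tb : ℕ} (h : slT na nb ta tb = true) {k : ℝ} (ha : (na : ℝ) ≤ 2 ^ 48 * k)
    (hb : 2 ^ 48 * k ≤ (nb : ℝ)) : SlK k ta tb := by
  unfold slT at h
  simp only [Bool.and_eq_true] at h
  obtain ⟨⟨⟨⟨h1, h2⟩, h3⟩, h4⟩, h5⟩ := h
  have g1 := Nat.le_of_ble_eq_true h1
  have g2 := Nat.le_of_ble_eq_true h2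
  have g3 := Nat.le_of_ble_eq_true h3
  have g4 := Nat.le_of_ble_eq_true h4
  have g5 := Nat.le_of_ble_eq_true h5
  have r1 : (1 : ℝ) ≤ na := by exact_mod_cast g1
  have hk : 0 < k := by
    by_contra hc
    push Not at hc
    have : (2 : ℝ) ^ 48 * k ≤ 0 := mul_nonpos_of_nonneg_of_nonpos (by positivity) hc
    linarith
  have hn0 : (0 : ℝ) < na := by linarith
  have hnb : (0 : ℝ) < nb := by linarith [mul_pos (by positivity : (0 : ℝ) < 2 ^ 48) hk]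
  have r4 : (2 : ℝ) ^ 145 ≤ (2 ^ 48 - ta) * (na * na) := by
    have h : ((2 ^ 145 : ℕ) : ℝ) ≤ (((2 ^ 48 - ta) * (na * na) : ℕ) : ℝ) := by exact_mod_cast g4
    rw [Nat.cast_mul, Nat.cast_sub g2] at h
    norm_num at h ⊢
    exact h
  have r5 : (2 ^ 48 - (tb : ℝ)) * (nb * nb) ≤ 2 ^ 145 := by
    rcases le_total tb (2 ^ 48) with h | h
    · have h' : (((2 ^ 48 - tb) * (nb * nb) : ℕ) : ℝ) ≤ ((2 ^ 145 : ℕ) : ℝ) := by exact_mod_cast g5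
      rw [Nat.cast_mul, Nat.cast_sub h] at h'
      norm_num at h' ⊢
      exact h'
    · have h' : (2 ^ 48 : ℝ) ≤ tb := by exact_mod_cast h
      have : (2 ^ 48 - (tb : ℝ)) * (nb * nb) ≤ 0 :=
        mul_nonpos_of_nonpos_of_nonneg (by linarith) (by positivity)
      linarith [pow_pos (by norm_num : (0 : ℝ) < 2) 145]
  have rep : ∀ n : ℕ, Pool.Agent.Helper17.PAK.Rep M2 n (n : ℤ) := fun n => Int.ModEq.refl _
  have bd : ∀ n : ℕ, n ≤ 2 ^ 50 → |((n : ℕ) : ℤ)| ≤ 2 ^ 100 := by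
    intro n hn
    rw [abs_of_nonneg (by positivity)]
    have : (n : ℤ) ≤ 2 ^ 50 := by exact_mod_cast hn
    exact this.trans (by norm_num)
  refine ⟨ta, tb, rep ta, rep tb, bd ta (g2.trans (by norm_num)), bd tb g3,
    2 ^ 48 * (1 - 2 / k ^ 2), ?_, ?_, ?_⟩
  · have e : (2 : ℝ) ^ 48 * (1 - 2 / k ^ 2) = 2 ^ 48 - 2 ^ 145 / (2 ^ 48 * k) ^ 2 := by
      field_simp
    rw [Int.cast_natCast, e]
    have h6 : (2 : ℝ) ^ 145 / (2 ^ 48 * k) ^ 2 ≤ 2 ^ 145 / (na * na) := by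
      apply div_le_div_of_nonneg_left (by positivity) (by positivity)
      nlinarith
    have h7 : (2 : ℝ) ^ 145 / (na * na) ≤ 2 ^ 48 - ta := by
      rw [div_le_iff₀ (by positivity)]
      exact r4
    linarith
  · have e : (2 : ℝ) ^ 48 * (1 - 2 / k ^ 2) = 2 ^ 48 - 2 ^ 145 / (2 ^ 48 * k) ^ 2 := by
      field_simp
    rw [Int.cast_natCast, e]
    have h6 : (2 : ℝ) ^ 145 / (nb * nb) ≤ 2 ^ 145 / (2 ^ 48 * k) ^ 2 := by
      apply div_le_div_of_nonneg_left (by positivity) (by positivity)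
      nlinarith [mul_pos (by positivity : (0 : ℝ) < 2 ^ 48) hk]
    have h7 : 2 ^ 48 - (tb : ℝ) ≤ 2 ^ 145 / (nb * nb) := by
      rw [le_div_iff₀ (by positivity)]
      exact r5
    linarith
  · rw [SbP_eq' hk.ne']
    have e : 2 * (2 ^ 48 * (1 - 2 / k ^ 2) / 2 ^ 48) - 2 * (1 - 2 / k ^ 2) = 0 := by
      field_simp
      ring
    rw [e, abs_zero]
    positivity

end Pool.Agent.Helper21.KRN
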