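import Pool.Agent.Helper21.CT.KRN
import Pool.Agent.Helper6.CX.MID

/-!
Typed programs of the classes with tails (MP_c75db0): the meaning of the names of the runs, the
results of the tests of a cell at a point.
-/

set_option autoImplicit false
noncomputable section
namespace Pool.Agent.Helper21.KRN

open Pool.Agent.Helper86.CX (Hm ev CK)
open Pool.Agent.Helper6.MONO (Kp Rb Bm)
open Pool.Agent.Helper6.MID (oZ sE sO kO)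
open Complex ComplexConjugate

/-- the lists of a typed program -/
def eT (G : TProg) : ℕ → List PI
  | 0 => G.e0
  | 1 => G.e1
  | 2 => G.e2
  | 3 => G.e3
  | 4 => G.e4
  | _ => G.e5
def oT (G : TProg) : ℕ → List PI
  | 0 => G.o0
  | 1 => G.o1
  | 2 => G.o2
  | 3 => G.o3
  | 4 => G.o4
  | _ => G.o5
def rT (G : TProg) : ℕ → List ℕ
  | 0 => G.r0
  | 1 => G.r1
  | 2 => G.r2
  | 3 => G.r3
  | 4 => G.r4
  | _ => G.r5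
def lT (G : TProg) : ℕ → List ℕ
  | 0 => G.l0
  | 1 => G.l1
  | 2 => G.l2
  | 3 => G.l3
  | 4 => G.l4
  | _ => G.l5

/-- the kappa number `e` -/
def kap (κ : Fin 3 → ℝ) : ℕ → ℝ
  | 0 => κ 0
  | 1 => κ 1
  | _ => κ 2

/-- the run `(k, R)` has the name `i` -/
def RunIn (κ : Fin 3 → ℝ) : RI → ℝ → ℝ → Prop
  | RI.ex M m, k, R => 3 ≤ M ∧ M ≤ 9 ∧ 2 ≤ m ∧ m ≤ M ∧ k = Kp M ∧ R = Rb M (m - 1)
  | RI.t2 e, k, R => k = kap κ e ∧ R = 1 + 2 / k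
  | RI.t3 e, k, R => k = kap κ e ∧ R = 1
  | RI.lr e ra rb, k, R => k = kap κ e ∧ (ra : ℝ) ≤ 2 ^ 48 * R ∧ 2 ^ 48 * R ≤ (rb : ℝ) ∧
      rb ≤ 2 ^ 50

/-- complex weights -/
def cκ (κ : Fin 3 → ℝ) (i : Fin 3) : ℂ := (κ i : ℂ)

/-- WHAT THE KERNEL TEST GIVES AT A POINT: `K k` = form number `k` -/
structure KResT (K : ℕ → Hm ℝ) (κ : Fin 3 → ℝ) (z : ℂ) (G : TProg) : Prop where
  e : ∀ i < 6, ∀ x ∈ eT G i, ∀ y ∈ x.b, ∀ u ∈ y.s, ∀ k R, RunIn κ y.id k R →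
    ∀ v, 0 < ev (K u.k) v →
      0 < ev (CK (K x.k) 0 (oZ (cκ κ) z i) (oZ (cκ κ) z (sE i) * oZ (cκ κ) z i))
        ((Bm k R).mulVec v)
  o : ∀ i < 6, ∀ x ∈ oT G i, ∀ y ∈ x.b, ∀ u ∈ y.s, ∀ k R, RunIn κ y.id k R →
    ∀ v, 0 < ev (K u.k) v →
      0 < ev (CK (K x.k) (cκ κ (kO i) * oZ (cκ κ) z (sO i) / 2 -
          cκ κ (kO i) ^ 2 / (4 * (2 + cκ κ (kO i))))
        (oZ (cκ κ) z i) (oZ (cκ κ) z i * (cκ κ (kO i) / 2) * (1 / 2 - oZ (cκ κ) z (sO i))))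
        ((Bm k R).mulVec v)
  r : ∀ i < 6, ∀ x ∈ rT G i, ∀ v : Fin 3 → ℂ,
    (v = Pool.Agent.Helper17.PAK.vpq 192 640 ∨ v = Pool.Agent.Helper17.PAK.vpq 197 640 ∨
      v = Pool.Agent.Helper17.PAK.vpq 192 645) →
      0 < ev (CK (K x) 0 (oZ (cκ κ) z i) (oZ (cκ κ) z i * (1 / 2 - oZ (cκ κ) z i))) v
  l : ∀ i < 6, ∀ x ∈ lT G i,
    0 < ev (K x) ![1, 1 / 5 + oZ (cκ κ) z i / 10, 1 / 5 - 2 * oZ (cκ κ) z i / 5]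

/-- the six denominators do not vanish -/
structure NZ (κ : Fin 3 → ℂ) (z : ℂ) : Prop where
  n0 : 2 * (1 + 2 * κ 1 / (κ 0 * κ 2) * z⁻¹) ≠ 0
  n1 : 2 * (1 + 2 * κ 2 / (κ 1 * κ 0) * z⁻¹) ≠ 0
  n2 : 2 * (1 + 2 * κ 0 / (κ 2 * κ 1) * z⁻¹) ≠ 0
  n3 : 2 * (1 + 2 * κ 1 / (κ 0 * κ 2) * z) ≠ 0
  n4 : 2 * (1 + 2 * κ 2 / (κ 1 * κ 0) * z) ≠ 0
  n5 : 2 * (1 + 2 * κ 0 / (κ 2 * κ 1) * z) ≠ 0

end Pool.Agent.Helper21.KRN
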