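import Pool.Agent.Helper17.CT.KPT3
import Pool.Agent.Helper90.CX.KCT4

/-!
Row KTE (tails), part A: the sums over the leaves of the packed forms are the polarised forms of
the control products.
-/

set_option autoImplicit false
set_option exponentiation.threshold 4000
noncomputable section
namespace Pool.Agent.Helper21.KTE

open Pool.Agent.Helper90.C75 (Vt mulT avg wtT avg_add avg_sub avg_smul avg_star)
open Pool.Agent.Helper90.KMT
open Pool.Agent.Helper17.KPT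
open Pool.Agent.Helper17.PAK (ev_lin sc)
open Pool.Agent.Helper86.CX (Hm ev)
open Complex ComplexConjugate

/-- star of a product of controls -/
theorem mulT_star : ∀ (D : ℕ) (F G : Vt D → ℂ),
    mulT D (fun v => star (F v)) (fun v => star (G v)) = fun v => star (mulT D F G v)
  | 0, F, G => by
    funext v
    simp only [mulT, star_mul']
  | D + 1, F, G => by
    funext v
    simp only [mulT]
    by_cases h : v.2 = 1
    · rw [if_pos h, if_pos h, mulT_star D (fun u => F (u, 1)) (fun u => G (u, 1))]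
      have e1 : (fun u : Vt D => star (F (u, 2)) - star (F (u, 0))) =
          fun u => star (F (u, 2) - F (u, 0)) := by
        funext u; rw [star_sub]
      have e2 : (fun u : Vt D => star (G (u, 2)) - star (G (u, 0))) =
          fun u => star (G (u, 2) - G (u, 0)) := by
        funext u; rw [star_sub]
      rw [e1, e2, mulT_star D (fun u => F (u, 2) - F (u, 0)) (fun u => G (u, 2) - G (u, 0))]
      have e3 : (star (4 : ℂ)) = 4 := by
        have := Complex.conj_ofReal 4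
        push_cast at this
        exact this
      simp only [star_sub, star_div₀, e3]
    · rw [if_neg h, if_neg h, mulT_star D (fun u => F (u, v.2)) (fun u => G (u, v.2))]

/-- `C(F, F'; G, G')` -/
def Cc (D : ℕ) (F F' G G' : Vt D → ℂ) (v : Vt D) : ℂ :=
  mulT D (fun u => star (F u)) G' v + mulT D (fun u => star (F' u)) G v

theorem Nc_eq (D : ℕ) (t : ℕ → ℝ) (J F F' G G' : Vt D → ℂ) :
    Nc D t J F F' G G' = (avg (wtT D t) (mulT D J (Cc D F F' G G'))).re := by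
  unfold Nc
  have e : Cc D F F' G G' = fun v => mulT D (fun u => star (F u)) G' v +
      mulT D (fun u => star (F' u)) G v := rfl
  rw [e, mulT_add_right, avg_add]

/-- the nine control products -/
def Gk (D : ℕ) (F F' : Fin 3 → Vt D → ℂ) : Fin 9 → Vt D → ℂ :=
  ![Cc D (F 0) (F' 0) (F 0) (F' 0), Cc D (F 1) (F' 1) (F 1) (F' 1),
    Cc D (F 2) (F' 2) (F 2) (F' 2),
    fun v => Cc D (F 0) (F' 0) (F 1) (F' 1) v + star (Cc D (F 0) (F' 0) (F 1) (F' 1) v),
    fun v => I * Cc D (F 0) (F' 0) (F 1) (F' 1) v +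
      star (I * Cc D (F 0) (F' 0) (F 1) (F' 1) v),
    fun v => Cc D (F 0) (F' 0) (F 2) (F' 2) v + star (Cc D (F 0) (F' 0) (F 2) (F' 2) v),
    fun v => I * Cc D (F 0) (F' 0) (F 2) (F' 2) v +
      star (I * Cc D (F 0) (F' 0) (F 2) (F' 2) v),
    fun v => Cc D (F 1) (F' 1) (F 2) (F' 2) v + star (Cc D (F 1) (F' 1) (F 2) (F' 2) v),
    fun v => I * Cc D (F 1) (F' 1) (F 2) (F' 2) v +
      star (I * Cc D (F 1) (F' 1) (F 2) (F' 2) v)]

/-- one off diagonal entry -/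
theorem off_re (D : ℕ) (t : ℕ → ℝ) (j : Vt D → ℝ) (C : Vt D → ℂ) :
    (avg (wtT D t) (mulT D (fun v => (j v : ℂ)) (fun v => C v + star (C v)))).re =
      2 * (avg (wtT D t) (mulT D (fun v => (j v : ℂ)) C)).re := by
  rw [mulT_add_right, avg_add, Complex.add_re]
  have e : (fun v => (j v : ℂ)) = fun v => star ((j v : ℂ)) := by
    funext v
    exact (Complex.conj_ofReal _).symm
  have e2 : mulT D (fun v => (j v : ℂ)) (fun v => star (C v)) =
      fun v => star (mulT D (fun v => (j v : ℂ)) C v) := by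
    conv_lhs => rw [e]
    exact mulT_star D _ _
  rw [e2, avg_star]
  have e3 : (star (avg (wtT D t) (mulT D (fun v => (j v : ℂ)) C))).re =
      (avg (wtT D t) (mulT D (fun v => (j v : ℂ)) C)).re := Complex.conj_re _
  rw [e3]
  ring

theorem off_pair (D : ℕ) (t : ℕ → ℝ) (j1 j2 : Vt D → ℝ) (F F' G G' : Vt D → ℂ) :
    (avg (wtT D t) (mulT D (fun v => (j1 v : ℂ)) (fun v => Cc D F F' G G' v +
        star (Cc D F F' G G' v)))).re +
      (avg (wtT D t) (mulT D (fun v => (j2 v : ℂ)) (fun v => I * Cc D F F' G G' v +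
        star (I * Cc D F F' G G' v)))).re =
      2 * Nc D t (fun v => (j1 v : ℂ) + (j2 v : ℂ) * I) F F' G G' := by
  rw [off_re, off_re D t j2 (fun v => I * Cc D F F' G G' v), Nc_eq, mulT_add_left, avg_add,
    Complex.add_re]
  have e : (fun v => (j2 v : ℂ) * I) = fun v => I * (j2 v : ℂ) := by
    funext v; ring
  rw [e, mulT_smul_left, mulT_smul_right]
  ring

/-- THE SUM OVER THE NINE UNIT FORMS is the polarised form -/
theorem plug_Np (D : ℕ) (t : ℕ → ℝ) (J : Vt D → Fin 9 → ℝ) (F F' : Fin 3 → Vt D → ℂ) :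
    (∑ k, avg (wtT D t) (mulT D (fun v => (J v k : ℂ)) (Gk D F F' k))).re =
      Np D t ⟨fun v => J v 0, fun v => J v 1, fun v => J v 2,
        fun v => (J v 3 : ℂ) + (J v 4 : ℂ) * I, fun v => (J v 5 : ℂ) + (J v 6 : ℂ) * I,
        fun v => (J v 7 : ℂ) + (J v 8 : ℂ) * I⟩ F F' := by
  have h1 := off_pair D t (fun v => J v 3) (fun v => J v 4) (F 0) (F' 0) (F 1) (F' 1)
  have h2 := off_pair D t (fun v => J v 5) (fun v => J v 6) (F 0) (F' 0) (F 2) (F' 2)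
  have h3 := off_pair D t (fun v => J v 7) (fun v => J v 8) (F 1) (F' 1) (F 2) (F' 2)
  rw [sum9]
  unfold Np
  rw [Nc_eq D t _ (F 0), Nc_eq D t _ (F 1) (F' 1) (F 1), Nc_eq D t _ (F 2)]
  simp only [Complex.add_re]
  have g : ∀ k, Gk D F F' k = Gk D F F' k := fun _ => rfl
  have g0 : Gk D F F' 0 = Cc D (F 0) (F' 0) (F 0) (F' 0) := rfl
  have g1 : Gk D F F' 1 = Cc D (F 1) (F' 1) (F 1) (F' 1) := rfl
  have g2 : Gk D F F' 2 = Cc D (F 2) (F' 2) (F 2) (F' 2) := rfl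
  have g3 : Gk D F F' 3 = fun v => Cc D (F 0) (F' 0) (F 1) (F' 1) v +
    star (Cc D (F 0) (F' 0) (F 1) (F' 1) v) := rfl
  have g4 : Gk D F F' 4 = fun v => I * Cc D (F 0) (F' 0) (F 1) (F' 1) v +
    star (I * Cc D (F 0) (F' 0) (F 1) (F' 1) v) := rfl
  have g5 : Gk D F F' 5 = fun v => Cc D (F 0) (F' 0) (F 2) (F' 2) v +
    star (Cc D (F 0) (F' 0) (F 2) (F' 2) v) := rfl
  have g6 : Gk D F F' 6 = fun v => I * Cc D (F 0) (F' 0) (F 2) (F' 2) v +
    star (I * Cc D (F 0) (F' 0) (F 2) (F' 2) v) := rfl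
  have g7 : Gk D F F' 7 = fun v => Cc D (F 1) (F' 1) (F 2) (F' 2) v +
    star (Cc D (F 1) (F' 1) (F 2) (F' 2) v) := rfl
  have g8 : Gk D F F' 8 = fun v => I * Cc D (F 1) (F' 1) (F 2) (F' 2) v +
    star (I * Cc D (F 1) (F' 1) (F 2) (F' 2) v) := rfl
  rw [g0, g1, g2, g3, g4, g5, g6, g7, g8]
  linarith

/-! ### the values of the multipliers -/

/-- the vector `B z` of an integer matrix -/
def yQ (z : Fin 3 → ℂ) (i : Fin 3) : (Fin 5 → ℤ) →+ ℂ where
  toFun x := match i with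
    | 0 => (x 0 : ℂ) * z 0 + 2 * (x 1 : ℂ) * z 1 + (x 2 : ℂ) * z 2
    | 1 => (x 1 : ℂ) * z 0 + (x 2 : ℂ) * z 1 - (x 4 : ℂ) * z 2
    | 2 => (x 3 : ℂ) * z 0
  map_zero' := by fin_cases i <;> simp
  map_add' x y := by fin_cases i <;> simp <;> ring

/-- the conjugate vector -/
def cQ (z : Fin 3 → ℂ) (i : Fin 3) : (Fin 5 → ℤ) →+ ℂ where
  toFun x := star (yQ z i x)
  map_zero' := by simp
  map_add' x y := by simp

/-- a constant times a functional -/
def kQ (c : ℂ) (f : (Fin 5 → ℤ) →+ ℂ) : (Fin 5 → ℤ) →+ ℂ where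
  toFun x := c * f x
  map_zero' := by simp
  map_add' x y := by simp [mul_add]

/-- the value of a form at `z` -/
def phz (z : Fin 3 → ℂ) : (Fin 9 → ℤ) →+ ℂ where
  toFun N := ((ev (sc 1 (toH N)) z : ℝ) : ℂ)
  map_zero' := by
    rw [ev_lin]
    simp [sc, toH]
  map_add' x y := by
    rw [ev_lin, ev_lin, ev_lin]
    simp only [sc, toH, Pi.add_apply]
    push_cast
    ring

/-- the value of the multiplier number `k` at `z` -/
def phk (z : Fin 3 → ℂ) (k : Fin 9) : (Fin 9 → Fin 9 → ℤ) →+ ℂ where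
  toFun J := phz z (J k)
  map_zero' := by
    show phz z 0 = 0
    exact map_zero _
  map_add' x y := by
    show phz z (x k + y k) = _
    exact map_add _ _ _

theorem yQ0 (z : Fin 3 → ℂ) (x : Fin 5 → ℤ) :
    yQ z 0 x = (x 0 : ℂ) * z 0 + 2 * (x 1 : ℂ) * z 1 + (x 2 : ℂ) * z 2 := rfl
theorem yQ1 (z : Fin 3 → ℂ) (x : Fin 5 → ℤ) :
    yQ z 1 x = (x 1 : ℂ) * z 0 + (x 2 : ℂ) * z 1 - (x 4 : ℂ) * z 2 := rfl
theorem yQ2 (z : Fin 3 → ℂ) (x : Fin 5 → ℤ) : yQ z 2 x = (x 3 : ℂ) * z 0 := rfl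
theorem cQ_eq (z : Fin 3 → ℂ) (i : Fin 3) (x : Fin 5 → ℤ) : cQ z i x = star (yQ z i x) := rfl
theorem kQ_eq (c : ℂ) (f : (Fin 5 → ℤ) →+ ℂ) (x : Fin 5 → ℤ) : kQ c f x = c * f x := rfl
theorem phk_eq (z : Fin 3 → ℂ) (k : Fin 9) (J : Fin 9 → Fin 9 → ℤ) :
    phk z k J = ((ev (sc 1 (toH (J k))) z : ℝ) : ℂ) := rfl

theorem phk_0 (z : Fin 3 → ℂ) (a b : Fin 5 → ℤ) :
    phk z 0 (mu2 a b) = cQ z 0 a * yQ z 0 b + yQ z 0 a * cQ z 0 b := by
  rw [phk_eq, ev_lin, cQ_eq, cQ_eq, yQ0, yQ0]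
  simp only [mu2, un9, toH, toF, NBp, sc, Matrix.cons_val_zero, Matrix.cons_val_one,
    Matrix.cons_val]
  apply Complex.ext
  · simp [Complex.normSq_apply]
    ring
  · simp [Complex.normSq_apply]
    ring

theorem phk_1 (z : Fin 3 → ℂ) (a b : Fin 5 → ℤ) :
    phk z 1 (mu2 a b) = cQ z 1 a * yQ z 1 b + yQ z 1 a * cQ z 1 b := by
  rw [phk_eq, ev_lin, cQ_eq, cQ_eq, yQ1, yQ1]
  simp only [mu2, un9, toH, toF, NBp, sc, Matrix.cons_val_zero, Matrix.cons_val_one,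
    Matrix.cons_val]
  apply Complex.ext
  · simp [Complex.normSq_apply]
    ring
  · simp [Complex.normSq_apply]
    ring

theorem phk_2 (z : Fin 3 → ℂ) (a b : Fin 5 → ℤ) :
    phk z 2 (mu2 a b) = cQ z 2 a * yQ z 2 b + yQ z 2 a * cQ z 2 b := by
  rw [phk_eq, ev_lin, cQ_eq, cQ_eq, yQ2, yQ2]
  simp only [mu2, un9, toH, toF, NBp, sc, Matrix.cons_val_zero, Matrix.cons_val_one,
    Matrix.cons_val]
  apply Complex.ext
  · simp [Complex.normSq_apply]
    ring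
  · simp [Complex.normSq_apply]
    ring

theorem phk_3 (z : Fin 3 → ℂ) (a b : Fin 5 → ℤ) :
    phk z 3 (mu2 a b) = cQ z 0 a * yQ z 1 b + yQ z 1 a * cQ z 0 b +
      yQ z 0 a * cQ z 1 b + cQ z 1 a * yQ z 0 b := by
  rw [phk_eq, ev_lin, cQ_eq, cQ_eq, cQ_eq, cQ_eq, yQ0, yQ0, yQ1, yQ1]
  simp only [mu2, un9, toH, toF, NBp, sc, Matrix.cons_val_zero, Matrix.cons_val_one,
    Matrix.cons_val]
  apply Complex.ext
  · simp [Complex.normSq_apply]
    ring
  · simp [Complex.normSq_apply]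
    ring

theorem phk_4 (z : Fin 3 → ℂ) (a b : Fin 5 → ℤ) :
    phk z 4 (mu2 a b) = I * cQ z 0 a * yQ z 1 b + I * yQ z 1 a * cQ z 0 b +
      -I * yQ z 0 a * cQ z 1 b + -I * cQ z 1 a * yQ z 0 b := by
  rw [phk_eq, ev_lin, cQ_eq, cQ_eq, cQ_eq, cQ_eq, yQ0, yQ0, yQ1, yQ1]
  simp only [mu2, un9, toH, toF, NBp, sc, Matrix.cons_val_zero, Matrix.cons_val_one,
    Matrix.cons_val]
  apply Complex.ext
  · simp [Complex.normSq_apply]
    ring
  · simp [Complex.normSq_apply]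
    ring

theorem phk_5 (z : Fin 3 → ℂ) (a b : Fin 5 → ℤ) :
    phk z 5 (mu2 a b) = cQ z 0 a * yQ z 2 b + yQ z 2 a * cQ z 0 b +
      yQ z 0 a * cQ z 2 b + cQ z 2 a * yQ z 0 b := by
  rw [phk_eq, ev_lin, cQ_eq, cQ_eq, cQ_eq, cQ_eq, yQ0, yQ0, yQ2, yQ2]
  simp only [mu2, un9, toH, toF, NBp, sc, Matrix.cons_val_zero, Matrix.cons_val_one,
    Matrix.cons_val]
  apply Complex.ext
  · simp [Complex.normSq_apply]
    ring
  · simp [Complex.normSq_apply]
    ring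

theorem phk_6 (z : Fin 3 → ℂ) (a b : Fin 5 → ℤ) :
    phk z 6 (mu2 a b) = I * cQ z 0 a * yQ z 2 b + I * yQ z 2 a * cQ z 0 b +
      -I * yQ z 0 a * cQ z 2 b + -I * cQ z 2 a * yQ z 0 b := by
  rw [phk_eq, ev_lin, cQ_eq, cQ_eq, cQ_eq, cQ_eq, yQ0, yQ0, yQ2, yQ2]
  simp only [mu2, un9, toH, toF, NBp, sc, Matrix.cons_val_zero, Matrix.cons_val_one,
    Matrix.cons_val]
  apply Complex.ext
  · simp [Complex.normSq_apply]
    ring
  · simp [Complex.normSq_apply]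
    ring

theorem phk_7 (z : Fin 3 → ℂ) (a b : Fin 5 → ℤ) :
    phk z 7 (mu2 a b) = cQ z 1 a * yQ z 2 b + yQ z 2 a * cQ z 1 b +
      yQ z 1 a * cQ z 2 b + cQ z 2 a * yQ z 1 b := by
  rw [phk_eq, ev_lin, cQ_eq, cQ_eq, cQ_eq, cQ_eq, yQ1, yQ1, yQ2, yQ2]
  simp only [mu2, un9, toH, toF, NBp, sc, Matrix.cons_val_zero, Matrix.cons_val_one,
    Matrix.cons_val]
  apply Complex.ext
  · simp [Complex.normSq_apply]
    ring
  · simp [Complex.normSq_apply]
    ring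

theorem phk_8 (z : Fin 3 → ℂ) (a b : Fin 5 → ℤ) :
    phk z 8 (mu2 a b) = I * cQ z 1 a * yQ z 2 b + I * yQ z 2 a * cQ z 1 b +
      -I * yQ z 1 a * cQ z 2 b + -I * cQ z 2 a * yQ z 1 b := by
  rw [phk_eq, ev_lin, cQ_eq, cQ_eq, cQ_eq, cQ_eq, yQ1, yQ1, yQ2, yQ2]
  simp only [mu2, un9, toH, toF, NBp, sc, Matrix.cons_val_zero, Matrix.cons_val_one,
    Matrix.cons_val]
  apply Complex.ext
  · simp [Complex.normSq_apply]
    ring
  · simp [Complex.normSq_apply]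
    ring

end Pool.Agent.Helper21.KTE
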