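import Pool.Agent.Helper21.CT.KTA

/-!
Row KTE (tails), part B: the values of the star words at the leaves; the sum over the leaves of
the packed form of a block.
-/

set_option autoImplicit false
set_option exponentiation.threshold 4000
noncomputable section
namespace Pool.Agent.Helper21.KTE

open Pool.Agent.Helper90.C75 (Vt mulT avg wtT avg_add avg_sub avg_smul avg_star)
open Pool.Agent.Helper90.KMT
open Pool.Agent.Helper90.KMO (UU)
open Pool.Agent.Helper17.KPT
open Pool.Agent.Helper17.PAK (ev_lin sc)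
open Pool.Agent.Helper86.CX (Hm ev)
open Pool.Agent.Helper86.CT (Qd KM Mo)
open Complex ComplexConjugate

/-- the row functions of an integer matrix at the leaves -/
def yJ (z : Fin 3 → ℂ) {D : ℕ} (x : Vt D → Fin 5 → ℤ) (i : Fin 3) (v : Vt D) : ℂ := yQ z i (x v)

section word

variable {D : ℕ} {l l' : List Bool} {a b : Vt D → Fin 5 → ℤ} (z : Fin 3 → ℂ)

theorem word_diag (ha : FSh D l a) (hb : FSh D l' b) (v : Vt D) (k : Fin 9) (c : Fin 3)
    (hk : ∀ a b : Fin 5 → ℤ, phk z k (mu2 a b) = cQ z c a * yQ z c b + yQ z c a * cQ z c b) :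
    phk z k (mulZ mu2 D (and2 l l') a b v) = 4 ^ cnt (and2 l l') *
      Cc D (yJ z a c) (yJ z b c) (yJ z a c) (yJ z b c) v := by
  have h := eval_mulZ (μ := mu2) (φ := phk z k) (f := ![cQ z c, yQ z c]) (g := ![yQ z c, cQ z c])
    (fun a b => by
      rw [Fin.sum_univ_two]
      exact hk a b) ha hb v
  rw [h, Fin.sum_univ_two]
  congr 1
  unfold Cc
  congr 1
  exact congrFun (mulT_comm D _ _) v

theorem word_off (ha : FSh D l a) (hb : FSh D l' b) (v : Vt D) (k : Fin 9) (c d : Fin 3) (ζ : ℂ)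
    (hk : ∀ a b : Fin 5 → ℤ, phk z k (mu2 a b) = ζ * cQ z c a * yQ z d b +
      ζ * yQ z d a * cQ z c b + star ζ * yQ z c a * cQ z d b + star ζ * cQ z d a * yQ z c b) :
    phk z k (mulZ mu2 D (and2 l l') a b v) = 4 ^ cnt (and2 l l') *
      (ζ * Cc D (yJ z a c) (yJ z b c) (yJ z a d) (yJ z b d) v +
        star (ζ * Cc D (yJ z a c) (yJ z b c) (yJ z a d) (yJ z b d) v)) := by
  have h := eval_mulZ (μ := mu2) (φ := phk z k)
    (f := ![kQ ζ (cQ z c), kQ ζ (yQ z d), kQ (star ζ) (yQ z c), kQ (star ζ) (cQ z d)])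
    (g := ![yQ z d, cQ z c, cQ z d, yQ z c])
    (fun a b => by
      rw [Fin.sum_univ_four]
      exact hk a b) ha hb v
  rw [h, Fin.sum_univ_four]
  congr 1
  have e0 : mulT D (fun u => kQ ζ (cQ z c) (a u)) (fun u => yQ z d (b u)) =
      fun u => ζ * mulT D (fun u => star (yJ z a c u)) (yJ z b d) u := mulT_smul_left D ζ _ _
  have e1 : mulT D (fun u => kQ ζ (yQ z d) (a u)) (fun u => cQ z c (b u)) =
      fun u => ζ * mulT D (fun u => star (yJ z b c u)) (yJ z a d) u := by
    rw [mulT_comm D (fun u => star (yJ z b c u))]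
    exact mulT_smul_left D ζ _ _
  have e2 : mulT D (fun u => kQ (star ζ) (yQ z c) (a u)) (fun u => cQ z d (b u)) =
      fun u => star ζ * star (mulT D (fun u => star (yJ z a c u)) (yJ z b d) u) := by
    have h1 := mulT_star D (fun u => star (yJ z a c u)) (yJ z b d)
    simp only [star_star] at h1
    have h2 : mulT D (fun u => kQ (star ζ) (yQ z c) (a u)) (fun u => cQ z d (b u)) =
        fun u => star ζ * mulT D (yJ z a c) (fun v => star (yJ z b d v)) u :=
      mulT_smul_left D (star ζ) _ _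
    rw [h2, h1]
  have e3 : mulT D (fun u => kQ (star ζ) (cQ z d) (a u)) (fun u => yQ z c (b u)) =
      fun u => star ζ * star (mulT D (fun u => star (yJ z b c u)) (yJ z a d) u) := by
    have h1 := mulT_star D (fun u => star (yJ z b c u)) (yJ z a d)
    simp only [star_star] at h1
    have h2 : mulT D (fun u => kQ (star ζ) (cQ z d) (a u)) (fun u => yQ z c (b u)) =
        fun u => star ζ * mulT D (fun v => star (yJ z a d v)) (yJ z b c) u :=
      mulT_smul_left D (star ζ) _ _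
    rw [h2, mulT_comm D (fun v => star (yJ z a d v)), h1]
  show mulT D (fun u => kQ ζ (cQ z c) (a u)) (fun u => yQ z d (b u)) v +
    mulT D (fun u => kQ ζ (yQ z d) (a u)) (fun u => cQ z c (b u)) v +
    mulT D (fun u => kQ (star ζ) (yQ z c) (a u)) (fun u => cQ z d (b u)) v +
    mulT D (fun u => kQ (star ζ) (cQ z d) (a u)) (fun u => yQ z c (b u)) v = _
  rw [e0, e1, e2, e3]
  unfold Cc
  simp only [star_mul', star_add]
  ring

/-- THE VALUES OF THE STAR WORDS -/
theorem word_val (ha : FSh D l a) (hb : FSh D l' b) (k : Fin 9) (v : Vt D) :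
    phk z k (mulZ mu2 D (and2 l l') a b v) = 4 ^ cnt (and2 l l') *
      Gk D (yJ z a) (yJ z b) k v := by
  have s1 : (star (1 : ℂ)) = 1 := star_one _
  have sI : (star I) = -I := Complex.conj_I
  have q1 : ∀ (c d : Fin 3) (a b : Fin 5 → ℤ), cQ z c a * yQ z d b + yQ z d a * cQ z c b +
      yQ z c a * cQ z d b + cQ z d a * yQ z c b = 1 * cQ z c a * yQ z d b +
      1 * yQ z d a * cQ z c b + star 1 * yQ z c a * cQ z d b + star 1 * cQ z d a * yQ z c b := by
    intro c d a b
    rw [s1]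
    ring
  have one : ∀ c d : Fin 3, 1 * Cc D (yJ z a c) (yJ z b c) (yJ z a d) (yJ z b d) v +
        star (1 * Cc D (yJ z a c) (yJ z b c) (yJ z a d) (yJ z b d) v) =
      Cc D (yJ z a c) (yJ z b c) (yJ z a d) (yJ z b d) v +
        star (Cc D (yJ z a c) (yJ z b c) (yJ z a d) (yJ z b d) v) := by
    intro c d
    rw [one_mul]
  have k0 := word_diag z ha hb v 0 0 (phk_0 z)
  have k1 := word_diag z ha hb v 1 1 (phk_1 z)
  have k2 := word_diag z ha hb v 2 2 (phk_2 z)
  have k3 := word_off z ha hb v 3 0 1 1 (fun a b => (phk_3 z a b).trans (q1 0 1 a b))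
  have k4 := word_off z ha hb v 4 0 1 I (fun a b => by rw [sI]; exact phk_4 z a b)
  have k5 := word_off z ha hb v 5 0 2 1 (fun a b => (phk_5 z a b).trans (q1 0 2 a b))
  have k6 := word_off z ha hb v 6 0 2 I (fun a b => by rw [sI]; exact phk_6 z a b)
  have k7 := word_off z ha hb v 7 1 2 1 (fun a b => (phk_7 z a b).trans (q1 1 2 a b))
  have k8 := word_off z ha hb v 8 1 2 I (fun a b => by rw [sI]; exact phk_8 z a b)
  rw [one] at k3 k5 k7
  fin_cases k
  · exact k0
  · exact k1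
  · exact k2
  · exact k3
  · exact k4
  · exact k5
  · exact k6
  · exact k7
  · exact k8

end word

/-! ### the sum of a block -/

/-- the value of the packed form of a block, over the leaves -/
def LS (D : ℕ) (t : ℕ → ℝ) (N : Vt D → Fin 9 → ℤ) (J : Vt D → Fin 9 → Fin 9 → ℤ)
    (z : Fin 3 → ℂ) : ℝ :=
  (∑ k, avg (wtT D t) (mulT D (fun v => (N v k : ℂ)) (fun v => phk z k (J v)))).re

/-- the form of the leaves -/
def IFN {D : ℕ} (N : Vt D → Fin 9 → ℤ) : IF D :=
  ⟨fun v => N v 0, fun v => N v 1, fun v => N v 2, fun v => (N v 3 : ℂ) + (N v 4 : ℂ) * I,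
    fun v => (N v 5 : ℂ) + (N v 6 : ℂ) * I, fun v => (N v 7 : ℂ) + (N v 8 : ℂ) * I⟩

theorem plug_int (D : ℕ) (t : ℕ → ℝ) (N : Vt D → Fin 9 → ℤ) (F F' : Fin 3 → Vt D → ℂ) :
    (∑ k, avg (wtT D t) (mulT D (fun v => (N v k : ℂ)) (Gk D F F' k))).re =
      Np D t (IFN N) F F' := by
  have h := plug_Np D t (fun v k => (N v k : ℝ)) F F'
  simp only [Complex.ofReal_intCast] at h
  exact h

theorem LS_smul (D : ℕ) (t : ℕ → ℝ) (N : Vt D → Fin 9 → ℤ) (J : Vt D → Fin 9 → Fin 9 → ℤ)
    (z : Fin 3 → ℂ) (s : ℝ) {F F' : Fin 3 → Vt D → ℂ}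
    (h : ∀ k v, phk z k (J v) = (s : ℂ) * Gk D F F' k v) :
    LS D t N J z = s * Np D t (IFN N) F F' := by
  unfold LS
  rw [← plug_int, ← Complex.re_ofReal_mul, Finset.mul_sum]
  congr 1
  refine Finset.sum_congr rfl fun k _ => ?_
  have e : (fun v => phk z k (J v)) = fun v => (s : ℂ) * Gk D F F' k v := funext fun v => h k v
  rw [e, mulT_smul_right, avg_smul]

theorem LS_add (D : ℕ) (t : ℕ → ℝ) (N : Vt D → Fin 9 → ℤ) (J J' : Vt D → Fin 9 → Fin 9 → ℤ)
    (z : Fin 3 → ℂ) : LS D t N (fun v => J v + J' v) z = LS D t N J z + LS D t N J' z := by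
  unfold LS
  rw [← Complex.add_re, ← Finset.sum_add_distrib]
  congr 1
  refine Finset.sum_congr rfl fun k _ => ?_
  have e : (fun v => phk z k (J v + J' v)) = fun v => phk z k (J v) + phk z k (J' v) :=
    funext fun v => map_add _ _ _
  rw [e, mulT_add_right, avg_add]

/-- A STAR WORD -/
theorem LS_word {D : ℕ} (t : ℕ → ℝ) (N : Vt D → Fin 9 → ℤ) {l l' : List Bool}
    {a b : Vt D → Fin 5 → ℤ} (ha : FSh D l a) (hb : FSh D l' b) (z : Fin 3 → ℂ) :
    LS D t N (mulZ mu2 D (and2 l l') a b) z =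
      4 ^ cnt (and2 l l') * Np D t (IFN N) (yJ z a) (yJ z b) := by
  have h := LS_smul D t N (mulZ mu2 D (and2 l l') a b) z (4 ^ cnt (and2 l l'))
    (F := yJ z a) (F' := yJ z b) (fun k v => by
      rw [word_val z ha hb k v]
      push_cast
      rfl)
  exact h

theorem Gk_const (D : ℕ) (w w' : Fin 3 → ℂ) (k : Fin 9) (v : Vt D) :
    Gk D (fun i _ => w i) (fun i _ => w' i) k v = Gk 0 (fun i _ => w i) (fun i _ => w' i) k () := by
  have e : ∀ c d : Fin 3, Cc D (fun _ => w c) (fun _ => w' c) (fun _ => w d) (fun _ => w' d) v =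
      Cc 0 (fun _ => w c) (fun _ => w' c) (fun _ => w d) (fun _ => w' d) () := by
    intro c d
    unfold Cc
    rw [mulT_cc, mulT_cc, mulT_cc, mulT_cc]
  fin_cases k
  · exact e 0 0
  · exact e 1 1
  · exact e 2 2
  · exact congrArg (fun x : ℂ => x + star x) (e 0 1)
  · exact congrArg (fun x : ℂ => I * x + star (I * x)) (e 0 1)
  · exact congrArg (fun x : ℂ => x + star x) (e 0 2)
  · exact congrArg (fun x : ℂ => I * x + star (I * x)) (e 0 2)
  · exact congrArg (fun x : ℂ => x + star x) (e 1 2)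
  · exact congrArg (fun x : ℂ => I * x + star (I * x)) (e 1 2)

/-- A RUN OF AN EXACT STAR: constant multipliers -/
theorem LS_const {D : ℕ} (t : ℕ → ℝ) (N : Vt D → Fin 9 → ℤ) (O R A W T : ℤ) (z : Fin 3 → ℂ) :
    2 * LS D t N (fun _ k => toF (Pool.Agent.Helper17.PAK.NBz O R A W T (un9 k))) z =
      Np D t (IFN N) (yJ z (fun _ => ![O, R, A, W, T])) (yJ z (fun _ => ![O, R, A, W, T])) := by
  have h1 := LS_smul D t N (fun _ k => toF (Pool.Agent.Helper17.PAK.NBz O R A W T (un9 k))) z (1 / 2)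
    (F := yJ z (fun _ => ![O, R, A, W, T])) (F' := yJ z (fun _ => ![O, R, A, W, T]))
    (fun k v => by
      have h2 := word_val (D := 0) (l := []) (l' := []) (a := fun _ => ![O, R, A, W, T])
        (b := fun _ => ![O, R, A, W, T]) z trivial trivial k ()
      have e1 : (mulZ mu2 0 (and2 [] []) (fun _ : Vt 0 => ![O, R, A, W, T])
          (fun _ : Vt 0 => ![O, R, A, W, T]) () : Fin 9 → Fin 9 → ℤ) =
          mu2 ![O, R, A, W, T] ![O, R, A, W, T] := rfl
      rw [e1] at h2
      have e2 : (4 : ℂ) ^ cnt (and2 [] []) = 1 := by simp [and2, cnt]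
      rw [e2, one_mul] at h2
      have e3 : Gk D (yJ z (fun _ => ![O, R, A, W, T])) (yJ z (fun _ => ![O, R, A, W, T])) k v =
          Gk 0 (yJ z (fun _ => ![O, R, A, W, T])) (yJ z (fun _ => ![O, R, A, W, T])) k () :=
        Gk_const D (fun i => yQ z i ![O, R, A, W, T]) (fun i => yQ z i ![O, R, A, W, T]) k v
      rw [e3, ← h2, phk_eq, phk_eq]
      have e4 : toH (mu2 ![O, R, A, W, T] ![O, R, A, W, T] k) = Pool.Agent.Helper17.PAK.smulH 2
          (Pool.Agent.Helper17.PAK.NBz O R A W T (un9 k)) := by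
        show toH (toF (NBp ![O, R, A, W, T] ![O, R, A, W, T] (un9 k))) = _
        rw [NBp_self]
        rfl
      rw [e4, ev_lin, ev_lin]
      simp only [sc, Pool.Agent.Helper17.PAK.smulH, toH, toF, Matrix.cons_val_zero,
        Matrix.cons_val_one, Matrix.cons_val]
      push_cast
      ring)
  rw [h1]
  ring

end Pool.Agent.Helper21.KTE
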