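import Pool.Agent.Helper21.CT.KTB
import Pool.Agent.Helper90.CX.KCT5

/-!
Row KTE (tails), part C: from the tests at the leaves to the inequality of a block at the point:
one run, and a family of runs `R ∈ [Ra, Rb]`.
-/

set_option autoImplicit false
set_option exponentiation.threshold 4000
noncomputable section
namespace Pool.Agent.Helper21.KTE

open Pool.Agent.Helper90.C75 (Vt mulT avg wtT)
open Pool.Agent.Helper90.KMT
open Pool.Agent.Helper90.KMO (UU UU_pos)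
open Pool.Agent.Helper17.KPT
open Pool.Agent.Helper86.CX (Hm ev)
open Pool.Agent.Helper86.CT (Qd KM Mo VO Alg eN)
open Complex ComplexConjugate

variable {α : Type} {D : ℕ} {lf : α → Vt D → ℂ} {A : Alg α} {t : ℕ → ℝ}

theorem nsq_nonneg (z : Fin 3 → ℂ) : 0 ≤ nsq z := by
  unfold nsq
  have h0 := Complex.normSq_nonneg (z 0)
  have h1 := Complex.normSq_nonneg (z 1)
  have h2 := Complex.normSq_nonneg (z 2)
  linarith

theorem UU3 : UU ^ 3 = 2 ^ 144 := by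
  unfold UU
  norm_num

/-- ONE RUN at the point -/
theorem run_final (hP : PT D t) {K : Hm ℝ} {P : KM α} (hK : KMK D lf t K P) {β : Type} {V : VO β}
    (hS : SgV (rws V)) {z w : Fin 3 → ℂ} {F : Fin 3 → Vt D → ℂ}
    (h : RW D t (rws V) (sg1 z) w F) {ls lam evK e c : ℝ} {sg m : ℕ} (hsg : 0 < sg)
    (hc : (sg : ℝ) = 2 * 4 ^ m * c) (hls : ls = c * Np D t (mkIF lf P) F F)
    (he : e = 3 * (2 ^ D * sg * (eN P V : ℕ)) + 1)
    (hT : (sg : ℝ) * 2 ^ 100 * 2 ^ D * (lam * (2 ^ 20 * evK)) + e * nsq z ≤ 2 ^ D * (4 ^ m * ls)) :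
    lam / 2 ^ 24 * evK + 1 / (sg * 2 ^ D * 2 ^ 144) * nsq z ≤ ev K w := by
  have h1 := run_ok hP hK hS h
  rw [UU3] at h1
  have hsg' : (0 : ℝ) < sg := by exact_mod_cast hsg
  have hD : (0 : ℝ) < 2 ^ D := by positivity
  have h4 : (0 : ℝ) < 4 ^ m := by positivity
  have hc0 : 0 < c := by
    by_contra hneg
    push Not at hneg
    have : 2 * 4 ^ m * c ≤ 0 := mul_nonpos_of_nonneg_of_nonpos (by positivity) hneg
    linarith
  have h2 := mul_le_mul_of_nonneg_left h1 (by positivity : (0 : ℝ) ≤ 2 ^ D * (4 ^ m * c))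
  have e1 : 2 ^ D * (4 ^ m * ls) = 2 ^ D * (4 ^ m * c) * Np D t (mkIF lf P) F F := by
    rw [hls]; ring
  rw [e1] at hT
  have h3 := hT.trans h2
  have e2 : 2 ^ D * (4 ^ m * c) * (2 * 2 ^ 144 * ev K w + 6 * ((eN P V : ℕ) : ℝ) * nsq z) =
      sg * 2 ^ D * 2 ^ 144 * ev K w + 3 * (2 ^ D * sg * ((eN P V : ℕ) : ℝ)) * nsq z := by
    rw [hc]; ring
  rw [e2, he] at h3
  have h5 : sg * 2 ^ D * 2 ^ 144 * (lam / 2 ^ 24 * evK + 1 / (sg * 2 ^ D * 2 ^ 144) * nsq z) ≤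
      sg * 2 ^ D * 2 ^ 144 * ev K w := by
    have e3 : sg * 2 ^ D * 2 ^ 144 * (lam / 2 ^ 24 * evK + 1 / (sg * 2 ^ D * 2 ^ 144) * nsq z) =
        (sg : ℝ) * 2 ^ 100 * 2 ^ D * (lam * (2 ^ 20 * evK)) + nsq z := by
      field_simp
    rw [e3]
    linarith
  exact le_of_mul_le_mul_left h5 (by positivity)

/-- A FAMILY OF RUNS at the point -/
theorem fam_final (hP : PT D t) {K : Hm ℝ} {P : KM α} (hK : KMK D lf t K P) {β : Type} {V : VO β}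
    (hS : SgV (rws V)) {z w0 w1 w2 : Fin 3 → ℂ} {F0 F1 F2 : Fin 3 → Vt D → ℂ}
    (h0 : RW D t (rws V) (sg1 z) w0 F0) (h1 : RW D t (rws V) (sg1 z) w1 F1)
    (h2 : RW D t (rws V) (sg1 z) w2 F2) {s : ℝ} (hs0 : 0 ≤ s) (hs1 : s ≤ 1)
    {ls0 ls1 ls2 ls3 ls4 lam lam' evK e e2 : ℝ}
    (l0 : ls0 = 4 * Np D t (mkIF lf P) F0 F0) (l1 : ls1 = 4 * Np D t (mkIF lf P) F0 F1)
    (l2 : ls2 = 4 * (Np D t (mkIF lf P) F0 F2 + 2 * Np D t (mkIF lf P) F1 F1))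
    (l3 : ls3 = 4 * Np D t (mkIF lf P) F1 F2) (l4 : ls4 = 4 * Np D t (mkIF lf P) F2 F2)
    (he : e = 3 * (4 * 2 ^ D * 32 * (eN P V : ℕ)) + 1)
    (he2 : e2 = 3 * (4 * 2 ^ D * 96 * (eN P V : ℕ)) + 1)
    (T0 : 32 * 2 ^ 100 * 2 ^ D * ((4 * lam + 0 * lam') * (2 ^ 20 * evK)) + e * nsq z ≤
      4 * 2 ^ D * (4 * ls0))
    (T1 : 32 * 2 ^ 100 * 2 ^ D * ((3 * lam + 1 * lam') * (2 ^ 20 * evK)) + e * nsq z ≤
      4 * 2 ^ D * (4 * ls1))
    (T2 : 96 * 2 ^ 100 * 2 ^ D * ((2 * lam + 2 * lam') * (2 ^ 20 * evK)) + e2 * nsq z ≤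
      4 * 2 ^ D * (4 * ls2))
    (T3 : 32 * 2 ^ 100 * 2 ^ D * ((1 * lam + 3 * lam') * (2 ^ 20 * evK)) + e * nsq z ≤
      4 * 2 ^ D * (4 * ls3))
    (T4 : 32 * 2 ^ 100 * 2 ^ D * ((0 * lam + 4 * lam') * (2 ^ 20 * evK)) + e * nsq z ≤
      4 * 2 ^ D * (4 * ls4)) :
    ((1 - s) * (lam / 2 ^ 24) + s * (lam' / 2 ^ 24)) * evK +
      1 / (384 * 2 ^ D * 2 ^ 144) * nsq z ≤ ev K (fam s w0 w1 w2) := by
  have hD : (0 : ℝ) < 2 ^ D := by positivity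
  have hz := nsq_nonneg z
  set δ : ℝ := 1 / (192 * 2 ^ D) * nsq z with hδ
  have hδ0 : 0 ≤ δ := by positivity
  have eδ : 192 * 2 ^ D * δ = nsq z := by
    rw [hδ]
    field_simp
  rw [he, l0] at T0
  rw [he, l1] at T1
  rw [he2, l2] at T2
  rw [he, l3] at T3
  rw [he, l4] at T4
  have div : ∀ x y : ℝ, 64 * 2 ^ D * x ≤ 64 * 2 ^ D * y → x ≤ y := fun x y h =>
    le_of_mul_le_mul_left h (by positivity)
  have k0 : 2 ^ 119 * ((4 * lam + 0 * lam') * evK) + δ ≤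
      Np D t (mkIF lf P) F0 F0 - 6 * (eN P V : ℕ) * nsq z := by
    apply div
    linarith
  have k1 : 2 ^ 119 * ((3 * lam + 1 * lam') * evK) + δ ≤
      Np D t (mkIF lf P) F0 F1 - 6 * (eN P V : ℕ) * nsq z := by
    apply div
    linarith
  have k2 : 3 * (2 ^ 119 * ((2 * lam + 2 * lam') * evK) + δ) ≤
      Np D t (mkIF lf P) F0 F2 + 2 * Np D t (mkIF lf P) F1 F1 - 18 * (eN P V : ℕ) * nsq z := by
    apply div
    linarith
  have k3 : 2 ^ 119 * ((1 * lam + 3 * lam') * evK) + δ ≤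
      Np D t (mkIF lf P) F1 F2 - 6 * (eN P V : ℕ) * nsq z := by
    apply div
    linarith
  have k4 : 2 ^ 119 * ((0 * lam + 4 * lam') * evK) + δ ≤
      Np D t (mkIF lf P) F2 F2 - 6 * (eN P V : ℕ) * nsq z := by
    apply div
    linarith
  have h5 := fam_ok hP hK hS h0 h1 h2 hs0 hs1 k0 k1 k2 k3 k4
  rw [UU3] at h5
  have e1 : (1 - s) ^ 4 * (2 ^ 119 * ((4 * lam + 0 * lam') * evK) + δ) +
      4 * s * (1 - s) ^ 3 * (2 ^ 119 * ((3 * lam + 1 * lam') * evK) + δ) +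
      6 * s ^ 2 * (1 - s) ^ 2 * (2 ^ 119 * ((2 * lam + 2 * lam') * evK) + δ) +
      4 * s ^ 3 * (1 - s) * (2 ^ 119 * ((1 * lam + 3 * lam') * evK) + δ) +
      s ^ 4 * (2 ^ 119 * ((0 * lam + 4 * lam') * evK) + δ) =
      2 ^ 121 * (((1 - s) * lam + s * lam') * evK) + δ := by ring
  rw [e1] at h5
  have h6 : 2 * 2 ^ 144 * (((1 - s) * (lam / 2 ^ 24) + s * (lam' / 2 ^ 24)) * evK +
      1 / (384 * 2 ^ D * 2 ^ 144) * nsq z) ≤ 2 * 2 ^ 144 * ev K (fam s w0 w1 w2) := by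
    refine le_trans (le_of_eq ?_) h5
    rw [hδ]
    field_simp
    ring
  exact le_of_mul_le_mul_left h6 (by positivity)

end Pool.Agent.Helper21.KTE
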