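import Pool.Agent.Helper17.CT.KPT3
import Pool.Agent.Helper90.CX.CT1

/-!
Row KTE (tails), part S: shapes of the scalar trees; leaves as pairs of integers.
-/

set_option autoImplicit false
noncomputable section
namespace Pool.Agent.Helper21.KTE

open Pool.Agent.Helper86.CX (Cx one1)
open Pool.Agent.Helper86.C75 (Z)
open Pool.Agent.Helper86.CT (N3 bi un Alg nx mulN invN invN1)
open Pool.Agent.Helper90.C75 (Vt)
open Pool.Agent.Helper90.KMT (lf0 nlf)
open Pool.Agent.Helper90.KMO (cz)
open Pool.Agent.Helper17.KPT

/-- the constant shape -/
def fal (n : ℕ) : List Bool := List.replicate n false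

theorem or2_fal : ∀ (n : ℕ) (l : List Bool), l.length = n → or2 (fal n) l = l
  | 0, [], _ => rfl
  | n + 1, b :: l, h => by
    have h2 := or2_fal n l (by simpa using h)
    show (false || b) :: or2 (fal n) l = b :: l
    rw [h2, Bool.false_or]
  | 0, _ :: _, h => by cases h
  | n + 1, [], h => by cases h

theorem or2_fal' : ∀ (n : ℕ) (l : List Bool), l.length = n → or2 l (fal n) = l
  | 0, [], _ => rfl
  | n + 1, b :: l, h => by
    have h2 := or2_fal' n l (by simpa using h)
    show (b || false) :: or2 l (fal n) = b :: l
    rw [h2, Bool.or_false]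
  | 0, _ :: _, h => by cases h
  | n + 1, [], h => by cases h

theorem or2_len {l l' : List Bool} {n : ℕ} (h : l.length = n) (h' : l'.length = n) :
    (or2 l l').length = n := by
  unfold or2
  rw [List.length_zipWith, h, h', Nat.min_self]

theorem and2_self (l : List Bool) : and2 l l = l := by
  induction l with
  | nil => rfl
  | cons b l ih =>
    show (b && b) :: and2 l l = b :: l
    rw [ih, Bool.and_self]

/-- shape laws of an algebra -/
structure SHL {α : Type} (n : ℕ) (S : α → List Bool → Prop) (A : Alg α) : Prop where
  len : ∀ {x l}, S x l → l.length = n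
  add : ∀ {x y l l'}, S x l → S y l' → S (A.add x y) (or2 l l')
  sub : ∀ {x y l l'}, S x l → S y l' → S (A.sub x y) (or2 l l')
  mul : ∀ {x y l l'}, S x l → S y l' → S (A.mul x y) (or2 l l')
  q4 : ∀ {x l}, S x l → S (A.q4 x) l
  cj : ∀ {x l}, S x l → S (A.cj x) l
  cs : ∀ c, S (A.cs c) (fal n)
  inv : ∀ {x l}, S x l → S (A.inv x) l

/-- shape of a leaf -/
def S0 (_ : Cx) (l : List Bool) : Prop := l = []

theorem SHL0 : SHL 0 S0 Pool.Agent.Helper86.CT.A0 := by
  refine ⟨fun h => by rw [h]; rfl, ?_, ?_, ?_, fun h => h, fun h => h, fun _ => rfl, fun h => h⟩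
  all_goals
    intro x y l l' h h'
    rw [h, h']
    rfl

section
variable {α : Type} {n : ℕ} {S : α → List Bool → Prop} {A : Alg α}

theorem SHL.nx (h : SHL n S A) : SHL (n + 1) (sh3 S) (Pool.Agent.Helper86.CT.nx A) := by
  refine ⟨?_, fun hx hy => sh3.bi (S := S) (S' := S) (S'' := S) (f := A.add)
      (fun a b => h.add a b) hx hy,
    fun hx hy => sh3.bi (S := S) (S' := S) (S'' := S) (f := A.sub) (fun a b => h.sub a b) hx hy,
    ?_, fun hx => sh3.un (S := S) (S' := S) (f := A.q4) (fun a => h.q4 a) hx,
    fun hx => sh3.un (S := S) (S' := S) (f := A.cj) (fun a => h.cj a) hx, ?_, ?_⟩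
  · intro x l hx
    cases l with
    | nil => cases x <;> exact hx.elim
    | cons b l =>
      cases x with
      | k x => cases b with
        | true => exact hx.elim
        | false => simp [h.len hx]
      | q a c d => cases b with
        | false => exact hx.elim
        | true => simp [h.len hx.1]
  · intro x y l l' hx hy
    show sh3 S (mulN A x y) (or2 l l')
    cases l with
    | nil => cases x <;> exact hx.elim
    | cons b l => cases l' with
      | nil => cases y <;> exact hy.elim
      | cons b' l' =>
        cases x with
        | k x => cases b with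
          | true => exact hx.elim
          | false => cases y with
            | k y => cases b' with
              | true => exact hy.elim
              | false => exact h.mul hx hy
            | q a c d => cases b' with
              | false => exact hy.elim
              | true => exact ⟨h.mul hx hy.1, h.mul hx hy.2.1, h.mul hx hy.2.2⟩
        | q p r s => cases b with
          | false => exact hx.elim
          | true => cases y with
            | k y => cases b' with
              | true => exact hy.elim
              | false => exact ⟨h.mul hx.1 hy, h.mul hx.2.1 hy, h.mul hx.2.2 hy⟩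
            | q a c d => cases b' with
              | false => exact hy.elim
              | true =>
                refine ⟨h.mul hx.1 hy.1, ?_, h.mul hx.2.2 hy.2.2⟩
                have h1 := h.mul hx.2.1 hy.2.1
                have h2 := h.sub hx.2.2 hx.1
                have h3 := h.sub hy.2.2 hy.1
                rw [or2_self] at h2 h3
                have h4 := h.sub h1 (h.q4 (h.mul h2 h3))
                rw [or2_self] at h4
                exact h4
  · intro c
    exact h.cs c
  · intro x l hx
    show sh3 S (invN A x) l
    cases l with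
    | nil => cases x <;> exact hx.elim
    | cons b l =>
      cases x with
      | k x => cases b with
        | true => exact hx.elim
        | false => exact h.inv hx
      | q a c d => cases b with
        | false => exact hx.elim
        | true =>
          refine ⟨h.inv hx.1, ?_, h.inv hx.2.2⟩
          have h2 := h.sub hx.2.2 hx.1
          have h3 := h.sub (h.inv hx.2.2) (h.inv hx.1)
          rw [or2_self] at h2 h3
          have h4 := h.mul h2 h3
          rw [or2_self] at h4
          have h5 := h.add (h.cs one1) (h.q4 h4)
          rw [or2_fal n l (h.len hx.1)] at h5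
          have h6 := h.mul h5 (h.inv hx.2.1)
          rw [or2_self] at h6
          exact h6

end

theorem SHL1 : SHL 1 (sh3 S0) Pool.Agent.Helper86.CT.A1 := SHL0.nx
theorem SHL2 : SHL 2 (sh3 (sh3 S0)) Pool.Agent.Helper86.CT.A2 := SHL1.nx
theorem SHL3 : SHL 3 (sh3 (sh3 (sh3 S0))) Pool.Agent.Helper86.CT.A3 := SHL2.nx
theorem SHL4 : SHL 4 (sh3 (sh3 (sh3 (sh3 S0)))) Pool.Agent.Helper86.CT.A4 := SHL3.nx

/-! ### leaves -/

/-- the leaf -/
def lc0 (x : Cx) (_ : Vt 0) : Cx := x

theorem c3_ct {α : Type} (x : N3 α) (i : Fin 3) : Pool.Agent.Helper90.KMT.c3 x i = ct x i := by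
  cases x <;> rfl

/-- the complex leaf is the value of the leaf -/
def LC {α : Type} (D : ℕ) (lf : α → Vt D → ℂ) (lc : α → Vt D → Cx) : Prop :=
  ∀ x v, lf x v = cz (lc x v)

theorem LC0 : LC 0 lf0 lc0 := fun _ _ => rfl

theorem LC.nx {α : Type} {D : ℕ} {lf : α → Vt D → ℂ} {lc : α → Vt D → Cx} (h : LC D lf lc) :
    LC (D + 1) (nlf lf) (lf3 lc) := by
  intro x v
  show lf (Pool.Agent.Helper90.KMT.c3 x v.2) v.1 = cz (lc (ct x v.2) v.1)
  rw [c3_ct]
  exact h _ _

/-- leaves of a tree of shape `l` form a function of shape `l` -/
def SF {α L : Type} (D : ℕ) (S : α → List Bool → Prop) (lc : α → Vt D → L) : Prop :=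
  ∀ {x l}, S x l → FSh D l (lc x)

theorem SF0 : SF 0 S0 lc0 := by
  intro x l h
  rw [h]
  trivial

theorem SF.nx {α L : Type} {D : ℕ} {S : α → List Bool → Prop} {lc : α → Vt D → L}
    (h : SF D S lc) : SF (D + 1) (sh3 S) (lf3 lc) := by
  intro x l hx
  cases l with
  | nil => cases x <;> exact hx.elim
  | cons b l =>
    cases x with
    | k x => cases b with
      | true => exact hx.elim
      | false => exact ⟨fun u i => rfl, h hx⟩
    | q a c d => cases b with
      | false => exact hx.elim
      | true =>
        intro i
        fin_cases i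
        · exact h hx.1
        · exact h hx.2.1
        · exact h hx.2.2

end Pool.Agent.Helper21.KTE
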