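import Pool.Agent.Helper21.CT.KTC
import Pool.Agent.Helper21.CT.KTS
import Pool.Agent.Helper17.CT.KPT9
import Pool.Agent.Helper90.CX.KCB2

/-!
Row KTE (tails), part D: zero directions of the lists of differences; bounds of the multipliers;
shapes of functions of several entries.
-/

set_option autoImplicit false
set_option exponentiation.threshold 4000
noncomputable section
namespace Pool.Agent.Helper21.KTE

open Pool.Agent.Helper90.C75 (Vt mulT avg wtT)
open Pool.Agent.Helper90.KMT
open Pool.Agent.Helper90.KMO (UU UU_pos zv cz)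
open Pool.Agent.Helper17.KPT
open Pool.Agent.Helper86.CX (Hm ev Cx mx)
open Pool.Agent.Helper86.CT (N3 DF Alg nx mxL Rw mxRw VO Mo Qd dfN)

/-! ### zero directions -/

/-- the differences vanish in the directions `false` -/
def ZS : List Bool → List DF → Prop
  | [], [] => True
  | b :: l, x :: L => (b = false → x.D = 0 ∧ x.F = 0) ∧ ZS l L
  | [], _ :: _ => False
  | _ :: _, [] => False

theorem mx_zero {a b : ℕ} (ha : a = 0) (hb : b = 0) : mx a b = 0 := by
  subst ha hb
  rfl

theorem ZS.mx : ∀ {l : List Bool} {L L' : List DF}, ZS l L → ZS l L' → ZS l (mxL L L')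
  | [], [], [], _, _ => trivial
  | [], _ :: _, _, h, _ => h.elim
  | [], [], _ :: _, _, h => h.elim
  | _ :: _, [], _, h, _ => h.elim
  | _ :: _, _ :: _, [], _, h => h.elim
  | b :: l, x :: L, y :: L', h, h' => by
    refine ⟨fun hb => ?_, h.2.mx h'.2⟩
    obtain ⟨a1, a2⟩ := h.1 hb
    obtain ⟨b1, b2⟩ := h'.1 hb
    exact ⟨mx_zero a1 b1, mx_zero a2 b2⟩

theorem ZS.of_fal : ∀ {n : ℕ} {l : List Bool} {L : List DF}, l.length = n → ZS (fal n) L → ZS l L
  | 0, [], [], _, _ => trivial
  | 0, _ :: _, _, h, _ => by cases h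
  | n + 1, [], _, h, _ => by cases h
  | 0, [], _ :: _, _, h => h.elim
  | n + 1, _ :: _, [], _, h => h.elim
  | n + 1, b :: l, x :: L, hl, h =>
    ⟨fun _ => h.1 rfl, h.2.of_fal (by simpa using hl)⟩

theorem ZS.len : ∀ {l : List Bool} {L : List DF}, ZS l L → L.length = l.length
  | [], [], _ => rfl
  | [], _ :: _, h => h.elim
  | _ :: _, [], h => h.elim
  | _ :: l, _ :: L, h => by
    rw [List.length_cons, List.length_cons, h.2.len]

theorem ZS.az : ∀ {l : List Bool} {L : List DF}, ZS l L → cnt l = 0 → AZ L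
  | [], [], _, _ => fun x hx => by cases hx
  | [], _ :: _, h, _ => h.elim
  | _ :: _, [], h, _ => h.elim
  | b :: l, x :: L, h, hc => by
    have hb : b = false := by
      cases b with
      | false => rfl
      | true => simp [cnt] at hc
    subst hb
    have hc2 : cnt l = 0 := by simpa [cnt] using hc
    intro y hy
    rcases List.mem_cons.1 hy with rfl | hy
    · exact h.1 rfl
    · exact h.2.az hc2 y hy

/-- at most one active variable -/
theorem ZS.sg : ∀ {l : List Bool} {L L' : List DF}, ZS l L → ZS l L' → cnt l ≤ 1 → Sg L L'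
  | _, [], _, _, _, _ => by simp [Sg]
  | _, _ :: _, [], _, _, _ => by simp [Sg]
  | [], _ :: _, _ :: _, h, _, _ => h.elim
  | b :: l, x :: L, y :: L', h, h', hc => by
    cases b with
    | false =>
      have hc2 : cnt l ≤ 1 := by simpa [cnt] using hc
      obtain ⟨a1, a2⟩ := h.1 rfl
      obtain ⟨b1, b2⟩ := h'.1 rfl
      exact Or.inl ⟨a1, a2, b1, b2, h.2.sg h'.2 hc2⟩
    | true =>
      have hc2 : cnt l = 0 := by
        have : cnt l + 1 ≤ 1 := by simpa [cnt] using hc
        omega
      exact Or.inr ⟨h.2.az hc2, h'.2.az hc2⟩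

/-- the law of the zero directions of an algebra -/
def DZ {α : Type} (S : α → List Bool → Prop) (A : Alg α) : Prop :=
  ∀ {x : α} {l : List Bool}, S x l → ZS l (A.df x)

theorem DZ0 : DZ S0 Pool.Agent.Helper86.CT.A0 := by
  intro x l h
  rw [show l = [] from h]
  trivial

theorem DZ.nx {α : Type} {S : α → List Bool → Prop} {A : Alg α} (h : DZ S A) :
    DZ (sh3 S) (Pool.Agent.Helper86.CT.nx A) := by
  intro x l hx
  cases l with
  | nil => cases x <;> exact hx.elim
  | cons b l =>
    cases x with
    | k x => cases b with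
      | true => exact hx.elim
      | false => exact ⟨fun _ => ⟨rfl, rfl⟩, h hx⟩
    | q a c d => cases b with
      | false => exact hx.elim
      | true => exact ⟨fun hb => absurd hb (by decide), (h hx.1).mx ((h hx.2.1).mx (h hx.2.2))⟩

theorem DZ1 : DZ (sh3 S0) Pool.Agent.Helper86.CT.A1 := DZ0.nx
theorem DZ2 : DZ (sh3 (sh3 S0)) Pool.Agent.Helper86.CT.A2 := DZ1.nx
theorem DZ3 : DZ (sh3 (sh3 (sh3 S0))) Pool.Agent.Helper86.CT.A3 := DZ2.nx
theorem DZ4 : DZ (sh3 (sh3 (sh3 (sh3 S0)))) Pool.Agent.Helper86.CT.A4 := DZ3.nx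

/-- the side condition of a run from the zero directions of its rows -/
theorem sgV_of {β : Type} {V : VO β} {l : List Bool} (hc : cnt l ≤ 1) (h0 : ZS l V.r0.l)
    (h1 : ZS l V.r1.l) (h2 : ZS l V.r2.l) : SgV (rws V) := by
  have k : ∀ i, ZS l (rws V i).l := by
    intro i
    fin_cases i
    · exact h0
    · exact h1
    · exact h2
  exact ⟨fun i j => (k i).sg (k j) hc⟩

/-! ### shapes of functions -/

section

variable {X Y W : Type}

theorem FSh.orl {D : ℕ} {l l' : List Bool} {I : Vt D → X} (h : FSh D l I) (hl : l'.length = D) :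
    FSh D (or2 l l') I := by
  induction D generalizing l l' with
  | zero =>
    cases l with
    | cons b l => exact h.elim
    | nil => cases l' with
      | nil => trivial
      | cons b l' => cases hl
  | succ D ih =>
    cases l with
    | nil => exact h.elim
    | cons b l => cases l' with
      | nil => cases hl
      | cons b' l' =>
        have hl2 : l'.length = D := by simpa using hl
        cases b with
        | true => exact fun i => ih (h.slice i) hl2
        | false => cases b' with
          | true => exact fun i => ih (h.slice i) hl2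
          | false => exact ⟨h.1, ih h.2 hl2⟩

theorem or2_comm : ∀ l l' : List Bool, or2 l l' = or2 l' l
  | [], [] => rfl
  | [], _ :: _ => rfl
  | _ :: _, [] => rfl
  | b :: l, b' :: l' => by
    show (b || b') :: or2 l l' = (b' || b) :: or2 l' l
    rw [Bool.or_comm, or2_comm l l']

theorem FSh.orr {D : ℕ} {l l' : List Bool} {I : Vt D → X} (h : FSh D l I) (hl : l'.length = D) :
    FSh D (or2 l' l) I := by
  rw [or2_comm]
  exact FSh.orl h hl

theorem FSh.map2' {D : ℕ} {l l' : List Bool} {I : Vt D → X} {J : Vt D → Y} (h : FSh D l I)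
    (h' : FSh D l' J) (f : X → Y → W) : FSh D (or2 l l') (fun u => f (I u) (J u)) :=
  (FSh.orl h h'.len).map2 (FSh.orr h' h.len) f

end

/-- the shape of the leaves of a matrix -/
theorem qI_FSh {α : Type} {D : ℕ} {Sa : α → List Bool → Prop} {lC : α → Vt D → Cx}
    (hf : SF D Sa lC) {Q : Qd α} {l : List Bool} (h : QSh Sa Q l) : FSh D l (qI lC Q) := by
  obtain ⟨a, b, c, d, h1, h2, h3, h4, rfl⟩ := h.ex
  have k1 := FSh.map2' (hf h1) (hf h2) (fun x y => (x, y))
  have k2 := FSh.map2' (hf h3) (hf h4) (fun x y => (x, y))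
  exact FSh.map2' k1 k2 (fun x y => (![2 ^ 48, zv x.1.re, zv x.2.re, zv y.1.re, zv y.2.re] :
    Fin 5 → ℤ))

/-! ### bounds of the multipliers -/

theorem mu2_bd {a b : ℤ} {x y : Fin 5 → ℤ} (hx : ∀ i, |x i| ≤ a) (hy : ∀ i, |y i| ≤ b)
    (k : Fin 9) : Bf (8 * (a * b)) (mu2 x y k) := by
  have p : ∀ i j, |x i * y j| ≤ a * b := by
    intro i j
    rw [abs_mul]
    exact mul_le_mul (hx i) (hy j) (abs_nonneg _) ((abs_nonneg _).trans (hx i))
  have q : ∀ i j, x i * y j ≤ a * b := fun i j => (abs_le.1 (p i j)).2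
  have r : ∀ i j, -(a * b) ≤ x i * y j := fun i j => (abs_le.1 (p i j)).1
  have q00 := q 0 0
  have q01 := q 0 1
  have q10 := q 1 0
  have q11 := q 1 1
  have q12 := q 1 2
  have q21 := q 2 1
  have q22 := q 2 2
  have q02 := q 0 2
  have q20 := q 2 0
  have q03 := q 0 3
  have q30 := q 3 0
  have q13 := q 1 3
  have q31 := q 3 1
  have q23 := q 2 3
  have q32 := q 3 2
  have q33 := q 3 3
  have q04 := q 0 4
  have q40 := q 4 0
  have q14 := q 1 4
  have q41 := q 4 1
  have q24 := q 2 4
  have q42 := q 4 2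
  have q34 := q 3 4
  have q43 := q 4 3
  have q44 := q 4 4
  have r00 := r 0 0
  have r01 := r 0 1
  have r10 := r 1 0
  have r11 := r 1 1
  have r12 := r 1 2
  have r21 := r 2 1
  have r22 := r 2 2
  have r02 := r 0 2
  have r20 := r 2 0
  have r03 := r 0 3
  have r30 := r 3 0
  have r13 := r 1 3
  have r31 := r 3 1
  have r23 := r 2 3
  have r32 := r 3 2
  have r33 := r 3 3
  have r04 := r 0 4
  have r40 := r 4 0
  have r14 := r 1 4
  have r41 := r 4 1
  have r24 := r 2 4
  have r42 := r 4 2
  have r34 := r 3 4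
  have r43 := r 4 3
  have r44 := r 4 4
  have hab : 0 ≤ a * b := (abs_nonneg _).trans (p 0 0)
  clear p q r hx hy
  intro i
  fin_cases k <;> fin_cases i <;>
  · simp only [mu2, un9, toF, NBp, Matrix.cons_val_zero, Matrix.cons_val_one,
      Matrix.cons_val, Fin.isValue, Fin.zero_eta, Fin.mk_one, Fin.reduceFinMk]
    rw [abs_le]
    constructor <;> linarith

end Pool.Agent.Helper21.KTE
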