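import Pool.Agent.Helper21.CT.KTD

/-!
Row KTE (tails), part F: the sums of the leaves for the runs of a program; positivity of the
target form from the tests of one source: one run, a family of runs.
-/

set_option autoImplicit false
set_option exponentiation.threshold 4000
noncomputable section
namespace Pool.Agent.Helper21.KTE

open Pool.Agent.Helper90.C75 (Vt mulT avg wtT avg_add)
open Pool.Agent.Helper90.KMT
open Pool.Agent.Helper90.KMO (UU UU_pos zv cz)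
open Pool.Agent.Helper17.KPT
open Pool.Agent.Helper17.PAK (sc nrm)
open Pool.Agent.Helper86.CX (Hm ev Cx P9 VR SE)
open Pool.Agent.Helper86.CT (N3 DF Alg Rw VO Mo Qd KM Mc Mq BT PT eN chP)
open Complex ComplexConjugate

variable {D : ℕ} {t : ℕ → ℝ}

/-! ### the sums of the leaves -/

theorem SN_LS (I : Vt D → Fin 9 → ℤ) (J : Vt D → Fin 9 → Fin 9 → ℤ) (w : Fin 3 → ℂ) :
    SN D t I J w = LS D t I J w := by
  unfold SN LS
  rw [avg_sum']
  congr 1
  refine Finset.sum_congr rfl fun k _ => ?_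
  congr 1
  have e : (fun u => fz w (J u k)) = fun u => phk w k (J u) := by
    funext u
    rw [fz_ev, phk_eq]
  rw [e]

theorem SN_add (I : Vt D → Fin 9 → ℤ) (J J' : Vt D → Fin 9 → Fin 9 → ℤ) (w : Fin 3 → ℂ) :
    SN D t I (fun v => J v + J' v) w = SN D t I J w + SN D t I J' w := by
  rw [SN_LS, SN_LS, SN_LS, LS_add]

theorem IFN_PI {α : Type} {lC : α → Vt D → Cx} {lf : α → Vt D → ℂ} (hc : CL D lC lf) (P : KM α) :
    IFN (PI lC P) = mkIF lf P := by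
  have k : ∀ x v, ((lf x v).re : ℝ) = ((zv (lC x v).re : ℤ) : ℝ) := by
    intro x v
    rw [← hc]
    rfl
  have c : ∀ x v, (((zv (lC x v).re : ℤ) : ℂ) + ((zv (lC x v).im : ℤ) : ℂ) * I) = lf x v := by
    intro x v
    rw [← hc]
    apply Complex.ext
    · simp only [Complex.add_re, Complex.mul_re, Complex.I_re, Complex.I_im, Complex.intCast_re,
        Complex.intCast_im]
      show _ = ((zv (lC x v).re : ℤ) : ℝ)
      ring
    · simp only [Complex.add_im, Complex.mul_im, Complex.I_re, Complex.I_im, Complex.intCast_re,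
        Complex.intCast_im]
      show _ = ((zv (lC x v).im : ℤ) : ℝ)
      ring
  unfold IFN mkIF
  congr 1
  · funext v
    show ((zv (lC P.a.v v).re - ((P.a.r + P.x.r + P.y.r : ℕ) : ℤ) : ℤ) : ℝ) = _
    rw [k]
    push_cast
    ring
  · funext v
    show ((zv (lC P.b.v v).re - ((P.b.r + P.x.r + P.w.r : ℕ) : ℤ) : ℤ) : ℝ) = _
    rw [k]
    push_cast
    ring
  · funext v
    show ((zv (lC P.c.v v).re - ((P.c.r + P.y.r + P.w.r : ℕ) : ℤ) : ℤ) : ℝ) = _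
    rw [k]
    push_cast
    ring
  · funext v
    exact c P.x.v v
  · funext v
    exact c P.y.v v
  · funext v
    exact c P.w.v v

/-- a constant multiplier -/
theorem SN_const {α : Type} {lC : α → Vt D → Cx} {lf : α → Vt D → ℂ} (hc : CL D lC lf) (P : KM α)
    (O R A W T : ℤ) (z : Fin 3 → ℂ) :
    SN D t (PI lC P) (fun _ k => toF (Pool.Agent.Helper17.PAK.NBz O R A W T (un9 k))) z =
      1 / 2 * Np D t (mkIF lf P) (yJ z (fun _ => ![O, R, A, W, T]))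
        (yJ z (fun _ => ![O, R, A, W, T])) := by
  have h := LS_const t (PI lC P) O R A W T z
  rw [IFN_PI hc] at h
  rw [SN_LS]
  linarith

/-! ### positivity -/

theorem nsq_eq (z : Fin 3 → ℂ) : nsq z = nrm z := rfl

section

variable {α β p v γ : Type} {lC : α → Vt D → Cx} {lf : α → Vt D → ℂ}
  {mf : (ℕ → ℝ) → β → (ℕ → ℝ) → ℝ} {lp : p → Vt D → P9} {lv : v → Vt D → VR}
  {lg : γ → Vt D → ℕ} {Sp : p → List Bool → Prop} {Sv : v → List Bool → Prop}
  {Sg : γ → List Bool → Prop} {M : Mc α β p v γ}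

/-- the inequality of one source when the form of the source is positive -/
theorem src_nonneg (hM : MK D lC lf mf lp lv lg Sp Sv Sg M) (ht : Pool.Agent.Helper90.KMT.PT D t)
    {K : Hm ℝ} {P : KM α} (hK : KMK D lf t K P) {KT LT : β} {b : List (BT v)}
    (h : chP M KT LT b P = true) {B : BT v} (hB : B ∈ b) {J : Vt D → Fin 9 → Fin 9 → ℤ}
    {l : List Bool} (hV : VK D lv Sv B.V J l) {y : SE} (hy : y ∈ B.s) {w : Fin 3 → ℂ}
    (h0 : 0 ≤ ev (KTab mf KT y.k t) w) (hl : 0 ≤ lamI mf LT y.l t)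
    (hl' : 0 ≤ lamI mf LT (y.l + B.V.dl) t) :
    (3 * ((B.V.ca + B.V.cb) * 2 ^ D * B.V.sg * (eN P B.V : ℕ)) + 1) * nsq w ≤
      (B.V.ca + B.V.cb) * 2 ^ D * 4 ^ cnt l * SN D t (PI lC P) J w := by
  have h1 := src_sound hM ht hK h hB hV hy w
  have h2 : 0 ≤ (B.V.sg : ℝ) * 2 ^ 120 * 2 ^ D * ((B.V.ca * lamI mf LT y.l t +
      B.V.cb * lamI mf LT (y.l + B.V.dl) t) * ev (KTab mf KT y.k t) w) := by positivity
  rw [nsq_eq]
  linarith

end

section

variable {α : Type} {lf : α → Vt D → ℂ}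

/-- ONE RUN: positivity of the target -/
theorem run_pos (hP : Pool.Agent.Helper90.KMT.PT D t) {K : Hm ℝ} {P : KM α}
    (hK : KMK D lf t K P) {β : Type} {V : VO β} (hS : SgV (rws V)) {z w : Fin 3 → ℂ}
    {F : Fin 3 → Vt D → ℂ} (h : RW D t (rws V) (sg1 z) w F) (hz : 0 < nsq z) {c : ℝ} {sg : ℕ}
    (hc0 : 0 ≤ c) (hc : 2 * c ≤ sg)
    (hT : (3 * (2 ^ D * sg * (eN P V : ℕ)) + 1) * nsq z ≤ 2 ^ D * (c * Np D t (mkIF lf P) F F)) :
    0 < ev K w := by
  have h1 := run_ok hP hK hS h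
  have hU := UU_pos
  have hD : (0 : ℝ) < 2 ^ D := by positivity
  have he : (0 : ℝ) ≤ (eN P V : ℕ) := Nat.cast_nonneg _
  have hsg : (0 : ℝ) ≤ sg := Nat.cast_nonneg _
  have hN : 0 ≤ Np D t (mkIF lf P) F F := by
    by_contra hneg
    push Not at hneg
    have h2 : 2 ^ D * (c * Np D t (mkIF lf P) F F) ≤ 0 :=
      mul_nonpos_of_nonneg_of_nonpos hD.le (mul_nonpos_of_nonneg_of_nonpos hc0 hneg.le)
    have h3 : 0 < (3 * (2 ^ D * sg * ((eN P V : ℕ) : ℝ)) + 1) * nsq z := by positivity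
    linarith
  have h2 : 2 ^ D * (c * Np D t (mkIF lf P) F F) ≤ 2 ^ D * (sg / 2 * Np D t (mkIF lf P) F F) := by
    apply mul_le_mul_of_nonneg_left _ hD.le
    apply mul_le_mul_of_nonneg_right _ hN
    linarith
  have h3 := hT.trans h2
  have h4 := mul_le_mul_of_nonneg_left h1 (by positivity : (0 : ℝ) ≤ 2 ^ D * (sg / 2))
  have h5 : nsq z ≤ 2 ^ D * sg * (UU ^ 3 * ev K w) := by linarith
  have h6 : 0 < 2 ^ D * sg * (UU ^ 3 * ev K w) := lt_of_lt_of_le hz h5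
  have h7 : 0 < UU ^ 3 * ev K w := pos_of_mul_pos_right h6 (by positivity)
  exact pos_of_mul_pos_right h7 (by positivity)

/-- A FAMILY OF RUNS: positivity of the target -/
theorem fam_pos (hP : Pool.Agent.Helper90.KMT.PT D t) {K : Hm ℝ} {P : KM α}
    (hK : KMK D lf t K P) {β : Type} {V : VO β}
    (hS : SgV (rws V)) {z w0 w1 w2 : Fin 3 → ℂ} {F0 F1 F2 : Fin 3 → Vt D → ℂ}
    (h0 : RW D t (rws V) (sg1 z) w0 F0) (h1 : RW D t (rws V) (sg1 z) w1 F1)
    (h2 : RW D t (rws V) (sg1 z) w2 F2) {s : ℝ} (hs0 : 0 ≤ s) (hs1 : s ≤ 1)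
    (hz : 0 < nsq z) {c : ℝ} (hc0 : 0 ≤ c) (hc : c ≤ 16)
    (T0 : (3 * (4 * 2 ^ D * 32 * (eN P V : ℕ)) + 1) * nsq z ≤
      4 * 2 ^ D * (c * Np D t (mkIF lf P) F0 F0))
    (T1 : (3 * (4 * 2 ^ D * 32 * (eN P V : ℕ)) + 1) * nsq z ≤
      4 * 2 ^ D * (c * Np D t (mkIF lf P) F0 F1))
    (T2 : (3 * (4 * 2 ^ D * 96 * (eN P V : ℕ)) + 1) * nsq z ≤
      4 * 2 ^ D * (c * (Np D t (mkIF lf P) F0 F2 + 2 * Np D t (mkIF lf P) F1 F1)))
    (T3 : (3 * (4 * 2 ^ D * 32 * (eN P V : ℕ)) + 1) * nsq z ≤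
      4 * 2 ^ D * (c * Np D t (mkIF lf P) F1 F2))
    (T4 : (3 * (4 * 2 ^ D * 32 * (eN P V : ℕ)) + 1) * nsq z ≤
      4 * 2 ^ D * (c * Np D t (mkIF lf P) F2 F2)) :
    0 < ev K (fam s w0 w1 w2) := by
  have hU := UU_pos
  have hD : (0 : ℝ) < 2 ^ D := by positivity
  have he : (0 : ℝ) ≤ (eN P V : ℕ) := Nat.cast_nonneg _
  set δ : ℝ := 1 / (192 * 2 ^ D) * nsq z with hδ
  have hδ0 : 0 < δ := by positivity
  have eδ : 192 * 2 ^ D * δ = nsq z := by
    rw [hδ]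
    field_simp
  have key : ∀ {a x : ℝ}, 0 < a → a ≤ 4 * 2 ^ D * (c * x) → a ≤ 64 * 2 ^ D * x := by
    intro a x ha hx
    have hx0 : 0 ≤ x := by
      by_contra hneg
      push Not at hneg
      have : 4 * 2 ^ D * (c * x) ≤ 0 :=
        mul_nonpos_of_nonneg_of_nonpos (by positivity) (mul_nonpos_of_nonneg_of_nonpos hc0 hneg.le)
      linarith
    have h5 : c * x ≤ 16 * x := mul_le_mul_of_nonneg_right hc hx0
    have h6 := mul_le_mul_of_nonneg_left h5 (by positivity : (0 : ℝ) ≤ 4 * 2 ^ D)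
    linarith
  have p32 : 0 < (3 * (4 * 2 ^ D * 32 * ((eN P V : ℕ) : ℝ)) + 1) * nsq z := by positivity
  have p96 : 0 < (3 * (4 * 2 ^ D * 96 * ((eN P V : ℕ) : ℝ)) + 1) * nsq z := by positivity
  have U0 := key p32 T0
  have U1 := key p32 T1
  have U2 := key p96 T2
  have U3 := key p32 T3
  have U4 := key p32 T4
  have div : ∀ x y : ℝ, 64 * 2 ^ D * x ≤ 64 * 2 ^ D * y → x ≤ y := fun x y h =>
    le_of_mul_le_mul_left h (by positivity)
  have k0 : δ ≤ Np D t (mkIF lf P) F0 F0 - 6 * (eN P V : ℕ) * nsq z := by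
    apply div
    nlinarith
  have k1 : δ ≤ Np D t (mkIF lf P) F0 F1 - 6 * (eN P V : ℕ) * nsq z := by
    apply div
    nlinarith
  have k2 : 3 * δ ≤ Np D t (mkIF lf P) F0 F2 + 2 * Np D t (mkIF lf P) F1 F1 -
      18 * (eN P V : ℕ) * nsq z := by
    apply div
    nlinarith
  have k3 : δ ≤ Np D t (mkIF lf P) F1 F2 - 6 * (eN P V : ℕ) * nsq z := by
    apply div
    nlinarith
  have k4 : δ ≤ Np D t (mkIF lf P) F2 F2 - 6 * (eN P V : ℕ) * nsq z := by
    apply div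
    nlinarith
  have h5 := fam_ok hP hK hS h0 h1 h2 hs0 hs1 k0 k1 k2 k3 k4
  have e1 : (1 - s) ^ 4 * δ + 4 * s * (1 - s) ^ 3 * δ + 6 * s ^ 2 * (1 - s) ^ 2 * δ +
      4 * s ^ 3 * (1 - s) * δ + s ^ 4 * δ = δ := by ring
  rw [e1] at h5
  have h6 : 0 < 2 * UU ^ 3 * ev K (fam s w0 w1 w2) := lt_of_lt_of_le hδ0 h5
  exact pos_of_mul_pos_right h6 (by positivity)

end

end Pool.Agent.Helper21.KTE
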