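import Pool.Agent.Helper21.CT.KTF
import Pool.Agent.Helper21.CT.KRN

/-!
Row KTE (tails), part G: the matrices of the tail stars (shapes, zero directions, bounds), the
runs of a program at a point: one run, families, runs of exact stars.
-/

set_option autoImplicit false
set_option exponentiation.threshold 4000
noncomputable section
namespace Pool.Agent.Helper21.KTE

open Pool.Agent.Helper90.C75 (Vt mulT avg wtT avg_add)
open Pool.Agent.Helper90.KMT
open Pool.Agent.Helper90.KMO (UU UU_pos zv cz)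
open Pool.Agent.Helper17.KPT
open Pool.Agent.Helper17.PAK (sc nrm)
open Pool.Agent.Helper86.C75 (Z)
open Pool.Agent.Helper86.CX (Hm ev Cx P9 VR SE andB BA)
open Pool.Agent.Helper86.CT (N3 DF Alg Rw VO Mo Qd KM Mc Mq BT eN chP mkQd qm2 qm3 qf SM R1M SOK
  rw0 rw1 rw2 mxRw mulM addM subM invM cst row0 vo1 voB vo0 vo1' vo2 vo3 vo4 r3x)
open Pool.Agent.Helper21.KRN (kC)
open Complex ComplexConjugate

variable {D : ℕ} {t : ℕ → ℝ}

/-! ### bounds of leaves -/

section

variable {α : Type} {lf : α → Vt D → ℂ} {A : Alg α}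

/-- a bound of the leaves -/
def LB (lf : α → Vt D → ℂ) (x : α) (b : ℝ) : Prop := ∀ u, ‖lf x u‖ ≤ b

theorem LB.add (hA : AOK D lf A) {x y : α} {a b : ℝ} (hx : LB lf x a) (hy : LB lf y b) :
    LB lf (A.add x y) (a + b) := by
  intro u
  rw [hA.law.hadd]
  exact (norm_add_le _ _).trans (add_le_add (hx u) (hy u))

theorem LB.sub (hA : AOK D lf A) {x y : α} {a b : ℝ} (hx : LB lf x a) (hy : LB lf y b) :
    LB lf (A.sub x y) (a + b) := by
  intro u
  rw [hA.law.hsub]
  exact (norm_sub_le _ _).trans (add_le_add (hx u) (hy u))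

theorem cnt_and2_le : ∀ l l' : List Bool, cnt (and2 l l') ≤ cnt l'
  | [], _ => by simp [and2, cnt]
  | _ :: _, [] => by simp [and2, cnt]
  | b :: l, b' :: l' => by
    have h := cnt_and2_le l l'
    have e : and2 (b :: l) (b' :: l') = (b && b') :: and2 l l' := rfl
    rw [e]
    unfold cnt at h ⊢
    cases b <;> cases b' <;> simp <;> omega

/-- a product of two functions with common active directions -/
theorem mulT_bdS : ∀ (D : ℕ) {F G : Vt D → ℂ} {l l' : List Bool} {a b : ℝ}, 0 ≤ a → 0 ≤ b →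
    FSh D l F → FSh D l' G → (∀ u, ‖F u‖ ≤ a) →
    (∀ u, ‖G u‖ ≤ b) → ∀ u, ‖mulT D F G u‖ ≤ 2 ^ cnt (and2 l l') * (a * b)
  | 0, F, G, l, l', a, b, ha, hb, sF, sG, hF, hG, u => by
    have h1 : (1 : ℝ) ≤ 2 ^ cnt (and2 l l') := one_le_pow₀ (by norm_num)
    have h2 : ‖mulT 0 F G u‖ ≤ a * b := by
      show ‖F u * G u‖ ≤ a * b
      rw [norm_mul]
      exact mul_le_mul (hF u) (hG u) (norm_nonneg _) ha
    have h3 := mul_le_mul_of_nonneg_right h1 (mul_nonneg ha hb)
    linarith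
  | D + 1, F, G, [], _, _, _, _, _, sF, _, _, _, _ => sF.elim
  | D + 1, F, G, _ :: _, [], _, _, _, _, _, sG, _, _, _ => sG.elim
  | D + 1, F, G, c :: l, c' :: l', a, b, ha, hb, sF, sG, hF, hG, u => by
    have e : and2 (c :: l) (c' :: l') = (c && c') :: and2 l l' := rfl
    rw [e]
    simp only [mulT]
    have hp : (0 : ℝ) ≤ 2 ^ cnt (and2 l l') * (a * b) := by positivity
    have mono : (2 : ℝ) ^ cnt (and2 l l') * (a * b) ≤
        2 ^ cnt ((c && c') :: and2 l l') * (a * b) := by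
      apply mul_le_mul_of_nonneg_right _ (mul_nonneg ha hb)
      apply pow_le_pow_right₀ (by norm_num)
      unfold cnt
      cases (c && c') <;> simp
    by_cases h : u.2 = 1
    · rw [if_pos h]
      have h1 := mulT_bdS D ha hb (sF.slice 1) (sG.slice 1)
        (fun v => hF _) (fun v => hG _) u.1
      by_cases hc : (c && c') = true
      · have h2 := mulT_bdS D (a := a + a) (b := b + b) (by linarith) (by linarith)
          ((sF.slice 2).map2 (sF.slice 0) (fun x y => x - y))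
          ((sG.slice 2).map2 (sG.slice 0) (fun x y => x - y))
          (fun v => (norm_sub_le _ _).trans (add_le_add (hF _) (hF _)))
          (fun v => (norm_sub_le _ _).trans (add_le_add (hG _) (hG _))) u.1
        refine (norm_sub_le _ _).trans ?_
        rw [norm_div, hc]
        have h4 : ‖(4 : ℂ)‖ = 4 := by norm_num
        rw [h4]
        have e2 : (2 : ℝ) ^ cnt (and2 l l') * ((a + a) * (b + b)) =
            4 * (2 ^ cnt (and2 l l') * (a * b)) := by ring
        rw [e2] at h2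
        have e3 : cnt (true :: and2 l l') = cnt (and2 l l') + 1 := by simp [cnt]
        rw [e3, pow_succ]
        linarith
      · have hz : (fun v : Vt D => F (v, 2) - F (v, 0)) = (fun _ => (0 : ℂ)) ∨
            (fun v : Vt D => G (v, 2) - G (v, 0)) = fun _ => (0 : ℂ) := by
          cases c with
          | false =>
            left
            funext v
            rw [sF.1 v 2, sub_self]
          | true => cases c' with
            | false =>
              right
              funext v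
              rw [sG.1 v 2, sub_self]
            | true => exact absurd rfl hc
        have h3 : mulT D (fun v => F (v, 2) - F (v, 0)) (fun v => G (v, 2) - G (v, 0)) u.1 = 0 := by
          rcases hz with hz | hz
          · rw [hz, mulT_zero_left]
          · rw [hz, mulT_zero_right]
        rw [h3, zero_div, sub_zero]
        exact h1.trans mono
    · rw [if_neg h]
      have h1 := mulT_bdS D ha hb (sF.slice u.2) (sG.slice u.2)
        (fun v => hF _) (fun v => hG _) u.1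
      exact h1.trans mono

theorem LB.mul (hA : AOK D lf A) (hP : Pool.Agent.Helper90.KMT.PT D t) {x y : α} {a b : ℝ}
    {l l' : List Bool} (sx : FSh D l (lf x)) (sy : FSh D l' (lf y)) (hl : cnt l' ≤ 1)
    (ha : 0 ≤ a) (hb : 0 ≤ b) (hx : LB lf x a) (hy : LB lf y b) :
    LB lf (A.mul x y) (2 * (a * b) / UU + 13) := by
  intro u
  have hU := UU_pos
  have h1 := hA.law.hmul x y u
  have h2 := mulT_bdS D ha hb sx sy hx hy u
  have h3 := hP.e
  have h4 : lf (A.mul x y) u = (lf (A.mul x y) u - mulT D (lf x) (lf y) u / UU) +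
      mulT D (lf x) (lf y) u / UU := by ring
  rw [h4]
  refine (norm_add_le _ _).trans ?_
  rw [norm_div]
  have h5 : ‖(UU : ℂ)‖ = UU := by
    rw [Complex.norm_real, Real.norm_eq_abs, abs_of_pos hU]
  rw [h5]
  have h6 : (2 : ℝ) ^ cnt (and2 l l') ≤ 2 := by
    calc (2 : ℝ) ^ cnt (and2 l l') ≤ 2 ^ 1 :=
          pow_le_pow_right₀ (by norm_num) ((cnt_and2_le l l').trans hl)
      _ = 2 := by norm_num
  have h7 : (2 : ℝ) ^ cnt (and2 l l') * (a * b) ≤ 2 * (a * b) :=
    mul_le_mul_of_nonneg_right h6 (mul_nonneg ha hb)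
  have h8 := div_le_div_of_nonneg_right (h2.trans h7) hU.le
  linarith

theorem LB.cs (hA : AOK D lf A) (c r : ℕ) : LB lf (cst A c r).v c := by
  intro u
  show ‖lf (A.cs ⟨Z.p c, Z.p (nat_lit 0)⟩) u‖ ≤ c
  rw [hA.cst]
  have e : cz ⟨Z.p c, Z.p (nat_lit 0)⟩ = (c : ℂ) := by
    apply Complex.ext
    · show ((zv (Z.p c) : ℤ) : ℝ) = _
      rw [Pool.Agent.Helper90.KMO.zv_p]; simp
    · show ((zv (Z.p (nat_lit 0)) : ℤ) : ℝ) = _
      rw [Pool.Agent.Helper90.KMO.zv_p]; simp
  rw [e, Complex.norm_natCast]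

theorem LB.mono {x : α} {a b : ℝ} (h : LB lf x a) (hab : a ≤ b) : LB lf x b :=
  fun u => (h u).trans hab

theorem LB.zv {lC : α → Vt D → Cx} (hc : CL D lC lf) {x : α} {b : ℤ} (h : LB lf x b) (u : Vt D) :
    |zv (lC x u).re| ≤ b := by
  have h1 := h u
  rw [← hc] at h1
  have h2 := Complex.abs_re_le_norm (cz (lC x u))
  have e1 : (cz (lC x u)).re = ((Pool.Agent.Helper90.KMO.zv (lC x u).re : ℤ) : ℝ) := rfl
  rw [e1] at h2
  exact_mod_cast h2.trans h1

/-! ### good matrices -/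

/-- a matrix of models with at most the active variables of `l` -/
structure QG (lC : α → Vt D → Cx) (Sa : α → List Bool → Prop) (A : Alg α) (l : List Bool)
    (X : Qd α) : Prop where
  sh : QSh Sa X l
  z0 : ZS l (rw0 A X).l
  z1 : ZS l (rw1 X).l
  z2 : ZS l (rw2 X).l
  bd : ∀ u i, |qI lC X u i| ≤ 2 ^ 56 + 2 ^ 50

theorem qd_bd {lC : α → Vt D → Cx} (hc : CL D lC lf) (hA : AOK D lf A)
    (hP : Pool.Agent.Helper90.KMT.PT D t) {r rr S : Mo α} {a l : List Bool}
    (s1 : FSh D a (lf (A.add r.v r.v))) (s2 : FSh D l (lf S.v)) (hl : cnt l ≤ 1)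
    (h1 : LB lf r.v (2 ^ 50))
    (h2 : LB lf rr.v (2 ^ 54)) (h3 : LB lf S.v (2 ^ 50)) (u : Vt D) (i : Fin 5) :
    |qI lC (mkQd A r rr S) u i| ≤ 2 ^ 56 + 2 ^ 50 := by
  have kR : LB lf r.v ((2 ^ 56 + 2 ^ 50 : ℤ)) := h1.mono (by push_cast; norm_num)
  have kA : LB lf (A.sub rr.v S.v) ((2 ^ 56 + 2 ^ 50 : ℤ)) :=
    (h2.sub hA h3).mono (by push_cast; norm_num)
  have kW : LB lf (A.add rr.v S.v) ((2 ^ 56 + 2 ^ 50 : ℤ)) :=
    (h2.add hA h3).mono (by push_cast; norm_num)
  have kT : LB lf (A.mul (A.add r.v r.v) S.v) ((2 ^ 56 + 2 ^ 50 : ℤ)) :=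
    (LB.mul hA hP s1 s2 hl (by norm_num) (by norm_num) (h1.add hA h1) h3).mono (by
      unfold UU
      push_cast
      norm_num)
  fin_cases i
  · show |(2 : ℤ) ^ 48| ≤ _
    norm_num
  · exact LB.zv hc kR u
  · exact LB.zv hc kA u
  · exact LB.zv hc kW u
  · exact LB.zv hc kT u

variable {Sa : α → List Bool → Prop}

/-- the shape of the complex leaves -/
theorem lf_FSh {lC : α → Vt D → Cx} (hc : CL D lC lf) (hf : SF D Sa lC) {x : α} {c : List Bool}
    (h : Sa x c) : FSh D c (lf x) := by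
  have h1 := (hf h).map cz
  have e : (fun u => cz (lC x u)) = lf x := funext fun u => hc x u
  rw [e] at h1
  exact h1

theorem or2_fal_fal (n : ℕ) : or2 (fal n) (fal n) = fal n := or2_self _

/-- a matrix with entries `r`, `rr`, `S` of shape `l` -/
theorem qd_good {lC : α → Vt D → Cx} (hc : CL D lC lf) (hA : AOK D lf A) (hs : SHL D Sa A)
    (hd : DZ Sa A) (hf : SF D Sa lC) (hP : Pool.Agent.Helper90.KMT.PT D t) {r rr S : Mo α} {l a b : List Bool}
    (sr : Sa r.v a) (srr : Sa rr.v b) (sS : Sa S.v l) (lr : r.l = A.df r.v)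
    (ha : a = l ∨ a = fal D) (hb : b = l ∨ b = fal D) (hl : l.length = D)
    (hl1 : cnt l ≤ 1)
    (h1 : LB lf r.v (2 ^ 50)) (h2 : LB lf rr.v (2 ^ 54)) (h3 : LB lf S.v (2 ^ 50)) :
    QG lC Sa A l (mkQd A r rr S) := by
  have oa : or2 a l = l := by
    rcases ha with rfl | rfl
    · exact or2_self _
    · exact or2_fal _ _ hl
  have ob : or2 b l = l := by
    rcases hb with rfl | rfl
    · exact or2_self _
    · exact or2_fal _ _ hl
  have sA : Sa (A.sub rr.v S.v) l := by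
    have := hs.sub srr sS
    rw [ob] at this
    exact this
  have sW : Sa (A.add rr.v S.v) l := by
    have := hs.add srr sS
    rw [ob] at this
    exact this
  have s2 : Sa (A.add r.v r.v) a := by
    have := hs.add sr sr
    rw [or2_self] at this
    exact this
  have sT : Sa (A.mul (A.add r.v r.v) S.v) l := by
    have := hs.mul s2 sS
    rw [oa] at this
    exact this
  have zz : ∀ {x : α} {c : List Bool}, Sa x c → (c = l ∨ c = fal D) → ZS l (A.df x) := by
    intro x c hx hc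
    rcases hc with rfl | rfl
    · exact hd hx
    · exact (hd hx).of_fal hl
  have ls : ∀ {x : α} {c : List Bool}, Sa x c → FSh D c (lf x) := fun hx =>
    lf_FSh (Sa := Sa) (lC := lC) hc hf hx
  refine ⟨⟨⟨a, l, l, l, sr, sA, sW, sT, ?_⟩⟩, ?_, ?_, ?_,
    qd_bd hc hA hP (ls s2) (ls sS) hl1 h1 h2 h3⟩
  · rw [oa, or2_self, or2_self]
  · have z1 : ZS l (A.df (A.cs ⟨Z.p (nat_lit 281474976710656), Z.p (nat_lit 0)⟩)) :=
      zz (hs.cs _) (Or.inr rfl)
    exact z1.mx ((zz s2 ha).mx (hd sA))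
  · have z1 : ZS l r.l := by
      rw [lr]
      exact zz sr ha
    exact z1.mx ((hd sA).mx (hd sT))
  · exact hd sW

/-! ### the models of a tail star -/

theorem SM_sh (hs : SHL D Sa A) {k : Mo α} {l : List Bool} (hk : Sa k.v l) : Sa (SM A k).v l := by
  have hl := hs.len hk
  have h1 := hs.mul hk hk
  rw [or2_self] at h1
  have h2 := hs.mul (hs.cs ⟨Z.p (nat_lit 1125899906842624), Z.p (nat_lit 0)⟩) (hs.inv h1)
  rw [or2_fal _ _ hl] at h2
  have h3 := hs.sub h2 (hs.cs ⟨Z.p (nat_lit 281474976710656), Z.p (nat_lit 0)⟩)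
  rw [or2_fal' _ _ hl] at h3
  exact h3

theorem R1M_sh (hs : SHL D Sa A) {k : Mo α} {l : List Bool} (hk : Sa k.v l) :
    Sa (R1M A k).v l := by
  have hl := hs.len hk
  have h2 := hs.mul (hs.cs ⟨Z.p (nat_lit 562949953421312), Z.p (nat_lit 0)⟩) (hs.inv hk)
  rw [or2_fal _ _ hl] at h2
  have h3 := hs.add (hs.cs ⟨Z.p (nat_lit 281474976710656), Z.p (nat_lit 0)⟩) h2
  rw [or2_fal _ _ hl] at h3
  exact h3

theorem kC_t {k : Mo α} (h : kC A k = true) : SOK A k = true ∧
    ((R1M A k).B : ℝ) ≤ 2 ^ 50 ∧ ((SM A k).B : ℝ) ≤ 2 ^ 50 := by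
  obtain ⟨h1, h2⟩ := Pool.Agent.Helper90.KMO.andB_t h
  obtain ⟨h2, h3⟩ := Pool.Agent.Helper90.KMO.andB_t h2
  have g2 : (R1M A k).B ≤ 1125899906842624 := Nat.le_of_ble_eq_true h2
  have g3 : (SM A k).B ≤ 1125899906842624 := Nat.le_of_ble_eq_true h3
  refine ⟨h1, ?_, ?_⟩
  · have : ((R1M A k).B : ℝ) ≤ 1125899906842624 := by exact_mod_cast g2
    linarith
  · have : ((SM A k).B : ℝ) ≤ 1125899906842624 := by exact_mod_cast g3
    linarith

section

variable {lC : α → Vt D → Cx} (hc : CL D lC lf) (hA : AOK D lf A) (hs : SHL D Sa A)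
  (hd : DZ Sa A) (hf : SF D Sa lC) (hP : Pool.Agent.Helper90.KMT.PT D t) {k : Mo α}
  {l : List Bool} (hk : Sa k.v l) (hl1 : cnt l ≤ 1) (hK : kC A k = true)
include hc hA hs hd hf hP hk hl1 hK

theorem qm2_good : QG lC Sa A l (qm2 A (R1M A k) (SM A k)) := by
  obtain ⟨_, b1, b2⟩ := kC_t hK
  have r1 := R1M_sh hs hk
  have s1 := SM_sh hs hk
  have r2 := hs.mul r1 r1
  rw [or2_self] at r2
  have l1 : LB lf (R1M A k).v (2 ^ 50) := fun u => (hA.mag _ u).trans b1
  have l2 : LB lf (SM A k).v (2 ^ 50) := fun u => (hA.mag _ u).trans b2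
  exact qd_good hc hA hs hd hf hP (r := R1M A k) (rr := mulM A (R1M A k) (R1M A k)) r1 r2 s1 rfl
    (Or.inl rfl) (Or.inl rfl) (hs.len hk) hl1 l1
    ((LB.mul hA hP (lf_FSh (Sa := Sa) (lC := lC) hc hf r1)
      (lf_FSh (Sa := Sa) (lC := lC) hc hf r1) hl1 (by norm_num) (by norm_num) l1 l1).mono (by
      unfold UU
      norm_num)) l2

theorem qf_good {r rr : ℕ} (hr : r ≤ 2 ^ 50) (hrr : rr ≤ 2 ^ 52) :
    QG lC Sa A l (qf A r rr (SM A k)) := by
  obtain ⟨_, b1, b2⟩ := kC_t hK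
  have s1 := SM_sh hs hk
  have l2 : LB lf (SM A k).v (2 ^ 50) := fun u => (hA.mag _ u).trans b2
  have hr' : (r : ℝ) ≤ 2 ^ 50 := by exact_mod_cast hr
  have hrr' : (rr : ℝ) ≤ 2 ^ 52 := by exact_mod_cast hrr
  exact qd_good hc hA hs hd hf hP (r := cst A r (nat_lit 1)) (rr := cst A rr (nat_lit 1))
    (hs.cs _) (hs.cs _) s1 rfl (Or.inr rfl) (Or.inr rfl) (hs.len hk) hl1
    ((LB.cs hA r 1).mono hr') ((LB.cs hA rr 1).mono (hrr'.trans (by norm_num))) l2

theorem qm3_good : QG lC Sa A l (qm3 A (SM A k)) := by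
  obtain ⟨_, b1, b2⟩ := kC_t hK
  have s1 := SM_sh hs hk
  have l2 : LB lf (SM A k).v (2 ^ 50) := fun u => (hA.mag _ u).trans b2
  exact qd_good hc hA hs hd hf hP (r := cst A (nat_lit 281474976710656) (nat_lit 0))
    (rr := cst A (nat_lit 281474976710656) (nat_lit 0))
    (hs.cs _) (hs.cs _) s1 rfl (Or.inr rfl) (Or.inr rfl) (hs.len hk) hl1
    ((LB.cs hA _ 0).mono (by norm_num)) ((LB.cs hA _ 0).mono (by norm_num)) l2

end

end

end Pool.Agent.Helper21.KTE
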