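import Pool.Agent.Helper21.CT.KTG

/-!
Row KTE (tails), part H: the runs of a program at a point: one run of a tail star, a family of
runs, a run of an exact star.
-/

set_option autoImplicit false
set_option exponentiation.threshold 4000
noncomputable section
namespace Pool.Agent.Helper21.KTE

open Pool.Agent.Helper90.C75 (Vt mulT avg wtT avg_add avg_const)
open Pool.Agent.Helper90.KMT
open Pool.Agent.Helper90.KMO (UU UU_pos zv cz)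
open Pool.Agent.Helper17.KPT
open Pool.Agent.Helper17.PAK (sc nrm EncV NBz)
open Pool.Agent.Helper86.C75 (Z)
open Pool.Agent.Helper86.CX (Hm ev Cx P9 VR SE andB BA)
open Pool.Agent.Helper86.CT (N3 DF Alg Rw VO Mo Qd KM Mc Mq BT eN chP mkQd qm2 qm3 qf SM R1M SOK
  rw0 rw1 rw2 mxRw mulM addM subM invM cst row0 vo1 voB vo0 vo1' vo2 vo3 vo4 r3x)
open Complex ComplexConjugate

variable {D : ℕ} {t : ℕ → ℝ}

section

variable {α β p v γ : Type} {lC : α → Vt D → Cx} {lf : α → Vt D → ℂ}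
  {mf : (ℕ → ℝ) → β → (ℕ → ℝ) → ℝ} {lp : p → Vt D → P9} {lv : v → Vt D → VR}
  {lg : γ → Vt D → ℕ} {Sa : α → List Bool → Prop} {Sp : p → List Bool → Prop}
  {Sv : v → List Bool → Prop} {Sg : γ → List Bool → Prop} {M : Mc α β p v γ} {Q : Mq α v}

/-- the multiplier of two good matrices -/
def J2 (lC : α → Vt D → Cx) (l : List Bool) (X Y : Qd α) : Vt D → Fin 9 → Fin 9 → ℤ :=
  mulZ mu2 D l (qI lC X) (qI lC Y)

/-- the tree, its shape, the shape of the leaves, the bound -/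
structure VL (lv : v → Vt D → VR) (Sv : v → List Bool → Prop) (V : v)
    (J : Vt D → Fin 9 → Fin 9 → ℤ) (l : List Bool) (b : ℤ) : Prop where
  r : RT lv Rb V J
  s : Sv V l
  f : FSh D l J
  b : ∀ u k, Bf b (J u k)

theorem J2_ok (hq : MQ D lC lv Sa Sv Q) (hf : SF D Sa lC) (hD : D ≤ 4) {A : Alg α}
    {l : List Bool} {X Y : Qd α} (hX : QG lC Sa A l X) (hY : QG lC Sa A l Y) :
    VL lv Sv (Q.V X Y) (J2 lC l X Y) l (2 ^ 128) := by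
  obtain ⟨h1, h2⟩ := hq.V hX.sh hY.sh
  have f1 := qI_FSh (Sa := Sa) hf hX.sh
  have f2 := qI_FSh (Sa := Sa) hf hY.sh
  have h3 := FSh.mulZ (μ := mu2) f1 f2
  rw [and2_self] at h1
  rw [or2_self] at h2
  rw [and2_self, or2_self] at h3
  refine ⟨h1, h2, h3, fun u => ?_⟩
  have h4 := mulZ_bd (NA := fun a x => ∀ i, |x i| ≤ a) (NB := fun a x => ∀ i, |x i| ≤ a)
    (NC := fun c J => ∀ k, Bf c (J k)) (μ := mu2) (c := 8)
    (fun {a x y} hx hy i => by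
      rw [two_mul]
      exact (abs_sub _ _).trans (add_le_add (hx i) (hy i)))
    (fun {a x y} hx hy i => by
      rw [two_mul]
      exact (abs_sub _ _).trans (add_le_add (hx i) (hy i)))
    (fun {a a' x y} hx hy k => Bf.sub (hx k) (hy k))
    (fun {a x} hx k i => by
      show |(4 : ℤ) * x k i| ≤ 4 * a
      rw [abs_mul]
      have h4 : |(4 : ℤ)| = 4 := by norm_num
      rw [h4]
      exact mul_le_mul_of_nonneg_left (hx k i) (by norm_num))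
    (fun {a a' x} hx h k => Bf.mono (N := x k) (hx k) h)
    (fun {a b x y} hx hy => mu2_bd (x := x) (y := y) hx hy)
    (D := D) (m := l) (a := 2 ^ 56 + 2 ^ 50) (b := 2 ^ 56 + 2 ^ 50) (I := qI lC X)
    (J := qI lC Y) (by norm_num) (by norm_num) (by norm_num) hX.bd hY.bd u
  intro k
  refine (h4 k).mono ?_
  have p8 : (8 : ℤ) ^ D ≤ 8 ^ 4 := pow_le_pow_right₀ (by norm_num) hD
  calc (8 : ℤ) ^ D * (8 * ((2 ^ 56 + 2 ^ 50) * (2 ^ 56 + 2 ^ 50)))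
      ≤ 8 ^ 4 * (8 * ((2 ^ 56 + 2 ^ 50) * (2 ^ 56 + 2 ^ 50))) :=
        mul_le_mul_of_nonneg_right p8 (by norm_num)
    _ ≤ 2 ^ 128 := by norm_num

theorem VL.add (hq : MQ D lC lv Sa Sv Q) {V V' : v} {J J' : Vt D → Fin 9 → Fin 9 → ℤ}
    {l : List Bool} {b b' : ℤ} (h : VL lv Sv V J l b) (h' : VL lv Sv V' J' l b') :
    VL lv Sv (Q.a V V') (fun u => J u + J' u) l (b + b') := by
  have h2 := hq.as h.s h'.s
  rw [or2_self] at h2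
  exact ⟨hq.a h.r h'.r, h2, h.f.map2 h'.f (fun a b => a + b), fun u k => (h.b u k).add (h'.b u k)⟩

theorem VL.vk {V : VO v} {J : Vt D → Fin 9 → Fin 9 → ℤ} {l : List Bool} {b : ℤ}
    (h : VL lv Sv V.V J l b) (hb : b ≤ 2 ^ 130) (hc : V.ca + V.cb ≤ 4) (hg : V.sg ≤ 128) :
    VK D lv Sv V J l :=
  ⟨h.r, h.s, h.f, fun u k => (h.b u k).mono hb, hc, hg⟩

/-- the sum of the leaves -/
theorem SN_J2 (hc : CL D lC lf) (hf : SF D Sa lC) (P : KM α) {A : Alg α} {l : List Bool}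
    {X Y : Qd α} (hX : QG lC Sa A l X) (hY : QG lC Sa A l Y) (w : Fin 3 → ℂ) :
    SN D t (PI lC P) (J2 lC l X Y) w =
      4 ^ cnt l * Np D t (mkIF lf P) (yF lf X w) (yF lf Y w) := by
  have f1 := qI_FSh (Sa := Sa) hf hX.sh
  have f2 := qI_FSh (Sa := Sa) hf hY.sh
  have h := SN_Np (t := t) hc P (X := X) (Y := Y) f1 f2 w
  rw [and2_self] at h
  exact h

/-- the multipliers of a table are not negative -/
def MN (D : ℕ) {β : Type} (mf : (ℕ → ℝ) → β → (ℕ → ℝ) → ℝ) : Prop :=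
  ∀ (f : ℕ → ℝ) (T : β) (t : ℕ → ℝ), Pool.Agent.Helper90.KMT.PT D t → (∀ x, 0 ≤ f x) →
    0 ≤ mf f T t

theorem MN.lam {β : Type} {mf : (ℕ → ℝ) → β → (ℕ → ℝ) → ℝ} (h : MN D mf) (LT : β) (l : ℕ)
    (ht : Pool.Agent.Helper90.KMT.PT D t) : 0 ≤ lamI mf LT l t :=
  h _ LT t ht fun _ => Nat.cast_nonneg _

theorem nsq_pos {K : Hm ℝ} {z : Fin 3 → ℂ} (h : 0 < ev K z) : 0 < nsq z := by
  have h0 := Complex.normSq_nonneg (z 0)
  have h1 := Complex.normSq_nonneg (z 1)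
  have h2 := Complex.normSq_nonneg (z 2)
  by_contra hc
  unfold nsq at hc
  have z0 : Complex.normSq (z 0) = 0 := by linarith
  have z1 : Complex.normSq (z 1) = 0 := by linarith
  have z2 : Complex.normSq (z 2) = 0 := by linarith
  rw [Complex.normSq_eq_zero] at z0 z1 z2
  rw [Pool.Agent.Helper17.PAK.ev_lin, z0, z1, z2] at h
  simp at h

theorem cnt_pow {l : List Bool} (hl : cnt l ≤ 1) : (1 : ℝ) ≤ 4 ^ cnt l ∧ (4 : ℝ) ^ cnt l ≤ 4 := by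
  have : cnt l = 0 ∨ cnt l = 1 := by omega
  rcases this with h | h <;> rw [h] <;> norm_num

/-- **ONE RUN OF A TAIL STAR** -/
theorem vo1_pos (hM : MK D lC lf mf lp lv lg Sp Sv Sg M) (hq : MQ D lC lv Sa Sv Q)
    (hA : AOK D lf Q.A) (hf : SF D Sa lC) (hn : MN D mf)
    (ht : Pool.Agent.Helper90.KMT.PT D t) {K : Hm ℝ} {P : KM α} (hK : KMK D lf t K P)
    {KT LT : β} {b : List (BT v)} (h : chP M KT LT b P = true) {l : List Bool}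
    (hl : cnt l ≤ 1) {X : Qd α} (hX : QG lC Sa Q.A l X) {r a w τ : ℝ}
    (hQ : QOK D lf t r a w τ X) {s : List SE} (hB : (⟨vo1 Q X, s⟩ : BT v) ∈ b) {y : SE}
    (hy : y ∈ s) {z : Fin 3 → ℂ} (hz : 0 < ev (KTab mf KT y.k t) z) :
    0 < ev K (yW r a w τ z) := by
  have v1 := (J2_ok hq hf ht.hD hX hX).vk (V := vo1 Q X) (by norm_num)
    (Nat.le_of_ble_eq_true rfl) (Nat.le_of_ble_eq_true rfl)
  have h1 := src_nonneg hM ht hK h hB v1 hy hz.le (hn.lam _ _ ht) (hn.lam _ _ ht)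
  have h2 := SN_J2 (t := t) hM.cl hf P hX hX z
  rw [h2] at h1
  have hS : SgV (rws (vo1 Q X)) := sgV_of hl hX.z0 hX.z1 hX.z2
  have hR := vo1_rw (M := Q) hA ht hQ z
  obtain ⟨c1, c2⟩ := cnt_pow hl
  refine run_pos ht hK hS hR (nsq_pos hz) (c := 4 ^ cnt l * 4 ^ cnt l) (sg := 32) (by positivity)
    ?_ ?_
  · push_cast
    nlinarith
  · have e1 : (((vo1 Q X).ca : ℕ) : ℝ) = 1 := by
      show (((nat_lit 1 : ℕ)) : ℝ) = 1
      norm_num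
    have e2 : (((vo1 Q X).cb : ℕ) : ℝ) = 0 := by
      show (((nat_lit 0 : ℕ)) : ℝ) = 0
      norm_num
    have e3 : (((vo1 Q X).sg : ℕ) : ℝ) = 32 := by
      show (((nat_lit 32 : ℕ)) : ℝ) = 32
      norm_num
    have h3 : (3 * ((((vo1 Q X).ca : ℕ) + ((vo1 Q X).cb : ℕ)) * 2 ^ D * ((vo1 Q X).sg : ℕ) *
        ((eN P (vo1 Q X) : ℕ) : ℝ)) + 1) * nsq z ≤ (((vo1 Q X).ca : ℕ) + ((vo1 Q X).cb : ℕ)) *
        2 ^ D * 4 ^ cnt l * (4 ^ cnt l * Np D t (mkIF lf P) (yF lf X z) (yF lf X z)) := h1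
    rw [e1, e2, e3] at h3
    push_cast
    linarith

/-- **A FAMILY OF RUNS OF A TAIL STAR** -/
theorem fam_vo (hM : MK D lC lf mf lp lv lg Sp Sv Sg M) (hq : MQ D lC lv Sa Sv Q)
    (hA : AOK D lf Q.A) (hf : SF D Sa lC) (hn : MN D mf)
    (ht : Pool.Agent.Helper90.KMT.PT D t) {K : Hm ℝ} {P : KM α} (hK : KMK D lf t K P)
    {KT LT : β} {b : List (BT v)} (h : chP M KT LT b P = true) {l : List Bool}
    (hl : cnt l ≤ 1) {X Y Z' : Qd α} (hX : QG lC Sa Q.A l X) (hY : QG lC Sa Q.A l Y)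
    (hZ : QG lC Sa Q.A l Z') {r a w τ r' a' w' τ' r'' a'' w'' τ'' : ℝ}
    (qX : QOK D lf t r a w τ X) (qY : QOK D lf t r' a' w' τ' Y)
    (qZ : QOK D lf t r'' a'' w'' τ'' Z') {s : List SE}
    (b0 : (⟨vo0 Q X Y Z', s⟩ : BT v) ∈ b) (b1 : (⟨vo1' Q X Y Z', s⟩ : BT v) ∈ b)
    (b2 : (⟨vo2 Q X Y Z', s⟩ : BT v) ∈ b) (b3 : (⟨vo3 Q X Y Z', s⟩ : BT v) ∈ b)
    (b4 : (⟨vo4 Q X Y Z', s⟩ : BT v) ∈ b) {y : SE} (hy : y ∈ s) {z : Fin 3 → ℂ}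
    (hz : 0 < ev (KTab mf KT y.k t) z) {σ : ℝ} (hs0 : 0 ≤ σ) (hs1 : σ ≤ 1) :
    0 < ev K (fam σ (yW r a w τ z) (yW r' a' w' τ' z) (yW r'' a'' w'' τ'' z)) := by
  have l0 := hn.lam LT y.l ht
  have l1 := hn.lam LT (y.l + 1) ht
  have vXX := J2_ok hq hf ht.hD hX hX
  have vXY := J2_ok hq hf ht.hD hX hY
  have vXZ := J2_ok hq hf ht.hD hX hZ
  have vYY := J2_ok hq hf ht.hD hY hY
  have vYZ := J2_ok hq hf ht.hD hY hZ
  have vZZ := J2_ok hq hf ht.hD hZ hZ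
  have v0 := vXX.vk (V := vo0 Q X Y Z') (by norm_num)
    (Nat.le_of_ble_eq_true rfl) (Nat.le_of_ble_eq_true rfl)
  have v1 := vXY.vk (V := vo1' Q X Y Z') (by norm_num)
    (Nat.le_of_ble_eq_true rfl) (Nat.le_of_ble_eq_true rfl)
  have v2 := (vXZ.add hq (vYY.add hq vYY)).vk (V := vo2 Q X Y Z') (by norm_num) (Nat.le_of_ble_eq_true rfl)
    (Nat.le_of_ble_eq_true rfl)
  have v3 := vYZ.vk (V := vo3 Q X Y Z') (by norm_num)
    (Nat.le_of_ble_eq_true rfl) (Nat.le_of_ble_eq_true rfl)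
  have v4 := vZZ.vk (V := vo4 Q X Y Z') (by norm_num)
    (Nat.le_of_ble_eq_true rfl) (Nat.le_of_ble_eq_true rfl)
  have h0 := src_nonneg hM ht hK h b0 v0 hy hz.le l0 l1
  have h1 := src_nonneg hM ht hK h b1 v1 hy hz.le l0 l1
  have h2 := src_nonneg hM ht hK h b2 v2 hy hz.le l0 l1
  have h3 := src_nonneg hM ht hK h b3 v3 hy hz.le l0 l1
  have h4 := src_nonneg hM ht hK h b4 v4 hy hz.le l0 l1
  rw [SN_J2 (t := t) hM.cl hf P hX hX z] at h0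
  rw [SN_J2 (t := t) hM.cl hf P hX hY z] at h1
  have e2 : SN D t (PI lC P) (fun u => J2 lC l X Z' u + (J2 lC l Y Y u + J2 lC l Y Y u)) z =
      4 ^ cnt l * (Np D t (mkIF lf P) (yF lf X z) (yF lf Z' z) +
        2 * Np D t (mkIF lf P) (yF lf Y z) (yF lf Y z)) := by
    rw [SN_add (PI lC P) (J2 lC l X Z') (fun u => J2 lC l Y Y u + J2 lC l Y Y u),
      SN_add (PI lC P) (J2 lC l Y Y) (J2 lC l Y Y),
      SN_J2 (t := t) hM.cl hf P hX hZ z, SN_J2 (t := t) hM.cl hf P hY hY z]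
    ring
  rw [e2] at h2
  rw [SN_J2 (t := t) hM.cl hf P hY hZ z] at h3
  rw [SN_J2 (t := t) hM.cl hf P hZ hZ z] at h4
  obtain ⟨R1, R2, R3⟩ := voB_rw (M := Q) hA ht qX qY qZ z (Q.V X X) (nat_lit 32) (nat_lit 4)
    (nat_lit 0)
  have zr0 : ZS l (vo0 Q X Y Z').r0.l := hX.z0.mx (hY.z0.mx hZ.z0)
  have zr1 : ZS l (vo0 Q X Y Z').r1.l := hX.z1.mx (hY.z1.mx hZ.z1)
  have zr2 : ZS l (vo0 Q X Y Z').r2.l := hX.z2.mx (hY.z2.mx hZ.z2)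
  have hS : SgV (rws (vo0 Q X Y Z')) := sgV_of hl zr0 zr1 zr2
  obtain ⟨c1, c2⟩ := cnt_pow hl
  have n0 : ((nat_lit 0 : ℕ) : ℝ) = 0 := by norm_num
  have n1 : ((nat_lit 1 : ℕ) : ℝ) = 1 := by norm_num
  have n2 : ((nat_lit 2 : ℕ) : ℝ) = 2 := by norm_num
  have n3 : ((nat_lit 3 : ℕ) : ℝ) = 3 := by norm_num
  have n4 : ((nat_lit 4 : ℕ) : ℝ) = 4 := by norm_num
  have n32 : ((nat_lit 32 : ℕ) : ℝ) = 32 := by norm_num
  have n96 : ((nat_lit 96 : ℕ) : ℝ) = 96 := by norm_num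
  set E : ℝ := ((eN P (vo0 Q X Y Z') : ℕ) : ℝ) with hE
  have T0 : (3 * ((((nat_lit 4 : ℕ) : ℝ) + ((nat_lit 0 : ℕ) : ℝ)) * 2 ^ D *
      ((nat_lit 32 : ℕ) : ℝ) * E) + 1) * nsq z ≤
      (((nat_lit 4 : ℕ) : ℝ) + ((nat_lit 0 : ℕ) : ℝ)) * 2 ^ D * 4 ^ cnt l * (4 ^ cnt l *
        Np D t (mkIF lf P) (yF lf X z) (yF lf X z)) := h0
  have T1 : (3 * ((((nat_lit 3 : ℕ) : ℝ) + ((nat_lit 1 : ℕ) : ℝ)) * 2 ^ D *
      ((nat_lit 32 : ℕ) : ℝ) * E) + 1) * nsq z ≤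
      (((nat_lit 3 : ℕ) : ℝ) + ((nat_lit 1 : ℕ) : ℝ)) * 2 ^ D * 4 ^ cnt l * (4 ^ cnt l *
        Np D t (mkIF lf P) (yF lf X z) (yF lf Y z)) := h1
  have T2 : (3 * ((((nat_lit 2 : ℕ) : ℝ) + ((nat_lit 2 : ℕ) : ℝ)) * 2 ^ D *
      ((nat_lit 96 : ℕ) : ℝ) * E) + 1) * nsq z ≤
      (((nat_lit 2 : ℕ) : ℝ) + ((nat_lit 2 : ℕ) : ℝ)) * 2 ^ D * 4 ^ cnt l * (4 ^ cnt l *
        (Np D t (mkIF lf P) (yF lf X z) (yF lf Z' z) +
          2 * Np D t (mkIF lf P) (yF lf Y z) (yF lf Y z))) := h2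
  have T3 : (3 * ((((nat_lit 1 : ℕ) : ℝ) + ((nat_lit 3 : ℕ) : ℝ)) * 2 ^ D *
      ((nat_lit 32 : ℕ) : ℝ) * E) + 1) * nsq z ≤
      (((nat_lit 1 : ℕ) : ℝ) + ((nat_lit 3 : ℕ) : ℝ)) * 2 ^ D * 4 ^ cnt l * (4 ^ cnt l *
        Np D t (mkIF lf P) (yF lf Y z) (yF lf Z' z)) := h3
  have T4 : (3 * ((((nat_lit 0 : ℕ) : ℝ) + ((nat_lit 4 : ℕ) : ℝ)) * 2 ^ D *
      ((nat_lit 32 : ℕ) : ℝ) * E) + 1) * nsq z ≤
      (((nat_lit 0 : ℕ) : ℝ) + ((nat_lit 4 : ℕ) : ℝ)) * 2 ^ D * 4 ^ cnt l * (4 ^ cnt l *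
        Np D t (mkIF lf P) (yF lf Z' z) (yF lf Z' z)) := h4
  rw [n0, n4, n32] at T0 T4
  rw [n1, n3, n32] at T1 T3
  rw [n2, n96] at T2
  refine fam_pos ht hK hS R1 R2 R3 hs0 hs1 (nsq_pos hz) (c := 4 ^ cnt l * 4 ^ cnt l)
    (by positivity) (by nlinarith) ?_ ?_ ?_ ?_ ?_
  · linarith
  · linarith
  · linarith
  · linarith
  · linarith

end

end Pool.Agent.Helper21.KTE
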