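import Pool.Agent.Helper21.CT.KTH
import Pool.Agent.Helper21.CX.KCJ
import Pool.Agent.Helper6.CX.RND

/-!
Row KTE (tails), part I: the runs of a program in terms of the matrices `Bm k R` (state `(k, R)`):
runs of exact stars (constant trees), single runs and families of a tail star.
-/

set_option autoImplicit false
set_option exponentiation.threshold 4000
noncomputable section
namespace Pool.Agent.Helper21.KTE

open Pool.Agent.Helper90.C75 (Vt mulT avg wtT avg_add avg_const)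
open Pool.Agent.Helper90.KMT
open Pool.Agent.Helper90.KMO (UU UU_pos zv cz)
open Pool.Agent.Helper17.KPT
open Pool.Agent.Helper17.PAK (sc nrm EncV NBz)
open Pool.Agent.Helper86.C75 (Z)
open Pool.Agent.Helper86.CX (Hm ev Cx P9 VR SE andB BA)
open Pool.Agent.Helper86.CT (N3 DF Alg Rw VO Mo Qd KM Mc Mq BT eN chP mkQd qm2 qm3 qf SM R1M SOK
  rw0 rw1 rw2 mxRw mulM addM subM invM cst row0 vo1 voB vo0 vo1' vo2 vo3 vo4 r3x Pr)
open Pool.Agent.Helper6.MONO (Kp SbP Rb Bm VV)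
open Complex ComplexConjugate

variable {D : ℕ} {t : ℕ → ℝ}

/-! ### multipliers of a table -/

theorem MN0 : MN 0 mf0 := fun _ T _ _ h => h T

theorem MN.nx {β : Type} {mf : (ℕ → ℝ) → β → (ℕ → ℝ) → ℝ} (h : MN D mf) :
    MN (D + 1) (nmf D mf) := by
  intro f T t ht hf
  have h0 := ht.h0 D (by omega)
  have h1 := ht.h1 D (by omega)
  have ht' : Pool.Agent.Helper90.KMT.PT D t :=
    ⟨fun j hj => ht.h0 j (by omega), fun j hj => ht.h1 j (by omega), by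
      have := ht.hD
      omega⟩
  have a := h f T.a t ht' hf
  have b := h f T.b t ht' hf
  show 0 ≤ (1 - t D) * mf f T.a t + t D * mf f T.b t
  have : 0 ≤ 1 - t D := by linarith
  positivity

theorem MN1 : MN 1 (nmf 0 mf0) := MN0.nx
theorem MN2 : MN 2 (nmf 1 (nmf 0 mf0)) := MN1.nx
theorem MN3 : MN 3 (nmf 2 (nmf 1 (nmf 0 mf0))) := MN2.nx
theorem MN4 : MN 4 (nmf 3 (nmf 2 (nmf 1 (nmf 0 mf0)))) := MN3.nx

/-! ### the matrices -/

theorem SbP_eq {k : ℝ} (hk : k ≠ 0) : SbP k = 4 / k ^ 2 - 1 := by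
  unfold SbP
  field_simp
  ring

theorem yW_Bm (k R : ℝ) (hk : k ≠ 0) (z : Fin 3 → ℂ) :
    yW R (R ^ 2 - (4 / k ^ 2 - 1)) (R ^ 2 + (4 / k ^ 2 - 1)) (2 * R * (4 / k ^ 2 - 1)) z =
      (Bm k R).mulVec z := by
  rw [Pool.Agent.Helper6.RND.Bm_BA, BA_yW, SbP_eq hk]
  congr 1
  ring

/-! ### runs of exact stars -/

section

variable {α β p v γ : Type} {lC : α → Vt D → Cx} {lf : α → Vt D → ℂ}
  {mf : (ℕ → ℝ) → β → (ℕ → ℝ) → ℝ} {lp : p → Vt D → P9} {lv : v → Vt D → VR}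
  {lg : γ → Vt D → ℕ} {Sa : α → List Bool → Prop} {Sp : p → List Bool → Prop}
  {Sv : v → List Bool → Prop} {Sg : γ → List Bool → Prop} {M : Mc α β p v γ} {Q : Mq α v}

/-- the law of constant trees -/
structure CV (D : ℕ) (lv : v → Vt D → VR) (Sv : v → List Bool → Prop) (cv : VR → v) : Prop where
  r : ∀ {V : VR} {J : Fin 9 → Fin 9 → ℤ}, Rb V J → RT lv Pool.Agent.Helper17.KPT.Rb (cv V) (fun _ => J)
  s : ∀ V : VR, Sv (cv V) (fal D)

/-- the row of a run of an exact star -/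
structure RC (D : ℕ) (ρ : Rw) : Prop where
  B : ρ.B = 2 ^ 53
  r : ρ.r = 2
  l : ZS (fal D) ρ.l

theorem fal_len (n : ℕ) : (fal n).length = n := List.length_replicate ..

theorem FSh_const {A : Type} (J : A) : ∀ D : ℕ, FSh D (fal D) (fun _ : Vt D => J)
  | 0 => trivial
  | D + 1 => ⟨fun _ _ => rfl, FSh_const J D⟩

theorem cnt_fal (n : ℕ) : cnt (fal n) = 0 := by
  unfold cnt fal
  rw [List.count_replicate]
  simp

/-- one row: a constant vector -/
theorem RK_const {ρ : Rw} (hρ : RC D ρ) (ht : Pool.Agent.Helper90.KMT.PT D t) {σ : ℝ} (hσ : 0 ≤ σ)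
    {w f : ℂ} (h1 : ‖f‖ ≤ 2 ^ 53 * σ) (h2 : ‖(UU : ℂ) * w - f‖ ≤ 2 * σ) :
    RK D t ρ σ w (fun _ => f) := by
  have hlen : ρ.l.length = D := by rw [hρ.l.len, fal_len]
  refine ⟨fun _ => ?_, ?_, ?_, hlen⟩
  · rw [hρ.B]
    have e : (((2 : ℕ) ^ 53 : ℕ) : ℝ) = 2 ^ 53 := Nat.cast_pow 2 53
    rw [e]
    exact h1
  · rw [avg_const ht.w, hρ.r]
    push_cast
    exact h2
  · exact DL_const _ (fun _ _ => rfl) (by rw [List.length_map, hlen]) (nn_rls hσ _)

/-- the integers of a constant multiplier are bounded -/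
theorem NBz_bd {O R A W T : ℤ} {a : ℤ} (hO : |O| ≤ a) (hR : |R| ≤ a) (hA : |A| ≤ a)
    (hW : |W| ≤ a) (hT : |T| ≤ a) (k : Fin 9) : Bf (8 * (a * a)) (toF (NBz O R A W T (un9 k))) := by
  have h1 := mu2_bd (x := ![O, R, A, W, T]) (y := ![O, R, A, W, T]) (a := a) (b := a)
    (by intro i; fin_cases i <;> assumption) (by intro i; fin_cases i <;> assumption) k
  have e : ∀ i, mu2 ![O, R, A, W, T] ![O, R, A, W, T] k i =
      2 * toF (NBz O R A W T (un9 k)) i := by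
    intro i
    show toF (NBp ![O, R, A, W, T] ![O, R, A, W, T] (un9 k)) i = _
    rw [NBp_self]
    fin_cases i <;> rfl
  intro i
  have h2 := h1 i
  rw [e, abs_mul] at h2
  have h3 : |(2 : ℤ)| = 2 := by norm_num
  rw [h3] at h2
  have h4 := abs_nonneg (toF (NBz O R A W T (un9 k)) i)
  linarith

/-- **A RUN OF AN EXACT STAR** -/
theorem ex_pos (hM : MK D lC lf mf lp lv lg Sp Sv Sg M) {cv : VR → v} (hcv : CV D lv Sv cv)
    (hn : MN D mf)
    (ht : Pool.Agent.Helper90.KMT.PT D t) {K : Hm ℝ} {P : KM α} (hK : KMK D lf t K P)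
    {KT LT : β} {b : List (BT v)} (h : chP M KT LT b P = true) {Mn j : ℕ} (h3 : 3 ≤ Mn)
    (h9 : Mn ≤ 9) (hj : 1 ≤ j) (hjM : j < Mn) {V : VO v} (hV : V.V = cv (VV Mn j))
    (r0 : RC D V.r0) (r1 : RC D V.r1) (r2 : RC D V.r2) (hsg : V.sg = 1) (hca : V.ca = 1)
    (hcb : V.cb = 0) {s : List SE} (hB : (⟨V, s⟩ : BT v) ∈ b) {y : SE}
    (hy : y ∈ s) {z : Fin 3 → ℂ} (hz : 0 < ev (KTab mf KT y.k t) z) :
    0 < ev K ((Bm (Kp Mn) (Pool.Agent.Helper6.MONO.Rb Mn j)).mulVec z) := by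
  obtain ⟨R, A, W, T, hE, bR, bA, bW, bT, hN⟩ := Pool.Agent.Helper21.KCE.near_run h3 h9 hj hjM
  set J : Fin 9 → Fin 9 → ℤ := fun k => toF (NBz (2 ^ 48) R A W T (un9 k)) with hJ
  have hVK : VK D lv Sv V (fun _ => J) (fal D) := by
    refine ⟨?_, ?_, FSh_const J D, fun u k => ?_, ?_, ?_⟩
    · rw [hV]
      exact hcv.r (encV_Rb hE)
    · rw [hV]
      exact hcv.s _
    · exact (NBz_bd (a := 2 ^ 56) (by norm_num) bR bA bW bT k).mono (by norm_num)
    · rw [hca, hcb]; norm_num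
    · rw [hsg]; norm_num
  have h1 := src_nonneg hM ht hK h hB hVK hy hz.le (hn.lam _ _ ht) (hn.lam _ _ ht)
  have h2 := SN_const (t := t) hM.cl P (2 ^ 48) R A W T z
  have e0 : SN D t (PI lC P) (fun _ => J) z = 1 / 2 * Np D t (mkIF lf P)
      (yJ z (fun _ => ![2 ^ 48, R, A, W, T])) (yJ z (fun _ => ![2 ^ 48, R, A, W, T])) := h2
  rw [e0] at h1
  have hS : SgV (rws V) := sgV_of (l := fal D) (by rw [cnt_fal]; norm_num) r0.l r1.l r2.l
  -- the rows
  set rR := Pool.Agent.Helper6.MONO.Rb Mn j with hrR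
  set kk := Kp Mn with hkk
  have s0 := sg1_nonneg z
  have n0 := norm_nonneg (z 0)
  have n1 := norm_nonneg (z 1)
  have n2 := norm_nonneg (z 2)
  have cR : ‖((R : ℤ) : ℂ)‖ ≤ 2 ^ 52 := by
    rw [Complex.norm_intCast]
    have := hN.R1
    rw [abs_div, abs_of_pos (by positivity : (0 : ℝ) < 2 ^ 48), div_le_iff₀ (by positivity)] at this
    linarith
  have cA : ‖((A : ℤ) : ℂ)‖ ≤ 2 ^ 52 := by
    rw [Complex.norm_intCast]
    have := hN.A1
    rw [abs_div, abs_of_pos (by positivity : (0 : ℝ) < 2 ^ 48), div_le_iff₀ (by positivity)] at this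
    linarith
  have cW : ‖((W : ℤ) : ℂ)‖ ≤ 2 ^ 53 := by
    rw [Complex.norm_intCast]
    have := hN.W1
    rw [abs_div, abs_of_pos (by positivity : (0 : ℝ) < 2 ^ 48), div_le_iff₀ (by positivity)] at this
    linarith
  have cT : ‖((T : ℤ) : ℂ)‖ ≤ 2 ^ 53 := by
    rw [Complex.norm_intCast]
    have := hN.T1
    rw [abs_div, abs_of_pos (by positivity : (0 : ℝ) < 2 ^ 48), div_le_iff₀ (by positivity)] at this
    linarith
  have dd : ∀ {x : ℝ} {n : ℤ}, |x - (n : ℝ) / 2 ^ 48| ≤ 1 / 2 ^ 48 → ‖(UU : ℂ) * (x : ℂ) - (n : ℂ)‖ ≤ 1 := by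
    intro x n hx
    have e : (UU : ℂ) * (x : ℂ) - (n : ℂ) = ((UU * x - n : ℝ) : ℂ) := by push_cast; ring
    rw [e, Complex.norm_real, Real.norm_eq_abs]
    have hU : UU = 2 ^ 48 := by unfold UU; norm_num
    have e2 : UU * x - n = 2 ^ 48 * (x - (n : ℝ) / 2 ^ 48) := by rw [hU]; ring
    rw [e2, abs_mul, abs_of_pos (by positivity : (0 : ℝ) < 2 ^ 48)]
    calc (2 : ℝ) ^ 48 * |x - (n : ℝ) / 2 ^ 48| ≤ 2 ^ 48 * (1 / 2 ^ 48) :=
          mul_le_mul_of_nonneg_left hx (by positivity)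
      _ = 1 := by norm_num
  have dR := dd hN.dR
  have dA := dd hN.dA
  have dW := dd hN.dW
  have dT := dd hN.dT
  have nm : ∀ (a b : ℂ) {c : ℝ}, ‖a‖ ≤ c → ‖a * b‖ ≤ c * ‖b‖ := by
    intro a b c h
    rw [norm_mul]
    exact mul_le_mul_of_nonneg_right h (norm_nonneg _)
  have hU48 : ((2 ^ 48 : ℤ) : ℂ) = (UU : ℂ) := by unfold UU; push_cast; norm_num
  have f0 : yJ (D := D) z (fun _ => ![2 ^ 48, R, A, W, T]) 0 = fun _ =>
      (UU : ℂ) * z 0 + 2 * (R : ℂ) * z 1 + (A : ℂ) * z 2 := by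
    funext u
    show yQ z 0 ![2 ^ 48, R, A, W, T] = _
    rw [yQ0]
    simp only [Matrix.cons_val_zero, Matrix.cons_val_one, Matrix.cons_val]
    rw [← hU48]
  have f1 : yJ (D := D) z (fun _ => ![2 ^ 48, R, A, W, T]) 1 = fun _ =>
      (R : ℂ) * z 0 + (A : ℂ) * z 1 - (T : ℂ) * z 2 := by
    funext u
    show yQ z 1 ![2 ^ 48, R, A, W, T] = _
    rw [yQ1]
    simp only [Matrix.cons_val_one, Matrix.cons_val]
  have f2 : yJ (D := D) z (fun _ => ![2 ^ 48, R, A, W, T]) 2 = fun _ => (W : ℂ) * z 0 := by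
    funext u
    show yQ z 2 ![2 ^ 48, R, A, W, T] = _
    rw [yQ2]
    simp only [Matrix.cons_val]
  have nU : ‖(UU : ℂ)‖ ≤ 2 ^ 48 := by
    rw [Complex.norm_real, Real.norm_eq_abs, abs_of_pos UU_pos]
    unfold UU
    norm_num
  have hσ : sg1 z = ‖z 0‖ + ‖z 1‖ + ‖z 2‖ := rfl
  have hRW : RW D t (rws V) (sg1 z) (yW rR (rR ^ 2 - SbP kk) (rR ^ 2 + SbP kk)
      (2 * SbP kk * rR) z) (yJ z (fun _ => ![2 ^ 48, R, A, W, T])) := by
    refine ⟨fun i => ?_⟩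
    fin_cases i
    · show RK D t V.r0 (sg1 z) (z 0 + 2 * rR * z 1 + ((rR ^ 2 - SbP kk : ℝ) : ℂ) * z 2) (yJ z _ 0)
      rw [f0]
      refine RK_const r0 ht s0 ?_ ?_
      · have a1 := nm _ (z 0) nU
        have a2 := nm (2 * (R : ℂ)) (z 1) (c := 2 ^ 53) (by
          rw [norm_mul]
          have : ‖(2 : ℂ)‖ = 2 := by norm_num
          rw [this]
          linarith)
        have a3 := nm _ (z 2) cA
        have b1 := norm_add_le ((UU : ℂ) * z 0 + 2 * (R : ℂ) * z 1) ((A : ℂ) * z 2)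
        have b2 := norm_add_le ((UU : ℂ) * z 0) (2 * (R : ℂ) * z 1)
        rw [hσ]
        linarith
      · have e : (UU : ℂ) * (z 0 + 2 * rR * z 1 + ((rR ^ 2 - SbP kk : ℝ) : ℂ) * z 2) -
            ((UU : ℂ) * z 0 + 2 * (R : ℂ) * z 1 + (A : ℂ) * z 2) =
            2 * ((UU : ℂ) * rR - R) * z 1 + ((UU : ℂ) * ((rR ^ 2 - SbP kk : ℝ) : ℂ) - A) * z 2 := by
          ring
        rw [e]
        have a2 := nm (2 * ((UU : ℂ) * rR - R)) (z 1) (c := 2) (by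
          rw [norm_mul]
          have : ‖(2 : ℂ)‖ = 2 := by norm_num
          rw [this]
          linarith)
        have a3 := nm _ (z 2) dA
        have b1 := norm_add_le (2 * ((UU : ℂ) * rR - R) * z 1)
          (((UU : ℂ) * ((rR ^ 2 - SbP kk : ℝ) : ℂ) - A) * z 2)
        rw [hσ]
        linarith
    · show RK D t V.r1 (sg1 z) (rR * z 0 + ((rR ^ 2 - SbP kk : ℝ) : ℂ) * z 1 -
        ((2 * SbP kk * rR : ℝ) : ℂ) * z 2) (yJ z _ 1)
      rw [f1]
      refine RK_const r1 ht s0 ?_ ?_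
      · have a1 := nm _ (z 0) cR
        have a2 := nm _ (z 1) cA
        have a3 := nm _ (z 2) cT
        have b1 := norm_sub_le ((R : ℂ) * z 0 + (A : ℂ) * z 1) ((T : ℂ) * z 2)
        have b2 := norm_add_le ((R : ℂ) * z 0) ((A : ℂ) * z 1)
        rw [hσ]
        linarith
      · have e : (UU : ℂ) * (rR * z 0 + ((rR ^ 2 - SbP kk : ℝ) : ℂ) * z 1 -
            ((2 * SbP kk * rR : ℝ) : ℂ) * z 2) - ((R : ℂ) * z 0 + (A : ℂ) * z 1 - (T : ℂ) * z 2) =
            ((UU : ℂ) * rR - R) * z 0 + ((UU : ℂ) * ((rR ^ 2 - SbP kk : ℝ) : ℂ) - A) * z 1 -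
            ((UU : ℂ) * ((2 * SbP kk * rR : ℝ) : ℂ) - T) * z 2 := by
          ring
        rw [e]
        have a1 := nm _ (z 0) dR
        have a2 := nm _ (z 1) dA
        have a3 := nm _ (z 2) dT
        have b1 := norm_sub_le (((UU : ℂ) * rR - R) * z 0 +
          ((UU : ℂ) * ((rR ^ 2 - SbP kk : ℝ) : ℂ) - A) * z 1)
          (((UU : ℂ) * ((2 * SbP kk * rR : ℝ) : ℂ) - T) * z 2)
        have b2 := norm_add_le (((UU : ℂ) * rR - R) * z 0)
          (((UU : ℂ) * ((rR ^ 2 - SbP kk : ℝ) : ℂ) - A) * z 1)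
        rw [hσ]
        linarith
    · show RK D t V.r2 (sg1 z) (((rR ^ 2 + SbP kk : ℝ) : ℂ) * z 0) (yJ z _ 2)
      rw [f2]
      refine RK_const r2 ht s0 ?_ ?_
      · have a1 := nm _ (z 0) cW
        rw [hσ]
        linarith
      · have e : (UU : ℂ) * (((rR ^ 2 + SbP kk : ℝ) : ℂ) * z 0) - (W : ℂ) * z 0 =
            ((UU : ℂ) * ((rR ^ 2 + SbP kk : ℝ) : ℂ) - W) * z 0 := by ring
        rw [e]
        have a1 := nm _ (z 0) dW
        rw [hσ]
        linarith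
  have h5 := run_pos ht hK hS hRW (nsq_pos hz) (c := 1 / 2) (sg := 1) (by norm_num) (by norm_num) (by
    have e1 : ((({ V := V, s := s : BT v } : BT v).V.ca : ℕ) : ℝ) = 1 := by
      show ((V.ca : ℕ) : ℝ) = 1
      rw [hca]; norm_num
    have e2 : ((({ V := V, s := s : BT v } : BT v).V.cb : ℕ) : ℝ) = 0 := by
      show ((V.cb : ℕ) : ℝ) = 0
      rw [hcb]; norm_num
    have e3 : ((({ V := V, s := s : BT v } : BT v).V.sg : ℕ) : ℝ) = 1 := by
      show ((V.sg : ℕ) : ℝ) = 1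
      rw [hsg]; norm_num
    rw [e1, e2, e3, cnt_fal] at h1
    push_cast
    linarith)
  rw [Pool.Agent.Helper6.RND.Bm_BA, BA_yW]
  exact h5

end

end Pool.Agent.Helper21.KTE
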