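import Pool.Agent.Helper21.CT.KTI

/-!
Row KTE (tails), part J: single runs and families of a tail star, state `(k, R)`; the laws of a
machine in one structure; the machines of depth 1 to 4.
-/

set_option autoImplicit false
set_option exponentiation.threshold 4000
noncomputable section
namespace Pool.Agent.Helper21.KTE

open Pool.Agent.Helper90.C75 (Vt mulT avg wtT avg_add avg_const)
open Pool.Agent.Helper90.KMT
open Pool.Agent.Helper90.KMO (UU UU_pos zv cz)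
open Pool.Agent.Helper17.KPT
open Pool.Agent.Helper17.PAK (sc nrm EncV NBz)
open Pool.Agent.Helper86.C75 (Z)
open Pool.Agent.Helper86.CX (Hm ev Cx P9 VR SE andB BA)
open Pool.Agent.Helper86.CT (N3 DF Alg Rw VO Mo Qd KM Mc Mq BT eN chP mkQd qm2 qm3 qf SM R1M SOK
  rw0 rw1 rw2 mxRw mulM addM subM invM cst row0 vo1 voB vo0 vo1' vo2 vo3 vo4 r3x Pr K1 K2 K3 K4
  Q1m Q2m Q3m Q4m)
open Pool.Agent.Helper6.MONO (Kp SbP Rb Bm VV)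
open Pool.Agent.Helper21.KRN (kC cN1 cN2 cN3 cN4)
open Complex ComplexConjugate

variable {D : ℕ} {t : ℕ → ℝ}

/-! ### the laws of a machine -/

/-- the laws of a machine, its matrices, its constant trees -/
structure MX {α β p v γ : Type} (D : ℕ) (lC : α → Vt D → Cx) (lf : α → Vt D → ℂ)
    (mf : (ℕ → ℝ) → β → (ℕ → ℝ) → ℝ) (lp : p → Vt D → P9) (lv : v → Vt D → VR)
    (lg : γ → Vt D → ℕ) (Sa : α → List Bool → Prop) (Sp : p → List Bool → Prop)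
    (Sv : v → List Bool → Prop) (Sg : γ → List Bool → Prop) (M : Mc α β p v γ) (Q : Mq α v)
    (cv : VR → v) : Prop where
  k : MK D lC lf mf lp lv lg Sp Sv Sg M
  q : MQ D lC lv Sa Sv Q
  a : AOK D lf M.A
  e : Q.A = M.A
  s : SHL D Sa M.A
  d : DZ Sa M.A
  f : SF D Sa lC
  n : MN D mf
  u : UOK D lf mf M.U
  w : M.w * 2 ^ D = 2 ^ 28
  t : TLW D lf M.T
  c : CV D lv Sv cv

theorem CV1 : CV 1 l1 s1 cN1 := ⟨fun h _ => h, fun _ => rfl⟩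
theorem CV2 : CV 2 l2 s2 cN2 := ⟨fun h _ => h, fun _ => rfl⟩
theorem CV3 : CV 3 l3 s3 cN3 := ⟨fun h _ => h, fun _ => rfl⟩
theorem CV4 : CV 4 l4 s4 cN4 := ⟨fun h _ => h, fun _ => rfl⟩

theorem SF1 : SF 1 (s1 : N3 Cx → List Bool → Prop) l1 := SF0.nx
theorem SF2 : SF 2 (s2 : N3 (N3 Cx) → List Bool → Prop) l2 := SF.nx (S := s1) (lc := l1) SF1
theorem SF3 : SF 3 (s3 : N3 (N3 (N3 Cx)) → List Bool → Prop) l3 := SF.nx (S := s2) (lc := l2) SF2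
theorem SF4 : SF 4 (s4 : N3 (N3 (N3 (N3 Cx))) → List Bool → Prop) l4 := SF.nx (S := s3) (lc := l3) SF3

theorem MX1 : MX 1 l1 (nlf lf0) (nmf 0 mf0) l1 l1 l1 s1 s1 s1 s1 K1 Q1m cN1 :=
  ⟨K1_ok, Q1m_ok, A1_ok, rfl, SHL1, DZ1, SF1, MN1, U1_ok, rfl, T1_ok, CV1⟩
theorem MX2 : MX 2 l2 (nlf (nlf lf0)) (nmf 1 (nmf 0 mf0)) l2 l2 l2 s2 s2 s2 s2 K2 Q2m cN2 :=
  ⟨K2_ok, Q2m_ok, A2_ok, rfl, SHL2, DZ2, SF2, MN2, U2_ok, rfl, T2_ok, CV2⟩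
theorem MX3 : MX 3 l3 (nlf (nlf (nlf lf0))) (nmf 2 (nmf 1 (nmf 0 mf0))) l3 l3 l3 s3 s3 s3 s3 K3
    Q3m cN3 :=
  ⟨K3_ok, Q3m_ok, A3_ok, rfl, SHL3, DZ3, SF3, MN3, U3_ok, rfl, T3_ok, CV3⟩
theorem MX4 : MX 4 l4 (nlf (nlf (nlf (nlf lf0)))) (nmf 3 (nmf 2 (nmf 1 (nmf 0 mf0)))) l4 l4 l4
    s4 s4 s4 s4 K4 Q4m cN4 :=
  ⟨K4_ok, Q4m_ok, A4_ok, rfl, SHL4, DZ4, SF4, MN4, U4_ok, rfl, T4_ok, CV4⟩

/-! ### the runs of a tail star -/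

section

variable {α β p v γ : Type} {lC : α → Vt D → Cx} {lf : α → Vt D → ℂ}
  {mf : (ℕ → ℝ) → β → (ℕ → ℝ) → ℝ} {lp : p → Vt D → P9} {lv : v → Vt D → VR}
  {lg : γ → Vt D → ℕ} {Sa : α → List Bool → Prop} {Sp : p → List Bool → Prop}
  {Sv : v → List Bool → Prop} {Sg : γ → List Bool → Prop} {M : Mc α β p v γ} {Q : Mq α v}
  {cv : VR → v}

theorem MX.aq (h : MX D lC lf mf lp lv lg Sa Sp Sv Sg M Q cv) : AOK D lf Q.A := by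
  rw [h.e]; exact h.a
theorem MX.sq (h : MX D lC lf mf lp lv lg Sa Sp Sv Sg M Q cv) : SHL D Sa Q.A := by
  rw [h.e]; exact h.s
theorem MX.dq (h : MX D lC lf mf lp lv lg Sa Sp Sv Sg M Q cv) : DZ Sa Q.A := by
  rw [h.e]; exact h.d

/-- the model of a tail kappa: value, shape, sizes -/
structure TK {α v : Type} (D : ℕ) (lf : α → Vt D → ℂ) (Sa : α → List Bool → Prop) (t : ℕ → ℝ)
    (Q : Mq α v) (k : ℝ) (Ke : Mo α) : Prop where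
  m : TOK D lf t (k : ℂ) Ke
  s : ∃ l, Sa Ke.v l ∧ cnt l ≤ 1
  c : kC Q.A Ke = true

/-- the run `R = 1 + 2/k` -/
theorem t2_pos (hM : MX D lC lf mf lp lv lg Sa Sp Sv Sg M Q cv)
    (ht : Pool.Agent.Helper90.KMT.PT D t) {K : Hm ℝ} {P : KM α} (hK : KMK D lf t K P)
    {KT LT : β} {b : List (BT v)} (h : chP M KT LT b P = true) {k : ℝ} {Ke : Mo α}
    (hk : TK D lf Sa t Q k Ke) {s : List SE}
    (hB : (⟨vo1 Q (qm2 Q.A (R1M Q.A Ke) (SM Q.A Ke)), s⟩ : BT v) ∈ b) {y : SE}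
    (hy : y ∈ s) {z : Fin 3 → ℂ} (hz : 0 < ev (KTab mf KT y.k t) z) :
    0 < ev K ((Bm k (1 + 2 / k)).mulVec z) := by
  obtain ⟨l, hs, hl⟩ := hk.s
  obtain ⟨m1, m2, hk0⟩ := SM_ok hM.aq ht hk.m (kC_t hk.c).1
  have g := qm2_good hM.k.cl hM.aq hM.sq hM.dq hM.f ht hs hl hk.c
  have q := qm2_ok hM.aq ht m2 m1
  have h1 := vo1_pos hM.k hM.q hM.aq hM.f hM.n ht hK h hl g q hB hy hz
  rw [yW_Bm k (1 + 2 / k) hk0] at h1
  exact h1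

/-- the run `R = 1` -/
theorem t3_pos (hM : MX D lC lf mf lp lv lg Sa Sp Sv Sg M Q cv)
    (ht : Pool.Agent.Helper90.KMT.PT D t) {K : Hm ℝ} {P : KM α} (hK : KMK D lf t K P)
    {KT LT : β} {b : List (BT v)} (h : chP M KT LT b P = true) {k : ℝ} {Ke : Mo α}
    (hk : TK D lf Sa t Q k Ke) {s : List SE}
    (hB : (⟨vo1 Q (qm3 Q.A (SM Q.A Ke)), s⟩ : BT v) ∈ b) {y : SE}
    (hy : y ∈ s) {z : Fin 3 → ℂ} (hz : 0 < ev (KTab mf KT y.k t) z) :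
    0 < ev K ((Bm k 1).mulVec z) := by
  obtain ⟨l, hs, hl⟩ := hk.s
  obtain ⟨m1, m2, hk0⟩ := SM_ok hM.aq ht hk.m (kC_t hk.c).1
  have g := qm3_good hM.k.cl hM.aq hM.sq hM.dq hM.f ht hs hl hk.c
  have q := qm3_ok hM.aq ht m1
  have h1 := vo1_pos hM.k hM.q hM.aq hM.f hM.n ht hK h hl g q hB hy hz
  have e : (1 : ℝ) - (4 / k ^ 2 - 1) = 1 ^ 2 - (4 / k ^ 2 - 1) ∧
      (1 : ℝ) + (4 / k ^ 2 - 1) = 1 ^ 2 + (4 / k ^ 2 - 1) := by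
    constructor <;> ring
  rw [e.1, e.2, yW_Bm k 1 hk0] at h1
  exact h1

theorem nat_div_err (n : ℕ) {x : ℝ} {d : ℕ} (hd : 0 < d) (h : x = (n : ℝ) / d) :
    |x - ((n / d : ℕ) : ℝ)| ≤ 1 := by
  have hd' : (0 : ℝ) < d := by exact_mod_cast hd
  have h1 : ((n / d : ℕ) : ℝ) ≤ (n : ℝ) / d := Nat.cast_div_le
  have h2 : n < d * (n / d + 1) := Nat.lt_mul_div_succ n hd
  have h3 : (n : ℝ) < d * ((n / d : ℕ) + 1) := by exact_mod_cast h2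
  have h4 : (n : ℝ) / d < ((n / d : ℕ) : ℝ) + 1 := by
    rw [div_lt_iff₀ hd']
    linarith
  rw [h, abs_le]
  constructor <;> linarith

/-- the runs `R` with `ra ≤ 2^48 R ≤ rb` -/
theorem lr_pos (hM : MX D lC lf mf lp lv lg Sa Sp Sv Sg M Q cv)
    (ht : Pool.Agent.Helper90.KMT.PT D t) {K : Hm ℝ} {P : KM α} (hK : KMK D lf t K P)
    {KT LT : β} {b : List (BT v)} (h : chP M KT LT b P = true) {k : ℝ} {Ke : Mo α}
    (hk : TK D lf Sa t Q k Ke) {R : ℝ} {ra rb : ℕ} (ha : (ra : ℝ) ≤ UU * R)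
    (hb : UU * R ≤ (rb : ℝ)) (hrb : rb ≤ 2 ^ 50) {s : List SE} {X Y Z' : Qd α}
    (eX : X = qf Q.A ra (ra * ra / 2 ^ 48) (SM Q.A Ke))
    (eY : Y = qf Q.A ((ra + rb) / 2) (ra * rb / 2 ^ 48) (SM Q.A Ke))
    (eZ : Z' = qf Q.A rb (rb * rb / 2 ^ 48) (SM Q.A Ke))
    (b0 : (⟨vo0 Q X Y Z', s⟩ : BT v) ∈ b) (b1 : (⟨vo1' Q X Y Z', s⟩ : BT v) ∈ b)
    (b2 : (⟨vo2 Q X Y Z', s⟩ : BT v) ∈ b) (b3 : (⟨vo3 Q X Y Z', s⟩ : BT v) ∈ b)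
    (b4 : (⟨vo4 Q X Y Z', s⟩ : BT v) ∈ b) {y : SE} (hy : y ∈ s) {z : Fin 3 → ℂ}
    (hz : 0 < ev (KTab mf KT y.k t) z) :
    0 < ev K ((Bm k R).mulVec z) := by
  obtain ⟨l, hs, hl⟩ := hk.s
  obtain ⟨m1, m2, hk0⟩ := SM_ok hM.aq ht hk.m (kC_t hk.c).1
  have hU := UU_pos
  have hUU : UU = 2 ^ 48 := by unfold UU; norm_num
  have hab' : (ra : ℝ) ≤ rb := ha.trans hb
  have hab : ra ≤ rb := by exact_mod_cast hab'
  have hra : ra ≤ 2 ^ 50 := hab.trans hrb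
  have g : ∀ r rr : ℕ, r ≤ 2 ^ 50 → rr ≤ 2 ^ 52 → QG lC Sa Q.A l (qf Q.A r rr (SM Q.A Ke)) :=
    fun r rr h1 h2 => qf_good hM.k.cl hM.aq hM.sq hM.dq hM.f ht hs hl hk.c h1 h2
  have dv : ∀ x y : ℕ, x ≤ 2 ^ 50 → y ≤ 2 ^ 50 → x * y / 2 ^ 48 ≤ 2 ^ 52 := by
    intro x y hx hy
    have h1 : x * y ≤ 2 ^ 50 * 2 ^ 50 := Nat.mul_le_mul hx hy
    have h2 : x * y / 2 ^ 48 ≤ 2 ^ 50 * 2 ^ 50 / 2 ^ 48 := Nat.div_le_div_right h1
    refine h2.trans ?_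
    norm_num
  have gX := g ra (ra * ra / 2 ^ 48) hra (dv _ _ hra hra)
  have gY := g ((ra + rb) / 2) (ra * rb / 2 ^ 48) (by omega) (dv _ _ hra hrb)
  have gZ := g rb (rb * rb / 2 ^ 48) hrb (dv _ _ hrb hrb)
  rw [← eX] at gX
  rw [← eY] at gY
  rw [← eZ] at gZ
  have qX : QOK D lf t ((ra : ℝ) / UU) (((ra : ℝ) / UU) ^ 2 - (4 / k ^ 2 - 1))
      (((ra : ℝ) / UU) ^ 2 + (4 / k ^ 2 - 1)) (2 * ((ra : ℝ) / UU) * (4 / k ^ 2 - 1)) X := by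
    rw [eX]
    refine qf_ok hM.aq ht ?_ ?_ m1
    · rw [mul_div_cancel₀ _ hU.ne', sub_self, abs_zero]
      norm_num
    · refine nat_div_err (ra * ra) (by norm_num) ?_
      have e : UU * ((ra : ℝ) / UU) ^ 2 = (ra : ℝ) * ra / UU := by field_simp
      rw [e, hUU, Nat.cast_mul, Nat.cast_pow, Nat.cast_ofNat]
  have qY : QOK D lf t (((ra : ℝ) / UU + (rb : ℝ) / UU) / 2)
      ((ra : ℝ) / UU * ((rb : ℝ) / UU) - (4 / k ^ 2 - 1))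
      ((ra : ℝ) / UU * ((rb : ℝ) / UU) + (4 / k ^ 2 - 1))
      (2 * (((ra : ℝ) / UU + (rb : ℝ) / UU) / 2) * (4 / k ^ 2 - 1)) Y := by
    rw [eY]
    refine qf_ok hM.aq ht ?_ ?_ m1
    · refine nat_div_err (ra + rb) (by norm_num) ?_
      push_cast
      field_simp
    · refine nat_div_err (ra * rb) (by norm_num) ?_
      have e : UU * ((ra : ℝ) / UU * ((rb : ℝ) / UU)) = (ra : ℝ) * rb / UU := by field_simp
      rw [e, hUU, Nat.cast_mul, Nat.cast_pow, Nat.cast_ofNat]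
  have qZ : QOK D lf t ((rb : ℝ) / UU) (((rb : ℝ) / UU) ^ 2 - (4 / k ^ 2 - 1))
      (((rb : ℝ) / UU) ^ 2 + (4 / k ^ 2 - 1)) (2 * ((rb : ℝ) / UU) * (4 / k ^ 2 - 1)) Z' := by
    rw [eZ]
    refine qf_ok hM.aq ht ?_ ?_ m1
    · rw [mul_div_cancel₀ _ hU.ne', sub_self, abs_zero]
      norm_num
    · refine nat_div_err (rb * rb) (by norm_num) ?_
      have e : UU * ((rb : ℝ) / UU) ^ 2 = (rb : ℝ) * rb / UU := by field_simp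
      rw [e, hUU, Nat.cast_mul, Nat.cast_pow, Nat.cast_ofNat]
  -- the parameter
  obtain ⟨σ, s0, s1, hσ⟩ : ∃ σ : ℝ, 0 ≤ σ ∧ σ ≤ 1 ∧
      (1 - σ) * ((ra : ℝ) / UU) + σ * ((rb : ℝ) / UU) = R := by
    rcases hab'.eq_or_lt with he | hlt
    · refine ⟨0, le_rfl, zero_le_one, ?_⟩
      have : UU * R = ra := le_antisymm (hb.trans he.symm.le) ha
      rw [← this]
      field_simp
      ring
    · have hd : (0 : ℝ) < rb - ra := by linarith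
      refine ⟨(UU * R - ra) / (rb - ra), div_nonneg (by linarith) hd.le, ?_, ?_⟩
      · rw [div_le_one hd]
        linarith
      · field_simp
        ring
  have h1 := fam_vo hM.k hM.q hM.aq hM.f hM.n ht hK h hl gX gY gZ qX qY qZ b0 b1 b2 b3 b4 hy hz s0 s1
  rw [fam_BA, hσ, yW_Bm k R hk0] at h1
  exact h1

end

end Pool.Agent.Helper21.KTE
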