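import Pool.Agent.Helper21.CT.KTJ
import Pool.Agent.Helper21.CT.KRS

/-!
Row KTE (tails), part K: THE TEST OF A CELL AT A POINT.
-/

set_option autoImplicit false
set_option exponentiation.threshold 4000
noncomputable section
namespace Pool.Agent.Helper21.KTE

open Pool.Agent.Helper90.C75 (Vt mulT avg wtT avg_add avg_const Mod)
open Pool.Agent.Helper90.KMT
open Pool.Agent.Helper90.KMO (UU UU_pos zv cz andB_t)
open Pool.Agent.Helper17.KPT hiding Rb PI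
open Pool.Agent.Helper17.PAK (sc nrm EncV NBz vpq)
open Pool.Agent.Helper86.C75 (Z)
open Pool.Agent.Helper86.CX (Hm ev Cx P9 VR SE andB BA CK CM ev_CK tst tsl)
open Pool.Agent.Helper86.CT (N3 DF Alg Rw VO Mo Qd KM Mc Mq BT eN chP chE chO chR CE CO mkE mkR mkL
  mkO mkKM PE PO zipP kmOK Cls chOm chG chZ chX chCell clsOK mkCls mkQd qm2 qm3 qf SM R1M SOK
  rw0 rw1 rw2 mxRw mulM addM subM invM invOK gM uM zM cst row0 vo1 voB vo0 vo1' vo2 vo3 vo4 r3x Pr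
  K1 K2 K3 K4 Q1m Q2m Q3m Q4m)
open Pool.Agent.Helper6.MONO (Kp SbP Rb Bm VV)
open Pool.Agent.Helper6.MID (oZ sE sO kO)
open Pool.Agent.Helper21.KRN
open Complex ComplexConjugate

variable {D : ℕ} {t : ℕ → ℝ}

theorem exV_eq (M j : ℕ) (h3 : 3 ≤ M) (h9 : M ≤ 9) (hj : 1 ≤ j) (hjM : j < M) :
    exV M j = VV M j := by
  interval_cases M <;> interval_cases j <;> rfl

section

variable {α β p v γ : Type} {lC : α → Vt D → Cx} {lf : α → Vt D → ℂ}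
  {mf : (ℕ → ℝ) → β → (ℕ → ℝ) → ℝ} {lp : p → Vt D → P9} {lv : v → Vt D → VR}
  {lg : γ → Vt D → ℕ} {Sa : α → List Bool → Prop} {Sp : p → List Bool → Prop}
  {Sv : v → List Bool → Prop} {Sg : γ → List Bool → Prop} {M : Mc α β p v γ}

/-- the data of the expansion are good -/
structure XG {α v : Type} (D : ℕ) (lf : α → Vt D → ℂ) (Sa : α → List Bool → Prop) (t : ℕ → ℝ)
    (X : XM α v) (κ : Fin 3 → ℝ) : Prop where
  r : RC D X.r
  t0 : TK D lf Sa t X.Q (κ 0) X.k0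
  t1 : TK D lf Sa t X.Q (κ 1) X.k1
  t2 : TK D lf Sa t X.Q (κ 2) X.k2

theorem XG.tk {X : XM α v} {κ : Fin 3 → ℝ} (h : XG D lf Sa t X κ) (e : ℕ) :
    TK D lf Sa t X.Q (kap κ e) (kE X e) := by
  match e with
  | 0 => exact h.t0
  | 1 => exact h.t1
  | _ + 2 => exact h.t2

theorem xB_mem {X : XM α v} {l : List BI} {y : BI} (hy : y ∈ l) {B : BT v}
    (hB : B ∈ runs X y.id y.s []) : B ∈ xB X l := by
  have key : ∀ (i : RI) (s : List SE) (T : List (BT v)), ∀ B, B ∈ runs X i s T ↔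
      (B ∈ runs X i s [] ∨ B ∈ T) := by
    intro i s T B
    cases i with
    | ex M m => simp [runs]
    | t2 e => simp [runs]
    | t3 e => simp [runs]
    | lr e ra rb =>
      simp only [runs, fam5, List.mem_cons, List.not_mem_nil, or_false]
      tauto
  induction l with
  | nil => cases hy
  | cons x l ih =>
    have e : xB X (x :: l) = runs X x.id x.s (xB X l) := rfl
    rw [e, key]
    rcases List.mem_cons.1 hy with rfl | hy
    · exact Or.inl hB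
    · exact Or.inr (ih hy)

/-- **ONE BLOCK OF A TYPED PROGRAM** -/
theorem blk_pos {X : XM α v} (hM : MX D lC lf mf lp lv lg Sa Sp Sv Sg M X.Q X.c)
    (ht : Pool.Agent.Helper90.KMT.PT D t) {κ : Fin 3 → ℝ} (hX : XG D lf Sa t X κ)
    {K : Hm ℝ} {P : KM α} (hK : KMK D lf t K P) {KT LT : β} {b : List BI}
    (h : chP M KT LT (xB X b) P = true) {y : BI} (hy : y ∈ b) {u : SE} (hu : u ∈ y.s)
    {k R : ℝ} (hR : RunIn κ y.id k R) {z : Fin 3 → ℂ} (hz : 0 < ev (KTab mf KT u.k t) z) :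
    0 < ev K ((Bm k R).mulVec z) := by
  have hmem : ∀ B : BT v, B ∈ runs X y.id y.s [] → B ∈ xB X b := fun B hB => xB_mem hy hB
  obtain ⟨id, s⟩ := y
  cases id with
  | ex Mn m =>
    obtain ⟨h3, h9, h2, hm, rfl, rfl⟩ := hR
    have hj : 1 ≤ m - 1 := by omega
    have hjM : m - 1 < Mn := by omega
    refine ex_pos hM.k hM.c hM.n ht hK h h3 h9 hj hjM (V := xVO X Mn m) ?_ hX.r hX.r hX.r rfl rfl rfl
      (s := s) (hmem _ (List.mem_cons_self ..)) hu hz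
    show X.c (exV Mn (m - 1)) = X.c (VV Mn (m - 1))
    rw [exV_eq Mn (m - 1) h3 h9 hj hjM]
  | t2 e =>
    obtain ⟨rfl, rfl⟩ := hR
    exact t2_pos hM ht hK h (hX.tk e) (s := s) (hmem _ (List.mem_cons_self ..)) hu hz
  | t3 e =>
    obtain ⟨rfl, rfl⟩ := hR
    exact t3_pos hM ht hK h (hX.tk e) (s := s) (hmem _ (List.mem_cons_self ..)) hu hz
  | lr e ra rb =>
    obtain ⟨rfl, ha, hb, hrb⟩ := hR
    have hU : UU = 2 ^ 48 := by unfold UU; norm_num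
    rw [← hU] at ha hb
    refine lr_pos hM ht hK h (hX.tk e) ha hb hrb (s := s)
      (X := qf X.Q.A ra (pd ra ra) (SM X.Q.A (kE X e)))
      (Y := qf X.Q.A (Nat.div (Nat.add ra rb) (nat_lit 2)) (pd ra rb) (SM X.Q.A (kE X e)))
      (Z' := qf X.Q.A rb (pd rb rb) (SM X.Q.A (kE X e))) rfl rfl rfl
      (hmem _ ?_) (hmem _ ?_) (hmem _ ?_) (hmem _ ?_) (hmem _ ?_) hu hz
    · exact List.mem_cons_self ..
    · exact List.mem_cons_of_mem _ (List.mem_cons_self ..)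
    · exact List.mem_cons_of_mem _ (List.mem_cons_of_mem _ (List.mem_cons_self ..))
    · exact List.mem_cons_of_mem _ (List.mem_cons_of_mem _ (List.mem_cons_of_mem _
        (List.mem_cons_self ..)))
    · exact List.mem_cons_of_mem _ (List.mem_cons_of_mem _ (List.mem_cons_of_mem _
        (List.mem_cons_of_mem _ (List.mem_cons_self ..))))

theorem xP_mem {X : XM α v} {l : List KRN.PI} {x : KRN.PI} (hx : x ∈ l) :
    (⟨x.k, xB X x.b⟩ : Pool.Agent.Helper86.CT.PT v) ∈ xP X l := by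
  induction l with
  | nil => cases hx
  | cons y l ih =>
    have e : xP X (y :: l) = ⟨y.k, xB X y.b⟩ :: xP X l := rfl
    rw [e]
    rcases List.mem_cons.1 hx with rfl | hx
    · exact List.mem_cons_self ..
    · exact List.mem_cons_of_mem _ (ih hx)

/-! ### the tests of the reference vectors -/

/-- the law of the tests at the leaves -/
def SVK (D : ℕ) (lp : p → Vt D → P9) (S : Pool.Agent.Helper86.CT.Sv p) : Prop :=
  ∀ (f : P9 → Bool) (x : p), S.t f x = true → ∀ u, f (lp x u) = true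

/-! ### the six values of `om` -/

/-- the blocks of an even list -/
theorem evenT_pos {X : XM α v} (hM : MX D lC lf mf lp lv lg Sa Sp Sv Sg M X.Q X.c)
    (ht : Pool.Agent.Helper90.KMT.PT D t) {κ : Fin 3 → ℝ} (hX : XG D lf Sa t X κ) {KT LT : β}
    {o o' : ℂ} {c2 s : Mo α} {ps : List KRN.PI} (hc : TOK D lf t o' c2) (hs : TOK D lf t o s)
    (hh : chE M KT LT (mkE M.A c2 s) (xP X ps) = true) : ∀ x ∈ ps, ∀ y ∈ x.b, ∀ u ∈ y.s, ∀ k R,
    RunIn κ y.id k R → ∀ v, 0 < ev (KTab mf KT u.k t) v →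
    0 < ev (CK (KTab mf KT x.k t) 0 o' (o * o')) ((Bm k R).mulVec v) := by
  intro x hx y hy u hu k R hR v hv
  have h1 : chP M KT LT (xB X x.b) (PE M.A (mkE M.A c2 s) (mkKM M.A M.U M.w KT x.k)) = true :=
    chE_mem hh ⟨x.k, xB X x.b⟩ (xP_mem hx)
  exact blk_pos hM ht hX (PE_ok hM.a ht (mkE_ok hM.a ht hc hs) (mkKM_ok hM.a hM.u hM.w KT x.k)) h1
    hy hu hR hv

/-- the blocks of an odd list -/
theorem oddT_pos {X : XM α v} (hM : MX D lC lf mf lp lv lg Sa Sp Sv Sg M X.Q X.c)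
    (ht : Pool.Agent.Helper90.KMT.PT D t) {κ : Fin 3 → ℝ} (hX : XG D lf Sa t X κ) {KT LT : β}
    {o o' k' : ℂ} {c2 s h q ke : Mo α} {ps : List KRN.PI} (hc : TOK D lf t o' c2)
    (hs : TOK D lf t o s) (hh : TOK D lf t (k' / 2) h) (hq : TOK D lf t (k' / 4) q)
    (hke : TOK D lf t (k' ^ 2 / (4 * (2 + k'))) ke)
    (hH : chO M KT LT (mkO M.A c2 s h q ke) (xP X ps) = true) : ∀ x ∈ ps, ∀ y ∈ x.b, ∀ u ∈ y.s,
    ∀ k R, RunIn κ y.id k R → ∀ v, 0 < ev (KTab mf KT u.k t) v →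
    0 < ev (CK (KTab mf KT x.k t) (k' * o / 2 - k' ^ 2 / (4 * (2 + k'))) o'
      (o' * (k' / 2) * (1 / 2 - o))) ((Bm k R).mulVec v) := by
  intro x hx y hy u hu k R hR v hv
  have h1 : chP M KT LT (xB X x.b) (PO M.A (mkO M.A c2 s h q ke)
      (mkKM M.A M.U M.w KT x.k)) = true := chO_mem hH ⟨x.k, xB X x.b⟩ (xP_mem hx)
  exact blk_pos hM ht hX (PO_ok hM.a ht (mkO_ok hM.a ht hc hs hh hq hke)
    (mkKM_ok hM.a hM.u hM.w KT x.k)) h1 hy hu hR hv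

/-- the reference vectors of a list -/
theorem refT_pos {Q : Mq α v} {cv : VR → v} (hM : MX D lC lf mf lp lv lg Sa Sp Sv Sg M Q cv)
    (ht : Pool.Agent.Helper90.KMT.PT D t) {S : Pool.Agent.Helper86.CT.Sv p} (hS : SVK D lp S)
    {KT : β} {o : ℂ} {s : Mo α} {ps : List ℕ} (hs : TOK D lf t o s)
    (hh : chR M S tst KT (mkR M.A s) ps = true) : ∀ x ∈ ps, ∀ v : Fin 3 → ℂ,
    (v = vpq 192 640 ∨ v = vpq 197 640 ∨ v = vpq 192 645) →
    0 < ev (CK (KTab mf KT x t) 0 o (o * (1 / 2 - o))) v := by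
  intro x hx v hv
  obtain ⟨h1, h2⟩ := chR_mem hh x hx
  obtain ⟨g1, g2, g3⟩ := tst_sound hM.k (fun {f x} => hS f x) ht
    (PE_ok hM.a ht (mkR_ok hM.a ht hs) (mkKM_ok hM.a hM.u hM.w KT x)) h1 h2
  rcases hv with rfl | rfl | rfl
  · exact g1
  · exact g2
  · exact g3

/-- from the form `diag(1, x, y)^* K diag(1, x, y)` at `(1, 1, 1)` -/
theorem ev_111 {K : Hm ℝ} {x y : ℂ} (g : 0 < ev (CK K 0 x y) ![1, 1, 1]) :
    0 < ev K ![1, x, y] := by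
  rw [← ev_CK] at g
  have e : (CM 0 x y).mulVec ![1, 1, 1] = ![1, x, y] := by
    funext i
    fin_cases i <;> simp [CM, Matrix.mulVec, dotProduct, Fin.sum_univ_three]
  rw [e] at g
  exact g

/-- the `L` vector of a list -/
theorem refL_pos {Q : Mq α v} {cv : VR → v} (hM : MX D lC lf mf lp lv lg Sa Sp Sv Sg M Q cv)
    (ht : Pool.Agent.Helper90.KMT.PT D t) {S : Pool.Agent.Helper86.CT.Sv p} (hS : SVK D lp S)
    {KT : β} {o : ℂ} {s : Mo α} {ps : List ℕ} (hs : TOK D lf t o s)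
    (hh : chR M S tsl KT (mkL M.A s) ps = true) : ∀ x ∈ ps,
    0 < ev (KTab mf KT x t) ![1, 1 / 5 + o / 10, 1 / 5 - 2 * o / 5] := by
  intro x hx
  obtain ⟨h1, h2⟩ := chR_mem hh x hx
  exact ev_111 (tsl_sound hM.k (fun {f x} => hS f x) ht
    (PE_ok hM.a ht (mkL_ok hM.a ht hs) (mkKM_ok hM.a hM.u hM.w KT x)) h1 h2)

/-- THE BLOCKS WITH GIVEN `om` -/
theorem chOm_sound {X : XM α v} (hM : MX D lC lf mf lp lv lg Sa Sp Sv Sg M X.Q X.c)
    (ht : Pool.Agent.Helper90.KMT.PT D t) {κ : Fin 3 → ℝ} (hX : XG D lf Sa t X κ)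
    {S : Pool.Agent.Helper86.CT.Sv p} (hS : SVK D lp S) {C : Cls α} (hC : CLT D lf t (cκ κ) C)
    {z : ℂ} {m0 m1 m2 m3 m4 m5 : Mo α} (hO : OMT D lf t (cκ κ) z m0 m1 m2 m3 m4 m5)
    {KT LT : β} {G : TProg} (H : chOm M S C KT LT (expand X G) m0 m1 m2 m3 m4 m5 = true) :
    KResT (fun k => KTab mf KT k t) κ z G := by
  obtain ⟨e0, H⟩ := andB_t H
  obtain ⟨e1, H⟩ := andB_t H
  obtain ⟨e2, H⟩ := andB_t H
  obtain ⟨e3, H⟩ := andB_t H
  obtain ⟨e4, H⟩ := andB_t H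
  obtain ⟨e5, H⟩ := andB_t H
  obtain ⟨o0, H⟩ := andB_t H
  obtain ⟨o1, H⟩ := andB_t H
  obtain ⟨o2, H⟩ := andB_t H
  obtain ⟨o3, H⟩ := andB_t H
  obtain ⟨o4, H⟩ := andB_t H
  obtain ⟨o5, H⟩ := andB_t H
  obtain ⟨r0, H⟩ := andB_t H
  obtain ⟨r1, H⟩ := andB_t H
  obtain ⟨r2, H⟩ := andB_t H
  obtain ⟨r3, H⟩ := andB_t H
  obtain ⟨r4, H⟩ := andB_t H
  obtain ⟨r5, H⟩ := andB_t H
  obtain ⟨l0, H⟩ := andB_t H
  obtain ⟨l1, H⟩ := andB_t H
  obtain ⟨l2, H⟩ := andB_t H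
  obtain ⟨l3, H⟩ := andB_t H
  obtain ⟨l4, l5⟩ := andB_t H
  refine ⟨?_, ?_, ?_, ?_⟩
  · intro i hi
    interval_cases i
    · exact evenT_pos hM ht hX hO.m0 hO.m3 e0
    · exact evenT_pos hM ht hX hO.m1 hO.m4 e1
    · exact evenT_pos hM ht hX hO.m2 hO.m5 e2
    · exact evenT_pos hM ht hX hO.m3 hO.m0 e3
    · exact evenT_pos hM ht hX hO.m4 hO.m1 e4
    · exact evenT_pos hM ht hX hO.m5 hO.m2 e5
  · intro i hi
    interval_cases i
    · exact oddT_pos hM ht hX hO.m0 hO.m2 hC.h2 hC.q2 hC.e2 o0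
    · exact oddT_pos hM ht hX hO.m1 hO.m0 hC.h0 hC.q0 hC.e0 o1
    · exact oddT_pos hM ht hX hO.m2 hO.m1 hC.h1 hC.q1 hC.e1 o2
    · exact oddT_pos hM ht hX hO.m3 hO.m4 hC.h0 hC.q0 hC.e0 o3
    · exact oddT_pos hM ht hX hO.m4 hO.m5 hC.h1 hC.q1 hC.e1 o4
    · exact oddT_pos hM ht hX hO.m5 hO.m3 hC.h2 hC.q2 hC.e2 o5
  · intro i hi
    interval_cases i
    · exact refT_pos hM ht hS hO.m0 r0
    · exact refT_pos hM ht hS hO.m1 r1
    · exact refT_pos hM ht hS hO.m2 r2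
    · exact refT_pos hM ht hS hO.m3 r3
    · exact refT_pos hM ht hS hO.m4 r4
    · exact refT_pos hM ht hS hO.m5 r5
  · intro i hi
    interval_cases i
    · exact refL_pos hM ht hS hO.m0 l0
    · exact refL_pos hM ht hS hO.m1 l1
    · exact refL_pos hM ht hS hO.m2 l2
    · exact refL_pos hM ht hS hO.m3 l3
    · exact refL_pos hM ht hS hO.m4 l4
    · exact refL_pos hM ht hS hO.m5 l5

/-- **THE TEST OF A CELL AT A POINT** -/
theorem chCell_sound {X : XM α v} (hM : MX D lC lf mf lp lv lg Sa Sp Sv Sg M X.Q X.c)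
    (ht : Pool.Agent.Helper90.KMT.PT D t) {κ : Fin 3 → ℝ} (hX : XG D lf Sa t X κ)
    {S : Pool.Agent.Helper86.CT.Sv p} (hS : SVK D lp S) {C : Cls α} (hC : CLT D lf t (cκ κ) C)
    {z x : ℂ} (hz : z ≠ 0) (hx : z + z⁻¹ = x) (hi : (z⁻¹).im ≤ 0) {Xm : Mo α} {us : α}
    (hxm : Mod (wtT D t) (UU * x) (lf Xm.v) Xm.r)
    (hxi : (avg (wtT D t) (lf Xm.v)).im = UU * x.im) (hx0 : ∀ v, 0 ≤ (lf Xm.v v).im)
    {m : ℕ} (hm : 0 < m) {KT LT : β} {G : TProg}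
    (H : chCell M S C (expand X G) Xm m us KT LT = true) :
    KResT (fun k => KTab mf KT k t) κ z G ∧ NZ (cκ κ) z ∧
      TOK D lf t z⁻¹ (uM M.A m Xm (Pool.Agent.Helper86.CT.mk M.A us (nat_lit 0))
        (Pool.Agent.Helper86.CT.mk M.A (M.A.sub Xm.v us) (nat_lit 0))) ∧
      TOK D lf t z (zM Xm (uM M.A m Xm (Pool.Agent.Helper86.CT.mk M.A us (nat_lit 0))
        (Pool.Agent.Helper86.CT.mk M.A (M.A.sub Xm.v us) (nat_lit 0)))
        (Pool.Agent.Helper86.CT.mk M.A (M.A.sub Xm.v us) (nat_lit 0))) := by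
  obtain ⟨hok, H⟩ := andB_t H
  obtain ⟨hu, hzm⟩ := TOK.z hM.a ht hz hx hi hxm hxi hx0 hm hM.t hok
  obtain ⟨b0, H⟩ := andB_t H
  obtain ⟨b1, H⟩ := andB_t H
  obtain ⟨b2, H⟩ := andB_t H
  obtain ⟨b3, H⟩ := andB_t H
  obtain ⟨b4, H⟩ := andB_t H
  obtain ⟨b5, H⟩ := andB_t H
  have hO := OMT.mk' hM.a ht hC hu hzm b0 b1 b2 b3 b4 b5
  exact ⟨chOm_sound hM ht hX hS hC hO H, ⟨hO.n0, hO.n1, hO.n2, hO.n3, hO.n4, hO.n5⟩, hu, hzm⟩

end

end Pool.Agent.Helper21.KTE
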