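import Pool.Agent.Helper21.CT.KRP
import Pool.Agent.Helper21.CT.KTI

/-!
Row KTE (tails), part V: tests at all vertices of a table: static tests, bounds, slit tests.
-/

set_option autoImplicit false
set_option exponentiation.threshold 4000
noncomputable section
namespace Pool.Agent.Helper21.KTE

open Pool.Agent.Helper90.KMT
open Pool.Agent.Helper17.PAK (sc nrm kz ev_lin slR)
open Pool.Agent.Helper86.CX (Hm ev andB u32 kf v32 sl2 st1 stT M2)
open Pool.Agent.Helper86.CT (Pr Vx W0 W1 W2 W3 W4 nxW LT2 slV ssV)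
open Pool.Agent.Helper6.MTC (NegD)
open Pool.Agent.Helper6.MONO (SbP DTH)
open Pool.Agent.Helper21.KRN (SlK)
open Complex ComplexConjugate

/-- the laws of the vertex tests -/
structure WX {β : Type} (D : ℕ) (mf : (ℕ → ℝ) → β → (ℕ → ℝ) → ℝ) (W : Vx β) : Prop where
  add : ∀ (g h : ℕ → ℝ) (T : β) (t : ℕ → ℝ), mf (fun x => g x + h x) T t = mf g T t + mf h T t
  mul : ∀ (c : ℝ) (g : ℕ → ℝ) (T : β) (t : ℕ → ℝ), mf (fun x => c * g x) T t = c * mf g T t
  con : ∀ (c : ℝ) (T : β) (t : ℕ → ℝ), mf (fun _ => c) T t = c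
  le : ∀ (f : ℕ → ℕ → Bool) (T S : β) (g h : ℕ → ℝ) (t : ℕ → ℝ), PT D t →
    W.al f T S = true → (∀ x y, f x y = true → g x ≤ h y) → mf g T t ≤ mf h S t
  pos : ∀ (g : ℕ → ℝ) (T : β) (t : ℕ → ℝ), PT D t → (∀ x, 0 ≤ g x) → 0 ≤ mf g T t
  both : ∀ (f g : ℕ → ℕ → Bool) (T S : β), W.al f T S = true → W.al g T S = true →
    W.al (fun a b => andB (f a b) (g a b)) T S = true

theorem andB_mk {x y : Bool} (hx : x = true) (hy : y = true) : andB x y = true := by
  rw [hx, hy]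
  rfl

theorem WX0 : WX 0 mf0 W0 :=
  ⟨fun _ _ _ _ => rfl, fun _ _ _ _ => rfl, fun _ _ _ => rfl, fun _ T S _ _ _ _ h H => H T S h,
    fun _ T _ _ h => h T, fun _ _ _ _ h1 h2 => andB_mk h1 h2⟩

theorem pt_pred {D : ℕ} {t : ℕ → ℝ} (ht : PT (D + 1) t) : PT D t :=
  ⟨fun j hj => ht.h0 j (by omega), fun j hj => ht.h1 j (by omega), by
    have := ht.hD
    omega⟩

theorem WX.nx {β : Type} {D : ℕ} {mf : (ℕ → ℝ) → β → (ℕ → ℝ) → ℝ} {W : Vx β} (h : WX D mf W) :
    WX (D + 1) (nmf D mf) (nxW W) := by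
  refine ⟨?_, ?_, ?_, ?_, ?_, ?_⟩
  · intro f g T t
    show (1 - t D) * mf _ T.a t + t D * mf _ T.b t =
      (1 - t D) * mf f T.a t + t D * mf f T.b t + ((1 - t D) * mf g T.a t + t D * mf g T.b t)
    rw [h.add, h.add]
    ring
  · intro c g T t
    show (1 - t D) * mf _ T.a t + t D * mf _ T.b t =
      c * ((1 - t D) * mf g T.a t + t D * mf g T.b t)
    rw [h.mul, h.mul]
    ring
  · intro c T t
    show (1 - t D) * mf _ T.a t + t D * mf _ T.b t = c
    rw [h.con, h.con]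
    ring
  · intro f T S g k t ht H hf
    obtain ⟨H1, H2⟩ := Pool.Agent.Helper90.KMO.andB_t H
    have a := h.le f T.a S.a g k t (pt_pred ht) H1 hf
    have b := h.le f T.b S.b g k t (pt_pred ht) H2 hf
    have h0 := ht.h0 D (by omega)
    have h1 := ht.h1 D (by omega)
    show (1 - t D) * mf g T.a t + t D * mf g T.b t ≤ (1 - t D) * mf k S.a t + t D * mf k S.b t
    exact add_le_add (mul_le_mul_of_nonneg_left a (by linarith)) (mul_le_mul_of_nonneg_left b h0)
  · intro g T t ht hg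
    have a := h.pos g T.a t (pt_pred ht) hg
    have b := h.pos g T.b t (pt_pred ht) hg
    have h0 := ht.h0 D (by omega)
    have h1 := ht.h1 D (by omega)
    show 0 ≤ (1 - t D) * mf g T.a t + t D * mf g T.b t
    exact add_nonneg (mul_nonneg (by linarith) a) (mul_nonneg h0 b)
  · intro f g T S H1 H2
    obtain ⟨a1, a2⟩ := Pool.Agent.Helper90.KMO.andB_t H1
    obtain ⟨b1, b2⟩ := Pool.Agent.Helper90.KMO.andB_t H2
    exact andB_mk (h.both f g T.a S.a a1 b1) (h.both f g T.b S.b a2 b2)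

theorem WX1 : WX 1 (nmf 0 mf0) W1 := WX0.nx
theorem WX2 : WX 2 (nmf 1 (nmf 0 mf0)) W2 := WX1.nx
theorem WX3 : WX 3 (nmf 2 (nmf 1 (nmf 0 mf0))) W3 := WX2.nx
theorem WX4 : WX 4 (nmf 3 (nmf 2 (nmf 1 (nmf 0 mf0)))) W4 := WX3.nx

section

variable {β : Type} {D : ℕ} {mf : (ℕ → ℝ) → β → (ℕ → ℝ) → ℝ} {W : Vx β} {t : ℕ → ℝ}

/-- the form of a vertex -/
def gK (k : ℕ) (v : Fin 3 → ℂ) (x : ℕ) : ℝ := ev (sc (2 ^ 20) (kz (kf x k))) v

theorem gK_lin (k : ℕ) (v : Fin 3 → ℂ) (x : ℕ) : gK k v x =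
    normSq (v 0) / 1048576 * sgv k 0 x + (normSq (v 1) / 1048576 * sgv k 32 x +
    (normSq (v 2) / 1048576 * sgv k 64 x + (2 * (conj (v 0) * v 1).re / 1048576 * sgv k 96 x +
    (-(2 * (conj (v 0) * v 1).im) / 1048576 * sgv k 128 x +
    (2 * (conj (v 0) * v 2).re / 1048576 * sgv k 160 x +
    (-(2 * (conj (v 0) * v 2).im) / 1048576 * sgv k 192 x +
    (2 * (conj (v 1) * v 2).re / 1048576 * sgv k 224 x +
    -(2 * (conj (v 1) * v 2).im) / 1048576 * sgv k 256 x))))))) := by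
  unfold gK
  rw [ev_lin]
  simp only [sc, kz, sgv]
  push_cast
  ring

/-- THE FORM AT A POINT -/
theorem ev_KTab (h : WX D mf W) (T : β) (k : ℕ) (v : Fin 3 → ℂ) :
    ev (KTab mf T k t) v = mf (gK k v) T t := by
  have e : gK k v = fun x => normSq (v 0) / 1048576 * sgv k 0 x +
    (normSq (v 1) / 1048576 * sgv k 32 x +
    (normSq (v 2) / 1048576 * sgv k 64 x + (2 * (conj (v 0) * v 1).re / 1048576 * sgv k 96 x +
    (-(2 * (conj (v 0) * v 1).im) / 1048576 * sgv k 128 x +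
    (2 * (conj (v 0) * v 2).re / 1048576 * sgv k 160 x +
    (-(2 * (conj (v 0) * v 2).im) / 1048576 * sgv k 192 x +
    (2 * (conj (v 1) * v 2).re / 1048576 * sgv k 224 x +
    -(2 * (conj (v 1) * v 2).im) / 1048576 * sgv k 256 x))))))) := funext (gK_lin k v)
  rw [e, h.add, h.add, h.add, h.add, h.add, h.add, h.add, h.add, h.mul, h.mul, h.mul, h.mul, h.mul,
    h.mul, h.mul, h.mul, h.mul, ev_lin]
  simp only [KTab]
  ring

/-- bounds of a table -/
theorem mf_bd (h : WX D mf W) (ht : PT D t) {g : ℕ → ℝ} {B : ℝ} (hg : ∀ x, |g x| ≤ B) (T : β) :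
    |mf g T t| ≤ B := by
  have e1 : mf (fun x => B + g x) T t = B + mf g T t := by rw [h.add, h.con]
  have e2 : mf (fun x => B + -1 * g x) T t = B - mf g T t := by
    rw [h.add, h.con, h.mul]
    ring
  have p1 := h.pos (fun x => B + g x) T t ht fun x => by
    have := (abs_le.1 (hg x)).1
    linarith
  have p2 := h.pos (fun x => B + -1 * g x) T t ht fun x => by
    have := (abs_le.1 (hg x)).2
    linarith
  rw [e1] at p1
  rw [e2] at p2
  rw [abs_le]
  constructor <;> linarith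

theorem sgv_bd (k i x : ℕ) : |sgv k i x| ≤ 2 ^ 31 := by
  have h := Pool.Agent.Helper6.KPF.gz_bd (kf x k) i
  have e : ((Pool.Agent.Helper21.KCE.gz (kf x k) i : ℤ) : ℝ) = sgv k i x := by
    unfold Pool.Agent.Helper21.KCE.gz sgv
    push_cast
    norm_num
  rw [e] at h
  exact h

/-- THE BOUNDS OF THE ENTRIES -/
theorem KTab_bd (h : WX D mf W) (ht : PT D t) (T : β) (k : ℕ) :
    |(KTab mf T k t).a| ≤ 2 ^ 12 ∧ ‖(KTab mf T k t).x‖ ≤ 2 ^ 12 ∧
      ‖(KTab mf T k t).y‖ ≤ 2 ^ 12 := by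
  have b : ∀ i, |mf (sgv k i) T t / 1048576| ≤ 2 ^ 11 := by
    intro i
    rw [abs_div, abs_of_pos (by norm_num : (0 : ℝ) < 1048576), div_le_iff₀ (by norm_num)]
    refine (mf_bd h ht (sgv_bd k i) T).trans ?_
    norm_num
  have key : ∀ a b : ℝ, |a| ≤ 2 ^ 11 → |b| ≤ 2 ^ 11 → ‖(a : ℂ) + (b : ℂ) * I‖ ≤ 2 ^ 12 := by
    intro a b ha hb
    refine (norm_add_le _ _).trans ?_
    rw [norm_mul, Complex.norm_I, mul_one, Complex.norm_real, Complex.norm_real,
      Real.norm_eq_abs, Real.norm_eq_abs]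
    linarith
  exact ⟨(b 0).trans (by norm_num), key _ _ (b 96) (b 128), key _ _ (b 160) (b 192)⟩

theorem ssV_iff {sl : List ℕ} {le : List LT2} {T S : ℕ} (h : ssV sl le T S = true) :
    stT T sl = true ∧ slV le T S = true := Pool.Agent.Helper90.KMO.andB_t h

/-- THE FORMS ARE NEGATIVE ON `v 0 = 0` -/
theorem negD_KTab (h : WX D mf W) (ht : PT D t) {sl : List ℕ} {le : List LT2} {T S : β}
    (H : W.al (ssV sl le) T S = true) {k : ℕ} (hk : k ∈ sl) :
    NegD (1 / 2 ^ 10) (KTab mf T k t) := by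
  intro x y
  set v : Fin 3 → ℂ := ![0, x, y] with hv
  have v0 : v 0 = 0 := rfl
  have v1 : v 1 = x := rfl
  have v2 : v 2 = y := rfl
  have e : ev (KTab mf T k t) v = (KTab mf T k t).b * normSq x + (KTab mf T k t).c * normSq y +
      2 * (conj x * (KTab mf T k t).w * y).re := by
    simp only [ev, v0, v1, v2, map_zero, mul_zero, zero_mul, Complex.zero_re, Hm.w]
    ring
  rw [← e, ev_KTab h]
  have en : nrm v = normSq x + normSq y := by
    unfold nrm
    rw [v0, v1, v2, map_zero, zero_add]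
  have h1 := h.le (ssV sl le) T S (gK k v) (fun _ => -(1 / 2 ^ 10) * (normSq x + normSq y)) t ht H
    (fun a b hab => by
      have h2 := Pool.Agent.Helper17.PAK.st1_ev
        (Pool.Agent.Helper17.PAK.stT_sound (ssV_iff hab).1 k hk) v0
      rw [en] at h2
      exact h2)
  rw [h.con] at h1
  exact h1

/-! ### slit tests -/

theorem slV_sound {le : List LT2} {T S : ℕ} (h : slV le T S = true) : ∀ x ∈ le,
    sl2 (v32 S (64 * x.l)) (v32 S (64 * x.l + 32)) x.ta (kf T x.k) = true ∧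
    sl2 (v32 S (64 * x.l)) (v32 S (64 * x.l + 32)) x.tb (kf T x.k) = true := by
  induction le with
  | nil => intro x hx; cases hx
  | cons y l ih =>
    have h' : andB (sl2 (v32 S (64 * y.l)) (v32 S (64 * y.l + 32)) y.ta (kf T y.k))
      (andB (sl2 (v32 S (64 * y.l)) (v32 S (64 * y.l + 32)) y.tb (kf T y.k)) (slV l T S)) =
      true := h
    rw [Pool.Agent.Helper17.PAK.andB_iff, Pool.Agent.Helper17.PAK.andB_iff] at h'
    obtain ⟨h1, h2, h3⟩ := h'
    intro x hx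
    rcases List.mem_cons.1 hx with rfl | hx
    · exact ⟨h1, h2⟩
    · exact ih h3 x hx

open Pool.Agent.Helper6.KPF (sE sOK sOK_iff)

/-- the side condition on the multipliers of the slit tests -/
def sOKT (le : List LT2) (S : ℕ) : Bool := le.all fun x => sOK S (64 * x.l)

/-- the functional of the slit test with a real number `τ` -/
def slX (S k : ℕ) (τ : ℝ) (v : Fin 3 → ℂ) : ℝ :=
  (sE S k * conj (v 0) * (v 0 + 2 * v 1 + 2 * ((τ / 2 ^ 48 : ℝ) : ℂ) * v 2)).re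

theorem slR_slX (S k : ℕ) (z : ℤ) (v : Fin 3 → ℂ) : slR S k z v = slX S k z v := by
  unfold slR slX sE Pool.Agent.Helper21.KCE.gz
  norm_num

theorem slX_aff (S k : ℕ) (τ : ℝ) (v : Fin 3 → ℂ) : slX S k τ v =
    slX S k 0 v + τ * (sE S k * conj (v 0) * (2 * v 2)).re / 2 ^ 48 := by
  have e : sE S k * conj (v 0) * (v 0 + 2 * v 1 + 2 * ((τ / 2 ^ 48 : ℝ) : ℂ) * v 2) =
      sE S k * conj (v 0) * (v 0 + 2 * v 1 + 2 * ((0 / 2 ^ 48 : ℝ) : ℂ) * v 2) +
        ((τ / 2 ^ 48 : ℝ) : ℂ) * (sE S k * conj (v 0) * (2 * v 2)) := by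
    push_cast
    ring
  unfold slX
  rw [e, Complex.add_re, Complex.re_ofReal_mul]
  ring

/-- an affine function is at least its smaller end -/
theorem aff_ge {c m a b τ X : ℝ} (ha : a ≤ τ) (hb : τ ≤ b) (h1 : X ≤ c + a * m)
    (h2 : X ≤ c + b * m) : X ≤ c + τ * m := by
  rcases le_total 0 m with h | h
  · exact h1.trans (by linarith [mul_le_mul_of_nonneg_right ha h])
  · exact h2.trans (by linarith [mul_le_mul_of_nonpos_right hb h])

theorem slX_ge {S k : ℕ} {a b τ X : ℝ} {v : Fin 3 → ℂ} (ha : a ≤ τ) (hb : τ ≤ b)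
    (h1 : X ≤ slX S k a v) (h2 : X ≤ slX S k b v) : X ≤ slX S k τ v := by
  rw [slX_aff] at h1 h2 ⊢
  rw [mul_div_assoc] at h1 h2 ⊢
  exact aff_ge ha hb h1 h2

/-- the functional of the test against the true one -/
theorem slX_le {S k : ℕ} {κ τ : ℝ} (hs : sOK S k = true)
    (hτ : |2 * (τ / 2 ^ 48) - (1 - SbP κ)| ≤ 1 / 2 ^ 47) (v : Fin 3 → ℂ) :
    slX S k τ v - (1 / 2 ^ 38) * nrm v ≤ (sE S k * (conj (v 0) * DTH κ v)).re := by
  have hb := (sOK_iff hs).2
  have e2 : sE S k * conj (v 0) * (v 0 + 2 * v 1 + 2 * ((τ / 2 ^ 48 : ℝ) : ℂ) * v 2) =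
      sE S k * (conj (v 0) * DTH κ v) +
      sE S k * conj (v 0) * (((2 * (τ / 2 ^ 48) - (1 - SbP κ) : ℝ) : ℂ)) * v 2 := by
    unfold DTH
    push_cast
    ring
  unfold slX
  rw [e2, Complex.add_re]
  have h4 : (sE S k * conj (v 0) * (((2 * (τ / 2 ^ 48) - (1 - SbP κ) : ℝ) : ℂ)) *
      v 2).re ≤ (1 / 2 ^ 38) * nrm v := by
    refine (Complex.re_le_norm _).trans ?_
    rw [norm_mul, norm_mul, norm_mul, Complex.norm_conj, Complex.norm_real, Real.norm_eq_abs]
    have n0 := norm_nonneg (v 0)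
    have n2 := norm_nonneg (v 2)
    have g1 : ‖sE S k‖ * ‖v 0‖ * |2 * (τ / 2 ^ 48) - (1 - SbP κ)| * ‖v 2‖ ≤
        2 ^ 9 * ‖v 0‖ * (1 / 2 ^ 47) * ‖v 2‖ := by
      gcongr
    refine g1.trans ?_
    unfold nrm
    rw [Complex.normSq_eq_norm_sq, Complex.normSq_eq_norm_sq, Complex.normSq_eq_norm_sq]
    nlinarith [sq_nonneg (‖v 0‖ - ‖v 2‖), sq_nonneg ‖v 1‖]
  linarith

/-- THE SLIT CONDITION OF A FORM -/
theorem slit_KTab (h : WX D mf W) (ht : PT D t) {sl : List ℕ} {le : List LT2} {T S : β}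
    (H : W.al (ssV sl le) T S = true) (H' : W.al (fun _ s => sOKT le s) T S = true) {x : LT2}
    (hx : x ∈ le) {k : ℝ} (hk : SlK k x.ta x.tb) :
    ∃ γ : ℂ, 0 ≤ γ.re ∧ ∀ v : Fin 3 → ℂ,
      ev (KTab mf T x.k t) v ≤ (γ * (conj (v 0) * DTH k v)).re := by
  obtain ⟨za, zb, ra, rb, ba, bb, τ, t1, t2, t3⟩ := hk
  have ok : ∀ s, sOKT le s = true → sOK s (64 * x.l) = true := by
    intro s hs
    unfold sOKT at hs
    rw [List.all_eq_true] at hs
    exact hs x hx
  refine ⟨((mf (fun s => (sE s (64 * x.l)).re) S t : ℝ) : ℂ) +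
    ((mf (fun s => (sE s (64 * x.l)).im) S t : ℝ) : ℂ) * I, ?_, ?_⟩
  · have h1 := h.le (fun _ s => sOKT le s) T S (fun _ => 0) (fun s => (sE s (64 * x.l)).re) t ht H'
      (fun a b hab => (sOK_iff (ok b hab)).1)
    rw [h.con] at h1
    simpa using h1
  · intro v
    rw [ev_KTab h]
    set A : ℂ := conj (v 0) * DTH k v with hA
    have e1 : ((((mf (fun s => (sE s (64 * x.l)).re) S t : ℝ) : ℂ) +
        ((mf (fun s => (sE s (64 * x.l)).im) S t : ℝ) : ℂ) * I) * A).re =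
        mf (fun s => (sE s (64 * x.l) * A).re) S t := by
      have e2 : (fun s => (sE s (64 * x.l) * A).re) =
          fun s => A.re * (sE s (64 * x.l)).re + -A.im * (sE s (64 * x.l)).im := by
        funext s
        rw [Complex.mul_re]
        ring
      rw [e2, h.add, h.mul, h.mul, Complex.mul_re]
      simp only [Complex.add_re, Complex.ofReal_re, Complex.mul_re, Complex.I_re, Complex.ofReal_im,
        Complex.I_im, Complex.add_im, Complex.mul_im]
      ring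
    rw [e1]
    have H2 : W.al (fun a b => andB (ssV sl le a b) (sOKT le b)) T S = true := by
      exact h.both _ _ T S H H'
    refine h.le _ T S _ _ t ht H2 fun a b hab => ?_
    obtain ⟨h1, h2⟩ := Pool.Agent.Helper90.KMO.andB_t hab
    obtain ⟨s1, s2⟩ := slV_sound (ssV_iff h1).2 x hx
    have g1 := Pool.Agent.Helper17.PAK.sl2_ev ra ba s1 v
    have g2 := Pool.Agent.Helper17.PAK.sl2_ev rb bb s2 v
    rw [slR_slX] at g1 g2
    have g3 := slX_ge t1 t2 g1 g2
    have g4 := slX_le (v := v) (ok b h2) t3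
    rw [← hA] at g4
    exact (le_sub_iff_add_le.2 g3).trans g4

end

end Pool.Agent.Helper21.KTE
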