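import Pool.Agent.Helper21.CT.KTK
import Pool.Agent.Helper21.CT.KTV

/-!
Row KTE (tails), part M: models of the kappas and of the height; A CELL AT A POINT.
-/

set_option autoImplicit false
set_option exponentiation.threshold 4000
noncomputable section
namespace Pool.Agent.Helper21.KTE

open Pool.Agent.Helper90.C75 (Vt mulT avg wtT bt avg_add avg_const avg_T_succ Mod Wts)
open Pool.Agent.Helper90.KMT
open Pool.Agent.Helper90.KMO (UU UU_pos zv cz andB_t zv_p)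
open Pool.Agent.Helper17.KPT hiding Rb PI
open Pool.Agent.Helper86.C75 (Z)
open Pool.Agent.Helper86.CX (Hm ev Cx P9 VR SE andB hs evC)
open Pool.Agent.Helper86.CT (N3 DF Alg Rw Mo Mc Mq Pr Cls clsOK mkCls Vx W0 W1 W2 W3 W4 nxW LT2 ssV
  CellT yN y1 y2 y3 y4 chkDT chCell uM zM addM xAM xAOK K1 K2 K3 K4 Q1m Q2m Q3m Q4m A0 A1 A2 A3 A4)
open Pool.Agent.Helper21.KRN
open Complex ComplexConjugate

/-! ### trees which vary in one direction -/

/-- a tree which varies only in the direction `j` -/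
structure QD {α : Type} (D j : ℕ) (lf : α → Vt D → ℂ) (Sa : α → List Bool → Prop)
    (q : Cx → Cx → Cx → α) : Prop where
  av : ∀ (a c b : Cx) (t : ℕ → ℝ), Pool.Agent.Helper90.KMT.PT D t →
    avg (wtT D t) (lf (q a c b)) = (((1 - t j) ^ 2 : ℝ) : ℂ) * cz a +
      ((2 * t j * (1 - t j) : ℝ) : ℂ) * cz c + (((t j) ^ 2 : ℝ) : ℂ) * cz b
  im : ∀ (a c b : Cx), 0 ≤ (cz a).im → 0 ≤ (cz c).im → 0 ≤ (cz b).im → ∀ v, 0 ≤ (lf (q a c b) v).im
  sh : ∀ a c b, ∃ l, Sa (q a c b) l ∧ cnt l ≤ 1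

theorem avg_bt (s : ℝ) (f : Fin 3 → ℂ) : avg (bt s) f =
    (((1 - s) ^ 2 : ℝ) : ℂ) * f 0 + ((2 * s * (1 - s) : ℝ) : ℂ) * f 1 + ((s ^ 2 : ℝ) : ℂ) * f 2 := by
  unfold avg
  rw [Fin.sum_univ_three]
  rfl

section

variable {α : Type} {D : ℕ} {lf : α → Vt D → ℂ} {Sa : α → List Bool → Prop} {A : Alg α}

theorem QD.top (hA : AOK D lf A) (hS : SHL D Sa A) :
    QD (D + 1) D (nlf lf) (sh3 Sa) (fun a c b => N3.q (A.cs a) (A.cs c) (A.cs b)) := by
  refine ⟨?_, ?_, ?_⟩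
  · intro a c b t ht
    have key : ∀ x : Cx, avg (wtT D t) (fun v : Vt D => lf (A.cs x) v) = cz x := by
      intro x
      have e : (fun v : Vt D => lf (A.cs x) v) = fun _ => cz x := funext fun v => hA.cst x v
      rw [e, avg_const (pt_pred ht).w]
    rw [avg_T_succ, avg_bt]
    show _ * avg (wtT D t) (fun v => lf (A.cs a) v) + _ * avg (wtT D t) (fun v => lf (A.cs c) v) +
      _ * avg (wtT D t) (fun v => lf (A.cs b) v) = _
    rw [key, key, key]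
  · intro a c b ha hc hb v
    obtain ⟨v, i⟩ := v
    show 0 ≤ (lf (c3 (N3.q (A.cs a) (A.cs c) (A.cs b)) i) v).im
    fin_cases i
    · show 0 ≤ (lf (A.cs a) v).im
      rw [hA.cst]; exact ha
    · show 0 ≤ (lf (A.cs c) v).im
      rw [hA.cst]; exact hc
    · show 0 ≤ (lf (A.cs b) v).im
      rw [hA.cst]; exact hb
  · intro a c b
    refine ⟨true :: fal D, ⟨hS.cs a, hS.cs c, hS.cs b⟩, ?_⟩
    simp [cnt, fal, List.count_replicate]

theorem QD.nx {j : ℕ} {q : Cx → Cx → Cx → α} (h : QD D j lf Sa q) :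
    QD (D + 1) j (nlf lf) (sh3 Sa) (fun a c b => N3.k (q a c b)) := by
  refine ⟨?_, ?_, ?_⟩
  · intro a c b t ht
    have h0 := ht.h0 D (by omega)
    have h1 := ht.h1 D (by omega)
    rw [avg_T_succ]
    have e : (fun i : Fin 3 => avg (wtT D t) (fun v => nlf lf (N3.k (q a c b)) (v, i))) =
        fun _ => avg (wtT D t) (lf (q a c b)) := by
      funext i
      rfl
    rw [e, avg_const (Wts.bt h0 h1), h.av a c b t (pt_pred ht)]
  · intro a c b ha hc hb v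
    exact h.im a c b ha hc hb v.1
  · intro a c b
    obtain ⟨l, h1, h2⟩ := h.sh a c b
    refine ⟨false :: l, h1, ?_⟩
    simpa [cnt, List.count_cons] using h2

/-! ### models of real numbers -/

theorem cz_p (a b : ℕ) : cz ⟨Z.p a, Z.p b⟩ = ⟨(a : ℝ), (b : ℝ)⟩ := by
  unfold cz
  rw [zv_p, zv_p]
  simp

theorem TOK_ex {t : ℕ → ℝ} (hA : AOK D lf A) (ht : Pool.Agent.Helper90.KMT.PT D t) {κ : ℝ} {n : ℕ}
    (h : |2 ^ 48 * κ - n| ≤ 1) : TOK D lf t (κ : ℂ)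
      (Pool.Agent.Helper86.CT.mk A (A.cs ⟨Z.p n, Z.p (nat_lit 0)⟩) (nat_lit 1)) := by
  refine TOK.cst hA ht n (nat_lit 1) ?_
  have e : (UU : ℂ) * κ - n = ((2 ^ 48 * κ - n : ℝ) : ℂ) := by
    unfold UU
    push_cast
    norm_num
  rw [e, Complex.norm_real, Real.norm_eq_abs]
  simpa using h

theorem TOK_tl {j : ℕ} {q : Cx → Cx → Cx → α} (hq : QD D j lf Sa q) {t : ℕ → ℝ} (hA : AOK D lf A)
    (ht : Pool.Agent.Helper90.KMT.PT D t) {κ : ℝ} {a c b : ℕ} (hc : 2 * c = a + b)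
    (h : 2 ^ 48 * κ = (1 - t j) * a + t j * b) : TOK D lf t (κ : ℂ)
      (Pool.Agent.Helper86.CT.mk A (q ⟨Z.p a, Z.p (nat_lit 0)⟩ ⟨Z.p c, Z.p (nat_lit 0)⟩
        ⟨Z.p b, Z.p (nat_lit 0)⟩) (nat_lit 1)) := by
  refine ⟨vt_mk hA _ _, ?_⟩
  show ‖(UU : ℂ) * κ - avg (wtT D t) (lf (q _ _ _))‖ ≤ ((nat_lit 1 : ℕ) : ℝ)
  rw [hq.av _ _ _ t ht, cz_p, cz_p, cz_p]
  have hc' : (2 : ℝ) * c = a + b := by exact_mod_cast hc
  have e : (UU : ℂ) * κ - ((((1 - t j) ^ 2 : ℝ) : ℂ) * ⟨(a : ℝ), ((nat_lit 0 : ℕ) : ℝ)⟩ +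
      ((2 * t j * (1 - t j) : ℝ) : ℂ) * ⟨(c : ℝ), ((nat_lit 0 : ℕ) : ℝ)⟩ +
      (((t j) ^ 2 : ℝ) : ℂ) * ⟨(b : ℝ), ((nat_lit 0 : ℕ) : ℝ)⟩) = 0 := by
    have e1 : (UU : ℂ) * κ = ((2 ^ 48 * κ : ℝ) : ℂ) := by
      unfold UU
      push_cast
      norm_num
    rw [e1, h]
    apply Complex.ext
    · simp only [Complex.sub_re, Complex.add_re, Complex.re_ofReal_mul, Complex.ofReal_re,
        Complex.zero_re]
      linear_combination (t j * (1 - t j)) * (-hc')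
    · simp only [Complex.sub_im, Complex.add_im, Complex.im_ofReal_mul, Complex.ofReal_im,
        Complex.zero_im]
      simp
  rw [e, norm_zero]
  simp

/-! ### the height -/

/-- the law of the height model -/
structure YLW (D j : ℕ) (lf : α → Vt D → ℂ) (y : ℕ → ℕ → α) : Prop where
  av : ∀ (a b : ℕ) (t : ℕ → ℝ), Pool.Agent.Helper90.KMT.PT D t → evC a b = true →
    avg (wtT D t) (lf (y a b)) = (((1 - t j) * a + t j * b : ℝ) : ℂ) * I
  im : ∀ (a b : ℕ) v, 0 ≤ (lf (y a b) v).im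

theorem YLW.top (hA : AOK D lf A) (hS : SHL D Sa A) : YLW (D + 1) D (nlf lf) (yN A) := by
  have hq := QD.top hA hS
  refine ⟨?_, ?_⟩
  · intro a b t ht he
    have h1 := hq.av ⟨Z.p (nat_lit 0), Z.p a⟩ ⟨Z.p (nat_lit 0), Z.p (hs a b)⟩
      ⟨Z.p (nat_lit 0), Z.p b⟩ t ht
    have h2 : (2 : ℝ) * (hs a b : ℕ) = a + b := by
      have : 2 * hs a b = a + b := Nat.eq_of_beq_eq_true he
      exact_mod_cast this
    rw [cz_p, cz_p, cz_p] at h1
    refine h1.trans ?_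
    apply Complex.ext
    · simp only [Complex.add_re, Complex.mul_re, Complex.ofReal_im,
        Complex.ofReal_re, Complex.I_re, Complex.I_im]
      push_cast
      ring
    · simp only [Complex.add_im, Complex.mul_im, Complex.ofReal_im,
        Complex.ofReal_re, Complex.I_re, Complex.I_im]
      linear_combination (t D * (1 - t D)) * h2
  · intro a b v
    exact hq.im _ _ _ (by rw [cz_p]; exact Nat.cast_nonneg _) (by rw [cz_p]; exact Nat.cast_nonneg _)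
      (by rw [cz_p]; exact Nat.cast_nonneg _) v

/-! ### real controls -/

/-- all controls are real -/
def rt0 (c : Cx) : Bool :=
  Z.rec (motive := fun _ => Bool) (fun n => Nat.beq n (nat_lit 0)) (fun n => Nat.beq n (nat_lit 0))
    c.im
def nrt {α : Type} (r : α → Bool) (x : N3 α) : Bool :=
  N3.rec (motive := fun _ => Bool) (fun x => r x) (fun a c b => andB (r a) (andB (r c) (r b))) x
def rt1 : N3 Cx → Bool := nrt rt0
def rt2 : N3 (N3 Cx) → Bool := nrt rt1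
def rt3 : N3 (N3 (N3 Cx)) → Bool := nrt rt2
def rt4 : N3 (N3 (N3 (N3 Cx))) → Bool := nrt rt3

/-- the law of the test -/
def RTL (D : ℕ) (lf : α → Vt D → ℂ) (rt : α → Bool) : Prop :=
  ∀ x, rt x = true → ∀ v, (lf x v).im = 0

theorem RTL0 : RTL 0 lf0 rt0 := by
  intro x h v
  obtain ⟨a, b⟩ := x
  show ((zv b : ℤ) : ℝ) = 0
  cases b with
  | p n =>
    have h' : n = 0 := Nat.eq_of_beq_eq_true h
    rw [h']
    norm_num [zv]
  | m n =>
    have h' : n = 0 := Nat.eq_of_beq_eq_true h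
    rw [h']
    norm_num [zv]

theorem RTL.nx {rt : α → Bool} (h : RTL D lf rt) : RTL (D + 1) (nlf lf) (nrt rt) := by
  intro x hx v
  obtain ⟨v, i⟩ := v
  cases x with
  | k x => exact h x hx v
  | q a c b =>
    obtain ⟨h1, h2⟩ := andB_t hx
    obtain ⟨h2, h3⟩ := andB_t h2
    fin_cases i
    · exact h a h1 v
    · exact h c h2 v
    · exact h b h3 v

theorem RTL1 : RTL 1 (nlf lf0) rt1 := RTL0.nx
theorem RTL2 : RTL 2 (nlf (nlf lf0)) rt2 := RTL1.nx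
theorem RTL3 : RTL 3 (nlf (nlf (nlf lf0))) rt3 := RTL2.nx
theorem RTL4 : RTL 4 (nlf (nlf (nlf (nlf lf0)))) rt4 := RTL3.nx

end

/-! ### a cell -/

section

variable {D : ℕ} {t : ℕ → ℝ}
variable {α β p v γ : Type} {lC : α → Vt D → Cx} {lf : α → Vt D → ℂ}
  {mf : (ℕ → ℝ) → β → (ℕ → ℝ) → ℝ} {lp : p → Vt D → P9} {lv : v → Vt D → VR}
  {lg : γ → Vt D → ℕ} {Sa : α → List Bool → Prop} {Sp : p → List Bool → Prop}
  {Sv : v → List Bool → Prop} {Sg : γ → List Bool → Prop} {M : Mc α β p v γ}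

/-- the model of `x` in a cell -/
def xT {α β : Type} (A : Alg α) (y : ℕ → ℕ → α) (Xo : Mo α) (c : CellT α β) : Mo α :=
  addM A Xo (Pool.Agent.Helper86.CT.mk A (y c.ya c.yb) (nat_lit 0))

/-- **A CELL AT A POINT** -/
theorem cell_pt {X : XM α v} (hM : MX D lC lf mf lp lv lg Sa Sp Sv Sg M X.Q X.c) {j : ℕ}
    {y : ℕ → ℕ → α} (hY : YLW D j lf y) {W : Vx β} (hW : WX D mf W)
    {S : Pool.Agent.Helper86.CT.Sv p} (hS : SVK D lp S)
    (ht : Pool.Agent.Helper90.KMT.PT D t) {κ : Fin 3 → ℝ} (hX : XG D lf Sa t X κ) {C : Cls α}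
    (hC : CLT D lf t (cκ κ) C) {x0 : ℝ} {Xo : Mo α} (h0 : TOK D lf t (x0 : ℂ) Xo)
    (h0r : ∀ v, (lf Xo.v v).im = 0) {c : CellT α β} (hm : 0 < c.m) {sl : List ℕ} {le : List LT2}
    (hs : W.al (fun _ s => sOKT le s) c.K c.S = true) {G : TProg}
    (H : chkDT M S W y C (expand X G) Xo sl le c = true) {h : ℝ}
    (hh : 2 ^ 48 * h = (1 - t j) * c.ya + t j * c.yb) {z : ℂ} (hz : z ≠ 0)
    (hzx : z + z⁻¹ = (x0 : ℂ) + (h : ℂ) * I) (hui : (z⁻¹).im ≤ 0) :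
    PtR (fun k => KTab mf c.K k t) κ z G sl le ∧
      TOK D lf t z⁻¹ (uM M.A c.m (xT M.A y Xo c) (Pool.Agent.Helper86.CT.mk M.A c.u (nat_lit 0))
        (Pool.Agent.Helper86.CT.mk M.A (M.A.sub (xT M.A y Xo c).v c.u) (nat_lit 0))) ∧
      TOK D lf t z (zM (xT M.A y Xo c) (uM M.A c.m (xT M.A y Xo c)
        (Pool.Agent.Helper86.CT.mk M.A c.u (nat_lit 0))
        (Pool.Agent.Helper86.CT.mk M.A (M.A.sub (xT M.A y Xo c).v c.u) (nat_lit 0)))
        (Pool.Agent.Helper86.CT.mk M.A (M.A.sub (xT M.A y Xo c).v c.u) (nat_lit 0))) := by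
  obtain ⟨e1, H⟩ := andB_t H
  obtain ⟨e2, e3⟩ := andB_t H
  have hU : (UU : ℝ) = 2 ^ 48 := by unfold UU; norm_num
  have hav := hY.av c.ya c.yb t ht e1
  have hy : TOK D lf t ((h : ℂ) * I) (Pool.Agent.Helper86.CT.mk M.A (y c.ya c.yb) (nat_lit 0)) := by
    refine ⟨vt_mk hM.a _ _, ?_⟩
    show ‖(UU : ℂ) * ((h : ℂ) * I) - avg (wtT D t) (lf (y c.ya c.yb))‖ ≤ ((nat_lit 0 : ℕ) : ℝ)
    rw [hav, ← hh, hU]
    have e : ((2 ^ 48 : ℝ) : ℂ) * ((h : ℂ) * I) - ((2 ^ 48 * h : ℝ) : ℂ) * I = 0 := by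
      push_cast
      ring
    rw [e, norm_zero]
    simp
  have hx := h0.add hM.a hy
  have hlf : ∀ v, lf (addM M.A Xo (Pool.Agent.Helper86.CT.mk M.A (y c.ya c.yb) (nat_lit 0))).v v =
      lf Xo.v v + lf (y c.ya c.yb) v := fun v => hM.a.law.hadd _ _ v
  obtain ⟨g1, g2, g3, g4⟩ := chCell_sound hM ht hX hS hC hz hzx hui hx.mod (by
    have e : lf (addM M.A Xo (Pool.Agent.Helper86.CT.mk M.A (y c.ya c.yb) (nat_lit 0))).v =
        fun v => lf Xo.v v + lf (y c.ya c.yb) v := funext hlf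
    rw [e, avg_add, Complex.add_im, hav, ← hh]
    have e2 : (avg (wtT D t) (lf Xo.v)).im = 0 := by
      rw [(avg_re (wtT D t) (lf Xo.v)).2]
      exact Finset.sum_eq_zero fun v _ => by rw [h0r v, mul_zero]
    have e3 : (((2 ^ 48 * h : ℝ) : ℂ) * I).im = 2 ^ 48 * h := by
      rw [Complex.im_ofReal_mul, Complex.I_im, mul_one]
    have e4 : ((x0 : ℂ) + (h : ℂ) * I).im = h := by
      rw [Complex.add_im, Complex.ofReal_im, Complex.im_ofReal_mul, Complex.I_im]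
      ring
    rw [e2, e3, e4, hU]
    ring) (fun v => by
      rw [hlf, Complex.add_im, h0r v, zero_add]
      exact hY.im _ _ v) hm e2
  exact ⟨⟨g1, g2, fun k hk => negD_KTab hW ht e3 hk, fun k => KTab_bd hW ht _ _,
    fun x hx k hk => slit_KTab hW ht e3 hs hx hk⟩, g3, g4⟩

end

end Pool.Agent.Helper21.KTE
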