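import Pool.Agent.Helper21.CT.KTM

/-!
Row KTE (tails), part N: the laws of a machine in one structure, the three kappas from literals,
one cell and a chain of cells at a point.
-/

set_option autoImplicit false
set_option exponentiation.threshold 4000
noncomputable section
namespace Pool.Agent.Helper21.KTE

open Pool.Agent.Helper90.C75 (Vt mulT avg wtT bt avg_add avg_const avg_T_succ Mod Wts)
open Pool.Agent.Helper90.KMT
open Pool.Agent.Helper90.KMO (UU UU_pos zv cz andB_t zv_p)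
open Pool.Agent.Helper17.KPT hiding Rb PI
open Pool.Agent.Helper86.C75 (Z)
open Pool.Agent.Helper86.CX (Hm ev Cx P9 VR SE andB hs evC)
open Pool.Agent.Helper86.CT (N3 DF Alg Rw Mo Mc Mq Pr Cls clsOK mkCls Vx W0 W1 W2 W3 W4 nxW LT2 ssV
  CellT yN y1 y2 y3 y4 chkDT chkPcT chCell uM zM addM xAM xAOK K1 K2 K3 K4 Q1m Q2m Q3m Q4m
  A0 A1 A2 A3 A4)
open Pool.Agent.Helper21.KRN
open Complex ComplexConjugate

/-! ### the laws of a machine -/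

/-- ALL LAWS OF A MACHINE of depth `D + 1`, the height in the direction `D` -/
structure MZ {α β p v γ : Type} (D : ℕ) (lC : α → Vt (D + 1) → Cx) (lf : α → Vt (D + 1) → ℂ)
    (mf : (ℕ → ℝ) → β → (ℕ → ℝ) → ℝ) (lp : p → Vt (D + 1) → P9) (lv : v → Vt (D + 1) → VR)
    (lg : γ → Vt (D + 1) → ℕ) (Sa : α → List Bool → Prop) (Sp : p → List Bool → Prop)
    (Sv : v → List Bool → Prop) (Sg : γ → List Bool → Prop) (M : Mc α β p v γ) (Q : Mq α v)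
    (cv : VR → v) (rc : Rw) (S : Pool.Agent.Helper86.CT.Sv p) (W : Vx β) (y : ℕ → ℕ → α)
    (qd : ℕ → Cx → Cx → Cx → α) (rt : α → Bool) : Prop where
  m : MX (D + 1) lC lf mf lp lv lg Sa Sp Sv Sg M Q cv
  s : SVK (D + 1) lp S
  w : WX (D + 1) mf W
  y : YLW (D + 1) D lf y
  r : RC (D + 1) rc
  q : ∀ j < D, QD (D + 1) j lf Sa (qd j)
  t : RTL (D + 1) lf rt

theorem ZS_dz : ∀ n : ℕ, ZS (fal n) (List.replicate n dz)
  | 0 => trivial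
  | n + 1 => ⟨fun _ => ⟨rfl, rfl⟩, ZS_dz n⟩

theorem RC1 : RC 1 rC1 := ⟨rfl, rfl, ZS_dz 1⟩
theorem RC2 : RC 2 rC2 := ⟨rfl, rfl, ZS_dz 2⟩
theorem RC3 : RC 3 rC3 := ⟨rfl, rfl, ZS_dz 3⟩
theorem RC4 : RC 4 rC4 := ⟨rfl, rfl, ZS_dz 4⟩

/-- the trees in one direction -/
def qd1 (_ : ℕ) (a c b : Cx) : N3 Cx := N3.q a c b
def qd2 (_ : ℕ) (a c b : Cx) : N3 (N3 Cx) := N3.k (N3.q a c b)
def qd3 (j : ℕ) (a c b : Cx) : N3 (N3 (N3 Cx)) :=
  Nat.rec (motive := fun _ => N3 (N3 (N3 Cx))) (N3.k (N3.k (N3.q a c b)))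
    (fun _ _ => N3.k (N3.q (N3.k a) (N3.k c) (N3.k b))) j
def qd4 (j : ℕ) (a c b : Cx) : N3 (N3 (N3 (N3 Cx))) :=
  Nat.rec (motive := fun _ => N3 (N3 (N3 (N3 Cx)))) (N3.k (N3.k (N3.k (N3.q a c b))))
    (fun i _ => Nat.rec (motive := fun _ => N3 (N3 (N3 (N3 Cx))))
      (N3.k (N3.k (N3.q (N3.k a) (N3.k c) (N3.k b))))
      (fun _ _ => N3.k (N3.q (N3.k (N3.k a)) (N3.k (N3.k c)) (N3.k (N3.k b)))) i) j

theorem QD1_0 : QD 1 0 (nlf lf0) (s1 : N3 Cx → List Bool → Prop) (fun a c b => N3.q a c b) :=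
  QD.top A0_ok SHL0
theorem QD2_0 : QD 2 0 (nlf (nlf lf0)) (s2 : N3 (N3 Cx) → List Bool → Prop)
    (fun a c b => N3.k (N3.q a c b)) := QD1_0.nx
theorem QD2_1 : QD 2 1 (nlf (nlf lf0)) (s2 : N3 (N3 Cx) → List Bool → Prop)
    (fun a c b => N3.q (N3.k a) (N3.k c) (N3.k b)) := QD.top A1_ok SHL1
theorem QD3_0 : QD 3 0 (nlf (nlf (nlf lf0))) (s3 : N3 (N3 (N3 Cx)) → List Bool → Prop)
    (fun a c b => N3.k (N3.k (N3.q a c b))) := QD2_0.nx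
theorem QD3_1 : QD 3 1 (nlf (nlf (nlf lf0))) (s3 : N3 (N3 (N3 Cx)) → List Bool → Prop)
    (fun a c b => N3.k (N3.q (N3.k a) (N3.k c) (N3.k b))) := QD2_1.nx
theorem QD3_2 : QD 3 2 (nlf (nlf (nlf lf0))) (s3 : N3 (N3 (N3 Cx)) → List Bool → Prop)
    (fun a c b => N3.q (N3.k (N3.k a)) (N3.k (N3.k c)) (N3.k (N3.k b))) := QD.top A2_ok SHL2
theorem QD4_0 : QD 4 0 (nlf (nlf (nlf (nlf lf0)))) (s4 : N3 (N3 (N3 (N3 Cx))) → List Bool → Prop)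
    (fun a c b => N3.k (N3.k (N3.k (N3.q a c b)))) := QD3_0.nx
theorem QD4_1 : QD 4 1 (nlf (nlf (nlf (nlf lf0)))) (s4 : N3 (N3 (N3 (N3 Cx))) → List Bool → Prop)
    (fun a c b => N3.k (N3.k (N3.q (N3.k a) (N3.k c) (N3.k b)))) := QD3_1.nx
theorem QD4_2 : QD 4 2 (nlf (nlf (nlf (nlf lf0)))) (s4 : N3 (N3 (N3 (N3 Cx))) → List Bool → Prop)
    (fun a c b => N3.k (N3.q (N3.k (N3.k a)) (N3.k (N3.k c)) (N3.k (N3.k b)))) := QD3_2.nx

/-- ONE TAIL (or none) -/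
theorem MZ2 : MZ 1 l2 (nlf (nlf lf0)) (nmf 1 (nmf 0 mf0)) l2 l2 l2 s2 s2 s2 s2 K2 Q2m cN2 rC2
    Pool.Agent.Helper86.CT.S2 W2 y2 qd2 rt2 := by
  refine ⟨MX2, fun _ _ h => sv_2 h, WX2, YLW.top A1_ok SHL1, RC2, ?_, RTL2⟩
  intro j hj
  interval_cases j
  exact QD2_0

/-- TWO TAILS -/
theorem MZ3 : MZ 2 l3 (nlf (nlf (nlf lf0))) (nmf 2 (nmf 1 (nmf 0 mf0))) l3 l3 l3 s3 s3 s3 s3 K3
    Q3m cN3 rC3 Pool.Agent.Helper86.CT.S3 W3 y3 qd3 rt3 := by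
  refine ⟨MX3, fun _ _ h => sv_3 h, WX3, YLW.top A2_ok SHL2, RC3, ?_, RTL3⟩
  intro j hj
  interval_cases j
  · exact QD3_0
  · exact QD3_1

/-- THREE TAILS -/
theorem MZ4 : MZ 3 l4 (nlf (nlf (nlf (nlf lf0)))) (nmf 3 (nmf 2 (nmf 1 (nmf 0 mf0)))) l4 l4 l4
    s4 s4 s4 s4 K4 Q4m cN4 rC4 Pool.Agent.Helper86.CT.S4 W4 y4 qd4 rt4 := by
  refine ⟨MX4, fun _ _ h => sv_4 h, WX4, YLW.top A3_ok SHL3, RC4, ?_, RTL4⟩
  intro j hj
  interval_cases j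
  · exact QD4_0
  · exact QD4_1
  · exact QD4_2

/-! ### the kappas -/

/-- a kappa: exact number `n` (units `2 ^ (-48)`), or between `a` and `b`, direction `j` -/
inductive KS where
  | E (n : ℕ) : KS
  | T (j a b : ℕ) : KS

/-- the model -/
def KS.mo {α : Type} (A : Alg α) (qd : ℕ → Cx → Cx → Cx → α) : KS → Mo α
  | KS.E n => Pool.Agent.Helper86.CT.mk A (A.cs ⟨Z.p n, Z.p (nat_lit 0)⟩) (nat_lit 1)
  | KS.T j a b => Pool.Agent.Helper86.CT.mk A (qd j ⟨Z.p a, Z.p (nat_lit 0)⟩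
      ⟨Z.p (hs a b), Z.p (nat_lit 0)⟩ ⟨Z.p b, Z.p (nat_lit 0)⟩) (nat_lit 1)

/-- the range -/
def KS.ok (κ : ℝ) : KS → Prop
  | KS.E n => |2 ^ 48 * κ - n| ≤ 1
  | KS.T _ a b => (a : ℝ) ≤ 2 ^ 48 * κ ∧ 2 ^ 48 * κ ≤ b

/-- the equation of the parameter -/
def KS.eq (κ : ℝ) (t : ℕ → ℝ) : KS → Prop
  | KS.E n => |2 ^ 48 * κ - n| ≤ 1
  | KS.T j a b => 2 ^ 48 * κ = (1 - t j) * a + t j * b

/-- directions below `D`, even sums -/
def KS.wf (D : ℕ) : KS → Bool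
  | KS.E _ => true
  | KS.T j a b => Nat.blt j D && evC a b

/-- different directions -/
def KS.dj : KS → KS → Bool
  | KS.T j _ _, KS.T j' _ _ => !(Nat.beq j j')
  | _, _ => true

/-- the side test of the three kappas -/
def wfK (D : ℕ) (s0 s1 s2 : KS) : Bool :=
  s0.wf D && (s1.wf D && (s2.wf D && (s0.dj s1 && (s0.dj s2 && s1.dj s2))))

/-- the parameter of a point of an interval -/
theorem exists_par {a b : ℕ} {w : ℝ} (h1 : (a : ℝ) ≤ w) (h2 : w ≤ (b : ℝ)) :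
    ∃ t : ℝ, 0 ≤ t ∧ t ≤ 1 ∧ w = (1 - t) * a + t * b := by
  rcases (h1.trans h2).eq_or_lt with h | h
  · exact ⟨0, le_rfl, zero_le_one, by linarith⟩
  · have hd : (0 : ℝ) < b - a := by linarith
    refine ⟨(w - a) / (b - a), div_nonneg (by linarith) hd.le, ?_, ?_⟩
    · rw [div_le_one hd]
      linarith
    · field_simp
      ring

/-- the parameter of one kappa -/
theorem KS.par {s : KS} {κ : ℝ} (h : s.ok κ) : ∃ u : ℝ, 0 ≤ u ∧ u ≤ 1 ∧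
    ∀ t : ℕ → ℝ, (∀ j a b, s = KS.T j a b → t j = u) → s.eq κ t := by
  cases s with
  | E n => exact ⟨0, le_rfl, zero_le_one, fun _ _ => h⟩
  | T j a b =>
    obtain ⟨u, h0, h1, h2⟩ := exists_par h.1 h.2
    exact ⟨u, h0, h1, fun t ht => by
      show 2 ^ 48 * κ = (1 - t j) * a + t j * b
      rw [ht j a b rfl]
      exact h2⟩

/-- has the direction `i` -/
def KS.is (i : ℕ) : KS → Bool
  | KS.E _ => false
  | KS.T j _ _ => Nat.beq j i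

theorem KS.is_T {j a b : ℕ} : (KS.T j a b).is j = true := Nat.beq_refl j

theorem KS.dj_is {s s' : KS} (h : s.dj s' = true) {j a b : ℕ} (e : s' = KS.T j a b) :
    s.is j = false := by
  cases s with
  | E n => rfl
  | T i c d =>
    rw [e] at h
    have h' : (!(Nat.beq i j)) = true := h
    show Nat.beq i j = false
    simpa using h'

/-- THE POINT OF THE CUBE -/
theorem exists_cube {D : ℕ} (hD : D ≤ 3) {s0 s1 s2 : KS} (hw : wfK D s0 s1 s2 = true)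
    {κ : Fin 3 → ℝ} (h0 : s0.ok (κ 0)) (h1 : s1.ok (κ 1)) (h2 : s2.ok (κ 2)) {u : ℝ} (hu0 : 0 ≤ u)
    (hu1 : u ≤ 1) : ∃ t : ℕ → ℝ, Pool.Agent.Helper90.KMT.PT (D + 1) t ∧ t D = u ∧
      s0.eq (κ 0) t ∧ s1.eq (κ 1) t ∧ s2.eq (κ 2) t := by
  unfold wfK at hw
  simp only [Bool.and_eq_true] at hw
  obtain ⟨w0, w1, w2, d01, d02, d12⟩ := hw
  obtain ⟨u0, a0, b0, c0⟩ := KS.par h0
  obtain ⟨u1, a1, b1, c1⟩ := KS.par h1
  obtain ⟨u2, a2, b2, c2⟩ := KS.par h2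
  have lt : ∀ {s : KS} {j a b : ℕ}, s.wf D = true → s = KS.T j a b → j < D := by
    intro s j a b hs e
    rw [e] at hs
    have h' : (Nat.blt j D && evC a b) = true := hs
    rw [Bool.and_eq_true] at h'
    exact Nat.le_of_ble_eq_true h'.1
  have nD : ∀ {s : KS}, s.wf D = true → s.is D = false := by
    intro s hs
    cases s with
    | E n => rfl
    | T j a b =>
      have := lt hs rfl
      show Nat.beq j D = false
      cases h : Nat.beq j D with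
      | false => rfl
      | true =>
        have := Nat.eq_of_beq_eq_true h
        omega
  refine ⟨fun i => bif s0.is i then u0 else bif s1.is i then u1 else bif s2.is i then u2 else u,
    ⟨?_, ?_, by omega⟩, ?_, ?_, ?_, ?_⟩
  · intro j _
    show 0 ≤ (bif s0.is j then u0 else bif s1.is j then u1 else bif s2.is j then u2 else u)
    cases s0.is j <;> cases s1.is j <;> cases s2.is j <;> assumption
  · intro j _
    show (bif s0.is j then u0 else bif s1.is j then u1 else bif s2.is j then u2 else u) ≤ 1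
    cases s0.is j <;> cases s1.is j <;> cases s2.is j <;> assumption
  · show (bif s0.is D then u0 else bif s1.is D then u1 else bif s2.is D then u2 else u) = u
    rw [nD w0, nD w1, nD w2]
    rfl
  · refine c0 _ fun j a b e => ?_
    show (bif s0.is j then u0 else bif s1.is j then u1 else bif s2.is j then u2 else u) = u0
    rw [e, KS.is_T]
    rfl
  · refine c1 _ fun j a b e => ?_
    show (bif s0.is j then u0 else bif s1.is j then u1 else bif s2.is j then u2 else u) = u1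
    rw [KS.dj_is d01 e, e, KS.is_T]
    rfl
  · refine c2 _ fun j a b e => ?_
    show (bif s0.is j then u0 else bif s1.is j then u1 else bif s2.is j then u2 else u) = u2
    rw [KS.dj_is d02 e, KS.dj_is d12 e, e, KS.is_T]
    rfl

section

variable {D : ℕ} {α β p v γ : Type} {lC : α → Vt (D + 1) → Cx} {lf : α → Vt (D + 1) → ℂ}
  {mf : (ℕ → ℝ) → β → (ℕ → ℝ) → ℝ} {lp : p → Vt (D + 1) → P9} {lv : v → Vt (D + 1) → VR}
  {lg : γ → Vt (D + 1) → ℕ} {Sa : α → List Bool → Prop} {Sp : p → List Bool → Prop}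
  {Sv : v → List Bool → Prop} {Sg : γ → List Bool → Prop} {M : Mc α β p v γ}
  {S : Pool.Agent.Helper86.CT.Sv p} {W : Vx β} {y : ℕ → ℕ → α} {qd : ℕ → Cx → Cx → Cx → α}
  {rt : α → Bool}

/-- the model of a kappa -/
theorem KS.tok {Q : Mq α v} {cv : VR → v} {rc : Rw}
    (hZ : MZ D lC lf mf lp lv lg Sa Sp Sv Sg M Q cv rc S W y qd rt) {t : ℕ → ℝ}
    (ht : Pool.Agent.Helper90.KMT.PT (D + 1) t) {s : KS} {κ : ℝ} (hs : s.wf D = true)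
    (h : s.eq κ t) : TOK (D + 1) lf t (κ : ℂ) (s.mo M.A qd) ∧
      ∃ l, Sa (s.mo M.A qd).v l ∧ cnt l ≤ 1 := by
  cases s with
  | E n =>
    refine ⟨TOK_ex hZ.m.a ht h, fal (D + 1), hZ.m.s.cs _, ?_⟩
    simp [cnt, fal, List.count_replicate]
  | T j a b =>
    have h' : (Nat.blt j D && evC a b) = true := hs
    rw [Bool.and_eq_true] at h'
    have hq := hZ.q j (Nat.le_of_ble_eq_true h'.1)
    exact ⟨TOK_tl hq hZ.m.a ht (Nat.eq_of_beq_eq_true h'.2) h, hq.sh _ _ _⟩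

/-- **the value of `x` on the exact line** -/
theorem TOK_xA {t : ℕ → ℝ} (hA : AOK (D + 1) lf M.A) (ht : Pool.Agent.Helper90.KMT.PT (D + 1) t)
    {a b c : ℝ} {Ka Kb Kc : Mo α} (ha : TOK (D + 1) lf t (a : ℂ) Ka)
    (hb : TOK (D + 1) lf t (b : ℂ) Kb) (hc : TOK (D + 1) lf t (c : ℂ) Kc)
    (hok : xAOK M.A Ka Kb Kc = true) :
    TOK (D + 1) lf t (((4 - (a * b) ^ 2 - c ^ 2) / (a * b * c) : ℝ) : ℂ) (xAM M.A Ka Kb Kc) := by
  refine (TOK.xA hA ht ha hb hc hok).1.congr ?_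
  push_cast
  ring

/-- the value of `x` on a constant line -/
theorem TOK_xC {t : ℕ → ℝ} (hA : AOK (D + 1) lf M.A) (ht : Pool.Agent.Helper90.KMT.PT (D + 1) t)
    {x0 : ℝ} {Xz : Z} {r : ℕ} (h : |2 ^ 48 * x0 - (zv Xz : ℝ)| ≤ (r : ℝ)) :
    TOK (D + 1) lf t (x0 : ℂ)
      (Pool.Agent.Helper86.CT.mk M.A (M.A.cs ⟨Xz, Z.p (nat_lit 0)⟩) r) := by
  refine ⟨vt_mk hA _ _, ?_⟩
  show ‖(UU : ℂ) * x0 - avg (wtT (D + 1) t) (lf (M.A.cs ⟨Xz, Z.p (nat_lit 0)⟩))‖ ≤ (r : ℝ)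
  have e1 : lf (M.A.cs ⟨Xz, Z.p (nat_lit 0)⟩) = fun _ => ((zv Xz : ℝ) : ℂ) := by
    funext v
    rw [hA.cst]
    apply Complex.ext
    · rfl
    · show ((zv (Z.p (nat_lit 0)) : ℤ) : ℝ) = _
      rw [zv_p]
      simp
  rw [e1, avg_const ht.w]
  have e : (UU : ℂ) * x0 - ((zv Xz : ℝ) : ℂ) = ((2 ^ 48 * x0 - (zv Xz : ℝ) : ℝ) : ℂ) := by
    unfold UU
    push_cast
    norm_num
  rw [e, Complex.norm_real, Real.norm_eq_abs]
  exact h

/-- the side condition of a cell -/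
def sideT (W : Vx β) (le : List LT2) (c : CellT α β) : Bool :=
  Nat.ble 1 c.m && W.al (fun _ s => sOKT le s) c.K c.S

/-- everything of a module which does not depend on the cell: `κ` in the box, the models, `x0` -/
structure CLD (D : ℕ) (lf : α → Vt (D + 1) → ℂ) (M : Mc α β p v γ)
    (qd : ℕ → Cx → Cx → Cx → α) (rt : α → Bool) (X : XM α v) (Xo : Mo α) (s0 s1 s2 : KS)
    (κ : Fin 3 → ℝ) (x0 : ℝ) : Prop where
  D3 : D ≤ 3
  wf : wfK D s0 s1 s2 = true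
  o0 : s0.ok (κ 0)
  o1 : s1.ok (κ 1)
  o2 : s2.ok (κ 2)
  e0 : X.k0 = s0.mo M.A qd
  e1 : X.k1 = s1.mo M.A qd
  e2 : X.k2 = s2.mo M.A qd
  xk : xOK X = true
  cl : clsOK M.A X.k0 X.k1 X.k2 = true
  rt : rt Xo.v = true
  x0 : ∀ t, Pool.Agent.Helper90.KMT.PT (D + 1) t → TOK (D + 1) lf t (κ 0 : ℂ) X.k0 →
    TOK (D + 1) lf t (κ 1 : ℂ) X.k1 → TOK (D + 1) lf t (κ 2 : ℂ) X.k2 →
    TOK (D + 1) lf t (x0 : ℂ) Xo

/-- **ONE CELL AT A POINT, with the parameter** -/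
theorem chkDT_pt {X : XM α v}
    (hZ : MZ D lC lf mf lp lv lg Sa Sp Sv Sg M X.Q X.c X.r S W y qd rt) {Xo : Mo α}
    {s0 s1 s2 : KS} {κ : Fin 3 → ℝ} {x0 : ℝ} (hC : CLD D lf M qd rt X Xo s0 s1 s2 κ x0)
    {c : CellT α β} {sl : List ℕ} {le : List LT2} (hs : sideT W le c = true) {G : TProg}
    (H : chkDT M S W y (mkCls M.A X.k0 X.k1 X.k2) (expand X G) Xo sl le c = true) {h : ℝ}
    (ha : (c.ya : ℝ) ≤ 2 ^ 48 * h) (hb : 2 ^ 48 * h ≤ (c.yb : ℝ)) {z : ℂ} (hz : z ≠ 0)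
    (hzx : z + z⁻¹ = (x0 : ℂ) + (h : ℂ) * I) (hui : (z⁻¹).im ≤ 0) :
    ∃ t, Pool.Agent.Helper90.KMT.PT (D + 1) t ∧ PtR (fun k => KTab mf c.K k t) κ z G sl le ∧
      TOK (D + 1) lf t (κ 0 : ℂ) X.k0 ∧ TOK (D + 1) lf t (κ 1 : ℂ) X.k1 ∧
      TOK (D + 1) lf t (κ 2 : ℂ) X.k2 ∧
      CLT (D + 1) lf t (cκ κ) (mkCls M.A X.k0 X.k1 X.k2) ∧
      TOK (D + 1) lf t z⁻¹ (uM M.A c.m (xT M.A y Xo c)
        (Pool.Agent.Helper86.CT.mk M.A c.u (nat_lit 0))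
        (Pool.Agent.Helper86.CT.mk M.A (M.A.sub (xT M.A y Xo c).v c.u) (nat_lit 0))) ∧
      TOK (D + 1) lf t z (zM (xT M.A y Xo c) (uM M.A c.m (xT M.A y Xo c)
        (Pool.Agent.Helper86.CT.mk M.A c.u (nat_lit 0))
        (Pool.Agent.Helper86.CT.mk M.A (M.A.sub (xT M.A y Xo c).v c.u) (nat_lit 0)))
        (Pool.Agent.Helper86.CT.mk M.A (M.A.sub (xT M.A y Xo c).v c.u) (nat_lit 0))) := by
  obtain ⟨u, hu0, hu1, hu⟩ := exists_par ha hb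
  obtain ⟨t, ht, hj, q0, q1, q2⟩ := exists_cube hC.D3 hC.wf hC.o0 hC.o1 hC.o2 hu0 hu1
  have hw := hC.wf
  unfold wfK at hw
  simp only [Bool.and_eq_true] at hw
  obtain ⟨w0, w1, w2, -⟩ := hw
  obtain ⟨k0, z0⟩ := KS.tok hZ ht w0 q0
  obtain ⟨k1, z1⟩ := KS.tok hZ ht w1 q1
  obtain ⟨k2, z2⟩ := KS.tok hZ ht w2 q2
  rw [← hC.e0] at k0 z0
  rw [← hC.e1] at k1 z1
  rw [← hC.e2] at k2 z2
  obtain ⟨c0, hx⟩ := andB_t hC.xk
  obtain ⟨c1, c2⟩ := andB_t hx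
  have hXG : XG (D + 1) lf Sa t X κ := ⟨hZ.r, ⟨k0, z0, c0⟩, ⟨k1, z1, c1⟩, ⟨k2, z2, c2⟩⟩
  have hCL : CLT (D + 1) lf t (cκ κ) (mkCls M.A X.k0 X.k1 X.k2) :=
    CLT.mk' hZ.m.a ht k0 k1 k2 hC.cl
  unfold sideT at hs
  rw [Bool.and_eq_true] at hs
  obtain ⟨g1, g2, g3⟩ := cell_pt hZ.m hZ.y hZ.w hZ.s ht hXG hCL (hC.x0 t ht k0 k1 k2)
    (hZ.t _ hC.rt) (Nat.le_of_ble_eq_true hs.1) hs.2 H (h := h) (by rw [hj]; exact hu) hz hzx hui
  exact ⟨t, ht, g1, k0, k1, k2, hCL, g2, g3⟩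

/-- the cell of a point of a chain -/
theorem chain_cell {Cc : Cls α} {Gc : Pool.Agent.Helper86.CT.Prog v} {Xo : Mo α} {sl : List ℕ}
    {le : List LT2} {e : ℕ} {w : ℝ} (he : w ≤ (e : ℝ)) : ∀ (l : List (CellT α β)) (a : ℕ),
    chkPcT M S W y Cc Gc Xo sl le e l a = true → (a : ℝ) < w →
    ∃ c ∈ l, chkDT M S W y Cc Gc Xo sl le c = true ∧ (c.ya : ℝ) ≤ w ∧ w ≤ (c.yb : ℝ) := by
  intro l
  induction l with
  | nil =>
    intro a H ha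
    have e1 : a = e := Nat.eq_of_beq_eq_true H
    rw [e1] at ha
    exact absurd he (not_le.2 ha)
  | cons c l ih =>
    intro a H ha
    obtain ⟨h1, H⟩ := andB_t H
    obtain ⟨-, H⟩ := andB_t H
    obtain ⟨h3, h4⟩ := andB_t H
    have e1 : a = c.ya := Nat.eq_of_beq_eq_true h1
    rcases le_or_gt w (c.yb : ℝ) with h | h
    · exact ⟨c, List.mem_cons_self, h3, by rw [← e1]; exact ha.le, h⟩
    · obtain ⟨d, hd, g⟩ := ih c.yb h4 h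
      exact ⟨d, List.mem_cons_of_mem _ hd, g⟩

/-- the cell of a point of a chain, first point included -/
theorem chain_cell' {Cc : Cls α} {Gc : Pool.Agent.Helper86.CT.Prog v} {Xo : Mo α} {sl : List ℕ}
    {le : List LT2} {e : ℕ} {w : ℝ} {l : List (CellT α β)} (hl : l ≠ []) {a : ℕ}
    (H : chkPcT M S W y Cc Gc Xo sl le e l a = true) (ha : (a : ℝ) ≤ w) (he : w ≤ (e : ℝ)) :
    ∃ c ∈ l, chkDT M S W y Cc Gc Xo sl le c = true ∧ (c.ya : ℝ) ≤ w ∧ w ≤ (c.yb : ℝ) := by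
  rcases ha.eq_or_lt with h | h
  · obtain ⟨c, l, rfl⟩ := List.exists_cons_of_ne_nil hl
    obtain ⟨h1, H⟩ := andB_t H
    obtain ⟨h2, H⟩ := andB_t H
    obtain ⟨h3, -⟩ := andB_t H
    have e1 : a = c.ya := Nat.eq_of_beq_eq_true h1
    have e2 : c.ya ≤ c.yb := Nat.le_of_ble_eq_true h2
    refine ⟨c, List.mem_cons_self, h3, ?_, ?_⟩
    · rw [← h, e1]
    · rw [← h, e1]
      exact_mod_cast e2
  · exact chain_cell he l a H h

/-- **A CHAIN OF CELLS AT A POINT** -/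
theorem cls_pt {X : XM α v}
    (hZ : MZ D lC lf mf lp lv lg Sa Sp Sv Sg M X.Q X.c X.r S W y qd rt) {Xo : Mo α}
    {s0 s1 s2 : KS} {κ : Fin 3 → ℝ} {x0 : ℝ} (hC : CLD D lf M qd rt X Xo s0 s1 s2 κ x0)
    {l : List (CellT α β)} (hl : l ≠ []) {sl : List ℕ} {le : List LT2}
    (hs : l.all (sideT W le) = true) {G : TProg} {a e : ℕ}
    (H : chkPcT M S W y (mkCls M.A X.k0 X.k1 X.k2) (expand X G) Xo sl le e l a = true) {h : ℝ}
    (ha : (a : ℝ) ≤ 2 ^ 48 * h) (hb : 2 ^ 48 * h ≤ (e : ℝ)) {z : ℂ} (hz : z ≠ 0)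
    (hzx : z + z⁻¹ = (x0 : ℂ) + (h : ℂ) * I) (hui : (z⁻¹).im ≤ 0) :
    ∃ K, PtR K κ z G sl le := by
  rw [List.all_eq_true] at hs
  obtain ⟨c, hc, h1, h2, h3⟩ := chain_cell' hl H ha hb
  obtain ⟨t, -, g, -⟩ := chkDT_pt hZ hC (hs c hc) h1 h2 h3 hz hzx hui
  exact ⟨_, g⟩

end

end Pool.Agent.Helper21.KTE
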