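import Pool.Agent.Helper86.CT.KerT

/-!
The threshold `x_B` of a class of three tails in the kernel arithmetic: no mathematics, only data.
-/

set_option autoImplicit false
noncomputable section
namespace Pool.Agent.Helper21.XB

open Pool.Agent.Helper86.CX (andB)
open Pool.Agent.Helper86.CT

/-- a natural number -/
def cN {α : Type} (A : Alg α) (n : Nat) : Mo α :=
  cst A (Nat.mul n (nat_lit 281474976710656)) (nat_lit 0)

def xbK {α : Type} (A : Alg α) (k0 k1 k2 : Mo α) : Mo α := mulM A (mulM A k0 k1) k2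
/-- the sum of the squares -/
def xbQ {α : Type} (A : Alg α) (k0 k1 k2 : Mo α) : Mo α :=
  addM A (addM A (mulM A k0 k0) (mulM A k1 k1)) (mulM A k2 k2)
def xb4 {α : Type} (A : Alg α) (S : Mo α) : Mo α := addM A (addM A S S) (addM A S S)

/-- `c (c (16 c + S4) + (S4 - 12)) + 4 + u (2 K + u)` -/
def xbH1 {α : Type} (A : Alg α) (C S4 K u : Mo α) : Mo α :=
  addM A (addM A (mulM A C (addM A (mulM A C (addM A (mulM A (cN A (nat_lit 16)) C) S4))
    (subM A S4 (cN A (nat_lit 12))))) (cN A (nat_lit 4))) (mulM A u (addM A (addM A K K) u))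
def xbH2 {α : Type} (A : Alg α) (C Q K : Mo α) : Mo α :=
  xbH1 A C (xb4 A (subM A Q (cN A (nat_lit 3)))) K (subM A (subM A Q (cN A (nat_lit 4))) K)
/-- the cubic equation at the approximation `C` -/
def xbH {α : Type} (A : Alg α) (k0 k1 k2 C : Mo α) : Mo α :=
  xbH2 A C (xbQ A k0 k1 k2) (xbK A k0 k1 k2)

def xbT {α : Type} (h : Mo α) (r : Nat) : Bool := Nat.ble (Nat.add h.B h.r) (Nat.mul (nat_lit 5) r)
/-- THE TEST: `C` with the radius `r` -/
def xBOK {α : Type} (A : Alg α) (k0 k1 k2 : Mo α) (C : α) (r : Nat) : Bool :=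
  andB (xbT (xbH A k0 k1 k2 (mk A C (nat_lit 0))) r)
    (andB (Nat.ble (Nat.add (A.nb C) r) (nat_lit 87257242750976)) (invOK A (xbK A k0 k1 k2)))

/-- `2 (1 - 2 c - 2 c² - S)/K` -/
def xbD {α : Type} (A : Alg α) (n : Mo α) : Mo α := addM A n n
def xBM1 {α : Type} (A : Alg α) (Q K cc : Mo α) : Mo α :=
  mulM A (xbD A (subM A (subM A (cN A (nat_lit 4)) (addM A cc cc)) Q)) (invM A K)
/-- THE MODEL OF `x_B` -/
def xBM {α : Type} (A : Alg α) (k0 k1 k2 : Mo α) (C : α) (r : Nat) : Mo α :=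
  xBM1 A (xbQ A k0 k1 k2) (xbK A k0 k1 k2)
    (mulM A (mk A C r) (addM A (mk A C r) (cN A (nat_lit 1))))

end Pool.Agent.Helper21.XB
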