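import Pool.Agent.Helper12.CX.THR

/-!
The threshold `x_B` (MP_c75db0): the double eigenvalue of the product of the three reflections as a
parameter. With `S = k₀² + k₁² + k₂² - 3`, `K = k₀ k₁ k₂` the number `c` = cosine of the double
eigenvalue satisfies a cubic equation `hB S K c = 0`, and `x_B = 2 (1 - 2c - 2c² - S)/K`.
-/

set_option autoImplicit false
noncomputable section
namespace Pool.Agent.Helper21.XB

open Pool.Agent.Helper6.MONO

/-- the cubic equation of the double eigenvalue -/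
def hB (S K c : ℝ) : ℝ := 16 * c ^ 3 + 4 * S * c ^ 2 + (4 * S - 12) * c - (K ^ 2 - S ^ 2 + 2 * S - 5)

/-- the corresponding `x` -/
def xBc (S K c : ℝ) : ℝ := 2 * (1 - 2 * c - 2 * c ^ 2 - S) / K

theorem fBx_xBc {S K c : ℝ} (hK : K ≠ 0) :
    fBx S K (xBc S K c) = hB S K c * (hB S K c - 4 * (2 * c + 1) ^ 3) := by
  unfold fBx xBc hB
  field_simp
  ring

theorem fBx_root {S K c : ℝ} (hK : K ≠ 0) (h : hB S K c = 0) : fBx S K (xBc S K c) = 0 := by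
  rw [fBx_xBc hK, h, zero_mul]

/-- the expansion at the root -/
theorem fBx_add {S K c : ℝ} (hK : K ≠ 0) (h : hB S K c = 0) (e : ℝ) :
    fBx S K (xBc S K c + e) = e * (4 * K * (2 * c + 1) ^ 3 * (S + 6 * c - 3) +
      e * (K ^ 2 * (24 * (1 - 2 * c - 2 * c ^ 2) - 12 * S + S ^ 2) + 4 * K ^ 3 * e)) := by
  have e1 : K * xBc S K c = 2 * (1 - 2 * c - 2 * c ^ 2 - S) := by
    unfold xBc
    field_simp
  have e2 : K ^ 2 = S ^ 2 - 2 * S + 5 + 16 * c ^ 3 + 4 * S * c ^ 2 + (4 * S - 12) * c := by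
    unfold hB at h
    linarith
  -- `f = F(ρ, q)`
  have key : ∀ x : ℝ, fBx S K x = (S ^ 2 + K ^ 2 + S * (K * x)) ^ 2 +
      (18 - 24 * (S + K * x / 2)) * (S ^ 2 + K ^ 2 + S * (K * x)) + 32 * (S + K * x / 2) ^ 3 -
      27 := by
    intro x
    unfold fBx
    ring
  rw [key, mul_add, e1, e2]
  have e3 : S ^ 2 + (S ^ 2 - 2 * S + 5 + 16 * c ^ 3 + 4 * S * c ^ 2 + (4 * S - 12) * c) +
      S * (2 * (1 - 2 * c - 2 * c ^ 2 - S) + K * e) = 16 * c ^ 3 - 12 * c + 5 + S * (K * e) := by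
    ring
  have e4 : S + (2 * (1 - 2 * c - 2 * c ^ 2 - S) + K * e) / 2 = 1 - 2 * c - 2 * c ^ 2 + K * e / 2 := by
    ring
  rw [e3, e4, ← e2]
  ring

/-- just below the root `f` is negative -/
theorem fBx_neg {S K c : ℝ} (hK : 0 < K) (h : hB S K c = 0) (h1 : 0 < 2 * c + 1)
    (h2 : 0 < S + 6 * c - 3) {x1 : ℝ} (hx : x1 < xBc S K c) :
    ∃ x, x1 ≤ x ∧ x < xBc S K c ∧ fBx S K x < 0 := by
  set G : ℝ → ℝ := fun e => 4 * K * (2 * c + 1) ^ 3 * (S + 6 * c - 3) +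
      e * (K ^ 2 * (24 * (1 - 2 * c - 2 * c ^ 2) - 12 * S + S ^ 2) + 4 * K ^ 3 * e) with hG
  have hc : Continuous G := by
    rw [hG]
    fun_prop
  have h0 : 0 < G 0 := by
    rw [hG]
    simp only [zero_mul, add_zero]
    positivity
  have hopen : IsOpen {e : ℝ | 0 < G e} := isOpen_lt continuous_const hc
  obtain ⟨ε, hε, hball⟩ := Metric.isOpen_iff.1 hopen 0 h0
  set e : ℝ := max (x1 - xBc S K c) (-(ε / 2)) with he
  have he0 : e < 0 := max_lt (by linarith) (by linarith)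
  have he1 : x1 - xBc S K c ≤ e := le_max_left _ _
  have he2 : -(ε / 2) ≤ e := le_max_right _ _
  refine ⟨xBc S K c + e, by linarith, by linarith, ?_⟩
  rw [fBx_add hK.ne' h]
  refine mul_neg_of_neg_of_pos he0 ?_
  have : e ∈ {e : ℝ | 0 < G e} := by
    apply hball
    rw [Metric.mem_ball, Real.dist_eq, sub_zero, abs_lt]
    constructor <;> linarith
  exact this

/-- the slope -/
theorem hB_sub (S K c d : ℝ) : hB S K d - hB S K c =
    (d - c) * (4 * (d - c) ^ 2 + (1 + c + d) * (12 * (c + d - 1) + 4 * S)) := by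
  unfold hB
  ring

/-- the root in `[-1/2, ∞)` is unique -/
theorem hB_uniq {S K c d : ℝ} (hS : 6 < S) (hc : -(1 / 2) ≤ c) (hd : -(1 / 2) ≤ d)
    (h1 : hB S K c = 0) (h2 : hB S K d = 0) : d = c := by
  by_contra hne
  have h3 := hB_sub S K c d
  rw [h1, h2, sub_self] at h3
  have h4 : d - c ≠ 0 := sub_ne_zero.2 hne
  have h5 : 0 < 4 * (d - c) ^ 2 := by positivity
  have h6 : 0 ≤ (1 + c + d) * (12 * (c + d - 1) + 4 * S) :=
    mul_nonneg (by linarith) (by linarith)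
  rcases mul_eq_zero.1 h3.symm with h | h
  · exact h4 h
  · linarith

/-- the slope in the range of the classes of type B: all orders at least 14 -/
theorem hB_slope {S K c d : ℝ} (hS : 42 / 5 ≤ S) (hc : -(31 / 100) ≤ c) (hcd : c ≤ d) :
    5 * (d - c) ≤ hB S K d - hB S K c := by
  rw [hB_sub]
  have h1 : 0 ≤ d - c := by linarith
  have h2 : (5 : ℝ) ≤ (1 + c + d) * (12 * (c + d - 1) + 4 * S) := by nlinarith
  have h3 : 0 ≤ 4 * (d - c) ^ 2 := by positivity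
  nlinarith

/-- **a root close to an approximate root** -/
theorem hB_exists {S K a r : ℝ} (hS : 42 / 5 ≤ S) (hr : 0 ≤ r) (ha : -(31 / 100) ≤ a - r)
    (h : |hB S K a| ≤ 5 * r) : ∃ c, |c - a| ≤ r ∧ hB S K c = 0 := by
  obtain ⟨h1, h2⟩ := abs_le.1 h
  have h3 := hB_slope (K := K) hS ha (by linarith : a - r ≤ a)
  have h4 := hB_slope (K := K) hS (by linarith : -(31 / 100) ≤ a) (by linarith : a ≤ a + r)
  have hcont : ContinuousOn (hB S K) (Set.Icc (a - r) (a + r)) := by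
    unfold hB
    fun_prop
  have h5 : (0 : ℝ) ∈ Set.Icc (hB S K (a - r)) (hB S K (a + r)) :=
    ⟨by linarith, by linarith⟩
  obtain ⟨c, hc, h6⟩ := intermediate_value_Icc (by linarith) hcont h5
  refine ⟨c, ?_, h6⟩
  rw [abs_le]
  constructor <;> linarith [hc.1, hc.2]

open Classical in
/-- the number `c` of three kappas -/
def cBr (S K : ℝ) : ℝ :=
  if h : ∃ c, -(1 / 2) ≤ c ∧ hB S K c = 0 then h.choose else 0

theorem cBr_eq {S K c : ℝ} (hS : 6 < S) (hc : -(1 / 2) ≤ c) (h : hB S K c = 0) :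
    cBr S K = c := by
  have hex : ∃ c, -(1 / 2) ≤ c ∧ hB S K c = 0 := ⟨c, hc, h⟩
  unfold cBr
  rw [dif_pos hex]
  exact hB_uniq hS hc hex.choose_spec.1 h hex.choose_spec.2

/-- **the approximation of `c`** -/
theorem cBr_approx {S K a r : ℝ} (hS : 42 / 5 ≤ S) (hr : 0 ≤ r) (ha : -(31 / 100) ≤ a - r)
    (h : |hB S K a| ≤ 5 * r) : |cBr S K - a| ≤ r ∧ hB S K (cBr S K) = 0 := by
  obtain ⟨c, h1, h2⟩ := hB_exists hS hr ha h
  have h3 := (abs_le.1 h1).1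
  rw [cBr_eq (by linarith) (by linarith) h2]
  exact ⟨h1, h2⟩

/-! ### the numbers of three orders -/

def SS (a b c : ℝ) : ℝ := a ^ 2 + b ^ 2 + c ^ 2 - 3
def KK (a b c : ℝ) : ℝ := a * b * c

/-- THE THRESHOLD OF TYPE B -/
def xBr (a b c : ℝ) : ℝ := xBc (SS a b c) (KK a b c) (cBr (SS a b c) (KK a b c))

/-- kappas of orders at least 14 -/
def K14 (a : ℝ) : Prop := 0 < a ∧ 38 / 10 ≤ a ^ 2 ∧ a ^ 2 ≤ 4

theorem SS_ge {a b c : ℝ} (ha : K14 a) (hb : K14 b) (hc : K14 c) : 42 / 5 ≤ SS a b c := by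
  obtain ⟨-, a1, -⟩ := ha
  obtain ⟨-, b1, -⟩ := hb
  obtain ⟨-, c1, -⟩ := hc
  unfold SS
  linarith

theorem KK_pos {a b c : ℝ} (ha : K14 a) (hb : K14 b) (hc : K14 c) : 0 < KK a b c :=
  mul_pos (mul_pos ha.1 hb.1) hc.1

theorem hB_PQR (a b c x : ℝ) : hB (SS a b c) (KK a b c) x =
    16 * x ^ 3 + 4 * (9 - ((4 - a ^ 2) + (4 - b ^ 2) + (4 - c ^ 2))) * x ^ 2 +
      (24 - 4 * ((4 - a ^ 2) + (4 - b ^ 2) + (4 - c ^ 2))) * x + 4 +
      (4 - a ^ 2) ^ 2 + (4 - b ^ 2) ^ 2 + (4 - c ^ 2) ^ 2 -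
      2 * ((4 - a ^ 2) * (4 - b ^ 2) + (4 - b ^ 2) * (4 - c ^ 2) + (4 - c ^ 2) * (4 - a ^ 2)) +
      (4 - a ^ 2) * (4 - b ^ 2) * (4 - c ^ 2) := by
  unfold hB SS KK
  ring

/-- the root exists -/
theorem cBr_spec {a b c : ℝ} (ha : K14 a) (hb : K14 b) (hc : K14 c) :
    -(31 / 100) ≤ cBr (SS a b c) (KK a b c) ∧ cBr (SS a b c) (KK a b c) ≤ 0 ∧
      hB (SS a b c) (KK a b c) (cBr (SS a b c) (KK a b c)) = 0 := by
  have hS := SS_ge ha hb hc
  obtain ⟨-, a1, a2⟩ := ha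
  obtain ⟨-, b1, b2⟩ := hb
  obtain ⟨-, c1, c2⟩ := hc
  have p1 : 0 ≤ 4 - a ^ 2 := by linarith
  have p2 : 0 ≤ 4 - b ^ 2 := by linarith
  have p3 : 0 ≤ 4 - c ^ 2 := by linarith
  have q1 : 4 - a ^ 2 ≤ 1 / 5 := by linarith
  have q2 : 4 - b ^ 2 ≤ 1 / 5 := by linarith
  have q3 : 4 - c ^ 2 ≤ 1 / 5 := by linarith
  have h0 : 0 ≤ hB (SS a b c) (KK a b c) 0 := by
    rw [hB_PQR]
    have := mul_nonneg (mul_nonneg p1 p2) p3
    nlinarith
  have h1 : hB (SS a b c) (KK a b c) (-(31 / 100)) ≤ 0 := by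
    rw [hB_PQR]
    have e1 := mul_nonneg p1 p2
    have e2 := mul_nonneg p2 p3
    have e3 := mul_nonneg p3 p1
    have e4 : (4 - a ^ 2) * (4 - b ^ 2) * (4 - c ^ 2) ≤ (4 - a ^ 2) * (4 - b ^ 2) * (1 / 5) :=
      mul_le_mul_of_nonneg_left q3 e1
    nlinarith [mul_nonneg p1 (sub_nonneg.2 q1), mul_nonneg p2 (sub_nonneg.2 q2),
      mul_nonneg p3 (sub_nonneg.2 q3)]
  have hcont : ContinuousOn (hB (SS a b c) (KK a b c)) (Set.Icc (-(31 / 100)) 0) := by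
    unfold hB
    fun_prop
  obtain ⟨x, hx, h2⟩ := intermediate_value_Icc (by norm_num) hcont ⟨h1, h0⟩
  rw [cBr_eq (by linarith) (by linarith [hx.1]) h2]
  exact ⟨hx.1, hx.2, h2⟩

/-! ### bounds -/

/-- upper bounds of `c` -/
theorem cBr_le {a b c x : ℝ} (ha : K14 a) (hb : K14 b) (hc : K14 c) (hx : -(31 / 100) ≤ x)
    (h0 : 0 ≤ hB (SS a b c) (KK a b c) x) : cBr (SS a b c) (KK a b c) ≤ x := by
  obtain ⟨g1, g2, g3⟩ := cBr_spec ha hb hc
  have hS := SS_ge ha hb hc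
  by_contra hcon
  push Not at hcon
  have h5 := hB_slope (K := KK a b c) hS hx hcon.le
  rw [g3] at h5
  linarith

theorem hB_e {a b c x e f g : ℝ} (h1 : a ^ 2 = 4 - e) (h2 : b ^ 2 = 4 - f) (h3 : c ^ 2 = 4 - g) :
    hB (SS a b c) (KK a b c) x = 16 * x ^ 3 + 4 * (9 - (e + f + g)) * x ^ 2 +
      (24 - 4 * (e + f + g)) * x + 4 + e ^ 2 + f ^ 2 + g ^ 2 - 2 * (e * f + f * g + g * e) +
      e * f * g := by
  rw [hB_PQR, h1, h2, h3]
  ring

/-- `4 c (1 + c) ≤ - (2 e + 2 f - g - e f)` -/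
theorem xA_aux {a b c e f g : ℝ} (ha : K14 a) (hb : K14 b) (hc : K14 c) (h1 : a ^ 2 = 4 - e)
    (h2 : b ^ 2 = 4 - f) (h3 : c ^ 2 = 4 - g) : 2 * e + 2 * f - e * f - g ≤
      -(4 * cBr (SS a b c) (KK a b c) * (1 + cBr (SS a b c) (KK a b c))) := by
  have a1 := ha.2.1
  have a2 := ha.2.2
  have b1 := hb.2.1
  have b2 := hb.2.2
  have c1 := hc.2.1
  have c2 := hc.2.2
  rw [h1] at a1 a2
  rw [h2] at b1 b2
  rw [h3] at c1 c2
  have e0 : 0 ≤ e := by linarith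
  have e1 : e ≤ 1 / 5 := by linarith
  have f0 : 0 ≤ f := by linarith
  have f1 : f ≤ 1 / 5 := by linarith
  have g0 : 0 ≤ g := by linarith
  have g1 : g ≤ 1 / 5 := by linarith
  have ef := mul_nonneg e0 f0
  have efg := mul_nonneg ef g0
  have key : cBr (SS a b c) (KK a b c) ≤ -(1 / 4) - (e + f) / 16 := by
    refine cBr_le ha hb hc (by linarith) ?_
    rw [hB_e h1 h2 h3]
    set s := e + f with hs
    have hs0 : 0 ≤ s := by linarith
    have hs1 : s ≤ 2 / 5 := by linarith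
    have e2 : 16 * (-(1 / 4) - s / 16) ^ 3 + 4 * (9 - (s + g)) * (-(1 / 4) - s / 16) ^ 2 +
      (24 - 4 * (s + g)) * (-(1 / 4) - s / 16) + 4 + e ^ 2 + f ^ 2 + g ^ 2 -
      2 * (e * f + f * g + g * e) + e * f * g = (e - f) ^ 2 + e * f * g + g ^ 2 +
        ((1 - 5 * g) * (3 / 16 * s) + 5 * g * (3 / 20 - 17 / 80 * s)) +
        s ^ 2 * (7 / 32 - 5 / 256 * s) + s * g * (1 / 8 - s / 64) := by
      rw [hs]
      ring
    rw [e2]
    have k1 : 0 ≤ (1 - 5 * g) * (3 / 16 * s) := mul_nonneg (by linarith) (by linarith)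
    have k2 : 0 ≤ 5 * g * (3 / 20 - 17 / 80 * s) := mul_nonneg (by linarith) (by linarith)
    have k3 : 0 ≤ s ^ 2 * (7 / 32 - 5 / 256 * s) := mul_nonneg (by positivity) (by linarith)
    have k4 : 0 ≤ s * g * (1 / 8 - s / 64) := mul_nonneg (mul_nonneg hs0 g0) (by linarith)
    have k5 : 0 ≤ (e - f) ^ 2 := sq_nonneg _
    have k6 : 0 ≤ g ^ 2 := sq_nonneg _
    linarith
  have h5 := (cBr_spec ha hb hc).1
  set y := cBr (SS a b c) (KK a b c) with hy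
  -- `-4 y (1 + y)` is decreasing
  have h6 : -(4 * (-(1 / 4) - (e + f) / 16) * (1 + (-(1 / 4) - (e + f) / 16))) ≤
      -(4 * y * (1 + y)) := by
    nlinarith [mul_nonneg (sub_nonneg.2 key) (by linarith : (0 : ℝ) ≤
      1 + y + (-(1 / 4) - (e + f) / 16))]
  refine le_trans ?_ h6
  nlinarith [mul_nonneg (sub_nonneg.2 e1) (sub_nonneg.2 f1), mul_nonneg e0 (sub_nonneg.2 f1),
    mul_nonneg f0 (sub_nonneg.2 e1)]

theorem KK_xBr {a b c : ℝ} (ha : K14 a) (hb : K14 b) (hc : K14 c) : KK a b c * xBr a b c =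
    2 * (1 - 2 * cBr (SS a b c) (KK a b c) - 2 * cBr (SS a b c) (KK a b c) ^ 2 - SS a b c) := by
  have := (KK_pos ha hb hc).ne'
  unfold xBr xBc
  field_simp

/-- the other threshold is smaller -/
theorem xA_le_xBr {a b c : ℝ} (ha : K14 a) (hb : K14 b) (hc : K14 c) :
    (4 - c ^ 2 - a ^ 2 * b ^ 2) / (a * b * c) ≤ xBr a b c := by
  have hK := KK_pos ha hb hc
  have h1 := xA_aux ha hb hc (e := 4 - a ^ 2) (f := 4 - b ^ 2) (g := 4 - c ^ 2) (by ring) (by ring)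
    (by ring)
  have h2 := KK_xBr ha hb hc
  have e : a * b * c = KK a b c := rfl
  rw [e, div_le_iff₀ hK, mul_comm (xBr a b c) _, h2]
  unfold SS at h1 ⊢
  nlinarith

theorem SS_KK {a b c : ℝ} (ha : K14 a) (hb : K14 b) (hc : K14 c) :
    SS a b c - KK a b c < 5 / 4 := by
  have hK := KK_pos ha hb hc
  have e1 : KK a b c ^ 2 = (4 - (4 - a ^ 2)) * (4 - (4 - b ^ 2)) * (4 - (4 - c ^ 2)) := by
    unfold KK
    ring
  have e2 : SS a b c = 9 - ((4 - a ^ 2) + (4 - b ^ 2) + (4 - c ^ 2)) := by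
    unfold SS
    ring
  obtain ⟨-, a1, a2⟩ := ha
  obtain ⟨-, b1, b2⟩ := hb
  obtain ⟨-, c1, c2⟩ := hc
  set e := 4 - a ^ 2 with he
  set f := 4 - b ^ 2 with hf
  set g := 4 - c ^ 2 with hg
  have e0 : 0 ≤ e := by linarith
  have e5 : e ≤ 1 / 5 := by linarith
  have f0 : 0 ≤ f := by linarith
  have f5 : f ≤ 1 / 5 := by linarith
  have g0 : 0 ≤ g := by linarith
  have g5 : g ≤ 1 / 5 := by linarith
  have ef := mul_nonneg e0 f0
  have fg := mul_nonneg f0 g0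
  have ge := mul_nonneg g0 e0
  have h3 : e * f * g ≤ e * f * (1 / 5) := mul_le_mul_of_nonneg_left g5 ef
  by_contra hcon
  push Not at hcon
  have h4 : KK a b c ≤ 31 / 4 - (e + f + g) := by linarith
  have h5 : KK a b c ^ 2 ≤ (31 / 4 - (e + f + g)) ^ 2 := pow_le_pow_left₀ hK.le h4 2
  rw [e1] at h5
  nlinarith [mul_nonneg (sub_nonneg.2 e5) e0, mul_nonneg (sub_nonneg.2 f5) f0,
    mul_nonneg (sub_nonneg.2 g5) g0, mul_nonneg (sub_nonneg.2 e5) f0]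

theorem xBr_gt {a b c : ℝ} (ha : K14 a) (hb : K14 b) (hc : K14 c) : -2 < xBr a b c := by
  have hK := KK_pos ha hb hc
  have h2 := KK_xBr ha hb hc
  have h3 := SS_KK ha hb hc
  obtain ⟨g1, g2, -⟩ := cBr_spec ha hb hc
  have h4 := xA_aux ha hb hc (e := 4 - a ^ 2) (f := 4 - b ^ 2) (g := 4 - c ^ 2) (by ring) (by ring)
    (by ring)
  set y := cBr (SS a b c) (KK a b c) with hy
  have h5 : 5 / 4 ≤ 1 - 2 * y - 2 * y ^ 2 := by
    have : y ≤ -(1 / 4) := by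
      refine cBr_le ha hb hc (by norm_num) ?_
      rw [hB_PQR]
      obtain ⟨-, a1, a2⟩ := ha
      obtain ⟨-, b1, b2⟩ := hb
      obtain ⟨-, c1, c2⟩ := hc
      have p1 : 0 ≤ 4 - a ^ 2 := by linarith
      have p2 : 0 ≤ 4 - b ^ 2 := by linarith
      have p3 : 0 ≤ 4 - c ^ 2 := by linarith
      have q1 : 4 - a ^ 2 ≤ 1 / 5 := by linarith
      have q2 : 4 - b ^ 2 ≤ 1 / 5 := by linarith
      have q3 : 4 - c ^ 2 ≤ 1 / 5 := by linarith
      have e0 := mul_nonneg (mul_nonneg p1 p2) p3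
      nlinarith [mul_nonneg p1 (sub_nonneg.2 q2), mul_nonneg p2 (sub_nonneg.2 q3),
        mul_nonneg p3 (sub_nonneg.2 q1)]
    nlinarith
  by_contra hcon
  push Not at hcon
  have := mul_le_mul_of_nonneg_left hcon hK.le
  linarith

theorem xBr_le2 {a b c : ℝ} (ha : K14 a) (hb : K14 b) (hc : K14 c) : xBr a b c ≤ 2 := by
  have hK := KK_pos ha hb hc
  have hS := SS_ge ha hb hc
  have h2 := KK_xBr ha hb hc
  obtain ⟨g1, g2, -⟩ := cBr_spec ha hb hc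
  by_contra hcon
  push Not at hcon
  have := mul_lt_mul_of_pos_left hcon hK
  nlinarith

/-! ### three orders at least 14 -/

theorem K14_Kp {M : ℕ} (h : 14 ≤ M) : K14 (Kp M) := by
  obtain ⟨k1, k2⟩ := thr_Kp2 M (by omega)
  refine ⟨by linarith, ?_, by nlinarith⟩
  have h1 := Kp_mono (M := 14) (by norm_num) h
  have h2 : 1 - (Real.pi / 14) ^ 2 / 2 ≤ Real.cos (Real.pi / 14) :=
    Real.one_sub_sq_div_two_le_cos
  have h3 : Kp 14 = 2 * Real.cos (Real.pi / 14) := by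
    unfold Kp
    norm_num
  have h4 := Real.pi_lt_d4
  have h5 := Real.pi_pos
  have h6 : Real.pi ^ 2 ≤ 9.87 := by nlinarith
  have h7 : (1.9496 : ℝ) ≤ Kp 14 := by
    rw [h3]
    nlinarith
  nlinarith

/-- the threshold of type B of three orders -/
def xBp (p q r : ℕ) : ℝ := xBr (Kp p) (Kp q) (Kp r)

theorem fB_xBp {p q r : ℕ} (hp : 14 ≤ p) (hq : 14 ≤ q) (hr : 14 ≤ r) : fB p q r (xBp p q r) = 0 := by
  rw [fB_eq]
  exact fBx_root (KK_pos (K14_Kp hp) (K14_Kp hq) (K14_Kp hr)).ne'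
    (cBr_spec (K14_Kp hp) (K14_Kp hq) (K14_Kp hr)).2.2

theorem xBr_rot (a b c : ℝ) : xBr b c a = xBr a b c := by
  unfold xBr
  have e1 : SS b c a = SS a b c := by unfold SS; ring
  have e2 : KK b c a = KK a b c := by unfold KK; ring
  rw [e1, e2]

theorem xBr_swap (a b c : ℝ) : xBr b a c = xBr a b c := by
  unfold xBr
  have e1 : SS b a c = SS a b c := by unfold SS; ring
  have e2 : KK b a c = KK a b c := by unfold KK; ring
  rw [e1, e2]

theorem xBp_rot (p q r : ℕ) : xBp q r p = xBp p q r := xBr_rot _ _ _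
theorem xBp_swap (p q r : ℕ) : xBp q p r = xBp p q r := xBr_swap _ _ _

/-- THE CONDITIONS AT THE THRESHOLD -/
theorem thr_xBp {p q r : ℕ} (hp : 14 ≤ p) (hq : 14 ≤ q) (hr : 14 ≤ r) :
    Thr p q r (xBp p q r) := by
  have P := K14_Kp hp
  have Q := K14_Kp hq
  have R := K14_Kp hr
  refine ⟨xBr_gt P Q R, xBr_le2 P Q R, ?_, ?_, ?_, (fB_xBp hp hq hr).ge,
    Or.inr (Or.inr (Or.inr (fB_xBp hp hq hr)))⟩
  · rw [xA_eq]
    exact xA_le_xBr P Q R
  · rw [xA_eq, ← xBp_rot]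
    exact xA_le_xBr Q R P
  · rw [xA_eq, ← xBp_rot, ← xBp_rot]
    exact xA_le_xBr R P Q

/-- **class type B: zero freeness down to `x_B` is the certificate** -/
theorem cert_xBp {p q r : ℕ} (hp : 14 ≤ p) (hq : 14 ≤ q) (hr : 14 ≤ r)
    (hZ : ZF p q r (xBp p q r)) : CertAt p q r := by
  have P := K14_Kp hp
  have Q := K14_Kp hq
  have R := K14_Kp hr
  have hS := SS_ge P Q R
  obtain ⟨g1, g2, g3⟩ := cBr_spec P Q R
  have h2 := xBr_le2 P Q R
  refine ⟨xBp p q r, xBr_gt P Q R, fun x1 hx1 => ?_, hZ⟩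
  obtain ⟨x, k1, k2, k3⟩ := fBx_neg (KK_pos P Q R) g3 (by linarith) (by linarith) hx1
  exact ⟨x, k1, k2.le, k2.le.trans h2, Or.inr (by rw [fB_eq]; exact k3)⟩

end Pool.Agent.Helper21.XB
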