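import Pool.Agent.Helper21.CT.XB
import Pool.Agent.Helper21.CT.KXB
import Pool.Agent.Helper21.CT.KTN

/-!
The model of the threshold `x_B` in the kernel arithmetic of the classes with tails.
-/

set_option autoImplicit false
set_option exponentiation.threshold 4000
noncomputable section
namespace Pool.Agent.Helper21.XB

open Pool.Agent.Helper90.C75 (Vt avg wtT Mod norm_avg_le)
open Pool.Agent.Helper90.KMT
open Pool.Agent.Helper90.KMO (UU UU_pos zv cz andB_t)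
open Pool.Agent.Helper86.CX (Cx andB)
open Pool.Agent.Helper86.CT (Alg Mo invM invOK mulM addM subM cst)
open Pool.Agent.Helper21.KTE (RTL)
open Complex

variable {α : Type} {D : ℕ} {lf : α → Vt D → ℂ} {A : Alg α} {t : ℕ → ℝ}

theorem TOK_nat (hA : AOK D lf A) (ht : PT D t) (n : ℕ) {x : ℂ} (hx : x = n) :
    TOK D lf t x (cN A n) := by
  refine TOK.cst' hA ht ?_
  rw [hx]
  show (UU : ℂ) * n = ((n * 281474976710656 : ℕ) : ℂ)
  unfold UU
  push_cast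
  ring

theorem TOK_4 (hA : AOK D lf A) {x : ℂ} {S : Mo α} (h : TOK D lf t x S) :
    TOK D lf t (4 * x) (xb4 A S) :=
  ((h.add hA h).add hA (h.add hA h)).congr (by ring)

/-- the model of the cubic equation -/
theorem TOK_h (hA : AOK D lf A) (ht : PT D t) {a b c x : ℝ} {k0 k1 k2 C : Mo α}
    (ha : TOK D lf t (a : ℂ) k0) (hb : TOK D lf t (b : ℂ) k1) (hc : TOK D lf t (c : ℂ) k2)
    (hx : TOK D lf t (x : ℂ) C) :
    TOK D lf t ((hB (SS a b c) (KK a b c) x : ℝ) : ℂ) (xbH A k0 k1 k2 C) := by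
  have hQ := ((ha.mul hA ht ha).add hA (hb.mul hA ht hb)).add hA (hc.mul hA ht hc)
  have hK := (ha.mul hA ht hb).mul hA ht hc
  have hu := (hQ.sub hA (TOK_nat hA ht (nat_lit 4) rfl)).sub hA hK
  have hS := TOK_4 hA (hQ.sub hA (TOK_nat hA ht (nat_lit 3) rfl))
  have h1 := (hx.mul hA ht (((hx.mul hA ht (((TOK_nat hA ht (nat_lit 16) rfl).mul hA ht hx).add hA
    hS)).add hA (hS.sub hA (TOK_nat hA ht (nat_lit 12) rfl))))).add hA
      (TOK_nat hA ht (nat_lit 4) rfl)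
  refine (h1.add hA (hu.mul hA ht ((hK.add hA hK).add hA hu))).congr ?_
  unfold hB SS KK
  push_cast
  ring

/-- **THE MODEL OF `c`** -/
theorem TOK_c (hA : AOK D lf A) (ht : PT D t) {a b c : ℝ} {k0 k1 k2 : Mo α} {C : α} {r : ℕ}
    (hS : 42 / 5 ≤ SS a b c) (ha : TOK D lf t (a : ℂ) k0) (hb : TOK D lf t (b : ℂ) k1)
    (hc : TOK D lf t (c : ℂ) k2) (hr : ∀ v, (lf C v).im = 0)
    (hok : xBOK A k0 k1 k2 C r = true) :
    TOK D lf t ((cBr (SS a b c) (KK a b c) : ℝ) : ℂ) (Pool.Agent.Helper86.CT.mk A C r) := by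
  obtain ⟨o1, o2⟩ := andB_t hok
  obtain ⟨o2, -⟩ := andB_t o2
  have hU := UU_pos
  have hU48 : (UU : ℝ) = 281474976710656 := by unfold UU; norm_num
  set m := avg (wtT D t) (lf C) with hm
  have him : m.im = 0 := by
    rw [hm, (Pool.Agent.Helper17.KPT.avg_re (wtT D t) (lf C)).2]
    exact Finset.sum_eq_zero fun v _ => by rw [hr v, mul_zero]
  set x : ℝ := m.re / UU with hx
  have hxm : (UU : ℂ) * (x : ℂ) = m := by
    apply Complex.ext
    · rw [Complex.re_ofReal_mul, Complex.ofReal_re, hx]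
      field_simp
    · rw [Complex.im_ofReal_mul, Complex.ofReal_im, him, mul_zero]
  have hT : TOK D lf t (x : ℂ) (Pool.Agent.Helper86.CT.mk A C (nat_lit 0)) := by
    refine ⟨vt_mk hA _ _, ?_⟩
    show ‖(UU : ℂ) * x - avg (wtT D t) (lf C)‖ ≤ ((nat_lit 0 : ℕ) : ℝ)
    rw [hxm, sub_self, norm_zero]
    simp
  have hh := TOK_h hA ht ha hb hc hT
  have h1 : UU * |hB (SS a b c) (KK a b c) x| ≤ 5 * r := by
    have g1 : ‖(UU : ℂ) * ((hB (SS a b c) (KK a b c) x : ℝ) : ℂ)‖ ≤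
        (xbH A k0 k1 k2 (Pool.Agent.Helper86.CT.mk A C (nat_lit 0))).B +
        (xbH A k0 k1 k2 (Pool.Agent.Helper86.CT.mk A C (nat_lit 0))).r := by
      have g2 := hh.mod
      have g3 := norm_avg_le ht.w hh.val.bd
      unfold Pool.Agent.Helper90.C75.Mod at g2
      calc ‖(UU : ℂ) * ((hB (SS a b c) (KK a b c) x : ℝ) : ℂ)‖ ≤ _ := norm_le_norm_add_norm_sub' _ _
        _ ≤ _ := add_le_add g3 g2
    have g4 : (xbH A k0 k1 k2 (Pool.Agent.Helper86.CT.mk A C (nat_lit 0))).B +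
        (xbH A k0 k1 k2 (Pool.Agent.Helper86.CT.mk A C (nat_lit 0))).r ≤ 5 * r :=
      Nat.le_of_ble_eq_true o1
    have g5 : (((xbH A k0 k1 k2 (Pool.Agent.Helper86.CT.mk A C (nat_lit 0))).B : ℕ) : ℝ) +
        ((xbH A k0 k1 k2 (Pool.Agent.Helper86.CT.mk A C (nat_lit 0))).r : ℕ) ≤ 5 * (r : ℝ) := by
      exact_mod_cast g4
    have g6 : ‖(UU : ℂ) * ((hB (SS a b c) (KK a b c) x : ℝ) : ℂ)‖ =
        UU * |hB (SS a b c) (KK a b c) x| := by
      rw [norm_mul, Complex.norm_real, Complex.norm_real, Real.norm_eq_abs, Real.norm_eq_abs,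
        abs_of_pos hU]
    rw [g6] at g1
    exact g1.trans g5
  have h2 : |hB (SS a b c) (KK a b c) x| ≤ 5 * (r / UU) := by
    rw [← mul_div_assoc, le_div_iff₀ hU]
    linarith
  have h3 : -(31 / 100) ≤ x - r / UU := by
    have g1 : ‖m‖ ≤ A.nb C := norm_avg_le ht.w fun v => hA.mag C v
    have g2 : A.nb C + r ≤ 87257242750976 := Nat.le_of_ble_eq_true o2
    have g3 : ((A.nb C : ℕ) : ℝ) + r ≤ 87257242750976 := by exact_mod_cast g2
    have g4 : -(‖m‖) ≤ m.re := (abs_le.1 (Complex.abs_re_le_norm m)).1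
    rw [hx, ← sub_div, le_div_iff₀ hU, hU48]
    linarith
  obtain ⟨h4, -⟩ := cBr_approx hS (by positivity) h3 h2
  refine ⟨vt_mk hA _ _, ?_⟩
  show ‖(UU : ℂ) * ((cBr (SS a b c) (KK a b c) : ℝ) : ℂ) - avg (wtT D t) (lf C)‖ ≤ (r : ℝ)
  rw [← hm, ← hxm, ← mul_sub, ← Complex.ofReal_sub, norm_mul, Complex.norm_real, Complex.norm_real,
    Real.norm_eq_abs, Real.norm_eq_abs, abs_of_pos hU]
  calc UU * |cBr (SS a b c) (KK a b c) - x| ≤ UU * (r / UU) :=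
        mul_le_mul_of_nonneg_left h4 hU.le
    _ = r := by field_simp

/-- **THE MODEL OF `x_B`** -/
theorem TOK_xB (hA : AOK D lf A) (ht : PT D t) {a b c : ℝ} {k0 k1 k2 : Mo α} {C : α} {r : ℕ}
    (hS : 42 / 5 ≤ SS a b c) (ha : TOK D lf t (a : ℂ) k0) (hb : TOK D lf t (b : ℂ) k1)
    (hc : TOK D lf t (c : ℂ) k2) (hr : ∀ v, (lf C v).im = 0)
    (hok : xBOK A k0 k1 k2 C r = true) :
    TOK D lf t ((xBr a b c : ℝ) : ℂ) (xBM A k0 k1 k2 C r) := by
  obtain ⟨-, o2⟩ := andB_t hok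
  obtain ⟨-, o3⟩ := andB_t o2
  have hC := TOK_c hA ht hS ha hb hc hr hok
  have hQ := ((ha.mul hA ht ha).add hA (hb.mul hA ht hb)).add hA (hc.mul hA ht hc)
  have hK := (ha.mul hA ht hb).mul hA ht hc
  have hcc := hC.mul hA ht (hC.add hA (TOK_nat hA ht (nat_lit 1) rfl))
  have hn := ((TOK_nat hA ht (nat_lit 4) rfl).sub hA (hcc.add hA hcc)).sub hA hQ
  refine ((hn.add hA hn).mul hA ht (TOK.inv hA ht hK o3).1).congr ?_
  unfold xBr xBc SS KK
  push_cast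
  rw [div_eq_mul_inv]
  ring

/-- the field `x0` of `CLD` for the line `Re x = x_B(κ)` -/
theorem x0_xB {D : ℕ} {lf : α → Vt (D + 1) → ℂ} {A : Alg α} (hA : AOK (D + 1) lf A)
    {rt : α → Bool} (hrt : RTL (D + 1) lf rt) {κ : Fin 3 → ℝ} (h0 : K14 (κ 0)) (h1 : K14 (κ 1))
    (h2 : K14 (κ 2)) {k0 k1 k2 : Mo α} {C : α} {r : ℕ} (hC : rt C = true)
    (hok : xBOK A k0 k1 k2 C r = true) : ∀ t, PT (D + 1) t → TOK (D + 1) lf t (κ 0 : ℂ) k0 →
      TOK (D + 1) lf t (κ 1 : ℂ) k1 → TOK (D + 1) lf t (κ 2 : ℂ) k2 →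
      TOK (D + 1) lf t ((xBr (κ 0) (κ 1) (κ 2) : ℝ) : ℂ) (xBM A k0 k1 k2 C r) :=
  fun _ ht a0 a1 a2 => TOK_xB hA ht (SS_ge h0 h1 h2) a0 a1 a2 (hrt C hC) hok

end Pool.Agent.Helper21.XB
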