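import Pool.Agent.Helper21.CT.XBM

/-!
The threshold `x_B` with the exact sign test: the test of the old model with the weaker bound `.32`
of `|c|` (wide boxes, packed machine).
-/

set_option autoImplicit false
set_option exponentiation.threshold 4000
noncomputable section
namespace Pool.Agent.Helper21.XB

open Pool.Agent.Helper90.C75 (Vt avg wtT Mod norm_avg_le)
open Pool.Agent.Helper90.KMT
open Pool.Agent.Helper90.KMO (UU UU_pos zv cz andB_t)
open Pool.Agent.Helper86.CX (Cx andB)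
open Pool.Agent.Helper86.CT (Alg Mo invM invOK mulM addM subM cst mk)
open Pool.Agent.Helper21.KTE (RTL)
open Complex

/-- THE TEST: `C` with the radius `r` -/
def xBOQ {α : Type} (A : Alg α) (k0 k1 k2 : Mo α) (C : α) (r : Nat) : Bool :=
  andB (xbT (xbH A k0 k1 k2 (mk A C (nat_lit 0))) r)
    (andB (Nat.ble (Nat.add (A.nb C) r) (nat_lit 90071992547409)) (invOK A (xbK A k0 k1 k2)))

/-- the slope in the range of the classes of type B: all orders at least 14 -/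
theorem hB_slopeQ {S K c d : ℝ} (hS : 42 / 5 ≤ S) (hc : -(32 / 100) ≤ c) (hcd : c ≤ d) :
    5 * (d - c) ≤ hB S K d - hB S K c := by
  rw [hB_sub]
  have h1 : 0 ≤ d - c := by linarith
  have h2 : (5 : ℝ) ≤ (1 + c + d) * (12 * (c + d - 1) + 4 * S) := by nlinarith
  have h3 : 0 ≤ 4 * (d - c) ^ 2 := by positivity
  nlinarith

/-- **a root close to an approximate root** -/
theorem hB_existsQ {S K a r : ℝ} (hS : 42 / 5 ≤ S) (hr : 0 ≤ r) (ha : -(32 / 100) ≤ a - r)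
    (h : |hB S K a| ≤ 5 * r) : ∃ c, |c - a| ≤ r ∧ hB S K c = 0 := by
  obtain ⟨h1, h2⟩ := abs_le.1 h
  have h3 := hB_slopeQ (K := K) hS ha (by linarith : a - r ≤ a)
  have h4 := hB_slopeQ (K := K) hS (by linarith : -(32 / 100) ≤ a) (by linarith : a ≤ a + r)
  have hcont : ContinuousOn (hB S K) (Set.Icc (a - r) (a + r)) := by
    unfold hB
    fun_prop
  have h5 : (0 : ℝ) ∈ Set.Icc (hB S K (a - r)) (hB S K (a + r)) :=
    ⟨by linarith, by linarith⟩
  obtain ⟨c, hc, h6⟩ := intermediate_value_Icc (by linarith) hcont h5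
  refine ⟨c, ?_, h6⟩
  rw [abs_le]
  constructor <;> linarith [hc.1, hc.2]

/-- **the approximation of `c`** -/
theorem cBr_approxQ {S K a r : ℝ} (hS : 42 / 5 ≤ S) (hr : 0 ≤ r) (ha : -(32 / 100) ≤ a - r)
    (h : |hB S K a| ≤ 5 * r) : |cBr S K - a| ≤ r ∧ hB S K (cBr S K) = 0 := by
  obtain ⟨c, h1, h2⟩ := hB_existsQ hS hr ha h
  have h3 := (abs_le.1 h1).1
  rw [cBr_eq (by linarith) (by linarith) h2]
  exact ⟨h1, h2⟩

variable {α : Type} {D : ℕ} {lf : α → Vt D → ℂ} {A : Alg α} {t : ℕ → ℝ}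

/-- **THE MODEL OF `c`** -/
theorem TOK_cQ (hA : AOK D lf A) (ht : PT D t) {a b c : ℝ} {k0 k1 k2 : Mo α} {C : α} {r : ℕ}
    (hS : 42 / 5 ≤ SS a b c) (ha : TOK D lf t (a : ℂ) k0) (hb : TOK D lf t (b : ℂ) k1)
    (hc : TOK D lf t (c : ℂ) k2) (hr : ∀ v, (lf C v).im = 0)
    (hok : xBOQ A k0 k1 k2 C r = true) :
    TOK D lf t ((cBr (SS a b c) (KK a b c) : ℝ) : ℂ) (Pool.Agent.Helper86.CT.mk A C r) := by
  obtain ⟨o1, o2⟩ := andB_t hok
  obtain ⟨o2, -⟩ := andB_t o2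
  have hU := UU_pos
  have hU48 : (UU : ℝ) = 281474976710656 := by unfold UU; norm_num
  set m := avg (wtT D t) (lf C) with hm
  have him : m.im = 0 := by
    rw [hm, (Pool.Agent.Helper17.KPT.avg_re (wtT D t) (lf C)).2]
    exact Finset.sum_eq_zero fun v _ => by rw [hr v, mul_zero]
  set x : ℝ := m.re / UU with hx
  have hxm : (UU : ℂ) * (x : ℂ) = m := by
    apply Complex.ext
    · rw [Complex.re_ofReal_mul, Complex.ofReal_re, hx]
      field_simp
    · rw [Complex.im_ofReal_mul, Complex.ofReal_im, him, mul_zero]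
  have hT : TOK D lf t (x : ℂ) (Pool.Agent.Helper86.CT.mk A C (nat_lit 0)) := by
    refine ⟨vt_mk hA _ _, ?_⟩
    show ‖(UU : ℂ) * x - avg (wtT D t) (lf C)‖ ≤ ((nat_lit 0 : ℕ) : ℝ)
    rw [hxm, sub_self, norm_zero]
    simp
  have hh := TOK_h hA ht ha hb hc hT
  have h1 : UU * |hB (SS a b c) (KK a b c) x| ≤ 5 * r := by
    have g1 : ‖(UU : ℂ) * ((hB (SS a b c) (KK a b c) x : ℝ) : ℂ)‖ ≤
        (xbH A k0 k1 k2 (Pool.Agent.Helper86.CT.mk A C (nat_lit 0))).B +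
        (xbH A k0 k1 k2 (Pool.Agent.Helper86.CT.mk A C (nat_lit 0))).r := by
      have g2 := hh.mod
      have g3 := norm_avg_le ht.w hh.val.bd
      unfold Pool.Agent.Helper90.C75.Mod at g2
      calc ‖(UU : ℂ) * ((hB (SS a b c) (KK a b c) x : ℝ) : ℂ)‖ ≤ _ := norm_le_norm_add_norm_sub' _ _
        _ ≤ _ := add_le_add g3 g2
    have g4 : (xbH A k0 k1 k2 (Pool.Agent.Helper86.CT.mk A C (nat_lit 0))).B +
        (xbH A k0 k1 k2 (Pool.Agent.Helper86.CT.mk A C (nat_lit 0))).r ≤ 5 * r :=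
      Nat.le_of_ble_eq_true o1
    have g5 : (((xbH A k0 k1 k2 (Pool.Agent.Helper86.CT.mk A C (nat_lit 0))).B : ℕ) : ℝ) +
        ((xbH A k0 k1 k2 (Pool.Agent.Helper86.CT.mk A C (nat_lit 0))).r : ℕ) ≤ 5 * (r : ℝ) := by
      exact_mod_cast g4
    have g6 : ‖(UU : ℂ) * ((hB (SS a b c) (KK a b c) x : ℝ) : ℂ)‖ =
        UU * |hB (SS a b c) (KK a b c) x| := by
      rw [norm_mul, Complex.norm_real, Complex.norm_real, Real.norm_eq_abs, Real.norm_eq_abs,
        abs_of_pos hU]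
    rw [g6] at g1
    exact g1.trans g5
  have h2 : |hB (SS a b c) (KK a b c) x| ≤ 5 * (r / UU) := by
    rw [← mul_div_assoc, le_div_iff₀ hU]
    linarith
  have h3 : -(32 / 100) ≤ x - r / UU := by
    have g1 : ‖m‖ ≤ A.nb C := norm_avg_le ht.w fun v => hA.mag C v
    have g2 : A.nb C + r ≤ 90071992547409 := Nat.le_of_ble_eq_true o2
    have g3 : ((A.nb C : ℕ) : ℝ) + r ≤ 90071992547409 := by exact_mod_cast g2
    have g4 : -(‖m‖) ≤ m.re := (abs_le.1 (Complex.abs_re_le_norm m)).1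
    rw [hx, ← sub_div, le_div_iff₀ hU, hU48]
    linarith
  obtain ⟨h4, -⟩ := cBr_approxQ hS (by positivity) h3 h2
  refine ⟨vt_mk hA _ _, ?_⟩
  show ‖(UU : ℂ) * ((cBr (SS a b c) (KK a b c) : ℝ) : ℂ) - avg (wtT D t) (lf C)‖ ≤ (r : ℝ)
  rw [← hm, ← hxm, ← mul_sub, ← Complex.ofReal_sub, norm_mul, Complex.norm_real, Complex.norm_real,
    Real.norm_eq_abs, Real.norm_eq_abs, abs_of_pos hU]
  calc UU * |cBr (SS a b c) (KK a b c) - x| ≤ UU * (r / UU) :=
        mul_le_mul_of_nonneg_left h4 hU.le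
    _ = r := by field_simp

/-- **THE MODEL OF `x_B`** -/
theorem TOK_xBQ (hA : AOK D lf A) (ht : PT D t) {a b c : ℝ} {k0 k1 k2 : Mo α} {C : α} {r : ℕ}
    (hS : 42 / 5 ≤ SS a b c) (ha : TOK D lf t (a : ℂ) k0) (hb : TOK D lf t (b : ℂ) k1)
    (hc : TOK D lf t (c : ℂ) k2) (hr : ∀ v, (lf C v).im = 0)
    (hok : xBOQ A k0 k1 k2 C r = true) :
    TOK D lf t ((xBr a b c : ℝ) : ℂ) (xBM A k0 k1 k2 C r) := by
  obtain ⟨-, o2⟩ := andB_t hok
  obtain ⟨-, o3⟩ := andB_t o2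
  have hC := TOK_cQ hA ht hS ha hb hc hr hok
  have hQ := ((ha.mul hA ht ha).add hA (hb.mul hA ht hb)).add hA (hc.mul hA ht hc)
  have hK := (ha.mul hA ht hb).mul hA ht hc
  have hcc := hC.mul hA ht (hC.add hA (TOK_nat hA ht (nat_lit 1) rfl))
  have hn := ((TOK_nat hA ht (nat_lit 4) rfl).sub hA (hcc.add hA hcc)).sub hA hQ
  refine ((hn.add hA hn).mul hA ht (TOK.inv hA ht hK o3).1).congr ?_
  unfold xBr xBc SS KK
  push_cast
  rw [div_eq_mul_inv]
  ring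

end Pool.Agent.Helper21.XB
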