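import Pool.Agent.Helper21.CT.XBM
import Pool.Agent.Helper12.CX.XTB

/-!
The threshold `x_B` with the exact sign test: real part (sign of the discriminant near the root,
closed boxes, change of the parameter).
-/

set_option autoImplicit false
set_option exponentiation.threshold 4000
noncomputable section
namespace Pool.Agent.Helper21.XB

open Pool.Agent.Helper6.MONO (fBx)
open Pool.Agent.Helper6.MONO.XTH (Bq Qf chkB chkB_sound)

/-! ### sign near the root -/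

theorem br_pos {a b c e : ℝ} (ha : K14 a) (hb : K14 b) (hc : K14 c) (he : |e| ≤ 21 / 2000) :
    0 < 4 * KK a b c * (2 * cBr (SS a b c) (KK a b c) + 1) ^ 3 *
      (SS a b c + 6 * cBr (SS a b c) (KK a b c) - 3) + e * (KK a b c ^ 2 *
      (24 * (1 - 2 * cBr (SS a b c) (KK a b c) - 2 * cBr (SS a b c) (KK a b c) ^ 2) -
        12 * SS a b c + SS a b c ^ 2) + 4 * KK a b c ^ 3 * e) := by
  obtain ⟨g1, g2, -⟩ := cBr_spec ha hb hc
  have hS := SS_ge ha hb hc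
  have hK := KK_pos ha hb hc
  set y := cBr (SS a b c) (KK a b c) with hy
  have hS9 : SS a b c ≤ 9 := by
    unfold SS
    linarith [ha.2.2, hb.2.2, hc.2.2]
  have hK2 : KK a b c ^ 2 ≤ 64 := by
    have e1 : KK a b c ^ 2 = a ^ 2 * b ^ 2 * c ^ 2 := by
      unfold KK
      ring
    have h1 : a ^ 2 * b ^ 2 ≤ 4 * 4 := mul_le_mul ha.2.2 hb.2.2 (sq_nonneg b) (by norm_num)
    have h2 : a ^ 2 * b ^ 2 * c ^ 2 ≤ 4 * 4 * 4 :=
      mul_le_mul h1 hc.2.2 (sq_nonneg c) (by norm_num)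
    rw [e1]
    linarith
  have hKl : (74 / 10 : ℝ) ≤ KK a b c := by
    have e1 : KK a b c ^ 2 = a ^ 2 * b ^ 2 * c ^ 2 := by
      unfold KK
      ring
    have h1 : (38 / 10 : ℝ) * (38 / 10) ≤ a ^ 2 * b ^ 2 :=
      mul_le_mul ha.2.1 hb.2.1 (by norm_num) (sq_nonneg a)
    have h2 : (38 / 10 : ℝ) * (38 / 10) * (38 / 10) ≤ a ^ 2 * b ^ 2 * c ^ 2 :=
      mul_le_mul h1 hc.2.1 (by norm_num) (by positivity)
    by_contra hcon
    push Not at hcon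
    have h3 : KK a b c ^ 2 < (74 / 10 : ℝ) ^ 2 := by gcongr
    rw [e1] at h3
    linarith
  generalize SS a b c = S at *
  generalize KK a b c = K at *
  have h3 : (38 / 100 : ℝ) ^ 3 ≤ (2 * y + 1) ^ 3 := by
    have : (38 / 100 : ℝ) ≤ 2 * y + 1 := by linarith
    gcongr
  have h4 : (354 / 100 : ℝ) ≤ S + 6 * y - 3 := by linarith
  have h5 : (5.7 : ℝ) ≤ 4 * K * (2 * y + 1) ^ 3 * (S + 6 * y - 3) := by
    have k1 : (4 : ℝ) * (74 / 10) * (38 / 100) ^ 3 ≤ 4 * K * (2 * y + 1) ^ 3 :=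
      mul_le_mul (by linarith) h3 (by norm_num) (by linarith)
    have k2 : (4 : ℝ) * (74 / 10) * (38 / 100) ^ 3 * (354 / 100) ≤
        4 * K * (2 * y + 1) ^ 3 * (S + 6 * y - 3) := mul_le_mul k1 h4 (by norm_num)
          (le_trans (by norm_num) k1)
    refine le_trans ?_ k2
    norm_num
  have q1 : 0 ≤ (y + 31 / 100) * (y + 69 / 100) := mul_nonneg (by linarith) (by linarith)
  have q2 : 0 ≤ (S - 42 / 5) * (9 - S) := mul_nonneg (by linarith) (by linarith)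
  have q3 : 0 ≤ (S - 42 / 5) * (S - 18 / 5) := mul_nonneg (by linarith) (by linarith)
  have q4 : 0 ≤ -y * (1 + y) := mul_nonneg (by linarith) (by linarith)
  have g : |24 * (1 - 2 * y - 2 * y ^ 2) - 12 * S + S ^ 2| ≤ 73 / 10 := by
    rw [abs_le]
    constructor <;> nlinarith
  have h6 : |e * (K ^ 2 * (24 * (1 - 2 * y - 2 * y ^ 2) - 12 * S + S ^ 2))| ≤
      21 / 2000 * (64 * (73 / 10)) := by
    rw [abs_mul, abs_mul, abs_of_nonneg (sq_nonneg K)]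
    exact mul_le_mul he (mul_le_mul hK2 g (abs_nonneg _) (by norm_num)) (by positivity)
      (by norm_num)
  have h7 := (abs_le.1 h6).1
  have h8 : 0 ≤ 4 * K ^ 3 * e ^ 2 := by positivity
  have e9 : 4 * K * (2 * y + 1) ^ 3 * (S + 6 * y - 3) +
      e * (K ^ 2 * (24 * (1 - 2 * y - 2 * y ^ 2) - 12 * S + S ^ 2) + 4 * K ^ 3 * e) =
      4 * K * (2 * y + 1) ^ 3 * (S + 6 * y - 3) +
      e * (K ^ 2 * (24 * (1 - 2 * y - 2 * y ^ 2) - 12 * S + S ^ 2)) + 4 * K ^ 3 * e ^ 2 := by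
    ring
  rw [e9]
  linarith

theorem sg_pos {a b c e : ℝ} (ha : K14 a) (hb : K14 b) (hc : K14 c) (he : |e| ≤ 21 / 2000)
    (h : 0 ≤ fBx (SS a b c) (KK a b c) (xBr a b c + e)) : 0 ≤ e := by
  unfold xBr at h
  rw [fBx_add (KK_pos ha hb hc).ne' (cBr_spec ha hb hc).2.2] at h
  by_contra hcon
  push Not at hcon
  have := mul_neg_of_neg_of_pos hcon (br_pos ha hb hc he)
  linarith

theorem sg_neg {a b c e : ℝ} (ha : K14 a) (hb : K14 b) (hc : K14 c) (he : |e| ≤ 21 / 2000)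
    (h : fBx (SS a b c) (KK a b c) (xBr a b c + e) ≤ 0) : e ≤ 0 := by
  unfold xBr at h
  rw [fBx_add (KK_pos ha hb hc).ne' (cBr_spec ha hb hc).2.2] at h
  by_contra hcon
  push Not at hcon
  have := mul_pos hcon (br_pos ha hb hc he)
  linarith

/-! ### closed boxes -/

theorem Bq_cont {f : ℝ → ℝ} (hf : Continuous f) (a : Fin 3) : Continuous fun s => Bq (f s) a := by
  fin_cases a
  · exact (continuous_const.sub hf).pow 2
  · exact (continuous_const.mul hf).mul (continuous_const.sub hf)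
  · exact hf.pow 2

theorem Qf_cont (X : Fin 3 → Fin 3 → Fin 3 → ℤ) {f g h : ℝ → ℝ} (hf : Continuous f)
    (hg : Continuous g) (hh : Continuous h) : Continuous fun s => Qf X (f s) (g s) (h s) := by
  unfold Qf
  exact continuous_finsetSum _ fun a _ => continuous_finsetSum _ fun b _ =>
    continuous_finsetSum _ fun c _ =>
      (((Bq_cont hf a).mul (Bq_cont hg b)).mul (Bq_cont hh c)).mul continuous_const

theorem fBx_cont {f g h : ℝ → ℝ} (hf : Continuous f) (hg : Continuous g) (hh : Continuous h) :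
    Continuous fun s => fBx (f s) (g s) (h s) := by
  unfold fBx
  fun_prop

theorem one_cl {F : ℝ → ℝ} (hF : Continuous F) (h : ∀ s, 0 ≤ s → s < 1 → 0 ≤ F s) : 0 ≤ F 1 := by
  have h1 : IsClosed {s | 0 ≤ F s} := isClosed_le continuous_const hF
  have h2 : Set.Ico (0 : ℝ) 1 ⊆ {s | 0 ≤ F s} := fun s hs => h s hs.1 hs.2
  have h3 := closure_minimal h2 h1
  rw [closure_Ico (by norm_num)] at h3
  exact h3 ⟨zero_le_one, le_rfl⟩

theorem two_cl {C0 C1 C2 Q : ℝ → ℝ} (h0 : Continuous C0) (h1 : Continuous C1)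
    (h2 : Continuous C2) (hQ : Continuous Q) (e : ℝ)
    (h : ∀ s, 0 ≤ s → s < 1 → 0 ≤ fBx (C0 s ^ 2 + C1 s ^ 2 + C2 s ^ 2 - 3) (C0 s * C1 s * C2 s)
        (Q s + e) ∧ fBx (C0 s ^ 2 + C1 s ^ 2 + C2 s ^ 2 - 3) (C0 s * C1 s * C2 s)
        (Q s - e) < 0) :
    0 ≤ fBx (C0 1 ^ 2 + C1 1 ^ 2 + C2 1 ^ 2 - 3) (C0 1 * C1 1 * C2 1) (Q 1 + e) ∧
      fBx (C0 1 ^ 2 + C1 1 ^ 2 + C2 1 ^ 2 - 3) (C0 1 * C1 1 * C2 1) (Q 1 - e) ≤ 0 := by
  have cS : Continuous fun s => C0 s ^ 2 + C1 s ^ 2 + C2 s ^ 2 - 3 :=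
    (((h0.pow 2).add (h1.pow 2)).add (h2.pow 2)).sub continuous_const
  have cK : Continuous fun s => C0 s * C1 s * C2 s := (h0.mul h1).mul h2
  constructor
  · exact one_cl (fBx_cont cS cK (hQ.add continuous_const)) fun s g1 g2 => (h s g1 g2).1
  · have := one_cl (fBx_cont cS cK (hQ.sub continuous_const)).neg fun s g1 g2 =>
      (neg_nonneg.2 (h s g1 g2).2.le)
    exact neg_nonneg.1 this

theorem chkB_cl {l h : Fin 3 → ℤ} {X : Fin 3 → Fin 3 → Fin 3 → ℤ} {r : ℤ}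
    (hc : chkB l h X r = true) {t u v c0 c1 c2 : ℝ} (ht : 0 ≤ t ∧ t ≤ 1) (hu : 0 ≤ u ∧ u ≤ 1)
    (hv : 0 ≤ v ∧ v ≤ 1) (h0 : c0 = ((1 - t) * l 0 + t * h 0) / 2 ^ 48)
    (h1 : c1 = ((1 - u) * l 1 + u * h 1) / 2 ^ 48)
    (h2 : c2 = ((1 - v) * l 2 + v * h 2) / 2 ^ 48) :
    0 ≤ fBx (SS c0 c1 c2) (KK c0 c1 c2) (Qf X t u v / 2 ^ 48 + r / 2 ^ 48) ∧
      fBx (SS c0 c1 c2) (KK c0 c1 c2) (Qf X t u v / 2 ^ 48 - r / 2 ^ 48) ≤ 0 := by
  have hi : ∀ w : ℝ, (0 ≤ w ∧ w ≤ 1) → ∀ s : ℝ, 0 ≤ s → s < 1 → 0 ≤ s * w ∧ s * w < 1 := by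
    intro w hw s h1 h2
    refine ⟨mul_nonneg h1 hw.1, ?_⟩
    have : s * w ≤ s * 1 := mul_le_mul_of_nonneg_left hw.2 h1
    linarith
  have ca : ∀ w m n : ℝ, Continuous fun s : ℝ => ((1 - s * w) * m + s * w * n) / 2 ^ 48 := by
    intro w m n
    exact (((continuous_const.sub (continuous_id.mul continuous_const)).mul
      continuous_const).add ((continuous_id.mul continuous_const).mul
      continuous_const)).div_const _
  have cw : ∀ w : ℝ, Continuous fun s : ℝ => s * w := fun w => continuous_id.mul continuous_const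
  have cQ : Continuous fun s => Qf X (s * t) (s * u) (s * v) / 2 ^ 48 :=
    (Qf_cont X (cw t) (cw u) (cw v)).div_const _
  have k := two_cl (C0 := fun s => ((1 - s * t) * l 0 + s * t * h 0) / 2 ^ 48)
    (C1 := fun s => ((1 - s * u) * l 1 + s * u * h 1) / 2 ^ 48)
    (C2 := fun s => ((1 - s * v) * l 2 + s * v * h 2) / 2 ^ 48)
    (ca t _ _) (ca u _ _) (ca v _ _) cQ (r / 2 ^ 48) (fun s g1 g2 =>
      chkB_sound hc (hi t ht s g1 g2) (hi u hu s g1 g2) (hi v hv s g1 g2) rfl rfl rfl)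
  simp only [one_mul] at k
  rw [← h0, ← h1, ← h2] at k
  exact k

/-! ### change of the parameter -/

theorem Bq_sum (t : ℝ) (f : Fin 3 → ℝ) : ∑ a, Bq t a * f a =
    (1 - t) ^ 2 * f 0 + 2 * t * (1 - t) * f 1 + t ^ 2 * f 2 := by
  rw [Fin.sum_univ_three]
  rfl

theorem Bq_abs {t M : ℝ} (h0 : 0 ≤ t) (h1 : t ≤ 1) {f : Fin 3 → ℝ} (hf : ∀ a, |f a| ≤ M) :
    |∑ a, Bq t a * f a| ≤ M := by
  rw [Bq_sum]
  have a0 := abs_le.1 (hf 0)
  have a1 := abs_le.1 (hf 1)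
  have a2 := abs_le.1 (hf 2)
  have w1 : 0 ≤ 2 * t * (1 - t) := mul_nonneg (by linarith) (by linarith)
  have e : (1 - t) ^ 2 * M + 2 * t * (1 - t) * M + t ^ 2 * M = M := by ring
  have e' : (1 - t) ^ 2 * -M + 2 * t * (1 - t) * -M + t ^ 2 * -M = -M := by ring
  rw [abs_le]
  constructor
  · have k0 := mul_le_mul_of_nonneg_left a0.1 (sq_nonneg (1 - t))
    have k1 := mul_le_mul_of_nonneg_left a1.1 w1
    have k2 := mul_le_mul_of_nonneg_left a2.1 (sq_nonneg t)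
    linarith
  · have k0 := mul_le_mul_of_nonneg_left a0.2 (sq_nonneg (1 - t))
    have k1 := mul_le_mul_of_nonneg_left a1.2 w1
    have k2 := mul_le_mul_of_nonneg_left a2.2 (sq_nonneg t)
    linarith

theorem Bq_lip {t t' M : ℝ} (h0 : 0 ≤ t) (h1 : t ≤ 1) (h0' : 0 ≤ t') (h1' : t' ≤ 1)
    {f : Fin 3 → ℝ} (hf : ∀ a, |f a| ≤ M) :
    |(∑ a, Bq t a * f a) - ∑ a, Bq t' a * f a| ≤ 6 * M * |t - t'| := by
  rw [Bq_sum, Bq_sum]
  have e : (1 - t) ^ 2 * f 0 + 2 * t * (1 - t) * f 1 + t ^ 2 * f 2 -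
      ((1 - t') ^ 2 * f 0 + 2 * t' * (1 - t') * f 1 + t' ^ 2 * f 2) =
      (t - t') * ((t + t' - 2) * f 0 + 2 * (1 - t - t') * f 1 + (t + t') * f 2) := by ring
  rw [e, abs_mul, mul_comm]
  refine mul_le_mul_of_nonneg_right ?_ (abs_nonneg _)
  have hM : 0 ≤ M := (abs_nonneg _).trans (hf 0)
  have k : ∀ {x y : ℝ}, |x| ≤ 2 → |y| ≤ M → |x * y| ≤ 2 * M := fun h3 h4 => by
    rw [abs_mul]
    exact mul_le_mul h3 h4 (abs_nonneg _) (by norm_num)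
  have k0 := k (x := t + t' - 2) (by rw [abs_le]; constructor <;> linarith) (hf 0)
  have k1 := k (x := 2 * (1 - t - t')) (by rw [abs_le]; constructor <;> linarith) (hf 1)
  have k2 := k (x := t + t') (by rw [abs_le]; constructor <;> linarith) (hf 2)
  calc |(t + t' - 2) * f 0 + 2 * (1 - t - t') * f 1 + (t + t') * f 2| ≤
      |(t + t' - 2) * f 0 + 2 * (1 - t - t') * f 1| + |(t + t') * f 2| := abs_add_le _ _
    _ ≤ |(t + t' - 2) * f 0| + |2 * (1 - t - t') * f 1| + |(t + t') * f 2| :=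
      add_le_add_left (abs_add_le _ _) _
    _ ≤ 2 * M + 2 * M + 2 * M := add_le_add (add_le_add k0 k1) k2
    _ = 6 * M := by ring

/-- nested form -/
theorem Qf_nest (X : Fin 3 → Fin 3 → Fin 3 → ℤ) (t u v : ℝ) : Qf X t u v =
    ∑ c, Bq v c * ∑ b, Bq u b * ∑ a, Bq t a * (X a b c : ℝ) := by
  unfold Qf
  simp only [Fin.sum_univ_three]
  ring

theorem Qf_lip {X : Fin 3 → Fin 3 → Fin 3 → ℤ} {M : ℝ} (hX : ∀ a b c, |(X a b c : ℝ)| ≤ M)
    {t u v t' u' v' : ℝ} (ht : 0 ≤ t ∧ t ≤ 1) (hu : 0 ≤ u ∧ u ≤ 1) (hv : 0 ≤ v ∧ v ≤ 1)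
    (ht' : 0 ≤ t' ∧ t' ≤ 1) (hu' : 0 ≤ u' ∧ u' ≤ 1) (hv' : 0 ≤ v' ∧ v' ≤ 1) :
    |Qf X t u v - Qf X t' u' v'| ≤ 6 * M * |t - t'| + 6 * M * |u - u'| + 6 * M * |v - v'| := by
  rw [Qf_nest, Qf_nest]
  have b1 : ∀ (s : ℝ), (0 ≤ s ∧ s ≤ 1) → ∀ b c, |∑ a, Bq s a * (X a b c : ℝ)| ≤ M :=
    fun s hs b c => Bq_abs hs.1 hs.2 fun a => hX a b c
  have b2 : ∀ (s w : ℝ), (0 ≤ s ∧ s ≤ 1) → (0 ≤ w ∧ w ≤ 1) → ∀ c,
      |∑ b, Bq w b * ∑ a, Bq s a * (X a b c : ℝ)| ≤ M :=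
    fun s w hs hw c => Bq_abs hw.1 hw.2 fun b => b1 s hs b c
  -- innermost
  have d1 : ∀ b c, |(∑ a, Bq t a * (X a b c : ℝ)) - ∑ a, Bq t' a * (X a b c : ℝ)| ≤
      6 * M * |t - t'| := fun b c => Bq_lip ht.1 ht.2 ht'.1 ht'.2 fun a => hX a b c
  have dd : ∀ (s : ℝ), (0 ≤ s ∧ s ≤ 1) → ∀ {f g : Fin 3 → ℝ} {N : ℝ}, (∀ a, |f a - g a| ≤ N) →
      |(∑ a, Bq s a * f a) - ∑ a, Bq s a * g a| ≤ N := by
    intro s hs f g N hfg
    have e : (∑ a, Bq s a * f a) - ∑ a, Bq s a * g a = ∑ a, Bq s a * (f a - g a) := by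
      rw [← Finset.sum_sub_distrib]
      exact Finset.sum_congr rfl fun a _ => by ring
    rw [e]
    exact Bq_abs hs.1 hs.2 hfg
  have d2 : ∀ c, |(∑ b, Bq u b * ∑ a, Bq t a * (X a b c : ℝ)) -
      ∑ b, Bq u' b * ∑ a, Bq t' a * (X a b c : ℝ)| ≤ 6 * M * |t - t'| + 6 * M * |u - u'| := by
    intro c
    have k1 := dd u hu (f := fun b => ∑ a, Bq t a * (X a b c : ℝ))
      (g := fun b => ∑ a, Bq t' a * (X a b c : ℝ)) (fun b => d1 b c)
    have k2 := Bq_lip hu.1 hu.2 hu'.1 hu'.2 (f := fun b => ∑ a, Bq t' a * (X a b c : ℝ))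
      (fun b => b1 t' ht' b c)
    exact (abs_sub_le _ (∑ b, Bq u b * ∑ a, Bq t' a * (X a b c : ℝ)) _).trans (add_le_add k1 k2)
  have k1 := dd v hv (f := fun c => ∑ b, Bq u b * ∑ a, Bq t a * (X a b c : ℝ))
    (g := fun c => ∑ b, Bq u' b * ∑ a, Bq t' a * (X a b c : ℝ)) d2
  have k2 := Bq_lip hv.1 hv.2 hv'.1 hv'.2
    (f := fun c => ∑ b, Bq u' b * ∑ a, Bq t' a * (X a b c : ℝ)) (fun c => b2 t' u' ht' hu' c)
  exact (abs_sub_le _ (∑ c, Bq v c * ∑ b, Bq u' b * ∑ a, Bq t' a * (X a b c : ℝ)) _).trans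
    (add_le_add k1 k2)

end Pool.Agent.Helper21.XB
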