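import Pool.Agent.Helper21.CT.XQM
import Pool.Agent.Helper39.CT.NFG
import Pool.Agent.Helper81.MIT.Tri

/-!
The line `x_B` with the exact sign test: the middle module and the near modules of the classes with
three tails, for literal controls of `x_B`.
-/

set_option autoImplicit false
set_option exponentiation.threshold 4000
noncomputable section
namespace Pool.Agent.Helper21.XB

open Pool.Agent.Helper81.MIT
open Pool.Agent.Helper86.CX (Hm P9 VR ev Cx andB)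
open Pool.Agent.Helper86.CT (LT2 Mo Mc Mq Sv Vx Cls Prog CellT Rw chkDT mk addM uM zM Alg mkCls
  clsOK chkPcT)
open Pool.Agent.Helper90.C75 (Vt)
open Pool.Agent.Helper90.KMT (PT TOK KTab CLT)
open Pool.Agent.Helper6.MONO (kk Kp xA)
open Pool.Agent.Helper6.MONO.QTR (TCell)
open Pool.Agent.Helper39.NCL (WN NA)
open Pool.Agent.Helper21.KRN (TProg PtR XM expand xOK cκ)
open Pool.Agent.Helper21.KTE (MZ KS wfK CLD chkDT_pt sideT)
open Pool.Agent.Helper48.NCT (IT FTT NDT chkPNT ON)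
open Pool.Agent.Helper57.KNB (FDT FamTOK NBT NAB BXT BXOK chkPNB modNB sideLB sideNBT nearT_B)
open Pool.Agent.Helper39.NFT (ksLb ksLb_ok modNT sideLT sideNT list_NT Ch modCC modNC nearT_G
  near_certCC near_certC)
open Pool.Agent.Helper39.SLT (T4)
open Pool.Agent.Helper6.MONO.XTH (chkB)
open Complex ComplexConjugate

variable {p q r : ℕ}

section

variable {α β P v γ : Type} {D : ℕ} {lC : α → Vt (D + 1) → Cx} {lf : α → Vt (D + 1) → ℂ}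
  {mf : (ℕ → ℝ) → β → (ℕ → ℝ) → ℝ} {lp : P → Vt (D + 1) → P9} {lv : v → Vt (D + 1) → VR}
  {lg : γ → Vt (D + 1) → ℕ} {Sa : α → List Bool → Prop} {Sp : P → List Bool → Prop}
  {Sv' : v → List Bool → Prop} {Sg : γ → List Bool → Prop} {M : Mc α β P v γ}
  {S : Sv P} {W : Vx β} {Y : ℕ → ℕ → α} {qd : ℕ → Cx → Cx → Cx → α} {rt : α → Bool}

/-- the model of `x_B` -/
def xQM (A : Alg α) (C : α) (r : ℕ) : Mo α := mk A C (Nat.add r (nat_lit 36864))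

/-- THE DATA OF `x_B` ON A BOX OF KAPPAS: controls `C`, radius `r`, helper data `C0`, `n` of the
old model; `X` the controls as integers -/
structure XQD (D : ℕ) (lf : α → Vt (D + 1) → ℂ) (A : Alg α) (qd : ℕ → Cx → Cx → Cx → α)
    (rt : α → Bool) (C0 : α) (n : ℕ) (C : α) (r : ℕ) (s0 s1 s2 : KS)
    (X : Fin 3 → Fin 3 → Fin 3 → ℤ) : Prop where
  av : AvQ D lf C X s0 s1 s2
  w0 : s0.wf D = true
  w1 : s1.wf D = true
  w2 : s2.wf D = true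
  ck : chkB ![kl s0, kl s1, kl s2] ![kh s0, kh s1, kh s2] X (r : ℤ) = true
  md : modQ A rt (s0.mo A qd) (s1.mo A qd) (s2.mo A qd) C0 n C r s0 s1 s2 X = true

theorem XQD.x0 {X : XM α v} {Q : Mq α v} {cv : VR → v} {rc : Rw}
    (hZ : MZ D lC lf mf lp lv lg Sa Sp Sv' Sg M Q cv rc S W Y qd rt) {C0 C : α} {n m : ℕ}
    {s0 s1 s2 : KS} {Z : Fin 3 → Fin 3 → Fin 3 → ℤ}
    (h : XQD D lf M.A qd rt C0 n C m s0 s1 s2 Z) (hp : 14 ≤ p) (hq : 14 ≤ q) (hr : 14 ≤ r)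
    (o0 : s0.ok (kR p q r 0)) (o1 : s1.ok (kR p q r 1)) (o2 : s2.ok (kR p q r 2))
    (e0 : X.k0 = s0.mo M.A qd) (e1 : X.k1 = s1.mo M.A qd) (e2 : X.k2 = s2.mo M.A qd) :
    ∀ t, PT (D + 1) t → TOK (D + 1) lf t (kR p q r 0 : ℂ) X.k0 →
      TOK (D + 1) lf t (kR p q r 1 : ℂ) X.k1 → TOK (D + 1) lf t (kR p q r 2 : ℂ) X.k2 →
      TOK (D + 1) lf t (xBp p q r : ℂ) (xQM M.A C m) := by
  rw [e0, e1, e2]
  exact x0_xQ hZ.m.a hZ.q hZ.t (κ := kR p q r) (show K14 (Kp p) from K14_Kp hp)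
    (show K14 (Kp q) from K14_Kp hq) (show K14 (Kp r) from K14_Kp hr) o0 o1 o2 h.w0 h.w1 h.w2
    h.av h.ck h.md

/-- **THE MIDDLE MODULE ON THE LINE `x_B`** -/
theorem tcell_TQ {X : XM α v}
    (hZ : MZ D lC lf mf lp lv lg Sa Sp Sv' Sg M X.Q X.c X.r S W Y qd rt)
    {s0 s1 s2 : KS} {a b c : Lb} {C0 C : α} {n m : ℕ} {Z : Fin 3 → Fin 3 → Fin 3 → ℤ}
    (hd : MDT D M qd rt X (xQM M.A C m) s0 s1 s2 a b c)
    (hX : XQD D lf M.A qd rt C0 n C m s0 s1 s2 Z)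
    {l : List (CellT α β)} (hl : l ≠ []) {sl : List ℕ} {le : List LT2}
    (hs : l.all (sideT W le) = true) {kx : ℕ → T4 → ℕ} {BE BO : List ℕ} {G : TProg}
    (hM : modX kx a b c BE BO G sl le = true) {y e : ℕ}
    (H : chkPcT M S W Y (mkCls M.A X.k0 X.k1 X.k2) (expand X G)
      (xQM M.A C m) sl le e l y = true)
    (ha : a.has p) (hb : b.has q) (hc : c.has r) (hp : 14 ≤ p) (hq : 14 ≤ q)
    (hr : 14 ≤ r) : TCell p q r (xBp p q r) ((y : ℝ) / 2 ^ 48) ((e : ℝ) / 2 ^ 48) := by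
  have hT := thr_xBp hp hq hr
  have hw := hd.w
  unfold wfL at hw
  simp only [Bool.and_eq_true] at hw
  obtain ⟨w1, w2, w3, w4, w5⟩ := hw
  exact tcell_T hZ hd hl hs hM H ha hb hc hT.gt hT.le (hX.x0 (X := X) hZ hp hq hr
    (by rw [kR_0]; exact mat_ok w3 ha) (by rw [kR_1]; exact mat_ok w4 hb)
    (by rw [kR_2]; exact mat_ok w5 hc) hd.e0 hd.e1 hd.e2)

/-- the Boolean conditions of the weights of a near module -/
def modXQ (M : Mc α β P v γ) (rt : α → Bool) (D : ℕ) (X : XM α v) (C : α) (m : ℕ)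
    (s0 s1 s2 : KS) (a b c : Lb) : Bool :=
  ksLb s0 a && (ksLb s1 b && (ksLb s2 c && (wfK D s0 s1 s2 && (xOK X && (clsOK M.A X.k0 X.k1 X.k2 &&
    rt (xQM M.A C m).v)))))

/-- the data of the weights at the orders `p q r`, line `x = x_B` -/
theorem cld_Q {X : XM α v} {Q : Mq α v} {cv : VR → v} {rc : Rw}
    (hZ : MZ D lC lf mf lp lv lg Sa Sp Sv' Sg M Q cv rc S W Y qd rt) (hD : D ≤ 3) {a b c : Lb}
    (ha : a.has p) (hb : b.has q) (hc : c.has r) (hp : 14 ≤ p) (hq : 14 ≤ q) (hr : 14 ≤ r)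
    {s0 s1 s2 : KS} {C0 C : α} {n m : ℕ} {Z : Fin 3 → Fin 3 → Fin 3 → ℤ}
    (hX : XQD D lf M.A qd rt C0 n C m s0 s1 s2 Z)
    (h : modXQ M rt D X C m s0 s1 s2 a b c = true) (e0 : X.k0 = s0.mo M.A qd)
    (e1 : X.k1 = s1.mo M.A qd) (e2 : X.k2 = s2.mo M.A qd) :
    CLD D lf M qd rt X (xQM M.A C m) s0 s1 s2 (kR p q r) (xBp p q r) := by
  unfold modXQ at h
  simp only [Bool.and_eq_true] at h
  obtain ⟨h1, h2, h3, h4, h5, h6, h7⟩ := h
  exact ⟨hD, h4, ksLb_ok h1 ha, ksLb_ok h2 hb, ksLb_ok h3 hc, e0, e1, e2, h5, h6, h7,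
    hX.x0 (X := X) hZ hp hq hr (ksLb_ok h1 ha) (ksLb_ok h2 hb) (ksLb_ok h3 hc) e0 e1 e2⟩

/-- A MODULE OF NEAR CELLS on the line `x_B`, families of type A, extra forms for type B -/
theorem nearT_xQ {X : XM α v}
    (hZ : MZ D lC lf mf lp lv lg Sa Sp Sv' Sg M X.Q X.c X.r S W Y qd rt) (hD : D ≤ 3) {ONE : β}
    (h1 : ON mf ONE) {F : FTT α β (FDT β)} (hF : FamTOK (D + 1) lf mf F) {a b c : Lb}
    (ha : a.has p) (hb : b.has q) (hc : c.has r) (hp : 14 ≤ p) (hq : 14 ≤ q) (hr : 14 ≤ r)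
    {s0 s1 s2 : KS} {C0 C : α} {n m : ℕ} {Z : Fin 3 → Fin 3 → Fin 3 → ℤ}
    (hX : XQD D lf M.A qd rt C0 n C m s0 s1 s2 Z)
    (hx : modXQ M rt D X C m s0 s1 s2 a b c = true)
    (e0 : X.k0 = s0.mo M.A qd) (e1 : X.k1 = s1.mo M.A qd) (e2 : X.k2 = s2.mo M.A qd) {gb : Bool}
    {W0 W1 W2 : WN} {BE BO : List ℕ} {G : TProg} {il : List IT} {fn : ℕ → ℕ} {sl : List ℕ}
    {le : List LT2} (hm : modNT a b c gb W0 W1 W2 BE BO G il fn sl le = true)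
    {f0 f1 f2 : Bool} (g0 : f0 = W0.f) (g1 : f1 = W1.f) (g2 : f2 = W2.f)
    {l : List (Pool.Agent.Helper48.NCT.NDT α β (FDT β))} (hl : l ≠ []) {As : List NA}
    (hs : sideLT (sideNT W0 W1 W2 (sideT W le)) l As = true) {y e : ℕ}
    (H : chkPNT M S W Y F f0 f1 f2 X.k0 X.k1 X.k2 (mkCls M.A X.k0 X.k1 X.k2) (expand X G)
      (xQM M.A C m) sl le ONE il e l y = true) :
    TCell p q r (xBp p q r) ((y : ℝ) / 2 ^ 48) ((e : ℝ) / 2 ^ 48) := by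
  have hC := cld_Q (X := X) hZ hD ha hb hc hp hq hr hX hx e0 e1 e2
  have hT := thr_xBp hp hq hr
  refine list_NT hZ.m.k hZ.w.pos h1 hF (by omega) (by omega) (by omega) ha hb hc hT.gt hT.le
    hT.A1 hT.A2 hT.A3 hm g0 g1 g2 hl hs ?_ H
  intro d hd hk z h hh0 hha hhb hz hui hzx
  obtain ⟨t, b1, b2, b3, b4, b5, b6, b7, b8⟩ := chkDT_pt hZ hC hd hk (h := h)
    (by rw [div_le_iff₀ (by positivity)] at hha; linarith)
    (by rw [le_div_iff₀ (by positivity)] at hhb; linarith) hz hzx hui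
  rw [cκ_kR] at b6
  exact ⟨t, b1, b2, b3, b4, b5, b6, b7, b8⟩

/-- A MODULE OF NEAR CELLS on the line `x_B` with tests of type B -/
theorem nearT_xQB {X : XM α v}
    (hZ : MZ D lC lf mf lp lv lg Sa Sp Sv' Sg M X.Q X.c X.r S W Y qd rt) (hD : D ≤ 3) {ONE : β}
    (h1 : ON mf ONE) {F : FTT α β (FDT β)} (hF : FamTOK (D + 1) lf mf F) {FB : BXT α β}
    (hFB : BXOK (D + 1) lf mf FB) {a b c : Lb}
    (ha : a.has p) (hb : b.has q) (hc : c.has r) (hp : 14 ≤ p) (hq : 14 ≤ q) (hr : 14 ≤ r)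
    {s0 s1 s2 : KS} {C0 C : α} {n m : ℕ} {Z : Fin 3 → Fin 3 → Fin 3 → ℤ}
    (hX : XQD D lf M.A qd rt C0 n C m s0 s1 s2 Z)
    (hx : modXQ M rt D X C m s0 s1 s2 a b c = true)
    (e0 : X.k0 = s0.mo M.A qd) (e1 : X.k1 = s1.mo M.A qd) (e2 : X.k2 = s2.mo M.A qd)
    {W0 W1 W2 : WN} {BE BO : List ℕ} {G : TProg} {il : List IT} {sl : List ℕ}
    {le : List LT2} (hm : modNB a b c W0 W1 W2 BE BO G il sl le = true)
    {f0 f1 f2 : Bool} (g0 : f0 = W0.f) (g1 : f1 = W1.f) (g2 : f2 = W2.f)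
    {l : List (NBT α β (FDT β))} (hl : l ≠ []) {As : List NAB}
    (hs : sideLB (sideNBT a b c W0 W1 W2 (sideT W le)) l As = true) {y e : ℕ}
    (H : chkPNB M S W Y F FB f0 f1 f2 X.k0 X.k1 X.k2 (mkCls M.A X.k0 X.k1 X.k2) (expand X G)
      (xQM M.A C m) sl le ONE il e l y = true) :
    TCell p q r (xBp p q r) ((y : ℝ) / 2 ^ 48) ((e : ℝ) / 2 ^ 48) := by
  have hC := cld_Q (X := X) hZ hD ha hb hc hp hq hr hX hx e0 e1 e2
  have hT := thr_xBp hp hq hr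
  exact nearT_B hZ h1 hF hFB ha hb hc hC hT.gt hT.le hT.A1 hT.A2 hT.A3
    (fB_xBp hp hq hr) hm g0 g1 g2 hl hs H

/-- line `x_B`, two chains -/
theorem nearT_xQCC {X : XM α v}
    (hZ : MZ D lC lf mf lp lv lg Sa Sp Sv' Sg M X.Q X.c X.r S W Y qd rt) (hD : D ≤ 3) {ONE : β}
    (h1 : ON mf ONE) {F : FTT α β (FDT β)} (hF : FamTOK (D + 1) lf mf F) {a b c : Lb}
    (ha : a.has p) (hb : b.has q) (hc : c.has r) (hp : 14 ≤ p) (hq : 14 ≤ q) (hr : 14 ≤ r)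
    {s0 s1 s2 : KS} {C0 C : α} {n m : ℕ} {Z : Fin 3 → Fin 3 → Fin 3 → ℤ}
    (hX : XQD D lf M.A qd rt C0 n C m s0 s1 s2 Z)
    (hx : modXQ M rt D X C m s0 s1 s2 a b c = true)
    (e0 : X.k0 = s0.mo M.A qd) (e1 : X.k1 = s1.mo M.A qd) (e2 : X.k2 = s2.mo M.A qd)
    {W0 W1 W2 : WN} {cA cB : Ch} {BE BO : List ℕ} {G : TProg} {il : List IT} {sl : List ℕ}
    {le : List LT2} (hm : modCC a b c cA cB BE BO G il sl le = true)
    {f0 f1 f2 : Bool} (g0 : f0 = W0.f) (g1 : f1 = W1.f) (g2 : f2 = W2.f)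
    {l : List (Pool.Agent.Helper48.NCT.NDT α β (FDT β))} (hl : l ≠ []) {As : List NA}
    (hs : sideLT (sideNT W0 W1 W2 (sideT W le)) l As = true) {y e : ℕ}
    (H : chkPNT M S W Y F f0 f1 f2 X.k0 X.k1 X.k2 (mkCls M.A X.k0 X.k1 X.k2) (expand X G)
      (xQM M.A C m) sl le ONE il e l y = true) :
    TCell p q r (xBp p q r) ((y : ℝ) / 2 ^ 48) ((e : ℝ) / 2 ^ 48) := by
  have hC := cld_Q (X := X) hZ hD ha hb hc hp hq hr hX hx e0 e1 e2
  have hT := thr_xBp hp hq hr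
  refine nearT_G hZ h1 hF (by omega) (by omega) (by omega) hC hT.gt hT.le hT.A1 hT.A2 hT.A3
    (W0 := W0) (W1 := W1) (W2 := W2) ?_ g0 g1 g2 hl hs H
  intro z hz hz1 K hP hI _
  exact near_certCC (by omega) (by omega) (by omega) ha hb hc hz hz1 hP hm hI

/-- line `x_B`, walls (families or single runs) and a chain for the runs of two letters -/
theorem nearT_xQC {X : XM α v}
    (hZ : MZ D lC lf mf lp lv lg Sa Sp Sv' Sg M X.Q X.c X.r S W Y qd rt) (hD : D ≤ 3) {ONE : β}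
    (h1 : ON mf ONE) {F : FTT α β (FDT β)} (hF : FamTOK (D + 1) lf mf F) {a b c : Lb}
    (ha : a.has p) (hb : b.has q) (hc : c.has r) (hp : 14 ≤ p) (hq : 14 ≤ q) (hr : 14 ≤ r)
    {s0 s1 s2 : KS} {C0 C : α} {n m : ℕ} {Z : Fin 3 → Fin 3 → Fin 3 → ℤ}
    (hX : XQD D lf M.A qd rt C0 n C m s0 s1 s2 Z)
    (hx : modXQ M rt D X C m s0 s1 s2 a b c = true)
    (e0 : X.k0 = s0.mo M.A qd) (e1 : X.k1 = s1.mo M.A qd) (e2 : X.k2 = s2.mo M.A qd)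
    {W0 W1 W2 : WN} {cB : Ch} {BE BO : List ℕ} {G : TProg} {il : List IT} {sl : List ℕ}
    {le : List LT2} (hm : modNC a b c W0 W1 W2 cB BE BO G il sl le = true)
    {f0 f1 f2 : Bool} (g0 : f0 = W0.f) (g1 : f1 = W1.f) (g2 : f2 = W2.f)
    {l : List (Pool.Agent.Helper48.NCT.NDT α β (FDT β))} (hl : l ≠ []) {As : List NA}
    (hs : sideLT (sideNT W0 W1 W2 (sideT W le)) l As = true) {y e : ℕ}
    (H : chkPNT M S W Y F f0 f1 f2 X.k0 X.k1 X.k2 (mkCls M.A X.k0 X.k1 X.k2) (expand X G)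
      (xQM M.A C m) sl le ONE il e l y = true) :
    TCell p q r (xBp p q r) ((y : ℝ) / 2 ^ 48) ((e : ℝ) / 2 ^ 48) := by
  have hC := cld_Q (X := X) hZ hD ha hb hc hp hq hr hX hx e0 e1 e2
  have hT := thr_xBp hp hq hr
  refine nearT_G hZ h1 hF (by omega) (by omega) (by omega) hC hT.gt hT.le hT.A1 hT.A2 hT.A3
    (W0 := W0) (W1 := W1) (W2 := W2) ?_ g0 g1 g2 hl hs H
  intro z hz hz1 K hP hI hfam
  exact near_certC (by omega) (by omega) (by omega) ha hb hc hz hz1 hP hm hI hfam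

end

open Pool.Agent.Helper90.KMT in
open Pool.Agent.Helper21.KTE in
/-- the data of a literal tree of `KerT`, three tails -/
theorem xqd4 {C0 C : Pool.Agent.Helper86.CT.N3 (Pool.Agent.Helper86.CT.N3
      (Pool.Agent.Helper86.CT.N3 (Pool.Agent.Helper86.CT.N3 Cx)))} {n m l0 h0 l1 h1 l2 h2 : ℕ}
    (hs : (isk C && (rt4 C && (Pool.Agent.Helper86.CX.evC l0 h0 &&
      (Pool.Agent.Helper86.CX.evC l1 h1 && Pool.Agent.Helper86.CX.evC l2 h2)))) = true)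
    (hc : chkB ![(l0 : ℤ), l1, l2] ![(h0 : ℤ), h1, h2] (lq4 C) (m : ℤ) = true)
    (hm : modQ Pool.Agent.Helper86.CT.A4 rt4 ((KS.T 0 l0 h0).mo Pool.Agent.Helper86.CT.A4 qd4)
      ((KS.T 1 l1 h1).mo Pool.Agent.Helper86.CT.A4 qd4)
      ((KS.T 2 l2 h2).mo Pool.Agent.Helper86.CT.A4 qd4) C0 n C m (KS.T 0 l0 h0) (KS.T 1 l1 h1)
      (KS.T 2 l2 h2) (lq4 C) = true) :
    XQD 3 (nlf (nlf (nlf (nlf lf0)))) Pool.Agent.Helper86.CT.A4 qd4 rt4 C0 n C m (KS.T 0 l0 h0)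
      (KS.T 1 l1 h1) (KS.T 2 l2 h2) (lq4 C) := by
  simp only [Bool.and_eq_true] at hs
  obtain ⟨a1, a2, a3, a4, a5⟩ := hs
  refine ⟨avq4 a1 a2, ?_, ?_, ?_, hc, hm⟩
  · show (Nat.blt 0 3 && Pool.Agent.Helper86.CX.evC l0 h0) = true
    rw [a3]
    rfl
  · show (Nat.blt 1 3 && Pool.Agent.Helper86.CX.evC l1 h1) = true
    rw [a4]
    rfl
  · show (Nat.blt 2 3 && Pool.Agent.Helper86.CX.evC l2 h2) = true
    rw [a5]
    rfl

end Pool.Agent.Helper21.XB
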