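import Pool.Agent.Helper21.CT.XQ
import Pool.Agent.Helper21.CT.XBQ

/-!
The threshold `x_B` with the exact sign test: the model in the kernel arithmetic (literal controls,
radius of the sign test), and the field `x0` of `CLD`.
-/

set_option autoImplicit false
set_option exponentiation.threshold 4000
noncomputable section
namespace Pool.Agent.Helper21.XB

open Pool.Agent.Helper6.MONO (fBx)
open Pool.Agent.Helper6.MONO.XTH (Bq Qf chkB chkB_sound)
open Pool.Agent.Helper90.C75 (Vt avg wtT bt Mod norm_avg_le avg_T_succ avg_const)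
open Pool.Agent.Helper90.KMT
open Pool.Agent.Helper90.KMO (UU UU_pos zv cz andB_t zv_p)
open Pool.Agent.Helper86.C75 (Z)
open Pool.Agent.Helper86.CX (Cx andB hs)
open Pool.Agent.Helper86.CT (N3 Alg Mo invM invOK mulM addM subM cst)
open Pool.Agent.Helper21.KTE (RTL KS QD exists_par)
open Complex

/-- the parameter of a kappa -/
def kw (t : ℕ → ℝ) : KS → ℝ
  | KS.E _ => 0
  | KS.T j _ _ => t j

/-- the ends of the interval of a kappa -/
def kl : KS → ℤ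
  | KS.E n => (n : ℤ) - 1
  | KS.T _ a _ => (a : ℤ)
def kh : KS → ℤ
  | KS.E n => (n : ℤ) + 1
  | KS.T _ _ b => (b : ℤ)
/-- wide intervals -/
def kwd : KS → Bool
  | KS.E _ => true
  | KS.T _ a b => Nat.ble (a + 274877906944) b
/-- exact -/
def kE : KS → Bool
  | KS.E _ => true
  | KS.T _ _ _ => false

/-- the average of a tree is the quadratic form of its controls -/
def AvQ {α : Type} (D : ℕ) (lf : α → Vt (D + 1) → ℂ) (C : α) (X : Fin 3 → Fin 3 → Fin 3 → ℤ)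
    (s0 s1 s2 : KS) : Prop :=
  ∀ t, PT (D + 1) t → avg (wtT (D + 1) t) (lf C) =
    ((Qf X (kw t s0) (kw t s1) (kw t s2) : ℝ) : ℂ)

/-- the size of the controls; constant in the directions of exact kappas -/
def xqB (X : Fin 3 → Fin 3 → Fin 3 → ℤ) (s0 s1 s2 : KS) : Bool :=
  decide (∀ a b c, |X a b c| ≤ 562949953421312 ∧ (kE s0 = true → X a b c = X 0 b c) ∧
    (kE s1 = true → X a b c = X a 0 c) ∧ (kE s2 = true → X a b c = X a b 0))

/-! ### the true parameter -/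

/-- the true parameter `τ` of a kappa and its distance from the parameter of the model -/
theorem true_par {s : KS} {κ : ℝ} (h : s.ok κ) : ∃ τ : ℝ, 0 ≤ τ ∧ τ ≤ 1 ∧
    κ = ((1 - τ) * kl s + τ * kh s) / 2 ^ 48 := by
  cases s with
  | E n =>
    have h' := abs_le.1 (show |2 ^ 48 * κ - n| ≤ 1 from h)
    refine ⟨(2 ^ 48 * κ - n + 1) / 2, by linarith, by linarith, ?_⟩
    show κ = ((1 - (2 ^ 48 * κ - n + 1) / 2) * (((n : ℤ) - 1 : ℤ) : ℝ) +
      (2 ^ 48 * κ - n + 1) / 2 * (((n : ℤ) + 1 : ℤ) : ℝ)) / 2 ^ 48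
    push_cast
    field_simp
    ring
  | T j a b =>
    obtain ⟨u, h0, h1, h2⟩ := exists_par h.1 h.2
    refine ⟨u, h0, h1, ?_⟩
    show κ = ((1 - u) * ((a : ℤ) : ℝ) + u * ((b : ℤ) : ℝ)) / 2 ^ 48
    push_cast
    rw [← h2]
    field_simp

theorem par_near {a b : ℕ} {κ τ w : ℝ} (hw : a + 274877906944 ≤ b)
    (h : κ = ((1 - τ) * a + τ * b) / 2 ^ 48) (h' : |2 ^ 48 * κ - ((1 - w) * a + w * b)| ≤ 1) :
    |τ - w| ≤ 1 / 274877906944 := by
  have hb : (a : ℝ) + 274877906944 ≤ b := by exact_mod_cast hw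
  have e : 2 ^ 48 * κ - ((1 - w) * a + w * b) = (τ - w) * (b - a) := by
    rw [h]
    field_simp
    ring
  rw [e, abs_mul, abs_of_pos (by linarith : (0 : ℝ) < b - a)] at h'
  rw [le_div_iff₀ (by norm_num)]
  refine le_trans ?_ h'
  exact mul_le_mul_of_nonneg_left (by linarith) (abs_nonneg _)

/-- `Q` depends on the exact directions only trivially -/
theorem Qf_c0 {X : Fin 3 → Fin 3 → Fin 3 → ℤ} (h : ∀ a b c, X a b c = X 0 b c) (t t' u v : ℝ) :
    Qf X t u v = Qf X t' u v := by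
  rw [Qf_nest, Qf_nest]
  refine Finset.sum_congr rfl fun c _ => ?_
  congr 1
  refine Finset.sum_congr rfl fun b _ => ?_
  congr 1
  rw [Bq_sum, Bq_sum, h 1 b c, h 2 b c]
  ring

theorem Qf_swap01 (X : Fin 3 → Fin 3 → Fin 3 → ℤ) (t u v : ℝ) :
    Qf X t u v = Qf (fun a b c => X b a c) u t v := by
  unfold Qf
  rw [Finset.sum_comm]
  refine Finset.sum_congr rfl fun b _ => Finset.sum_congr rfl fun a _ =>
    Finset.sum_congr rfl fun c _ => by ring

theorem Qf_swap02 (X : Fin 3 → Fin 3 → Fin 3 → ℤ) (t u v : ℝ) :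
    Qf X t u v = Qf (fun a b c => X c b a) v u t := by
  unfold Qf
  simp only [Fin.sum_univ_three]
  ring

theorem Qf_c1 {X : Fin 3 → Fin 3 → Fin 3 → ℤ} (h : ∀ a b c, X a b c = X a 0 c) (t u u' v : ℝ) :
    Qf X t u v = Qf X t u' v := by
  rw [Qf_swap01, Qf_swap01 X t u' v]
  exact Qf_c0 (fun a b c => h b a c) _ _ _ _

theorem Qf_c2 {X : Fin 3 → Fin 3 → Fin 3 → ℤ} (h : ∀ a b c, X a b c = X a b 0) (t u v v' : ℝ) :
    Qf X t u v = Qf X t u v' := by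
  rw [Qf_swap02, Qf_swap02 X t u v']
  exact Qf_c0 (fun a b c => h c b a) _ _ _ _

/-! ### the model -/

section

variable {α : Type} {D : ℕ} {lf : α → Vt (D + 1) → ℂ} {A : Alg α} {t : ℕ → ℝ}
  {Sa : α → List Bool → Prop} {qd : ℕ → Cx → Cx → Cx → α}

/-- the parameter of the model -/
theorem mo_near (hq : ∀ j < D, QD (D + 1) j lf Sa (qd j)) (ht : PT (D + 1) t) {s : KS} {κ τ : ℝ}
    (hw : s.wf D = true) (hd : kwd s = true) (hE : kE s = false)
    (hτ : κ = ((1 - τ) * kl s + τ * kh s) / 2 ^ 48)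
    (hk : TOK (D + 1) lf t (κ : ℂ) (s.mo A qd)) : |τ - kw t s| ≤ 1 / 274877906944 := by
  cases s with
  | E n => exact absurd (show true = false from hE) (by decide)
  | T j a b =>
    have h' : (Nat.blt j D && Pool.Agent.Helper86.CX.evC a b) = true := hw
    rw [Bool.and_eq_true] at h'
    have hj : j < D := Nat.le_of_ble_eq_true h'.1
    have hc : 2 * hs a b = a + b := Nat.eq_of_beq_eq_true h'.2
    have hc' : (2 : ℝ) * (hs a b : ℕ) = a + b := by exact_mod_cast hc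
    refine par_near (κ := κ) (Nat.le_of_ble_eq_true hd) ?_ ?_
    · have e : κ = ((1 - τ) * ((a : ℤ) : ℝ) + τ * ((b : ℤ) : ℝ)) / 2 ^ 48 := hτ
      push_cast at e
      exact e
    · have h1 : ‖(UU : ℂ) * κ - avg (wtT (D + 1) t) (lf (qd j ⟨Z.p a, Z.p (nat_lit 0)⟩
        ⟨Z.p (hs a b), Z.p (nat_lit 0)⟩ ⟨Z.p b, Z.p (nat_lit 0)⟩))‖ ≤ ((nat_lit 1 : ℕ) : ℝ) :=
        hk.mod
      rw [(hq j hj).av _ _ _ t ht] at h1
      have h2 := (Complex.abs_re_le_norm _).trans h1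
      have e : ((UU : ℂ) * κ - ((((1 - t j) ^ 2 : ℝ) : ℂ) * cz ⟨Z.p a, Z.p (nat_lit 0)⟩ +
          ((2 * t j * (1 - t j) : ℝ) : ℂ) * cz ⟨Z.p (hs a b), Z.p (nat_lit 0)⟩ +
          (((t j) ^ 2 : ℝ) : ℂ) * cz ⟨Z.p b, Z.p (nat_lit 0)⟩)).re =
          2 ^ 48 * κ - ((1 - kw t (KS.T j a b)) * a + kw t (KS.T j a b) * b) := by
        have z : ∀ n : ℕ, (cz ⟨Z.p n, Z.p (nat_lit 0)⟩).re = n := by
          intro n
          show ((zv (Z.p n) : ℤ) : ℝ) = n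
          rw [zv_p]
          simp
        simp only [Complex.sub_re, Complex.add_re, Complex.re_ofReal_mul, Complex.ofReal_re, z]
        have hU : (UU : ℝ) = 2 ^ 48 := by unfold UU; norm_num
        rw [hU]
        show 2 ^ 48 * κ - ((1 - t j) ^ 2 * a + 2 * t j * (1 - t j) * (hs a b : ℕ) +
          t j ^ 2 * b) = 2 ^ 48 * κ - ((1 - t j) * a + t j * b)
        linear_combination (t j * (1 - t j)) * (-hc')
      rw [e] at h2
      simpa using h2

/-- the test of the distance from the old model -/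
def xqC {α : Type} (A : Alg α) (k0 k1 k2 : Mo α) (C0 : α) (n : ℕ) (C : α) (r : ℕ) : Bool :=
  Nat.ble ((subM A (xBM A k0 k1 k2 C0 n) (Pool.Agent.Helper86.CT.mk A C (nat_lit 0))).B +
    (subM A (xBM A k0 k1 k2 C0 n) (Pool.Agent.Helper86.CT.mk A C (nat_lit 0))).r + 36864 + r)
    2955487255461

theorem xq_close (hA : AOK (D + 1) lf A) (ht : PT (D + 1) t) {k0 k1 k2 : Mo α} {C0 C : α}
    {n r : ℕ} {x y : ℝ} (hx : TOK (D + 1) lf t (x : ℂ) (xBM A k0 k1 k2 C0 n))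
    (hy : avg (wtT (D + 1) t) (lf C) = ((y : ℝ) : ℂ)) (h : xqC A k0 k1 k2 C0 n C r = true) :
    |2 ^ 48 * x - y| + 36864 + (r : ℝ) ≤ 2955487255461 := by
  have hU : (UU : ℝ) = 2 ^ 48 := by unfold UU; norm_num
  have hUp := UU_pos
  have hT : TOK (D + 1) lf t ((y / UU : ℝ) : ℂ)
      (Pool.Agent.Helper86.CT.mk A C (nat_lit 0)) := by
    refine ⟨vt_mk hA _ _, ?_⟩
    show ‖(UU : ℂ) * ((y / UU : ℝ) : ℂ) - avg (wtT (D + 1) t) (lf C)‖ ≤ ((nat_lit 0 : ℕ) : ℝ)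
    have e : (UU : ℂ) * ((y / UU : ℝ) : ℂ) = ((y : ℝ) : ℂ) := by
      rw [← Complex.ofReal_mul]
      congr 1
      field_simp
    rw [hy, e, sub_self, norm_zero]
    simp
  have hd := hx.sub hA hT
  set M := subM A (xBM A k0 k1 k2 C0 n) (Pool.Agent.Helper86.CT.mk A C (nat_lit 0)) with hM
  have g1 : ‖(UU : ℂ) * ((x : ℂ) - ((y / UU : ℝ) : ℂ))‖ ≤ (M.B : ℝ) + M.r := by
    have g2 := hd.mod
    have g3 := norm_avg_le ht.w hd.val.bd
    unfold Pool.Agent.Helper90.C75.Mod at g2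
    calc ‖(UU : ℂ) * ((x : ℂ) - ((y / UU : ℝ) : ℂ))‖ ≤ _ := norm_le_norm_add_norm_sub' _ _
      _ ≤ _ := add_le_add g3 g2
  have e : (UU : ℂ) * ((x : ℂ) - ((y / UU : ℝ) : ℂ)) = ((2 ^ 48 * x - y : ℝ) : ℂ) := by
    rw [← Complex.ofReal_sub, ← Complex.ofReal_mul]
    congr 1
    rw [← hU]
    field_simp
  rw [e, Complex.norm_real, Real.norm_eq_abs] at g1
  have g4 : M.B + M.r + 36864 + r ≤ 2955487255461 := Nat.le_of_ble_eq_true h
  have g5 : (M.B : ℝ) + M.r + 36864 + r ≤ 2955487255461 := by exact_mod_cast g4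
  linarith

/-- **`x_B` between the two signs** -/
theorem xq_root {X : Fin 3 → Fin 3 → Fin 3 → ℤ} {r : ℕ} {l h : Fin 3 → ℤ}
    (hc : chkB l h X (r : ℤ) = true) {a b c : ℝ} (ha : K14 a) (hb : K14 b) (hc' : K14 c)
    {t u v y : ℝ} (ht : 0 ≤ t ∧ t ≤ 1) (hu : 0 ≤ u ∧ u ≤ 1) (hv : 0 ≤ v ∧ v ≤ 1)
    (h0 : a = ((1 - t) * l 0 + t * h 0) / 2 ^ 48) (h1 : b = ((1 - u) * l 1 + u * h 1) / 2 ^ 48)
    (h2 : c = ((1 - v) * l 2 + v * h 2) / 2 ^ 48) (hd : |Qf X t u v - y| ≤ 36864)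
    (hy : |2 ^ 48 * xBr a b c - y| + 36864 + (r : ℝ) ≤ 2955487255461) :
    |2 ^ 48 * xBr a b c - y| ≤ (r : ℝ) + 36864 := by
  obtain ⟨g1, g2⟩ := chkB_cl hc ht hu hv h0 h1 h2
  have hr : (0 : ℝ) ≤ r := Nat.cast_nonneg r
  have d1 := abs_le.1 hd
  have hm := abs_nonneg (2 ^ 48 * xBr a b c - y)
  have d2 := abs_le.1 (le_refl |2 ^ 48 * xBr a b c - y|)
  set m := |2 ^ 48 * xBr a b c - y| with hmm
  set Q := Qf X t u v with hQ
  have c1 : (Q / 2 ^ 48 + ((r : ℤ) : ℝ) / 2 ^ 48) =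
      xBr a b c + (Q / 2 ^ 48 + r / 2 ^ 48 - xBr a b c) := by
    push_cast
    ring
  have c2 : (Q / 2 ^ 48 - ((r : ℤ) : ℝ) / 2 ^ 48) =
      xBr a b c + (Q / 2 ^ 48 - r / 2 ^ 48 - xBr a b c) := by
    push_cast
    ring
  rw [c1] at g1
  rw [c2] at g2
  have b1 : |Q / 2 ^ 48 + r / 2 ^ 48 - xBr a b c| ≤ 21 / 2000 := by
    have e : Q / 2 ^ 48 + r / 2 ^ 48 - xBr a b c =
        ((Q - y) + r - (2 ^ 48 * xBr a b c - y)) / 2 ^ 48 := by
      field_simp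
      ring
    rw [e, abs_div, abs_of_pos (by norm_num : (0 : ℝ) < 2 ^ 48), div_le_iff₀ (by norm_num),
      abs_le]
    constructor
    · norm_num
      linarith
    · norm_num
      linarith
  have b2 : |Q / 2 ^ 48 - r / 2 ^ 48 - xBr a b c| ≤ 21 / 2000 := by
    have e : Q / 2 ^ 48 - r / 2 ^ 48 - xBr a b c =
        ((Q - y) - r - (2 ^ 48 * xBr a b c - y)) / 2 ^ 48 := by
      field_simp
      ring
    rw [e, abs_div, abs_of_pos (by norm_num : (0 : ℝ) < 2 ^ 48), div_le_iff₀ (by norm_num),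
      abs_le]
    constructor
    · norm_num
      linarith
    · norm_num
      linarith
  have s1 := sg_pos ha hb hc' b1 g1
  have s2 := sg_neg ha hb hc' b2 g2
  have e1 : 2 ^ 48 * (Q / 2 ^ 48 + r / 2 ^ 48 - xBr a b c) = Q + r - 2 ^ 48 * xBr a b c := by
    field_simp
  have e2 : 2 ^ 48 * (Q / 2 ^ 48 - r / 2 ^ 48 - xBr a b c) = Q - r - 2 ^ 48 * xBr a b c := by
    field_simp
  have s3 : 0 ≤ Q + r - 2 ^ 48 * xBr a b c := by
    rw [← e1]
    exact mul_nonneg (by norm_num) s1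
  have s4 : Q - r - 2 ^ 48 * xBr a b c ≤ 0 := by
    rw [← e2]
    exact mul_nonpos_of_nonneg_of_nonpos (by norm_num) s2
  rw [hmm, abs_le]
  constructor <;> linarith

/-- the difference of the parameters of one direction -/
theorem dir_near (hq : ∀ j < D, QD (D + 1) j lf Sa (qd j)) (ht : PT (D + 1) t) {s : KS} {κ τ : ℝ}
    (hw : s.wf D = true) (hd : kwd s = true)
    (hτ : κ = ((1 - τ) * kl s + τ * kh s) / 2 ^ 48)
    (hk : TOK (D + 1) lf t (κ : ℂ) (s.mo A qd)) :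
    kE s = true ∨ |τ - kw t s| ≤ 1 / 274877906944 := by
  cases h : kE s with
  | true => exact Or.inl rfl
  | false => exact Or.inr (mo_near hq ht hw hd h hτ hk)

theorem kw_01 (ht : PT (D + 1) t) {s : KS} (hw : s.wf D = true) : 0 ≤ kw t s ∧ kw t s ≤ 1 := by
  cases s with
  | E n => exact ⟨le_rfl, zero_le_one⟩
  | T j a b =>
    have h' : (Nat.blt j D && Pool.Agent.Helper86.CX.evC a b) = true := hw
    rw [Bool.and_eq_true] at h'
    have hj : j < D := Nat.le_of_ble_eq_true h'.1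
    exact ⟨ht.h0 j (by omega), ht.h1 j (by omega)⟩

/-- the change of `Q` from the true parameters to those of the model -/
theorem Qf_near {X : Fin 3 → Fin 3 → Fin 3 → ℤ} {s0 s1 s2 : KS} (hX : xqB X s0 s1 s2 = true)
    {t u v t' u' v' : ℝ} (ht : 0 ≤ t ∧ t ≤ 1) (hu : 0 ≤ u ∧ u ≤ 1) (hv : 0 ≤ v ∧ v ≤ 1)
    (ht' : 0 ≤ t' ∧ t' ≤ 1) (hu' : 0 ≤ u' ∧ u' ≤ 1) (hv' : 0 ≤ v' ∧ v' ≤ 1)
    (d0 : kE s0 = true ∨ |t - t'| ≤ 1 / 274877906944)
    (d1 : kE s1 = true ∨ |u - u'| ≤ 1 / 274877906944)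
    (d2 : kE s2 = true ∨ |v - v'| ≤ 1 / 274877906944) :
    |Qf X t u v - Qf X t' u' v'| ≤ 36864 := by
  have hX' := of_decide_eq_true hX
  have hM : ∀ a b c, |(X a b c : ℝ)| ≤ 562949953421312 := fun a b c => by
    have := (hX' a b c).1
    exact_mod_cast this
  have key : ∀ {p q p' q' : ℝ}, |p - p'| ≤ q → q ≤ q' → |p - p'| ≤ q' := fun a b => a.trans b
  -- first direction
  have a0 : |Qf X t u v - Qf X t' u v| ≤ 12288 := by
    rcases d0 with h | h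
    · rw [Qf_c0 (fun a b c => (hX' a b c).2.1 h) t t' u v, sub_self, abs_zero]
      norm_num
    · refine (Qf_lip hM ht hu hv ht' hu hv).trans ?_
      rw [sub_self, sub_self, abs_zero]
      linarith
  have a1 : |Qf X t' u v - Qf X t' u' v| ≤ 12288 := by
    rcases d1 with h | h
    · rw [Qf_c1 (fun a b c => (hX' a b c).2.2.1 h) t' u u' v, sub_self, abs_zero]
      norm_num
    · refine (Qf_lip hM ht' hu hv ht' hu' hv).trans ?_
      rw [sub_self, sub_self, abs_zero]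
      linarith
  have a2 : |Qf X t' u' v - Qf X t' u' v'| ≤ 12288 := by
    rcases d2 with h | h
    · rw [Qf_c2 (fun a b c => (hX' a b c).2.2.2 h) t' u' v v', sub_self, abs_zero]
      norm_num
    · refine (Qf_lip hM ht' hu' hv ht' hu' hv').trans ?_
      rw [sub_self, sub_self, abs_zero]
      linarith
  have b0 := abs_sub_le (Qf X t u v) (Qf X t' u v) (Qf X t' u' v')
  have b1 := abs_sub_le (Qf X t' u v) (Qf X t' u' v) (Qf X t' u' v')
  linarith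

/-- THE TEST: sizes, widths, distance from the old model -/
def modQ {α : Type} (A : Alg α) (rt : α → Bool) (k0 k1 k2 : Mo α) (C0 : α) (n : ℕ) (C : α)
    (r : ℕ) (s0 s1 s2 : KS) (X : Fin 3 → Fin 3 → Fin 3 → ℤ) : Bool :=
  rt C0 && (xBOQ A k0 k1 k2 C0 n && (xqC A k0 k1 k2 C0 n C r && (kwd s0 && (kwd s1 && (kwd s2 &&
    xqB X s0 s1 s2)))))

/-- **THE FIELD `x0` OF `CLD` FOR THE LINE `x_B`, literal controls `C`, radius of the sign test** -/
theorem x0_xQ (hA : AOK (D + 1) lf A) (hq : ∀ j < D, QD (D + 1) j lf Sa (qd j))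
    {rt : α → Bool} (hrt : RTL (D + 1) lf rt) {κ : Fin 3 → ℝ} (h0 : K14 (κ 0)) (h1 : K14 (κ 1))
    (h2 : K14 (κ 2)) {s0 s1 s2 : KS} (o0 : s0.ok (κ 0)) (o1 : s1.ok (κ 1)) (o2 : s2.ok (κ 2))
    (w0 : s0.wf D = true) (w1 : s1.wf D = true) (w2 : s2.wf D = true) {C0 C : α} {n r : ℕ}
    {X : Fin 3 → Fin 3 → Fin 3 → ℤ} (hX : AvQ D lf C X s0 s1 s2)
    (hc : chkB ![kl s0, kl s1, kl s2] ![kh s0, kh s1, kh s2] X (r : ℤ) = true)
    (hm : modQ A rt (s0.mo A qd) (s1.mo A qd) (s2.mo A qd) C0 n C r s0 s1 s2 X = true) :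
    ∀ t, PT (D + 1) t → TOK (D + 1) lf t (κ 0 : ℂ) (s0.mo A qd) →
      TOK (D + 1) lf t (κ 1 : ℂ) (s1.mo A qd) → TOK (D + 1) lf t (κ 2 : ℂ) (s2.mo A qd) →
      TOK (D + 1) lf t ((xBr (κ 0) (κ 1) (κ 2) : ℝ) : ℂ)
        (Pool.Agent.Helper86.CT.mk A C (Nat.add r (nat_lit 36864))) := by
  intro t ht a0 a1 a2
  unfold modQ at hm
  simp only [Bool.and_eq_true] at hm
  obtain ⟨m1, m2, m3, m4, m5, m6, m7⟩ := hm
  have hB := TOK_xBQ hA ht (SS_ge h0 h1 h2) a0 a1 a2 (hrt C0 m1) m2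
  have hQ := hX t ht
  have hy := xq_close hA ht hB hQ m3
  obtain ⟨t0, x0, y0, z0⟩ := true_par o0
  obtain ⟨t1, x1, y1, z1⟩ := true_par o1
  obtain ⟨t2, x2, y2, z2⟩ := true_par o2
  have d := Qf_near m7 ⟨x0, y0⟩ ⟨x1, y1⟩ ⟨x2, y2⟩ (kw_01 ht w0) (kw_01 ht w1) (kw_01 ht w2)
    (dir_near hq ht w0 m4 z0 a0) (dir_near hq ht w1 m5 z1 a1) (dir_near hq ht w2 m6 z2 a2)
  have k := xq_root hc h0 h1 h2 ⟨x0, y0⟩ ⟨x1, y1⟩ ⟨x2, y2⟩ z0 z1 z2 d hy
  refine ⟨vt_mk hA _ _, ?_⟩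
  show ‖(UU : ℂ) * ((xBr (κ 0) (κ 1) (κ 2) : ℝ) : ℂ) - avg (wtT (D + 1) t) (lf C)‖ ≤
    ((r + 36864 : ℕ) : ℝ)
  have hU : (UU : ℝ) = 2 ^ 48 := by unfold UU; norm_num
  rw [hQ, ← Complex.ofReal_mul, ← Complex.ofReal_sub, Complex.norm_real, Real.norm_eq_abs, hU]
  push_cast
  exact k

end

/-! ### three tails: literal trees of `KerT` -/

/-- the control of a literal tree of depth four -/
def lq4 (C : N3 (N3 (N3 (N3 Cx)))) (a b c : Fin 3) : ℤ :=
  zv (c3 (c3 (c3 (c3 C 0) c) b) a).re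
def isk {α : Type} (x : N3 α) : Bool :=
  N3.rec (motive := fun _ => Bool) (fun _ => true) (fun _ _ _ => false) x

theorem avq4 {C : N3 (N3 (N3 (N3 Cx)))} (hk : isk C = true) (hr : Pool.Agent.Helper21.KTE.rt4 C = true)
    {l0 h0 l1 h1 l2 h2 : ℕ} : AvQ 3 (nlf (nlf (nlf (nlf lf0)))) C (lq4 C) (KS.T 0 l0 h0)
      (KS.T 1 l1 h1) (KS.T 2 l2 h2) := by
  intro t ht
  have hl : ∀ (a b c d : Fin 3), nlf (nlf (nlf (nlf lf0))) C (((((() : Vt 0), a), b), c), d) =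
      ((lq4 C a b c : ℤ) : ℂ) := by
    intro a b c d
    have him := Pool.Agent.Helper21.KTE.RTL4 C hr (((((() : Vt 0), a), b), c), d)
    have e : nlf (nlf (nlf (nlf lf0))) C (((((() : Vt 0), a), b), c), d) =
        cz (c3 (c3 (c3 (c3 C d) c) b) a) := rfl
    have ek : c3 C d = c3 C 0 := by
      cases C with
      | k x => rfl
      | q x y z => exact absurd (show false = true from hk) (by decide)
    rw [e] at him ⊢
    apply Complex.ext
    · rw [ek]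
      show ((zv _ : ℤ) : ℝ) = (((lq4 C a b c : ℤ) : ℂ)).re
      simp only [Complex.intCast_re]
      rfl
    · rw [him]
      simp
  have hav : ∀ (s : ℝ) (f : Fin 3 → ℂ) (g : Fin 3 → ℝ), (∀ i, f i = ((g i : ℝ) : ℂ)) →
      avg (bt s) f = ((∑ i, Bq s i * g i : ℝ) : ℂ) := by
    intro s f g h
    rw [Pool.Agent.Helper21.KTE.avg_bt, Bq_sum, h 0, h 1, h 2]
    push_cast
    ring
  have hc : ∀ (s : ℝ) (x : ℂ), avg (bt s) (fun _ => x) = x := by
    intro s x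
    rw [Pool.Agent.Helper21.KTE.avg_bt]
    push_cast
    ring
  rw [avg_T_succ 3]
  have e3 : ∀ d : Fin 3, avg (wtT 3 t) (fun v => nlf (nlf (nlf (nlf lf0))) C (v, d)) =
      ((Qf (lq4 C) (t 0) (t 1) (t 2) : ℝ) : ℂ) := by
    intro d
    rw [avg_T_succ 2, Qf_nest]
    refine hav _ _ _ fun c => ?_
    rw [avg_T_succ 1]
    refine hav _ _ _ fun b => ?_
    rw [avg_T_succ 0]
    refine hav _ _ _ fun a => ?_
    have e0 : avg (wtT 0 t) (fun v => nlf (nlf (nlf (nlf lf0))) C ((((v, a), b), c), d)) =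
        nlf (nlf (nlf (nlf lf0))) C (((((() : Vt 0), a), b), c), d) := by
      unfold avg
      show ∑ v : Unit, ((wtT 0 t v : ℝ) : ℂ) * _ = _
      simp only [Finset.univ_unique, Finset.sum_singleton]
      show ((1 : ℝ) : ℂ) * _ = _
      rw [Complex.ofReal_one, one_mul]
    rw [e0, hl a b c d]
    push_cast
    rfl
  simp only [e3]
  exact hc _ _

end Pool.Agent.Helper21.XB
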